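import Pool.Agent.Lib.MP_732f67_ag.KC.GeoHH

/-!
# Project KM, part C: the local Hochster - Huneke step
-/

set_option autoImplicit false

namespace Pool.Agent.Lib.MP_732f67_ag.KC

open KM (IsInv)

variable {n N : ℕ} {L : Type*} [Field L] {Λ E I : Type} [LinearOrder Λ] [Fintype Λ] [Fintype E]
  [Fintype I] [DecidableEq I] {p : ℕ} [Fact p.Prime] [CharP L p] {z : Fin N → L}
  {σ : Λ → Fin N} {x : Λ → Fin n → L} {ε : Λ → E → Option (Fin n)}
  {D : Fin n → Derivation ℤ L L} {Tr : L →+ L} {m l : ℕ} {un uw : Λ → L} {w : L} {αj ej : E → ℤ}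
  {b : I → ℕ} {K : Subfield L} {X : KM.Atl K Λ I}

/-- **the local step** -/
theorem geo_loc (hG : Gp p z σ x ε D Tr) (hP : Pol m z σ x ε (jac D x) un αj)
    (hC : Can m D z σ x ε uw w ej X.d b) (hX : ∀ a, X.A a = AJ z σ {a}) (hH : Hart x ε X)
    (hm : p = m * l + 1) (a : Λ) (j₀ : Fin N) {u : I → ℤ} {c : L} (hc : c ∈ X.V u) (hc0 : c ≠ 0) :
    ∃ N₀ : ℕ, ∀ M ≥ N₀, ∃ (y : L) (k : ℕ), (tau Tr w l)^[M] (c * y) = 1 ∧
      y * (z j₀ * w * (z (σ a) * w)) ^ k ∈ X.V (eN p M • ((l : ℤ) • bZ b) - u + (2 * k) • bZ b) := by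
  classical
  set A : Subring L := AJ z σ {a} with hA
  set q : L := z j₀ / z (σ a) with hq
  have hqA : q ∈ A := div_mem_AJ z σ (Finset.mem_singleton_self a) j₀
  have hq0 : q ≠ 0 := div_ne_zero (hG.z_ne _) (hG.z_ne _)
  have hgA : EP x ε a * q ∈ A := A.mul_mem (hG.EP_mem a) hqA
  have hg0 : EP x ε a * q ≠ 0 := mul_ne_zero (hG.EP_ne a) hq0
  set R : Subring L := Loc A (EP x ε a * q) with hR
  have : IsNoetherianRing A := AJ_noeth z σ {a}
  have : IsNoetherianRing R := Loc_noeth A _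
  have hRb : PBA p R (x a) := PBA_Loc (hG.pba a) hgA hg0
  obtain ⟨D', Tr', hr, hT⟩ := hG.trc a
  have hE0 : ∀ T : I → ℤ, X.eq a T ≠ 0 := fun T =>
    Finset.prod_ne_zero_iff.2 fun i _ => zpow_ne_zero _ (X.ne a i)
  have hc1 : c * X.eq a u ∈ R := by
    refine le_Loc A _ ?_
    rw [hA, ← hX a]
    exact hc a
  obtain ⟨N₀, hN⟩ := hh_local (hG.pb a) hRb hr hc1 (mul_ne_zero hc0 (hE0 u))
  -- the unit
  have hle : Loc A (EP x ε a) ≤ R := by
    refine Subring.closure_le.2 ?_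
    rintro y (hy | hy)
    · exact le_Loc A _ hy
    · rw [Set.mem_singleton_iff.1 hy]
      have h2 : (EP x ε a)⁻¹ = (EP x ε a * q)⁻¹ * q := by
        have := hG.EP_ne a
        field_simp
      rw [h2]
      exact R.mul_mem (inv_mem_Loc _ _) (le_Loc A _ hqA)
  set v : L := uE l uw x ε ej a with hv
  have hvR : v ∈ R := by
    rw [hv]
    exact R.mul_mem (R.pow_mem (le_Loc A _ (hC.uw_unit a).2.1) l) (hle (hG.mono_mem a _))
  have hv0 : v ≠ 0 := by
    rw [hv]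
    exact mul_ne_zero (pow_ne_zero _ (hC.uw_unit a).1)
      (Finset.prod_ne_zero_iff.2 fun j _ => zpow_ne_zero _ (hG.ep_ne a j))
  refine ⟨N₀, fun M hM => ?_⟩
  obtain ⟨y1, hy1, h1⟩ := hN M hM
  set B : I → ℤ := eN p M • ((l : ℤ) • bZ b) with hB
  set y : L := y1 * v ^ eN p M * (X.eq a B)⁻¹ * X.eq a u with hy
  have h2 : (tau Tr w l)^[M] (c * y) = 1 := by
    have h3 := tau_iter hG hC hm a hT hr.Tr_mul M 0 (c * X.eq a u * y1 * v ^ eN p M)
    rw [smul_zero, zero_add, ← hB, KM.Atl.eq_zero, inv_one, one_mul,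
      mul_inv_cancel_right₀ (pow_ne_zero _ hv0), h1] at h3
    rw [← h3, hy]
    congr 1
    ring
  have h3 : y * X.eq a (B - u) ∈ R := by
    have h4 : X.eq a (B - u) * X.eq a u = X.eq a B := by
      rw [← KM.Atl.eq_add, sub_add_cancel]
    have h5 : y * X.eq a (B - u) = y1 * v ^ eN p M := by
      have h6 : y * X.eq a (B - u) = y1 * v ^ eN p M * ((X.eq a B)⁻¹ * (X.eq a (B - u) * X.eq a u)) := by
        rw [hy]
        ring
      rw [h6, h4, inv_mul_cancel₀ (hE0 B), mul_one]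
    rw [h5]
    exact R.mul_mem hy1 (R.pow_mem hvR _)
  obtain ⟨k, hk⟩ := clear_mem hG hP hC hX hH a j₀ (B - u) h3
  exact ⟨y, k, h2, hk⟩

end Pool.Agent.Lib.MP_732f67_ag.KC
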