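import Pool.Agent.Lib.MP_732f67_ag.KC.GeoB

/-!
# Project KM, part C: the Jacobian determinants
-/

set_option autoImplicit false

namespace Pool.Agent.Lib.MP_732f67_ag.KC

variable {n N : ℕ} {L : Type*} [Field L] {Λ E : Type} {R2 : Type*} [CommRing R2]
  [LinearOrder Λ] [Fintype Λ] [Fintype E] {p : ℕ} [Fact p.Prime] [CharP L p] {π : R2 →+* L}
  {zz zi : Fin N → R2} {σ : Λ → Fin N} {xx : Λ → Fin n → R2} {yy uu : Λ → R2}
  {f : Λ → Polynomial (MvPolynomial (Fin n) ℤ)} {ε : Λ → E → Option (Fin n)}
  {D : Fin n → Derivation ℤ L L} {t : Fin n → L} {Tr : L →+ L} {tt : Fin n → R2}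

/-- the Jacobian determinant of two p-bases -/
theorem det_ne_of_pb {x : Fin n → L} (hx : IsPB p x) (hDt : ∀ k l, D k (t l) = if k = l then 1 else 0) :
    (Matrix.of fun l k => D k (x l)).det ≠ 0 := by
  obtain ⟨D', Tr', h', _⟩ := exists_ref hx
  have hmul : (Matrix.of fun j l => D' l (t j)) * (Matrix.of fun l k => D k (x l)) = 1 := by
    ext j k
    rw [Matrix.mul_apply, Matrix.one_apply]
    have h1 := der_eq hx h' (D k) (t j)
    rw [hDt] at h1
    simp only [Matrix.of_apply]
    rw [← h1]
    simp only [eq_comm]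
  have h2 := congrArg Matrix.det hmul
  rw [Matrix.det_mul, Matrix.det_one] at h2
  exact right_ne_zero_of_mul_eq_one h2

theorem Geo.jac_ne (h : Geo p π zz zi σ xx yy uu f ε) (ht : IsPB p t) (hr : Ref p D t Tr) (a : Λ) :
    jac D (fun a l => π (xx a l)) a ≠ 0 :=
  det_ne_of_pb (h.et a).isPB hr.Dt

/-- the product of the local equations -/
theorem prod_ep {x : Λ → Fin n → L} (hinj : ∀ a j j' l, ε a j = some l → ε a j' = some l → j = j')
    (a : Λ) : ∏ j, ep x ε a j = ∏ l, (open Classical in if ∃ j, ε a j = some l then x a l else 1) := by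
  classical
  have h1 : ∀ j, ep x ε a j = ∏ l, (if ε a j = some l then x a l else 1) := by
    intro j
    rw [ep]
    cases hj : ε a j with
    | none =>
      rw [Option.elim_none]
      exact (Finset.prod_eq_one fun l _ => if_neg (by simp)).symm
    | some l0 =>
      rw [Option.elim_some]
      simp only [Option.some.injEq, Finset.prod_ite_eq, Finset.mem_univ, if_true]
  rw [Finset.prod_congr rfl fun j _ => h1 j, Finset.prod_comm]
  refine Finset.prod_congr rfl fun l _ => ?_
  by_cases hl : ∃ j, ε a j = some l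
  · obtain ⟨j0, hj0⟩ := hl
    rw [Finset.prod_eq_single j0, if_pos hj0, if_pos ⟨j0, hj0⟩]
    · intro j _ hj
      exact if_neg fun h => hj (hinj a j j0 l h hj0)
    · intro h
      exact absurd (Finset.mem_univ _) h
  · rw [if_neg hl]
    exact Finset.prod_eq_one fun j _ => if_neg fun h => hl ⟨j, h⟩

/-- the determinant of the log forms -/
theorem Geo.det_bet (h : Geo p π zz zi σ xx yy uu f ε) (D : Fin n → Derivation ℤ L L) (a : Λ) :
    (Matrix.of (bet D (fun a l => π (xx a l)) ε a)).det * ∏ j, ep (fun a l => π (xx a l)) ε a j =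
      jac D (fun a l => π (xx a l)) a := by
  classical
  have h1 : Matrix.of (bet D (fun a l => π (xx a l)) ε a) =
      Matrix.of fun l k => (if ∃ j, ε a j = some l then (π (xx a l))⁻¹ else 1) *
        (Matrix.of (fun l k => D k (π (xx a l))) : Matrix (Fin n) (Fin n) L) l k := by
    ext l k
    rw [Matrix.of_apply, Matrix.of_apply, Matrix.of_apply, bet]
    split_ifs with hl
    · rw [mul_comm, ← div_eq_mul_inv]
    · rw [one_mul]
  rw [h1, Matrix.det_mul_column, prod_ep h.inj, mul_right_comm, ← Finset.prod_mul_distrib,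
    Finset.prod_eq_one, one_mul]
  · rfl
  · intro l _
    split_ifs with hl
    · exact inv_mul_cancel₀ (h.x_ne a l)
    · exact one_mul 1

end Pool.Agent.Lib.MP_732f67_ag.KC
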