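import Pool.Agent.Lib.MP_732f67_ag.KC.Cup

/-!
# Project KM, part C: antisymmetrisation of the cup product
-/

set_option autoImplicit false

namespace Pool.Agent.Lib.MP_732f67_ag.KC

open Function

/-- `E` with the multiplication by the `p`-th powers of the scalars -/
private def Tw (_ : ℕ) (_ E : Type*) : Type _ := E

private instance Tw.grp (p : ℕ) (L E : Type*) [AddCommGroup E] : AddCommGroup (Tw p L E) :=
  inferInstanceAs (AddCommGroup E)

private noncomputable instance Tw.mod (p : ℕ) (L E : Type*) [Field L] [Fact p.Prime] [CharP L p]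
    [AddCommGroup E] [Module L E] : Module L (Tw p L E) :=
  Module.compHom E (frobenius L p)

private def Tw.mk (p : ℕ) (L : Type*) {E : Type*} (x : E) : Tw p L E := x

private def Tw.out {p : ℕ} {L E : Type*} (x : Tw p L E) : E := x

private theorem Tw.smul_mk {p : ℕ} {L E : Type*} [Field L] [Fact p.Prime] [CharP L p]
    [AddCommGroup E] [Module L E] (c : L) (x : E) : c • Tw.mk p L x = Tw.mk p L (c ^ p • x) := rfl

private theorem Tw.out_smul {p : ℕ} {L E : Type*} [Field L] [Fact p.Prime] [CharP L p]
    [AddCommGroup E] [Module L E] (c : L) (x : Tw p L E) : (c • x).out = c ^ p • x.out := rfl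

variable {n : ℕ} {L : Type*} [Field L]

private theorem alt_det' {E : Type*} [AddCommGroup E] [Module L E] (p : ℕ) [Fact p.Prime]
    [CharP L p] (G : (Fin n → L) [⋀^Fin n]→ₗ[L] Tw p L E) (β : Fin n → Fin n → L) :
    (G β).out = (Matrix.of β).det ^ p • (G (fun k => Pi.single k 1)).out := by
  set b := Pi.basisFun L (Fin n) with hb
  let H : (Fin n → L) [⋀^Fin n]→ₗ[L] Tw p L E :=
    (LinearMap.toSpanSingleton L (Tw p L E) (G b)).compAlternatingMap b.det
  have hH : ∀ v, H v = b.det v • G b := fun v => rfl
  have hbs : (b : Fin n → Fin n → L) = fun k => Pi.single k 1 := by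
    funext k
    rw [hb, Pi.basisFun_apply]
  have key : G = H := by
    refine Module.Basis.ext_alternating b fun v hv => ?_
    obtain ⟨σ, rfl⟩ : ∃ σ : Equiv.Perm (Fin n), v = σ :=
      ⟨Equiv.ofBijective v (Finite.injective_iff_bijective.1 hv), rfl⟩
    have e1 := G.map_perm b σ
    have e2 := H.map_perm b σ
    rw [hH b, b.det_self, one_smul] at e2
    change G (b ∘ σ) = H (b ∘ σ)
    rw [e1, e2]
  have h1 : G β = b.det β • G b := by
    rw [← hH, ← key]
  rw [h1, Tw.out_smul, hbs, hb, Pi.basisFun_det]
  rfl

/-- an alternating map which is semilinear for the Frobenius in every argument -/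
theorem alt_det {E : Type*} [AddCommGroup E] [Module L E] (p : ℕ) [Fact p.Prime] [CharP L p]
    (g : (Fin n → Fin n → L) → E)
    (hadd : ∀ v i x y, g (update v i (x + y)) = g (update v i x) + g (update v i y))
    (hsmul : ∀ v i (c : L) x, g (update v i (c • x)) = c ^ p • g (update v i x))
    (halt : ∀ v i j, i ≠ j → v i = v j → g v = 0) (β : Fin n → Fin n → L) :
    g β = (Matrix.of β).det ^ p • g (fun k => Pi.single k 1) := by
  let G : (Fin n → L) [⋀^Fin n]→ₗ[L] Tw p L E :=
    { toFun := fun v => Tw.mk p L (g v)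
      map_update_add' := by
        intro inst m i x y
        obtain rfl : inst = instDecidableEqFin n := Subsingleton.elim _ _
        exact congrArg (Tw.mk p L) (hadd m i x y)
      map_update_smul' := by
        intro inst m i c x
        obtain rfl : inst = instDecidableEqFin n := Subsingleton.elim _ _
        rw [Tw.smul_mk]
        exact congrArg (Tw.mk p L) (hsmul m i c x)
      map_eq_zero_of_eq' := fun v i j hij hne => congrArg (Tw.mk p L) (halt v i j hne hij) }
  exact alt_det' p G β

variable {E Λ : Type*} [Ring E] [Algebra L E]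

/-- the antisymmetrised cup product -/
noncomputable def altW {V : Type*} (u : Λ → V → E) (h : Λ → Λ → V → E) (v : Fin n → V)
    (l : List Λ) : E :=
  ∑ σ : Equiv.Perm (Fin n), (Equiv.Perm.sign σ : ℤ) • W u h (List.ofFn (v ∘ σ)) l

section upd

variable {V : Type*}

private theorem ofFn_zero {m : ℕ} (w : Fin (m + 1) → V) (z : V) :
    List.ofFn (update w 0 z) = z :: List.ofFn (fun i => w i.succ) := by
  rw [List.ofFn_succ, update_self]
  congr 2

private theorem ofFn_succ {m : ℕ} (w : Fin (m + 1) → V) (j : Fin m) (z : V) :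
    List.ofFn (update w j.succ z) = w 0 :: List.ofFn (update (fun i => w i.succ) j z) := by
  rw [List.ofFn_succ, update_of_ne (Fin.succ_ne_zero j).symm]
  congr 2
  funext i
  by_cases hi : i = j
  · subst hi
    rw [update_self, update_self]
  · rw [update_of_ne hi, update_of_ne (fun h => hi (Fin.succ_injective m h))]

variable [AddCommGroup V]

private theorem W_add (u : Λ → V → E) (h : Λ → Λ → V → E)
    (hua : ∀ a v w, u a (v + w) = u a v + u a w)
    (hha : ∀ a b v w, h a b (v + w) = h a b v + h a b w) (m : ℕ) :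
    ∀ (w : Fin m → V) (j : Fin m) (x y : V) (l : List Λ),
      W u h (List.ofFn (update w j (x + y))) l =
        W u h (List.ofFn (update w j x)) l + W u h (List.ofFn (update w j y)) l := by
  induction m with
  | zero => exact fun _ j => j.elim0
  | succ m ih =>
    intro w j x y l
    refine Fin.cases ?_ (fun j => ?_) j
    · rw [ofFn_zero, ofFn_zero, ofFn_zero]
      match l with
      | [] => simp [W]
      | [a] => simp only [W, hua, add_mul]
      | a :: b :: l =>
        simp only [W, hua, hha, add_mul, mul_add]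
        abel
    · rw [ofFn_succ, ofFn_succ, ofFn_succ]
      match l with
      | [] => simp [W]
      | [a] => simp only [W, ih, mul_add]
      | a :: b :: l =>
        simp only [W, ih, mul_add, List.length_ofFn]
        abel

private theorem W_smul (p : ℕ) {V : Type*} [SMul L V] (u : Λ → V → E) (h : Λ → Λ → V → E)
    (hus : ∀ a (c : L) v, u a (c • v) = c ^ p • u a v)
    (hhs : ∀ a b (c : L) v, h a b (c • v) = c ^ p • h a b v) (m : ℕ) :
    ∀ (w : Fin m → V) (j : Fin m) (c : L) (x : V) (l : List Λ),
      W u h (List.ofFn (update w j (c • x))) l = c ^ p • W u h (List.ofFn (update w j x)) l := by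
  induction m with
  | zero => exact fun _ j => j.elim0
  | succ m ih =>
    intro w j c x l
    refine Fin.cases ?_ (fun j => ?_) j
    · rw [ofFn_zero, ofFn_zero]
      match l with
      | [] => simp [W]
      | [a] => simp only [W, hus, smul_mul_assoc]
      | a :: b :: l =>
        simp only [W, hus, hhs, smul_mul_assoc, mul_smul_comm, smul_add]
    · rw [ofFn_succ, ofFn_succ]
      match l with
      | [] => simp [W]
      | [a] => simp only [W, ih, mul_smul_comm]
      | a :: b :: l =>
        simp only [W, ih, mul_smul_comm, smul_add, List.length_ofFn]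

end upd

/-- change of the basis in the antisymmetrised cup product -/
theorem altW_det (p : ℕ) [Fact p.Prime] [CharP L p]
    (u : Λ → (Fin n → L) → E) (h : Λ → Λ → (Fin n → L) → E)
    (hua : ∀ a v w, u a (v + w) = u a v + u a w) (hus : ∀ a (c : L) v, u a (c • v) = c ^ p • u a v)
    (hha : ∀ a b v w, h a b (v + w) = h a b v + h a b w)
    (hhs : ∀ a b (c : L) v, h a b (c • v) = c ^ p • h a b v)
    (β : Fin n → Fin n → L) (l : List Λ) :
    altW u h β l = (Matrix.of β).det ^ p • altW u h (fun k : Fin n => (Pi.single k 1 : Fin n → L)) l := by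
  let M : MultilinearMap L (fun _ : Fin n => (Fin n → L)) (Tw p L E) :=
    { toFun := fun v => Tw.mk p L (W u h (List.ofFn v) l)
      map_update_add' := by
        intro inst m i x y
        obtain rfl : inst = instDecidableEqFin n := Subsingleton.elim _ _
        exact congrArg (Tw.mk p L) (W_add u h hua hha n m i x y l)
      map_update_smul' := by
        intro inst m i c x
        obtain rfl : inst = instDecidableEqFin n := Subsingleton.elim _ _
        rw [Tw.smul_mk]
        exact congrArg (Tw.mk p L) (W_smul p u h hus hhs n m i c x l) }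
  have hM : ∀ v, altW u h v l = (MultilinearMap.alternatization M v).out := by
    intro v
    rw [MultilinearMap.alternatization_apply]
    rfl
  rw [hM, hM]
  exact alt_det' p _ β

private theorem sq_zero {ι : Type*} (s : Finset ι) (a : ι → E)
    (h1 : ∀ i j, a i * a j = -(a j * a i)) (h0 : ∀ i, a i * a i = 0) :
    (∑ i ∈ s, a i) * (∑ i ∈ s, a i) = 0 := by
  classical
  induction s using Finset.induction_on with
  | empty => simp
  | insert j s hj ih =>
    rw [Finset.sum_insert hj, add_mul, mul_add, mul_add, ih, h0, zero_add, add_zero]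
    rw [Finset.mul_sum, Finset.sum_mul, ← Finset.sum_add_distrib]
    refine Finset.sum_eq_zero fun i _ => ?_
    rw [h1 j i, neg_add_cancel]

private theorem prod_perm (x : Fin n → E) (h1 : ∀ i j, x i * x j = -(x j * x i))
    (h0 : ∀ i, x i * x i = 0) (σ : Equiv.Perm (Fin n)) :
    (List.ofFn (x ∘ σ)).prod = (Equiv.Perm.sign σ : ℤ) • (List.ofFn x).prod := by
  let f : (Fin n → ℤ) →ₗ[ℤ] E := Fintype.linearCombination ℤ x
  have hf : ∀ m, f m = ∑ i, m i • x i := fun m => rfl
  have hf0 : ∀ m, f m * f m = 0 := by
    intro m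
    rw [hf]
    refine sq_zero _ _ (fun i j => ?_) (fun i => ?_)
    · rw [smul_mul_smul_comm, smul_mul_smul_comm, h1 i j, smul_neg, mul_comm (m i)]
    · rw [smul_mul_smul_comm, h0, smul_zero]
  let φ := ExteriorAlgebra.lift ℤ (A := E) ⟨f, hf0⟩
  have hφ : ∀ i, φ (ExteriorAlgebra.ι ℤ (Pi.single i 1)) = x i := by
    intro i
    change ExteriorAlgebra.lift ℤ (A := E) ⟨f, hf0⟩ _ = x i
    rw [ExteriorAlgebra.lift_ι_apply]
    change f (Pi.single i 1) = x i
    rw [hf, Finset.sum_eq_single i (fun j _ hj => by rw [Pi.single_eq_of_ne hj, zero_smul])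
      (fun hi => absurd (Finset.mem_univ i) hi), Pi.single_eq_same, one_smul]
  have key : ∀ τ : Fin n → Fin n, (List.ofFn (x ∘ τ)).prod =
      φ (ExteriorAlgebra.ιMulti ℤ n ((fun i => Pi.single i (1 : ℤ) : Fin n → Fin n → ℤ) ∘ τ)) := by
    intro τ
    rw [ExteriorAlgebra.ιMulti_apply, map_list_prod, List.map_ofFn]
    congr 2
    funext i
    exact (hφ (τ i)).symm
  have h2 := key id
  rw [comp_id, comp_id] at h2
  rw [key, AlternatingMap.map_perm, h2, Units.smul_def, map_zsmul]

/-- the antisymmetrised cup product on a vertex -/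
theorem altW_vertex {V : Type*} (u : Λ → V → E) (h : Λ → Λ → V → E) (v : Fin n → V) (a : Λ)
    (hu : ∀ i j, u a (v i) * u a (v j) = -(u a (v j) * u a (v i))) (hu0 : ∀ i, u a (v i) * u a (v i) = 0) :
    altW u h v [a] = (n.factorial : ℤ) • (List.ofFn fun i => u a (v i)).prod := by
  have h1 : ∀ σ : Equiv.Perm (Fin n), (Equiv.Perm.sign σ : ℤ) • W u h (List.ofFn (v ∘ σ)) [a] =
      (List.ofFn fun i => u a (v i)).prod := by
    intro σ
    rw [W_vertex, List.map_ofFn]
    have h2 := prod_perm (fun i => u a (v i)) hu hu0 σ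
    have h3 : (u a ∘ (v ∘ σ)) = (fun i => u a (v i)) ∘ σ := rfl
    rw [h3, h2, smul_smul, Int.units_coe_mul_self, one_smul]
  rw [altW, Finset.sum_congr rfl (fun σ _ => h1 σ), Finset.sum_const, Finset.card_univ,
    Fintype.card_perm, Fintype.card_fin, natCast_zsmul]

end Pool.Agent.Lib.MP_732f67_ag.KC
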