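import Mathlib

/-!
# Project KM, part C: the cup product of the one-cocycles

`E` a ring with a differential `d`; `u a v` (`a` a chart, `v` a vector) are closed and odd, `h a b v`
even, `d (h a b v) = u b v - u a v`, `h a b v + h b c v = h a c v`. `W vs l` is the component on the
simplex `l` of the cup product of the cocycles `(u · v, h · · v)`, `v` in `vs`; it is a cocycle of
the Cech - de Rham complex: `d (W vs l) = (-1) ^ length vs * bd (W vs) l`.
-/

set_option autoImplicit false

namespace Pool.Agent.Lib.MP_732f67_ag.KC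

variable {E V Λ : Type*} [Ring E]

/-- the alternating sum over the faces of a list -/
def bd (F : List Λ → E) : List Λ → E
  | [] => 0
  | a :: l => F l - bd (fun l' => F (a :: l')) l

/-- the component on the simplex `l` of the product of the cocycles -/
def W (u : Λ → V → E) (h : Λ → Λ → V → E) : List V → List Λ → E
  | [], [_] => 1
  | [], _ => 0
  | _ :: _, [] => 0
  | v :: vs, [a] => u a v * W u h vs [a]
  | v :: vs, a :: b :: l =>
    u a v * W u h vs (a :: b :: l) + (-1) ^ (vs.length + 1) * (h a b v * W u h vs (b :: l))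

theorem W_nil (u : Λ → V → E) (h : Λ → Λ → V → E) (vs : List V) : W u h vs [] = 0 := by
  cases vs <;> simp [W]

/-- the component on a vertex is the product of the `u a v` -/
theorem W_vertex (u : Λ → V → E) (h : Λ → Λ → V → E) (vs : List V) (a : Λ) :
    W u h vs [a] = (vs.map (u a)).prod := by
  induction vs with
  | nil => simp [W]
  | cons v vs ih => simp [W, ih]

/-- there is nothing on the simplices of dimension greater than the number of factors -/
theorem W_long (u : Λ → V → E) (h : Λ → Λ → V → E) (vs : List V) (l : List Λ)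
    (hl : vs.length + 1 < l.length) : W u h vs l = 0 := by
  induction vs generalizing l with
  | nil =>
    rcases l with _ | ⟨a, _ | ⟨b, l⟩⟩
    · rfl
    · simp at hl
    · rfl
  | cons v vs ih =>
    rw [List.length_cons] at hl
    rcases l with _ | ⟨a, _ | ⟨b, l⟩⟩
    · rfl
    · simp at hl
    · rw [W, ih (a :: b :: l) (by omega), ih (b :: l) (by
        rw [List.length_cons] at hl
        omega), mul_zero, mul_zero, mul_zero, add_zero]

/-- all components lie in a given subring -/
theorem W_mem (u : Λ → V → E) (h : Λ → Λ → V → E) (R : Subring E) (vs : List V) (l : List Λ)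
    (hu : ∀ a ∈ l, ∀ v ∈ vs, u a v ∈ R) (hh : ∀ a ∈ l, ∀ b ∈ l, ∀ v ∈ vs, h a b v ∈ R) :
    W u h vs l ∈ R := by
  induction vs generalizing l with
  | nil =>
    rcases l with _ | ⟨a, _ | ⟨b, l⟩⟩
    · exact R.zero_mem
    · exact R.one_mem
    · exact R.zero_mem
  | cons v vs ih =>
    have hu' : ∀ a ∈ l, ∀ w ∈ vs, u a w ∈ R := fun a ha w hw =>
      hu a ha w (List.mem_cons_of_mem v hw)
    have hh' : ∀ a ∈ l, ∀ b ∈ l, ∀ w ∈ vs, h a b w ∈ R := fun a ha b hb w hw =>
      hh a ha b hb w (List.mem_cons_of_mem v hw)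
    rcases l with _ | ⟨a, _ | ⟨b, l⟩⟩
    · exact R.zero_mem
    · exact R.mul_mem (hu a List.mem_cons_self v List.mem_cons_self) (ih [a] hu' hh')
    · have hb : b ∈ a :: b :: l := List.mem_cons_of_mem a List.mem_cons_self
      refine R.add_mem (R.mul_mem (hu a List.mem_cons_self v List.mem_cons_self)
        (ih (a :: b :: l) hu' hh')) (R.mul_mem (R.pow_mem (R.neg_mem R.one_mem) _)
          (R.mul_mem (hh a List.mem_cons_self b hb v List.mem_cons_self) (ih (b :: l) ?_ ?_)))
      · exact fun c hc w hw => hu' c (List.mem_cons_of_mem a hc) w hw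
      · exact fun c hc e he w hw =>
          hh' c (List.mem_cons_of_mem a hc) e (List.mem_cons_of_mem a he) w hw

theorem cup_bd_lin (x y : E) (F G : List Λ → E) (l : List Λ) :
    bd (fun m => x * F m + y * G m) l = x * bd F l + y * bd G l := by
  induction l generalizing F G with
  | nil => rw [bd, bd, bd, mul_zero, mul_zero, add_zero]
  | cons a l ih =>
    rw [bd, bd, bd, ih (fun m => F (a :: m)) (fun m => G (a :: m)), mul_sub, mul_sub]
    abel

theorem cup_bd_zero (F : List Λ → E) (hF : ∀ l, F l = 0) (l : List Λ) : bd F l = 0 := by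
  induction l generalizing F with
  | nil => rfl
  | cons a l ih => rw [bd, hF, ih _ (fun m => hF (a :: m)), sub_zero]

/-- the coboundary of the unit cochain is zero -/
theorem cup_bd_one (u : Λ → V → E) (h : Λ → Λ → V → E) (l : List Λ) :
    bd (W u h []) l = 0 := by
  rcases l with _ | ⟨a, _ | ⟨b, l⟩⟩
  · rfl
  · simp only [bd, W, sub_zero]
  · have h1 : bd (fun m => W u h [] (a :: b :: m)) l = 0 := cup_bd_zero _ (fun m => rfl) l
    rw [bd, bd, h1, sub_zero]
    rcases l with _ | ⟨c, l⟩
    · simp only [W, sub_self]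
    · simp only [W, sub_self]

/-- the coboundary of the product, on a simplex with at least two vertices -/
theorem cup_bd_cons (u : Λ → V → E) (h : Λ → Λ → V → E)
    (hcoc : ∀ a b c v, h a b v + h b c v = h a c v) (v : V) (vs : List V) (a b : Λ)
    (l : List Λ) : bd (W u h (v :: vs)) (a :: b :: l) =
      (u b v - u a v) * W u h vs (b :: l) + u a v * bd (W u h vs) (a :: b :: l) -
        (-1) ^ (vs.length + 1) * (h a b v * bd (W u h vs) (b :: l)) := by
  have h1 : bd (fun m => W u h (v :: vs) (a :: b :: m)) l =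
      u a v * bd (fun m => W u h vs (a :: b :: m)) l +
        ((-1) ^ (vs.length + 1) * h a b v) * bd (fun m => W u h vs (b :: m)) l := by
    rw [← cup_bd_lin]
    congr 1
    funext m
    rw [W, mul_assoc]
  rw [bd, bd, h1]
  have h2 : bd (W u h vs) (a :: b :: l) = W u h vs (b :: l) - (W u h vs (a :: l) -
      bd (fun m => W u h vs (a :: b :: m)) l) := by
    rw [bd, bd]
  have h3 : bd (W u h vs) (b :: l) = W u h vs l - bd (fun m => W u h vs (b :: m)) l := by
    rw [bd]
  rw [h2, h3]
  obtain ⟨X, hX⟩ : ∃ X, X = bd (fun m => W u h vs (a :: b :: m)) l := ⟨_, rfl⟩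
  obtain ⟨Y, hY⟩ : ∃ Y, Y = bd (fun m => W u h vs (b :: m)) l := ⟨_, rfl⟩
  rw [← hX, ← hY]
  rcases l with _ | ⟨c, l⟩
  · rw [W, W, W_nil]
    noncomm_ring
  · rw [W, W, ← hcoc a b c v]
    noncomm_ring

/-- **the cup product of cocycles is a cocycle** -/
theorem d_W (d : E →+ E) (hd1 : d 1 = 0) (u : Λ → V → E) (h : Λ → Λ → V → E)
    (hdu : ∀ a v x, d (u a v * x) = -(u a v * d x))
    (hdh : ∀ a b v x, d (h a b v * x) = (u b v - u a v) * x + h a b v * d x)
    (hcoc : ∀ a b c v, h a b v + h b c v = h a c v) (vs : List V) (l : List Λ) :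
    d (W u h vs l) = (-1) ^ vs.length * bd (W u h vs) l := by
  induction vs generalizing l with
  | nil =>
    rw [cup_bd_one, mul_zero]
    rcases l with _ | ⟨a, _ | ⟨b, l⟩⟩
    · exact map_zero d
    · exact hd1
    · exact map_zero d
  | cons v vs ih =>
    rcases l with _ | ⟨a, _ | ⟨b, l⟩⟩
    · rw [W_nil, map_zero, bd, mul_zero]
    · rw [W, hdu, ih, bd, bd, W_nil, bd, W_nil, bd, sub_zero, mul_zero, mul_zero, neg_zero,
        mul_zero]
    · have hs : ∀ (k : ℕ) (x : E), d ((-1) ^ k * x) = (-1) ^ k * d x := by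
        intro k x
        rcases neg_one_pow_eq_or E k with h1 | h1
        · rw [h1, one_mul, one_mul]
        · rw [h1, neg_one_mul, neg_one_mul, map_neg]
      rw [cup_bd_cons u h hcoc, W, map_add, hdu, hs, hdh, ih, ih, List.length_cons]
      rcases neg_one_pow_eq_or E vs.length with h1 | h1
      · rw [pow_succ, h1]
        noncomm_ring
      · rw [pow_succ, h1]
        noncomm_ring

end Pool.Agent.Lib.MP_732f67_ag.KC
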