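import Pool.Agent.Lib.MP_0b721b_ag.Fin
import Pool.Agent.Lib.MP_732f67_ag.KC.Cup

/-!
# Project KM, part C: Cech cochains with values in a fixed group, removal of hypercocycles
-/

set_option autoImplicit false

namespace Pool.Agent.Lib.MP_732f67_ag.KC

open Pool.Agent.Lib.MP_0b721b_ag (sgn sgn_mul sgn_erase_lt)

variable {E Λ : Type*} [LinearOrder Λ]

/-- the Cech differential of a cochain with values in a fixed group (all restrictions are
inclusions) -/
def cd [AddCommGroup E] (z : Finset Λ → E) (J : Finset Λ) : E :=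
  ∑ a ∈ J, sgn a J • z (J.erase a)

theorem cd_add [AddCommGroup E] (z z' : Finset Λ → E) (J : Finset Λ) :
    cd (fun J => z J + z' J) J = cd z J + cd z' J := by
  simp [cd, Finset.sum_add_distrib]

theorem cd_map {E' : Type*} [AddCommGroup E] [AddCommGroup E'] (f : E →+ E') (z : Finset Λ → E)
    (J : Finset Λ) : cd (fun J => f (z J)) J = f (cd z J) := by
  simp [cd, map_sum]

theorem cd_congr [AddCommGroup E] {z z' : Finset Λ → E} {J : Finset Λ}
    (h : ∀ K, K.card + 1 = J.card → z K = z' K) : cd z J = cd z' J := by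
  unfold cd
  refine Finset.sum_congr rfl fun a ha => ?_
  rw [h _ (Finset.card_erase_add_one ha)]

theorem cd_cd [AddCommGroup E] (z : Finset Λ → E) (J : Finset Λ) : cd (cd z) J = 0 := by
  have h1 : cd (cd z) J = ∑ a ∈ J, ∑ b ∈ J.erase a,
      (sgn a J * sgn b (J.erase a)) • z ((J.erase a).erase b) := by
    unfold cd
    refine Finset.sum_congr rfl fun a _ => ?_
    rw [Finset.smul_sum]
    refine Finset.sum_congr rfl fun b _ => ?_
    rw [smul_smul]
  rw [h1, Finset.sum_sigma']
  refine Finset.sum_involution (fun x _ => ⟨x.2, x.1⟩) ?_ ?_ ?_ ?_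
  · rintro ⟨a, b⟩ hx
    simp only [Finset.mem_sigma, Finset.mem_erase] at hx
    dsimp only
    rw [sgn_mul hx.1 hx.2.2 (Ne.symm hx.2.1), Finset.erase_right_comm, neg_smul, neg_add_cancel]
  · rintro ⟨a, b⟩ hx _ h
    simp only [Finset.mem_sigma, Finset.mem_erase] at hx
    simp only [Sigma.mk.injEq] at h
    exact hx.2.1 h.1
  · rintro ⟨a, b⟩ hx
    simp only [Finset.mem_sigma, Finset.mem_erase] at hx ⊢
    exact ⟨hx.2.2, Ne.symm hx.2.1, hx.1⟩
  · rintro ⟨a, b⟩ hx
    rfl

/-- the Cech differential is the alternating sum over the faces of the sorted list -/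
theorem cd_sort [Ring E] (F : List Λ → E) (J : Finset Λ) :
    cd (fun J => F (J.sort (· ≤ ·))) J = bd F (J.sort (· ≤ ·)) := by
  induction J using Finset.induction_on_min generalizing F with
  | empty => simp [cd, bd]
  | insert a s ha ih =>
    have hns : a ∉ s := fun h => lt_irrefl a (ha a h)
    have hs : (insert a s).sort (· ≤ ·) = a :: s.sort (· ≤ ·) :=
      Finset.sort_insert (· ≤ ·) (fun b hb => (ha b hb).le) hns
    have hsg : sgn a (insert a s) = 1 := by
      unfold Pool.Agent.Lib.MP_0b721b_ag.sgn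
      rw [Finset.filter_eq_empty_iff.2, Finset.card_empty, pow_zero]
      intro x hx
      rcases Finset.mem_insert.1 hx with h | h
      · rw [h]; exact lt_irrefl a
      · exact not_lt.2 (ha x h).le
    have hsg' : ∀ b ∈ s, sgn b (insert a s) = - sgn b s := by
      intro b hb
      rw [sgn_erase_lt (Finset.mem_insert_self a s) (ha b hb), Finset.erase_insert hns]
    rw [hs, bd, ← ih (fun l' => F (a :: l'))]
    unfold cd
    rw [Finset.sum_insert hns, hsg, one_smul, Finset.erase_insert hns, sub_eq_add_neg,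
      ← Finset.sum_neg_distrib]
    congr 1
    refine Finset.sum_congr rfl fun b hb => ?_
    have hab : a ≠ b := fun h => hns (h ▸ hb)
    rw [hsg' b hb, neg_smul, Finset.erase_insert_of_ne hab]
    dsimp only
    rw [Finset.sort_insert (· ≤ ·) (fun c hc => (ha c (Finset.mem_of_mem_erase hc)).le)
      (fun h => hns (Finset.mem_of_mem_erase h))]

/-- **removal of the higher components of a hypercocycle** -/
theorem removal [AddCommGroup E] [Nonempty Λ] (d : E →+ E) (hd : ∀ x, d (d x) = 0)
    (K : Finset Λ → AddSubgroup E) (n : ℕ) (c : ℤ) (hc : c * c = 1) (ψ : Finset Λ → E)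
    (hK : ∀ J x, x ∈ K J → d x ∈ K J)
    (hψ : ∀ J, J.Nonempty → ψ J ∈ K J) (hcoc : ∀ J, J.Nonempty → d (ψ J) = c • cd ψ J)
    (hlong : ∀ J : Finset Λ, n + 1 < J.card → ψ J = 0)
    (hvan : ∀ b, 1 ≤ b → ∀ z : Finset Λ → E, (∀ J, J.card = b + 1 → z J ∈ K J) →
      (∀ J, J.card = b + 2 → cd z J = 0) →
      ∃ w : Finset Λ → E, (∀ J, J.card = b → w J ∈ K J) ∧ ∀ J, J.card = b + 1 → cd w J = z J) :
    ∃ (s : E) (ξ : Λ → E), ∀ a, s ∈ K {a} ∧ ξ a ∈ K {a} ∧ s = ψ {a} - d (ξ a) := by
  have key : ∀ k b, b + k = n + 1 → 1 ≤ b → ∃ θ : Finset Λ → E,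
      (∀ J, J.card = b → θ J ∈ K J) ∧
        ∀ J, J.card = b + 1 → cd (fun J => ψ J - d (θ J)) J = 0 := by
    intro k
    induction k with
    | zero =>
      intro b hb _
      refine ⟨fun _ => 0, fun J _ => (K J).zero_mem, fun J hJ => ?_⟩
      have hne : J.Nonempty := by
        rw [← Finset.card_pos]
        omega
      have h1 : cd (fun J => ψ J - d 0) J = cd ψ J := cd_congr fun L _ => by
        rw [map_zero, sub_zero]
      have h2 : cd ψ J = (c * c) • cd ψ J := by rw [hc, one_smul]
      rw [h1, h2, mul_smul, ← hcoc J hne, hlong J (by omega), map_zero, smul_zero]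
    | succ k ih =>
      intro b hb hb1
      obtain ⟨θ, hθ, hθ'⟩ := ih (b + 1) (by omega) (by omega)
      obtain ⟨w, hw, hw'⟩ := hvan b hb1 (fun J => ψ J - d (θ J))
        (fun J hJ => (K J).sub_mem (hψ J (by rw [← Finset.card_pos]; omega))
          (hK J _ (hθ J hJ))) (fun J hJ => hθ' J (by omega))
      refine ⟨fun J => c • w J, fun J hJ => (K J).zsmul_mem (hw J hJ) c, fun J hJ => ?_⟩
      have hne : J.Nonempty := by
        rw [← Finset.card_pos]
        omega
      have h1 : cd (fun J => ψ J - d (c • w J)) J = cd ψ J - c • d (cd w J) := by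
        rw [← cd_map]
        unfold cd
        rw [Finset.smul_sum, ← Finset.sum_sub_distrib]
        refine Finset.sum_congr rfl fun a _ => ?_
        change sgn a J • (ψ (J.erase a) - d (c • w (J.erase a))) =
          sgn a J • ψ (J.erase a) - c • sgn a J • d (w (J.erase a))
        rw [map_zsmul, smul_sub, smul_comm c]
      rw [h1, hw' J hJ, map_sub, hd, sub_zero, hcoc J hne, smul_smul, hc, one_smul, sub_self]
  obtain ⟨θ, hθ, hθ'⟩ := key n 1 (by omega) le_rfl
  have hmem : ∀ a, ψ {a} - d (θ {a}) ∈ K {a} := fun a =>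
    (K {a}).sub_mem (hψ _ (Finset.singleton_nonempty a))
      (hK _ _ (hθ _ (Finset.card_singleton a)))
  have hlt : ∀ a b : Λ, a < b → ψ {a} - d (θ {a}) = ψ {b} - d (θ {b}) := by
    intro a b hab
    have h := hθ' {a, b} (by rw [Finset.card_pair hab.ne])
    unfold cd at h
    rw [Finset.sum_pair hab.ne] at h
    have ha : ({a, b} : Finset Λ).erase a = {b} := by
      rw [Finset.erase_insert]
      simpa using hab.ne
    have hb : ({a, b} : Finset Λ).erase b = {a} := by
      ext x
      simp only [Finset.mem_erase, Finset.mem_insert, Finset.mem_singleton]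
      constructor
      · rintro ⟨h1, h2⟩
        tauto
      · rintro rfl
        exact ⟨hab.ne, Or.inl rfl⟩
    have hsb : sgn b ({a, b} : Finset Λ) = - sgn b ({b} : Finset Λ) := by
      rw [sgn_erase_lt (Finset.mem_insert_self a {b}) hab, ha]
    have hs1 : ∀ x : Λ, sgn x ({x} : Finset Λ) = 1 := by
      intro x
      unfold Pool.Agent.Lib.MP_0b721b_ag.sgn
      rw [Finset.filter_eq_empty_iff.2, Finset.card_empty, pow_zero]
      intro y hy
      rw [Finset.mem_singleton.1 hy]
      exact lt_irrefl x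
    have hsa : sgn a ({a, b} : Finset Λ) = 1 := by
      rw [Pool.Agent.Lib.MP_0b721b_ag.sgn_erase_gt hab, hb, hs1]
    rw [hsa, hsb, hs1, ha, hb, one_smul, neg_smul, one_smul] at h
    rw [← sub_eq_add_neg, sub_eq_zero] at h
    exact h.symm
  have heq : ∀ a b : Λ, ψ {a} - d (θ {a}) = ψ {b} - d (θ {b}) := by
    intro a b
    rcases lt_trichotomy a b with h | h | h
    · exact hlt a b h
    · rw [h]
    · exact (hlt b a h).symm
  obtain ⟨a0⟩ := ‹Nonempty Λ›
  refine ⟨ψ {a0} - d (θ {a0}), fun a => θ {a}, fun a => ⟨?_, hθ _ (Finset.card_singleton a), heq a0 a⟩⟩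
  rw [heq a0 a]
  exact hmem a

end Pool.Agent.Lib.MP_732f67_ag.KC
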