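import Pool.Agent.Lib.MP_732f67_ag.KC.ExtTop
import Pool.Agent.Lib.MP_732f67_ag.KC.Cech
import Pool.Agent.Lib.MP_732f67_ag.KC.Alt

/-!
# Project KM, part C: the section with trace one (Deligne - Illusie in top degree)

`L` is a field of characteristic `p > n` with coordinates `t k` and derivations `D k = ∂/∂t_k`, `Tr` is
the Cartier operator on the top forms (`C (f dt_1 .. dt_n) = Tr f dt_1 .. dt_n`). The charts are
indexed by `Λ`; `A J` is the ring of the intersection of the charts in `J`, `β a` are the (log) one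
forms of the chart `a` (vectors in the basis `dt_k`), `γ a k = δ_a (t_k)` where `F_a (t_k) = t_k ^ p + p γ a k`
is the Frobenius lift of the chart `a`; `fv p D t (γ a)` is the map `F_a^* / p` on one forms and
`hv p (γ a) (γ b)` the map `(F_b - F_a) / p`. The lattice on `J` is `κ a • Log (A J) (β a)`.
-/

set_option autoImplicit false

open TensorProduct

namespace Pool.Agent.Lib.MP_732f67_ag.KC

variable {n : ℕ} {L : Type*} [Field L]

/-- the map `F^* / p` on one forms, `F (t_k) = t_k ^ p + p γ k`, as a vector -/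
noncomputable def fv (p : ℕ) (D : Fin n → Derivation ℤ L L) (t : Fin n → L) (γ : Fin n → L)
    (w : Fin n → L) : Fin n → L :=
  fun j => ∑ k, w k ^ p * ((if j = k then t k ^ (p - 1) else 0) + D j (γ k))

/-- the map `(F' - F) / p` on one forms -/
noncomputable def hv (p : ℕ) (γ γ' : Fin n → L) (w : Fin n → L) : L :=
  ∑ k, w k ^ p * (γ' k - γ k)

/-- the data on the field -/
structure Ref (p : ℕ) (D : Fin n → Derivation ℤ L L) (t : Fin n → L) (Tr : L →+ L) : Prop where
  comm : ∀ i j a, D i (D j a) = D j (D i a)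
  Dt : ∀ k l, D k (t l) = if k = l then 1 else 0
  Tr_mul : ∀ a b, Tr (a ^ p * b) = a * Tr b
  Tr_D : ∀ k a, Tr (D k a) = 0
  Tr_t : Tr (∏ k, t k ^ (p - 1)) = 1

/-- the data on the charts -/
structure Chs (p : ℕ) (D : Fin n → Derivation ℤ L L) (t : Fin n → L) {Λ : Type*} [LinearOrder Λ]
    (A : Finset Λ → Subring L) (β : Λ → Fin n → Fin n → L) (γ : Λ → Fin n → L) (κ : Λ → L) :
    Prop where
  A_mono : ∀ J J' : Finset Λ, J.Nonempty → J ⊆ J' → A J ≤ A J'
  det_ne : ∀ a, (Matrix.of (β a)).det ≠ 0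
  closed : ∀ a l, dd D (om (β a l)) = 0
  dA : ∀ (J : Finset Λ) (a : Λ), a ∈ J → ∀ x ∈ A J, dd D (fn x) ∈ Log (A J) (β a)
  chβ : ∀ (J : Finset Λ) (a b : Λ), a ∈ J → b ∈ J → ∀ l, om (β a l) ∈ Log (A J) (β b)
  fβ : ∀ a l, om (fv p D t (γ a) (β a l)) ∈ Log (A {a}) (β a)
  hβ : ∀ (J : Finset Λ) (a b : Λ), a ∈ J → b ∈ J → ∀ l, hv p (γ a) (γ b) (β a l) ∈ A J
  chκ : ∀ (J : Finset Λ) (a b : Λ), a ∈ J → b ∈ J → ∃ c ∈ A J, κ a = κ b * c
  dκ : ∀ a, ∃ y ∈ Log (A {a}) (β a), dd D (fn (κ a)) = κ a • y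
  κdet : ∀ a, ∃ c ∈ A {a}, ((Matrix.of (β a)).det⁻¹) ^ p = κ a * c

/-- the lattice of the forms on the intersection of the charts in `J` -/
noncomputable def Kl {Λ : Type*} (A : Finset Λ → Subring L) (β : Λ → Fin n → Fin n → L) (κ : Λ → L)
    (J : Finset Λ) : AddSubgroup (Fm n L) where
  carrier := {x | ∀ a ∈ J, ∃ y ∈ Log (A J) (β a), x = κ a • y}
  zero_mem' := fun a _ => ⟨0, Subring.zero_mem _, by rw [smul_zero]⟩
  add_mem' := by
    intro x y hx hy a ha
    obtain ⟨x', hx', e⟩ := hx a ha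
    obtain ⟨y', hy', e'⟩ := hy a ha
    exact ⟨x' + y', Subring.add_mem _ hx' hy', by rw [e, e', smul_add]⟩
  neg_mem' := by
    intro x hx a ha
    obtain ⟨x', hx', e⟩ := hx a ha
    exact ⟨-x', Subring.neg_mem _ hx', by rw [e, smul_neg]⟩

/-- vanishing of the Cech cohomology of the lattices `K J` in the degrees `b ≥ 1` -/
def KVan {E Λ : Type*} [AddCommGroup E] [LinearOrder Λ] (K : Finset Λ → AddSubgroup E) : Prop :=
  ∀ b, 1 ≤ b → ∀ z : Finset Λ → E, (∀ J, J.card = b + 1 → z J ∈ K J) →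
    (∀ J, J.card = b + 2 → cd z J = 0) →
    ∃ w : Finset Λ → E, (∀ J, J.card = b → w J ∈ K J) ∧ ∀ J, J.card = b + 1 → cd w J = z J

variable {p : ℕ} [Fact p.Prime] [CharP L p] {D : Fin n → Derivation ℤ L L} {t : Fin n → L}
  {Tr : L →+ L} {Λ : Type*} [LinearOrder Λ] {A : Finset Λ → Subring L}
  {β : Λ → Fin n → Fin n → L} {γ : Λ → Fin n → L} {κ : Λ → L}

theorem omL_apply (w : Fin n → L) : omL w = (om w : Fm n L) := rfl

theorem deriv_pow (D : Derivation ℤ L L) (a : L) : D (a ^ p) = 0 := by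
  rw [Derivation.leibniz_pow, nsmul_eq_mul, CharP.cast_eq_zero, zero_mul]

theorem dd_fn_pow (a : L) : dd D (fn (a ^ p) : Fm n L) = 0 := by
  rw [dd_fn]
  have h1 : (fun k => D k (a ^ p)) = (0 : Fin n → L) := by
    funext k
    exact deriv_pow (D k) a
  rw [h1, ← omL_apply, map_zero]

theorem dd_fn_mul (a : L) (x : Fm n L) : dd D (fn a * x) = dd D (fn a) * x + fn a * dd D x := by
  rw [dd_mul, inv_fn]

theorem dd_smul (a : L) (x : Fm n L) : dd D (a • x) = dd D (fn a) * x + a • dd D x := by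
  rw [← fn_smul, dd_fn_mul, fn_smul]

theorem dd_smul_pow (a : L) (x : Fm n L) : dd D (a ^ p • x) = a ^ p • dd D x := by
  rw [dd_smul, dd_fn_pow, zero_mul, zero_add]

theorem dd_om_mul {w : Fin n → L} (hw : dd D (om w) = 0) (x : Fm n L) :
    dd D (om w * x) = -(om w * dd D x) := by
  rw [dd_mul, hw, inv_om, zero_mul, zero_add]
  exact neg_mul (om w) (dd D x)

omit [Fact p.Prime] [CharP L p] in
theorem om_fv (D : Fin n → Derivation ℤ L L) (t γ w : Fin n → L) :
    (om (fv p D t γ w) : Fm n L) =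
      ∑ k, w k ^ p • (om (Pi.single k (t k ^ (p - 1))) + dd D (fn (γ k))) := by
  have h1 : fv p D t γ w =
      ∑ k, w k ^ p • (Pi.single k (t k ^ (p - 1)) + fun j => D j (γ k)) := by
    funext j
    rw [Finset.sum_apply]
    refine Finset.sum_congr rfl (fun k _ => ?_)
    simp only [Pi.smul_apply, Pi.add_apply, smul_eq_mul, Pi.single_apply]
  rw [h1, ← omL_apply, map_sum]
  refine Finset.sum_congr rfl (fun k _ => ?_)
  rw [map_smul, map_add, omL_apply, omL_apply, dd_fn]

theorem om_single_smul (k : Fin n) (a : L) : (om (Pi.single k a) : Fm n L) = a ⊗ₜ[ℤ] ee k := by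
  rw [om, Finset.sum_eq_single k]
  · rw [Pi.single_eq_same]
  · intro j _ hj
    rw [Pi.single_eq_of_ne hj, TensorProduct.zero_tmul]
  · intro h
    exact absurd (Finset.mem_univ _) h

theorem dd_om_t (h : Ref p D t Tr) (k : Fin n) :
    dd D (om (Pi.single k (t k ^ (p - 1))) : Fm n L) = 0 := by
  rw [om_single_smul, dd_tmul]
  refine Finset.sum_eq_zero (fun i _ => ?_)
  by_cases hik : i = k
  · subst hik
    have : (ee i : EZ n) * ee i = 0 := by
      rw [ee]
      exact ExteriorAlgebra.ι_sq_zero _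
    rw [this, TensorProduct.tmul_zero]
  · rw [Derivation.leibniz_pow, h.Dt, if_neg hik, smul_zero, smul_zero, TensorProduct.zero_tmul]

/-- the one form `F^* w / p` is closed -/
theorem closed_fv (h : Ref p D t Tr) (γ w : Fin n → L) : dd D (om (fv p D t γ w)) = 0 := by
  rw [om_fv, map_sum]
  refine Finset.sum_eq_zero (fun k _ => ?_)
  rw [dd_smul_pow, map_add, dd_om_t h, dd_dd D h.comm, add_zero, smul_zero]

theorem dd_hv (h : Ref p D t Tr) (γ γ' w : Fin n → L) :
    dd D (fn (hv p γ γ' w)) = om (fv p D t γ' w) - om (fv p D t γ w) := by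
  have h1 : (fn (hv p γ γ' w) : Fm n L) = ∑ k, w k ^ p • (fn (γ' k) - fn (γ k)) := by
    rw [hv]
    have h2 : ∀ k, w k ^ p • (fn (γ' k) - fn (γ k) : Fm n L) = fn (w k ^ p * (γ' k - γ k)) := by
      intro k
      rw [fn_mul, fn_smul]
      congr 1
      rw [eq_comm, eq_sub_iff_add_eq, ← fn_add, sub_add_cancel]
    rw [Finset.sum_congr rfl (fun k _ => h2 k)]
    have h3 : ∀ s : Finset (Fin n), (fn (∑ k ∈ s, w k ^ p * (γ' k - γ k)) : Fm n L) =
        ∑ k ∈ s, fn (w k ^ p * (γ' k - γ k)) := by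
      intro s
      rw [fn, TensorProduct.sum_tmul]
      rfl
    exact h3 Finset.univ
  rw [h1, om_fv, om_fv, map_sum, ← Finset.sum_sub_distrib]
  refine Finset.sum_congr rfl (fun k _ => ?_)
  rw [dd_smul_pow, map_sub, ← smul_sub, add_sub_add_left_eq_sub]

/-- products of closed one forms, changed by exact one forms -/
theorem prod_exact (h : Ref p D t Tr) : ∀ ls : List ((Fin n → L) × L),
    (∀ q ∈ ls, dd D (om q.1 : Fm n L) = 0) →
    dd D (ls.map fun q => (om q.1 + dd D (fn q.2) : Fm n L)).prod = 0 ∧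
    ∃ x : Fm n L, (ls.map fun q => (om q.1 + dd D (fn q.2) : Fm n L)).prod =
      (ls.map fun q => (om q.1 : Fm n L)).prod + dd D x
  | [], _ => by
      refine ⟨?_, 0, ?_⟩
      · rw [List.map_nil, List.prod_nil, dd_one]
      · rw [List.map_nil, List.map_nil, map_zero, add_zero]
  | q :: ls, hq => by
      obtain ⟨h1, x, h2⟩ := prod_exact h ls (fun q' hq' => hq q' (List.mem_cons_of_mem _ hq'))
      have h3 := hq q List.mem_cons_self
      have h4 : (om q.1 + dd D (fn q.2) : Fm n L) = om (fun k => q.1 k + D k q.2) := by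
        rw [om_add, dd_fn]
      have h5 : dd D (om q.1 + dd D (fn q.2) : Fm n L) = 0 := by
        rw [map_add, h3, dd_dd D h.comm, add_zero]
      rw [List.map_cons, List.prod_cons, List.map_cons, List.prod_cons]
      set P' := (ls.map fun q => (om q.1 + dd D (fn q.2) : Fm n L)).prod
      set P := (ls.map fun q => (om q.1 : Fm n L)).prod
      refine ⟨?_, -(om q.1 * x) + fn q.2 * P', ?_⟩
      · rw [h4] at h5 ⊢
        rw [dd_om_mul h5, h1, mul_zero, neg_zero]
      · rw [map_add, map_neg, dd_om_mul h3, neg_neg, dd_fn_mul, h1, mul_zero, add_zero, add_mul]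
        have h6 : om q.1 * P' = om q.1 * P + om q.1 * dd D x := by rw [h2, mul_add]
        rw [h6, add_assoc]

/-- the Cartier operator of `F^* (dt_1 .. dt_n) / p ^ n` is `dt_1 .. dt_n` -/
theorem tr_fv (h : Ref p D t Tr) (γ : Fin n → L) :
    Tr (top (List.ofFn fun k : Fin n => om (fv p D t γ (Pi.single k 1))).prod) = 1 := by
  have hp : p ≠ 0 := (Fact.out : p.Prime).ne_zero
  have h1 : ∀ k : Fin n, (om (fv p D t γ (Pi.single k 1)) : Fm n L) =
      om (Pi.single k (t k ^ (p - 1))) + dd D (fn (γ k)) := by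
    intro k
    rw [om_fv, Finset.sum_eq_single k]
    · rw [Pi.single_eq_same, one_pow, one_smul]
    · intro j _ hj
      rw [Pi.single_eq_of_ne hj, zero_pow hp, zero_smul]
    · intro h
      exact absurd (Finset.mem_univ _) h
  let ls : List ((Fin n → L) × L) :=
    List.ofFn (fun k : Fin n => ((Pi.single k (t k ^ (p - 1)) : Fin n → L), γ k))
  have h2 : ∀ q ∈ ls, dd D (om q.1 : Fm n L) = 0 := by
    intro q hq
    obtain ⟨k, rfl⟩ := (List.mem_ofFn' _ _).1 hq
    exact dd_om_t h k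
  obtain ⟨-, x, h3⟩ := prod_exact h ls h2
  have h4 : (List.ofFn fun k : Fin n => (om (fv p D t γ (Pi.single k 1)) : Fm n L)) =
      ls.map fun q => (om q.1 + dd D (fn q.2) : Fm n L) := by
    rw [List.map_ofFn]
    congr 1
    funext k
    exact h1 k
  have h5 : (ls.map fun q => (om q.1 : Fm n L)) =
      List.ofFn fun k : Fin n => (om (Pi.single k (t k ^ (p - 1))) : Fm n L) := by
    rw [List.map_ofFn]
    rfl
  rw [h4, h3, map_add, map_add, tr_top_dd D Tr h.Tr_D, add_zero, h5, top_prod]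
  have h6 : Matrix.of (fun i : Fin n => (Pi.single i (t i ^ (p - 1)) : Fin n → L)) =
      Matrix.diagonal (fun i => t i ^ (p - 1)) := by
    ext i j
    rw [Matrix.of_apply, Matrix.diagonal_apply, Pi.single_apply]
    by_cases hij : i = j
    · subst hij
      simp
    · rw [if_neg hij, if_neg (fun h => hij h.symm)]
  rw [h6, Matrix.det_diagonal, h.Tr_t]

theorem Log_single_le (h : Chs p D t A β γ κ) {J : Finset Λ} {a : Λ} (ha : a ∈ J) :
    Log (A {a}) (β a) ≤ Log (A J) (β a) :=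
  Log_mono (h.A_mono {a} J (Finset.singleton_nonempty a) (Finset.singleton_subset_iff.2 ha))
    (fun l => om_mem_Log _ _ l)

/-- the lattices are stable under the exterior derivative -/
theorem dd_mem_Kl (h : Chs p D t A β γ κ) {J : Finset Λ} {x : Fm n L} (hx : x ∈ Kl A β κ J) :
    dd D x ∈ Kl A β κ J := by
  intro a ha
  obtain ⟨y, hy, rfl⟩ := hx a ha
  obtain ⟨y0, hy0, h0⟩ := h.dκ a
  refine ⟨y0 * y + dd D y, ?_, ?_⟩
  · exact Subring.add_mem _ (Subring.mul_mem _ (Log_single_le h ha hy0) hy)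
      (dd_mem_Log D (h.dA J a ha) (h.closed a) hy)
  · rw [dd_smul, h0, smul_add, smul_mul_assoc]

theorem hv_sub (γ γ' γ'' w : Fin n → L) : hv p γ' γ'' w = hv p γ γ'' w - hv p γ γ' w := by
  rw [hv, hv, hv, ← Finset.sum_sub_distrib]
  refine Finset.sum_congr rfl (fun k _ => ?_)
  ring

theorem hv_add_cocycle (γ γ' γ'' w : Fin n → L) :
    hv p γ γ' w + hv p γ' γ'' w = hv p γ γ'' w := by
  rw [hv_sub γ γ' γ'']
  ring

theorem fv_add (D : Fin n → Derivation ℤ L L) (t γ v w : Fin n → L) :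
    (om (fv p D t γ (v + w)) : Fm n L) = om (fv p D t γ v) + om (fv p D t γ w) := by
  rw [om_fv, om_fv, om_fv, ← Finset.sum_add_distrib]
  refine Finset.sum_congr rfl (fun k _ => ?_)
  rw [Pi.add_apply, add_pow_char, add_smul]

theorem fv_smul (D : Fin n → Derivation ℤ L L) (t γ : Fin n → L) (c : L) (v : Fin n → L) :
    (om (fv p D t γ (c • v)) : Fm n L) = c ^ p • om (fv p D t γ v) := by
  rw [om_fv, om_fv, Finset.smul_sum]
  refine Finset.sum_congr rfl (fun k _ => ?_)
  rw [Pi.smul_apply, smul_eq_mul, mul_pow, mul_smul]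

theorem hv_add_vec (γ γ' v w : Fin n → L) : hv p γ γ' (v + w) = hv p γ γ' v + hv p γ γ' w := by
  rw [hv, hv, hv, ← Finset.sum_add_distrib]
  refine Finset.sum_congr rfl (fun k _ => ?_)
  rw [Pi.add_apply, add_pow_char, add_mul]

theorem hv_smul_vec (γ γ' : Fin n → L) (c : L) (v : Fin n → L) :
    hv p γ γ' (c • v) = c ^ p * hv p γ γ' v := by
  rw [hv, hv, Finset.mul_sum]
  refine Finset.sum_congr rfl (fun k _ => ?_)
  rw [Pi.smul_apply, smul_eq_mul, mul_pow, mul_assoc]

/-- the antisymmetrised cup product lies in the lattices -/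
theorem alt_mem_Kl (hr : Ref p D t Tr) (h : Chs p D t A β γ κ) {J : Finset Λ} (hJ : J.Nonempty) :
    altW (fun a v => om (fv p D t (γ a) v)) (fun a b v => fn (hv p (γ a) (γ b) v))
      (fun k : Fin n => (Pi.single k 1 : Fin n → L)) (J.sort (· ≤ ·)) ∈ Kl A β κ J := by
  intro a ha
  have hdet := altW_det (n := n) p (fun a v => (om (fv p D t (γ a) v) : Fm n L))
    (fun a b v => (fn (hv p (γ a) (γ b) v) : Fm n L))
    (fun a v w => fv_add D t (γ a) v w) (fun a c v => fv_smul D t (γ a) c v)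
    (fun a b v w => by rw [hv_add_vec, fn_add])
    (fun a b c v => by rw [hv_smul_vec, fn_mul, fn_smul]) (β a) (J.sort (· ≤ ·))
  have hmem : ∀ b ∈ J.sort (· ≤ ·), b ∈ J := fun b hb => (Finset.mem_sort _).1 hb
  have hR : altW (fun a v => (om (fv p D t (γ a) v) : Fm n L))
      (fun a b v => (fn (hv p (γ a) (γ b) v) : Fm n L)) (β a) (J.sort (· ≤ ·)) ∈
      Log (A J) (β a) := by
    rw [altW]
    refine Subring.sum_mem _ (fun σ _ => Subring.zsmul_mem _ ?_ _)
    refine W_mem _ _ _ _ _ ?_ ?_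
    · intro b hb v hv'
      obtain ⟨k, rfl⟩ := (List.mem_ofFn' _ _).1 hv'
      have hb' := hmem b hb
      have e1 := dd_hv hr (γ a) (γ b) (β a (σ k))
      have e2 : (om (fv p D t (γ b) (β a (σ k))) : Fm n L) =
          om (fv p D t (γ a) (β a (σ k))) + dd D (fn (hv p (γ a) (γ b) (β a (σ k)))) := by
        rw [e1]
        abel
      show (om (fv p D t (γ b) (β a (σ k))) : Fm n L) ∈ Log (A J) (β a)
      rw [e2]
      exact Subring.add_mem _ (Log_single_le h ha (h.fβ a (σ k)))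
        (h.dA J a ha _ (h.hβ J a b ha hb' (σ k)))
    · intro b hb c hc v hv'
      obtain ⟨k, rfl⟩ := (List.mem_ofFn' _ _).1 hv'
      show (fn (hv p (γ b) (γ c) (β a (σ k))) : Fm n L) ∈ Log (A J) (β a)
      rw [hv_sub (γ a) (γ b) (γ c)]
      exact fn_mem_Log (Subring.sub_mem _ (h.hβ J a c ha (hmem c hc) (σ k))
        (h.hβ J a b ha (hmem b hb) (σ k)))
  obtain ⟨c, hc, hκ⟩ := h.κdet a
  have hne : (Matrix.of (β a)).det ^ p ≠ 0 := pow_ne_zero _ (h.det_ne a)
  refine ⟨fn c * altW (fun a v => (om (fv p D t (γ a) v) : Fm n L))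
      (fun a b v => (fn (hv p (γ a) (γ b) v) : Fm n L)) (β a) (J.sort (· ≤ ·)), ?_, ?_⟩
  · refine Subring.mul_mem _ (fn_mem_Log ?_) hR
    exact h.A_mono {a} J (Finset.singleton_nonempty a) (Finset.singleton_subset_iff.2 ha) hc
  · rw [hdet, fn_smul, smul_smul, smul_smul, ← hκ, inv_pow, inv_mul_cancel₀ hne, one_smul]

theorem cd_altW {V : Type*} (u : Λ → V → Fm n L) (g : Λ → Λ → V → Fm n L) (v : Fin n → V)
    (J : Finset Λ) : cd (fun J => altW u g v (J.sort (· ≤ ·))) J =
      ∑ σ : Equiv.Perm (Fin n), (Equiv.Perm.sign σ : ℤ) •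
        cd (fun J => W u g (List.ofFn (v ∘ σ)) (J.sort (· ≤ ·))) J := by
  simp only [cd, altW, Finset.smul_sum]
  rw [Finset.sum_comm]
  refine Finset.sum_congr rfl (fun σ _ => Finset.sum_congr rfl (fun a _ => ?_))
  rw [smul_comm]

/-- **the section with trace one** -/
theorem exists_section [Nonempty Λ] (hn : n < p) (hr : Ref p D t Tr) (h : Chs p D t A β γ κ)
    (hv : KVan (Kl A β κ)) :
    ∃ f : L, Tr f = 1 ∧ ∀ a, ∃ c ∈ A {a}, f = κ a * (Matrix.of (β a)).det * c := by
  classical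
  have hp : p.Prime := Fact.out
  -- the inverse of `n!`
  obtain ⟨m, hm⟩ : ∃ m : ℤ, (m : L) * (n.factorial : L) = 1 := by
    have hcop : IsCoprime (n.factorial : ℤ) (p : ℤ) := by
      rw [Nat.isCoprime_iff_coprime]
      exact ((hp.coprime_factorial_of_lt hn)).symm
    obtain ⟨m, m', hmm⟩ := hcop
    refine ⟨m, ?_⟩
    have h1 := congrArg (fun z : ℤ => (z : L)) hmm
    simp only [Int.cast_add, Int.cast_mul, Int.cast_natCast, Int.cast_one, CharP.cast_eq_zero,
      mul_zero, add_zero] at h1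
    exact h1
  let u : Λ → (Fin n → L) → Fm n L := fun a v => om (fv p D t (γ a) v)
  let g : Λ → Λ → (Fin n → L) → Fm n L := fun a b v => fn (KC.hv p (γ a) (γ b) v)
  let e : Fin n → (Fin n → L) := fun k => Pi.single k 1
  let ψ : Finset Λ → Fm n L := fun J => m • altW u g e (J.sort (· ≤ ·))
  have hdW : ∀ (vs : List (Fin n → L)) (l : List Λ),
      dd D (W u g vs l) = (-1) ^ vs.length * bd (W u g vs) l := by
    intro vs l
    refine d_W (dd D).toAddMonoidHom (dd_one D) u g ?_ ?_ ?_ vs l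
    · intro a v x
      exact dd_om_mul (closed_fv hr (γ a) v) x
    · intro a b v x
      show dd D (fn (KC.hv p (γ a) (γ b) v) * x) = _
      rw [dd_fn_mul, dd_hv hr]
      rfl
    · intro a b c v
      show (fn (KC.hv p (γ a) (γ b) v) + fn (KC.hv p (γ b) (γ c) v) : Fm n L) =
        fn (KC.hv p (γ a) (γ c) v)
      rw [← fn_add, hv_add_cocycle]
  have hcoc : ∀ J : Finset Λ, dd D (ψ J) = ((-1 : ℤ) ^ n) • cd ψ J := by
    intro J
    have h1 : cd ψ J = m • cd (fun J => altW u g e (J.sort (· ≤ ·))) J := by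
      simp only [cd, ψ, Finset.smul_sum]
      refine Finset.sum_congr rfl (fun a _ => ?_)
      rw [smul_comm]
    rw [h1, cd_altW]
    simp only [ψ]
    rw [map_zsmul, smul_comm ((-1 : ℤ) ^ n) m]
    congr 1
    rw [altW, map_sum, Finset.smul_sum]
    refine Finset.sum_congr rfl (fun σ _ => ?_)
    rw [map_zsmul, hdW, List.length_ofFn, cd_sort, smul_comm ((-1 : ℤ) ^ n)]
    congr 1
    rw [zsmul_eq_mul]
    push_cast
    rfl
  obtain ⟨s, ξ, hs⟩ := removal (dd D).toAddMonoidHom (fun x => dd_dd D hr.comm x)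
    (Kl A β κ) n ((-1) ^ n) (by rw [← mul_pow]; simp) ψ
    (fun J x hx => dd_mem_Kl h hx)
    (fun J hJ => AddSubgroup.zsmul_mem _ (alt_mem_Kl hr h hJ) m)
    (fun J _ => hcoc J)
    (fun J hJ => by
      have h1 : altW u g e (J.sort (· ≤ ·)) = 0 := by
        rw [altW]
        refine Finset.sum_eq_zero (fun σ _ => ?_)
        rw [W_long, smul_zero]
        rw [List.length_ofFn, Finset.length_sort]
        exact hJ
      simp only [ψ]
      rw [h1, smul_zero])
    hv
  refine ⟨top s, ?_, ?_⟩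
  · obtain ⟨a⟩ := (inferInstance : Nonempty Λ)
    obtain ⟨-, -, h1⟩ := hs a
    have h2 : ψ {a} = (List.ofFn fun k : Fin n => (om (fv p D t (γ a) (Pi.single k 1)) : Fm n L)).prod := by
      simp only [ψ]
      rw [Finset.sort_singleton, altW_vertex u g e a (fun i j => om_mul_om _ _)
        (fun i => om_mul_self _), smul_smul]
      have h3 : ∀ x : Fm n L, (m * (n.factorial : ℤ)) • x = x := by
        intro x
        have h4 : (m * (n.factorial : ℤ)) • x = ((m : L) * (n.factorial : L)) • x := by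
          rw [← Int.cast_smul_eq_zsmul L]
          push_cast
          rfl
        rw [h4, hm, one_smul]
      rw [h3]
    rw [h1, h2]
    have h5 : Tr (top (dd D (ξ a))) = 0 := tr_top_dd D Tr hr.Tr_D (ξ a)
    show Tr (top (_ - dd D (ξ a))) = 1
    rw [map_sub, map_sub, h5, sub_zero, tr_fv hr]
  · intro a
    obtain ⟨h1, -, -⟩ := hs a
    obtain ⟨y, hy, h2⟩ := h1 a (Finset.mem_singleton_self a)
    obtain ⟨c, hc, h3⟩ := top_mem_Log hy
    refine ⟨c, hc, ?_⟩
    rw [h2, map_smul, h3, smul_eq_mul, mul_assoc]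

end Pool.Agent.Lib.MP_732f67_ag.KC
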