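import Pool.Agent.Lib.MP_732f67_ag.KC.PDer
import Pool.Agent.Lib.MP_732f67_ag.KC.DI

/-!
# Project KM, part C: change of the p-basis in the Cartier operator
-/

set_option autoImplicit false

namespace Pool.Agent.Lib.MP_732f67_ag.KC

variable {n : ℕ} {L : Type*} [Field L] {R2 : Type*} [CommRing R2]
  {p : ℕ} [Fact p.Prime] [CharP L p] {π : R2 →+* L}
  {D : Fin n → Derivation ℤ L L} {t : Fin n → L} {Tr : L →+ L} {tt : Fin n → R2}

/-- products of the images of one forms under `F^* / p` -/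
theorem tr_fv_prod (hr : Ref p D t Tr) (γ : Fin n → L) (w : Fin n → Fin n → L) :
    Tr (top (List.ofFn fun l : Fin n => (om (fv p D t γ (w l)) : Fm n L)).prod) =
      (Matrix.of w).det := by
  have hp : p ≠ 0 := (Fact.out : p.Prime).ne_zero
  have hexp : ExpChar L p := ExpChar.prime Fact.out
  have hs : ∀ k j : Fin n, fv p D t γ (Pi.single k 1) j =
      (if j = k then t k ^ (p - 1) else 0) + D j (γ k) := by
    intro k j
    rw [fv, Finset.sum_eq_single k]
    · rw [Pi.single_eq_same, one_pow, one_mul]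
    · intro i _ hi
      rw [Pi.single_eq_of_ne hi, zero_pow hp, zero_mul]
    · intro h
      exact absurd (Finset.mem_univ _) h
  have hM : Matrix.of (fun l => fv p D t γ (w l)) =
      (frobenius L p).mapMatrix (Matrix.of w) * Matrix.of (fun k => fv p D t γ (Pi.single k 1)) := by
    ext l j
    rw [Matrix.mul_apply, Matrix.of_apply, fv]
    refine Finset.sum_congr rfl fun k _ => ?_
    rw [Matrix.of_apply, hs]
    rfl
  have h1 := tr_fv hr γ
  rw [top_prod] at h1
  rw [top_prod, hM, Matrix.det_mul, ← RingHom.map_det, frobenius_def, hr.Tr_mul, h1, mul_one]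

/-- `C (x_1 ^ (p-1) .. x_n ^ (p-1) dx_1 .. dx_n) = dx_1 .. dx_n` if `F (x_l) = x_l ^ p` -/
theorem tr_jac_top (hL : Lift2 p π) (ht : IsPB p t) (hr : Ref p D t Tr)
    (htt : ∀ k, π (tt k) = t k) {F : R2 →+* R2} (hF : IsFrob p π F) {x : Fin n → R2}
    (hx : ∀ l, F (x l) = x l ^ p) :
    Tr ((Matrix.of fun l k => D k (π (x l))).det * ∏ l, π (x l) ^ (p - 1)) =
      (Matrix.of fun l k => D k (π (x l))).det := by
  obtain ⟨δ, hδ⟩ := exists_del hL hF
  have hδx : ∀ l, δ (x l) = 0 := by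
    intro l
    rw [hδ.unique hL (r := x l) (s := 0) (by rw [hx, mul_zero, add_zero]), map_zero]
  have h1 := tr_fv_prod hr (fun k => δ (tt k)) (fun l k => D k (π (x l)))
  have h2 : ∀ l, fv p D t (fun k => δ (tt k)) (fun k => D k (π (x l))) =
      fun j => π (x l) ^ (p - 1) * (Matrix.of fun l k => D k (π (x l)) : Matrix (Fin n) (Fin n) L) l j := by
    intro l
    funext j
    rw [hδ.fv_eq hL ht hr htt, hδx, map_zero, add_zero]
    rfl
  rw [top_prod] at h1
  have h3 : Matrix.of (fun l => fv p D t (fun k => δ (tt k)) (fun k => D k (π (x l)))) =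
      Matrix.of fun l j => π (x l) ^ (p - 1) *
        (Matrix.of fun l k => D k (π (x l)) : Matrix (Fin n) (Fin n) L) l j := by
    congr 1
    funext l
    exact h2 l
  rw [h3, Matrix.det_mul_column, mul_comm] at h1
  exact h1

omit [Fact p.Prime] [CharP L p] in
/-- `x ^ a dx` is closed -/
theorem dd_pow_dx (hr : Ref p D t Tr) (x : L) (a : ℕ) :
    dd D (om (fun k => x ^ a * D k x) : Fm n L) = 0 := by
  rw [om_smul, dd_smul, ← dd_fn, dd_dd D hr.comm, smul_zero, add_zero]
  rcases Nat.eq_zero_or_pos a with rfl | ha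
  · rw [pow_zero, fn_one, dd_one, zero_mul]
  · have h1 : (dd D (fn (x ^ a)) : Fm n L) = (((a : L) * x ^ (a - 1))) • om (fun k => D k x) := by
      rw [dd_fn, ← om_smul]
      congr 1
      funext k
      rw [Derivation.leibniz_pow, nsmul_eq_mul, smul_eq_mul, mul_assoc]
    rw [h1, dd_fn, smul_mul_assoc, om_mul_self, smul_zero]

/-- the other monomials -/
theorem tr_jac_mon (hr : Ref p D t Tr) (x : Fin n → L) {α : Fin n → Fin p}
    (hα : ∃ i, (α i : ℕ) ≠ p - 1) : Tr ((Matrix.of fun l k => D k (x l)).det * mon p x α) = 0 := by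
  obtain ⟨i, hi⟩ := hα
  have hip : (α i : ℕ) + 1 < p := by
    have := (α i).2
    omega
  have hc : (((α i : ℕ) + 1 : ℕ) : L) ≠ 0 := by
    intro h3
    have h4 := (CharP.cast_eq_zero_iff L p ((α i : ℕ) + 1)).1 h3
    exact absurd (Nat.le_of_dvd (Nat.succ_pos _) h4) (by omega)
  let q : Fin n → (Fin n → L) × L := fun l =>
    if l = i then (0, (((α i : ℕ) + 1 : ℕ) : L)⁻¹ * x i ^ ((α i : ℕ) + 1))
    else (fun k => x l ^ (α l : ℕ) * D k (x l), 0)
  have hq : ∀ l, (om (q l).1 + dd D (fn (q l).2) : Fm n L) =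
      om (fun k => x l ^ (α l : ℕ) * D k (x l)) := by
    intro l
    by_cases hl : l = i
    · subst hl
      have h1 : q l = (0, (((α l : ℕ) + 1 : ℕ) : L)⁻¹ * x l ^ ((α l : ℕ) + 1)) := if_pos rfl
      rw [h1]
      show (om (0 : Fin n → L) + dd D (fn ((((α l : ℕ) + 1 : ℕ) : L)⁻¹ * x l ^ ((α l : ℕ) + 1))) :
        Fm n L) = _
      rw [← omL_apply, map_zero, zero_add, dd_fn]
      congr 1
      funext k
      have h2 : D k (((((α l : ℕ) + 1 : ℕ) : L))⁻¹) = 0 := by
        rw [Derivation.leibniz_inv, Derivation.map_natCast, smul_zero]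
      rw [Derivation.leibniz, h2, smul_zero, add_zero, Derivation.leibniz_pow, Nat.add_sub_cancel,
        nsmul_eq_mul, smul_eq_mul, smul_eq_mul, ← mul_assoc, inv_mul_cancel₀ hc, one_mul]
    · have h1 : q l = (fun k => x l ^ (α l : ℕ) * D k (x l), 0) := if_neg hl
      rw [h1]
      show (om (fun k => x l ^ (α l : ℕ) * D k (x l)) + dd D (fn 0) : Fm n L) = _
      have h2 : (dd D (fn 0) : Fm n L) = 0 := by
        rw [fn, TensorProduct.zero_tmul, map_zero]
      rw [h2, add_zero]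
  obtain ⟨-, y, h3⟩ := prod_exact hr (List.ofFn q) (by
    intro q' hq'
    obtain ⟨l, rfl⟩ := (List.mem_ofFn' _ _).1 hq'
    by_cases hl : l = i
    · have h1 : (q l).1 = 0 := by
        have : q l = (0, (((α i : ℕ) + 1 : ℕ) : L)⁻¹ * x i ^ ((α i : ℕ) + 1)) := if_pos hl
        rw [this]
      rw [h1, ← omL_apply, map_zero, map_zero]
    · have h1 : (q l).1 = fun k => x l ^ (α l : ℕ) * D k (x l) := by
        have : q l = (fun k => x l ^ (α l : ℕ) * D k (x l), 0) := if_neg hl
        rw [this]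
      rw [h1]
      exact dd_pow_dx hr _ _)
  have h4 : ((List.ofFn q).map fun q => (om q.1 : Fm n L)).prod = 0 := by
    refine List.prod_eq_zero ?_
    rw [List.mem_map]
    refine ⟨q i, (List.mem_ofFn' _ _).2 ⟨i, rfl⟩, ?_⟩
    have : q i = (0, (((α i : ℕ) + 1 : ℕ) : L)⁻¹ * x i ^ ((α i : ℕ) + 1)) := if_pos rfl
    rw [this]
    show (om (0 : Fin n → L) : Fm n L) = 0
    rw [← omL_apply, map_zero]
  have h5 : ((List.ofFn q).map fun q => (om q.1 + dd D (fn q.2) : Fm n L)) =
      List.ofFn fun l => (om (fun k => x l ^ (α l : ℕ) *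
        (Matrix.of fun l k => D k (x l) : Matrix (Fin n) (Fin n) L) l k) : Fm n L) := by
    rw [List.map_ofFn]
    congr 1
    funext l
    exact hq l
  rw [h4, zero_add, h5] at h3
  have h6 := congrArg (fun z => Tr (top z)) h3
  rw [tr_top_dd D Tr hr.Tr_D, top_prod, Matrix.det_mul_column, mul_comm] at h6
  exact h6

/-- **change of the p-basis** -/
theorem tr_change (hL : Lift2 p π) (ht : IsPB p t) (hr : Ref p D t Tr)
    (htt : ∀ k, π (tt k) = t k) {F : R2 →+* R2} (hF : IsFrob p π F) {x : Fin n → R2}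
    (hx : ∀ l, F (x l) = x l ^ p) (hpb : IsPB p fun l => π (x l)) :
    ∃ (D' : Fin n → Derivation ℤ L L) (Tr' : L →+ L), Ref p D' (fun l => π (x l)) Tr' ∧
      ∀ g, Tr ((Matrix.of fun l k => D k (π (x l))).det * g) =
        (Matrix.of fun l k => D k (π (x l))).det * Tr' g := by
  have hp := (Fact.out : p.Prime).pos
  obtain ⟨D', Tr', h', _⟩ := exists_ref hpb
  refine ⟨D', Tr', h', fun g => ?_⟩
  obtain ⟨c, rfl⟩ := hpb.span g
  rw [h'.tr_sum, Finset.mul_sum, map_sum,
    Finset.sum_eq_single (fun _ => ⟨p - 1, by omega⟩ : Fin n → Fin p)]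
  · rw [mul_left_comm, hr.Tr_mul]
    have h1 : mon p (fun l => π (x l)) (fun _ => ⟨p - 1, by omega⟩) = ∏ l, π (x l) ^ (p - 1) := rfl
    rw [h1, tr_jac_top hL ht hr htt hF hx, mul_comm]
  · intro α _ hα
    obtain ⟨k, hk⟩ := Function.ne_iff.1 hα
    rw [mul_left_comm, hr.Tr_mul, tr_jac_mon hr _ ⟨k, fun h => hk (Fin.ext h)⟩, mul_zero]
  · intro h
    exact absurd (Finset.mem_univ _) h

end Pool.Agent.Lib.MP_732f67_ag.KC
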