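import Pool.Agent.Lib.MP_732f67_ag.KC.GeoF
import Pool.Agent.Lib.MP_732f67_ag.KC.GeoJ
import Pool.Agent.Lib.MP_732f67_ag.KC.GeoT

/-!
# Project KM, part C: the charts modulo `p`
-/

set_option autoImplicit false

namespace Pool.Agent.Lib.MP_732f67_ag.KC

variable {n N : ℕ} {L : Type*} [Field L] {Λ E : Type} {R2 : Type*} [CommRing R2]
  [LinearOrder Λ] [Fintype Λ] [Fintype E] {p : ℕ} [Fact p.Prime] [CharP L p] {π : R2 →+* L}
  {zz zi : Fin N → R2} {σ : Λ → Fin N} {xx : Λ → Fin n → R2} {yy uu : Λ → R2}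
  {f : Λ → Polynomial (MvPolynomial (Fin n) ℤ)} {ε : Λ → E → Option (Fin n)}
  {D : Fin n → Derivation ℤ L L} {t : Fin n → L} {Tr : L →+ L} {tt : Fin n → R2}

/-- the charts modulo `p` -/
theorem Geo.gp (h : Geo p π zz zi σ xx yy uu f ε) (ht : IsPB p t) (hr : Ref p D t Tr)
    (htt : ∀ k, π (tt k) = t k) : Gp p (fun j => π (zz j)) σ (fun a l => π (xx a l)) ε D Tr := by
  refine
    { z_ne := h.z_ne
      x_ne := h.x_ne
      x_mem := fun a l => (h.et a).x_mem l
      pb := fun a => (h.et a).isPB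
      pba := fun a => (h.et a).pba
      jac_ne := fun a => h.jac_ne ht hr a
      inj := h.inj
      tr := fun a a' j => h.tr1 a a' j
      cover := h.cover
      Tr_mul := hr.Tr_mul
      trc := fun a => ?_ }
  obtain ⟨F, δ, hF⟩ := h.frob
  exact tr_change h.lift ht hr htt (hF a).1 (hF a).2.2.1 (h.et a).isPB

end Pool.Agent.Lib.MP_732f67_ag.KC
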