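import Pool.Agent.Lib.MP_732f67_ag.KC.GeoE
import Pool.Agent.Lib.MP_732f67_ag.KC.GeoHHB
import Pool.Agent.Lib.MP_732f67_ag.KC.GeoU

/-!
# Project KM, part C: the result, in the form used by `KM.Atl.Good.asm`
-/

set_option autoImplicit false

namespace Pool.Agent.Lib.MP_732f67_ag.KC

open KM (IsInv)

variable {n N : ℕ} {L : Type*} [Field L] {Λ E I : Type} {R2 : Type*} [CommRing R2]
  [LinearOrder Λ] [Fintype Λ] [Fintype E] [Fintype I] [DecidableEq I] {p : ℕ} [Fact p.Prime]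
  [CharP L p] {π : R2 →+* L}
  {zz zi : Fin N → R2} {σ : Λ → Fin N} {xx : Λ → Fin n → R2} {yy uu : Λ → R2}
  {f : Λ → Polynomial (MvPolynomial (Fin n) ℤ)} {ε : Λ → E → Option (Fin n)}
  {D : Fin n → Derivation ℤ L L} {t : Fin n → L} {Tr : L →+ L} {tt : Fin n → R2}
  {m l : ℕ} {un uw : Λ → L} {w : L} {αj ej : E → ℤ} {b : I → ℕ} {K : Subfield L}
  {X : KM.Atl K Λ I}

/-- **Part C**: the `p⁻¹`-linear map and the Hochster - Huneke property -/
theorem Geo.final [Nonempty Λ] (hn : n < p) (h : Geo p π zz zi σ xx yy uu f ε) (ht : IsPB p t)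
    (hr : Ref p D t Tr) (htt : ∀ k, π (tt k) = t k) (hm : p = m * (l + 1) + 1)
    (hP : Pol m (fun j => π (zz j)) σ (fun a l => π (xx a l)) ε
      (jac D fun a l => π (xx a l)) un αj)
    (hα : ∀ j, -(m : ℤ) < αj j)
    (hC : Can m D (fun j => π (zz j)) σ (fun a l => π (xx a l)) ε uw w ej X.d b)
    (hX : ∀ a, X.A a = AJ (fun j => π (zz j)) σ {a})
    (hH : Hart (fun a l => π (xx a l)) ε X) (hK : ∀ f ∈ X.V 0, f ∈ K)
    (hv : KVan (Kl (AJ (fun j => π (zz j)) σ) (bet D (fun a l => π (xx a l)) ε)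
      (kap m (l + 1) (fun j => π (zz j)) σ (fun a l => π (xx a l)) ε
        (jac D fun a l => π (xx a l)) αj)))
    (hs : ∀ s : L, (∀ a, ∃ y ∈ AJ (fun j => π (zz j)) σ {a},
        s = π (zz (σ a)) ^ (l + 1) * phi m (fun a l => π (xx a l)) ε αj a * y) →
      ∃ g : Fin N → L, (∀ j a, ∃ y ∈ AJ (fun j => π (zz j)) σ {a},
        g j = π (zz (σ a)) ^ l * phi m (fun a l => π (xx a l)) ε αj a * y) ∧
        s = ∑ j, π (zz j) * g j) :
    ∃ τ : L → L, IsInv p τ ∧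
      (∀ T, ∀ y ∈ X.V ((p : ℤ) • T + ((l + 1 : ℕ) : ℤ) • bZ b), ∀ a, ∃ k : ℕ,
        τ y * X.eq a T * EP (fun a l => π (xx a l)) ε a ^ k ∈ X.A a) ∧
      ∀ u, ∀ c ∈ X.V u, c ≠ 0 → ∀ N₁ : ℕ, ∃ M ≥ N₁,
        ∃ y ∈ X.V (eN p M • (((l + 1 : ℕ) : ℤ) • bZ b) - u), τ^[M] (c * y) = 1 := by
  have hG := h.gp ht hr htt
  have hm1 : 1 ≤ m := hP.m_pos
  have hce : ∀ j, 0 ≤ ceα m αj j := by
    intro j
    have h1 := (ceα_spec hm1 αj j).1
    have h2 := hα j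
    by_contra hneg
    have h3 : ceα m αj j ≤ -1 := by omega
    have h4 : (m : ℤ) * ceα m αj j ≤ m * (-1) :=
      mul_le_mul_of_nonneg_left h3 (Int.natCast_nonneg m)
    omega
  have hep : ∀ a, ∏ j, ep (fun a l => π (xx a l)) ε a j ^ ceα m αj j ∈
      AJ (fun j => π (zz j)) σ {a} := by
    intro a
    refine Subring.prod_mem _ fun j _ => ?_
    obtain ⟨k, hk⟩ := Int.eq_ofNat_of_zero_le (hce j)
    rw [hk, zpow_natCast]
    exact Subring.pow_mem _ (hG.ep_mem a j) k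
  have hv1 : ∀ a, 1 * (jac D (fun a l => π (xx a l)) a)⁻¹ * jac D (fun a l => π (xx a l)) a *
      ∏ j, ep (fun a l => π (xx a l)) ε a j ^ ceα m αj j ∈ AJ (fun j => π (zz j)) σ {a} := by
    intro a
    rw [one_mul, inv_mul_cancel₀ (hG.jac_ne a), one_mul]
    exact hep a
  obtain ⟨s, hs1, hs2⟩ := h.dI hn ht hr htt hP hm hv hv1
  obtain ⟨g, hg, hsum⟩ := hs s (fun a => by
    obtain ⟨c, hc, e⟩ := hs2 a
    refine ⟨c, hc, ?_⟩
    rw [e, mul_assoc (π (zz (σ a)) ^ (l + 1)), inv_mul_cancel₀ (hG.jac_ne a), mul_one]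
    rfl)
  rw [hsum] at hs1
  obtain ⟨j₀, s₁, hs₁, hτ1⟩ := exists_s1 hG hP hC hX hH hK hm hg hs1
  refine ⟨tau Tr w (l + 1), tau_inv hG.Tr_mul w (l + 1),
    fun T y hy a => tau_mem hG hC hm hX hy a, ?_⟩
  intro u c hc hc0 N₁
  have hV1 : (1 : L) ∈ X.V 0 := by
    intro i
    have h1 : X.eq i 0 = 1 := Finset.prod_eq_one fun j _ => zpow_zero _
    rw [h1, mul_one]
    exact (X.A i).one_mem
  exact hh_global (p := p) (Fact.out : p.Prime).two_le (fun T => (X.V T).toAddSubgroup) hV1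
    (fun s t x hx y hy => X.V_mul hx hy) (tau_inv hG.Tr_mul w (l + 1))
    (((l + 1 : ℕ) : ℤ) • bZ b) (bZ b) (zw_mem hG hP hC hX hH j₀) hs₁ hτ1
    (fun a => π (zz (σ a)) * w) (fun a => zw_mem hG hP hC hX hH (σ a))
    (geo_cov hG hP hC hX hH j₀) (fun a => geo_loc hG hP hC hX hH hm a j₀ hc hc0) N₁

end Pool.Agent.Lib.MP_732f67_ag.KC
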