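import Mathlib

/-!
# Project KM, part C: two facts on separable extensions of rational function fields

`etale_core`: `f'(y) ^ p * y` is in the ring generated by the base ring and `y ^ p` (conductor formula).
`indep_core`: the monomials with exponents `< p` are independent over the `p`-th powers.
-/

set_option autoImplicit false
set_option linter.unusedSectionVars false

namespace Pool.Agent.Lib.MP_732f67_ag.KC

open Polynomial Pointwise

section core

variable {S0 K0 L : Type*} [CommRing S0] [IsDomain S0] [IsIntegrallyClosed S0] [Field K0]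
  [Algebra S0 K0] [IsFractionRing S0 K0] [Field L] [Algebra K0 L] [Algebra S0 L]
  [IsScalarTower S0 K0 L] {p : ℕ} [Fact p.Prime] [CharP L p]

include K0 in
theorem etale_isSeparable {y : L} {f : Polynomial S0} (hf : f.Monic) (h0 : aeval y f = 0)
    (h1 : aeval y (derivative f) ≠ 0) : IsSeparable K0 y := by
  have hint : IsIntegral S0 y := ⟨f, hf, by simpa [aeval_def] using h0⟩
  have hintK : IsIntegral K0 y := hint.tower_top
  rw [IsSeparable, separable_iff_derivative_ne_zero (minpoly.irreducible hintK)]
  intro hd
  have hdvd : minpoly K0 y ∣ f.map (algebraMap S0 K0) := by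
    apply minpoly.dvd
    rw [aeval_map_algebraMap, h0]
  obtain ⟨q, hq⟩ := hdvd
  apply h1
  have h2 := congrArg (fun g => aeval y (derivative g)) hq
  simp only [derivative_mul, derivative_map, aeval_map_algebraMap, map_add, map_mul, hd,
    minpoly.aeval, map_zero, zero_mul, add_zero] at h2
  exact h2

include K0 in
/-- the conductor formula for `y ^ p` -/
theorem etale_core {y : L} {f : Polynomial S0} (hf : f.Monic) (h0 : aeval y f = 0)
    (h1 : aeval y (derivative f) ≠ 0) (htop : IntermediateField.adjoin K0 {y} = ⊤) :
    aeval y (derivative f) ^ p * y ∈ Algebra.adjoin S0 {y ^ p} := by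
  have hsep : IsSeparable K0 y := etale_isSeparable hf h0 h1
  have hint : IsIntegral S0 y := ⟨f, hf, by simpa [aeval_def] using h0⟩
  have hintK : IsIntegral K0 y := hint.tower_top
  have hp := (Fact.out : p.Prime)
  have : CharP K0 p := (algebraMap K0 L).charP (algebraMap K0 L).injective p
  have : ExpChar K0 p := ExpChar.prime hp
  have hinj : FaithfulSMul S0 L := by
    rw [faithfulSMul_iff_algebraMap_injective, IsScalarTower.algebraMap_eq S0 K0 L]
    exact (algebraMap K0 L).injective.comp (IsFractionRing.injective S0 K0)
  have : CharP S0 p := (algebraMap S0 L).charP (FaithfulSMul.algebraMap_injective S0 L) p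
  have : Algebra.IsSeparable K0 L := by
    have h := (IntermediateField.isSeparable_adjoin_simple_iff_isSeparable K0 L).2 hsep
    rw [htop] at h
    exact Algebra.IsSeparable.of_algHom K0 (⊤ : IntermediateField K0 L)
      (IntermediateField.topEquiv.symm.toAlgHom)
  have : FiniteDimensional K0 L := by
    have h := IntermediateField.adjoin.finiteDimensional hintK
    rw [htop] at h
    exact Module.Finite.equiv IntermediateField.topEquiv.toLinearEquiv
  set ξ := y ^ p
  have hξ : IsIntegral S0 ξ := hint.pow p
  have htop2 : Algebra.adjoin K0 {ξ} = ⊤ := by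
    have h2 := IntermediateField.adjoin_simple_eq_adjoin_pow_expChar_of_isSeparable K0 L hsep p
    rw [htop] at h2
    have h3 := IntermediateField.adjoin_simple_toSubalgebra_of_isAlgebraic
      (Algebra.IsAlgebraic.isAlgebraic (R := K0) ξ)
    rw [← h3, ← h2]
    rfl
  -- `y` is in the dual lattice
  have hdual : y ∈ (Algebra.traceForm K0 L).dualSubmodule
      (Subalgebra.toSubmodule (Algebra.adjoin S0 {ξ})) := by
    rw [LinearMap.BilinForm.mem_dualSubmodule]
    intro b hb
    rw [Algebra.traceForm_apply]
    have hb' : IsIntegral S0 b := by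
      have : Algebra.adjoin S0 {ξ} ≤ integralClosure S0 L := by
        rw [Algebra.adjoin_le_iff, Set.singleton_subset_iff]
        exact hξ
      exact this hb
    have htr : IsIntegral S0 (Algebra.trace K0 L (y * b)) :=
      Algebra.isIntegral_trace (hint.mul hb')
    obtain ⟨s, hs⟩ := IsIntegrallyClosed.isIntegral_iff.1 htr
    rw [Submodule.mem_one]
    exact ⟨s, hs⟩
  rw [traceForm_dualSubmodule_adjoin S0 K0 htop2 hξ] at hdual
  have hne : aeval ξ (derivative (minpoly K0 ξ)) ≠ 0 :=
    (Algebra.IsSeparable.isSeparable K0 ξ).aeval_derivative_ne_zero (minpoly.aeval _ _)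
  rw [Submodule.mem_smul_iff_inv_mul_mem (inv_ne_zero hne), inv_inv,
    Subalgebra.mem_toSubmodule] at hdual
  -- the polynomial with `p`-th power coefficients
  set g := f.map (frobenius S0 p)
  have hev : ∀ q : Polynomial S0, aeval ξ (q.map (frobenius S0 p)) = aeval y q ^ p := by
    intro q
    have : ExpChar L p := ExpChar.prime hp
    have h := hom_eval₂ q (algebraMap S0 L) (frobenius L p) y
    rw [frobenius_def, frobenius_def] at h
    rw [aeval_def, aeval_def, h, eval₂_map]
    congr 1
    ext s
    simp [frobenius_def]
  have hg0 : aeval ξ g = 0 := by rw [hev, h0, zero_pow hp.ne_zero]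
  obtain ⟨q, hq⟩ := minpoly.isIntegrallyClosed_dvd hξ hg0
  have h2 := congrArg (fun g => aeval ξ (derivative g)) hq
  simp only [derivative_mul, map_add, map_mul, minpoly.aeval, zero_mul, add_zero] at h2
  rw [derivative_map, hev] at h2
  rw [h2]
  rw [minpoly.isIntegrallyClosed_eq_field_fractions' K0 hξ, derivative_map,
    aeval_map_algebraMap] at hdual
  have h3 : aeval ξ q ∈ Algebra.adjoin S0 {ξ} := aeval_mem_adjoin_singleton S0 ξ
  have h4 := Subalgebra.mul_mem _ h3 hdual
  have h5 : aeval ξ (derivative (minpoly S0 ξ)) * aeval ξ q * y =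
      aeval ξ q * (aeval ξ (derivative (minpoly S0 ξ)) * y) := by ring
  rw [h5]
  exact h4

end core

end Pool.Agent.Lib.MP_732f67_ag.KC
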