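import Mathlib

set_option autoImplicit false

namespace Pool.Agent.Lib.MP_732f67_ag.KC

section indep

variable {n p : ℕ} [hp : Fact p.Prime]

/-- independence of the monomials with exponents `< p` over the `p`-th powers of polynomials -/
theorem indep_poly (P : (Fin n → Fin p) → MvPolynomial (Fin n) (ZMod p))
    (h : ∑ α, P α ^ p * ∏ i, MvPolynomial.X i ^ (α i : ℕ) = 0) (α : Fin n → Fin p) : P α = 0 := by
  classical
  have hp0 : p ≠ 0 := hp.out.ne_zero
  set ex : (Fin n → Fin p) → (Fin n →₀ ℕ) := fun β => Finsupp.equivFunOnFinite.symm fun i => (β i : ℕ)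
  have hmon : ∀ β : Fin n → Fin p, ∏ i, (MvPolynomial.X i : MvPolynomial (Fin n) (ZMod p)) ^ (β i : ℕ) =
      MvPolynomial.monomial (ex β) 1 := by
    intro β
    rw [MvPolynomial.monomial_eq, Finsupp.prod_fintype _ _ (fun i => pow_zero _)]
    simp [ex]
  ext m
  have h1 := congrArg (MvPolynomial.coeff (p • m + ex α)) h
  rw [MvPolynomial.coeff_sum, Finset.sum_eq_single α] at h1
  · rw [hmon, ← MvPolynomial.expand_zmod, MvPolynomial.coeff_mul_monomial, mul_one,
      MvPolynomial.coeff_expand_smul p hp0] at h1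
    exact h1
  · intro β _ hβ
    rw [hmon, ← MvPolynomial.expand_zmod, MvPolynomial.coeff_mul_monomial']
    split_ifs with hle
    · obtain ⟨i, hi⟩ := Function.ne_iff.1 hβ
      rw [MvPolynomial.coeff_expand_of_not_dvd (i := i), zero_mul]
      intro hdvd
      have h2 : (p • m + ex α - ex β) i = p * m i + (α i : ℕ) - (β i : ℕ) := by
        simp [ex]
      have h3 : (β i : ℕ) ≤ p * m i + (α i : ℕ) := by
        have := hle i
        simpa [ex] using this
      rw [h2] at hdvd
      have h4 : ((p * m i + (α i : ℕ) : ℕ) : ℤ) - (β i : ℕ) = p * m i + ((α i : ℕ) - (β i : ℕ) : ℤ) := by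
        push_cast; ring
      have h5 : (p : ℤ) ∣ ((α i : ℕ) - (β i : ℕ) : ℤ) := by
        have h6 : (p : ℤ) ∣ ((p * m i + (α i : ℕ) - (β i : ℕ) : ℕ) : ℤ) := by exact_mod_cast hdvd
        rw [Nat.cast_sub h3, h4] at h6
        exact (dvd_add_right (dvd_mul_right _ _)).1 h6
      have h7 := (α i).2
      have h8 := (β i).2
      have h9 : ((α i : ℕ) - (β i : ℕ) : ℤ) = 0 := by
        apply Int.eq_zero_of_abs_lt_dvd h5
        rw [abs_lt]
        constructor <;> omega
      apply hi
      ext
      omega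
    · rfl
  · intro hα
    exact absurd (Finset.mem_univ α) hα

variable {K0 L : Type*} [Field K0] [Algebra (MvPolynomial (Fin n) (ZMod p)) K0]
  [IsFractionRing (MvPolynomial (Fin n) (ZMod p)) K0]

theorem indep_frac (a : (Fin n → Fin p) → K0)
    (h : ∑ α, a α ^ p * ∏ i, algebraMap (MvPolynomial (Fin n) (ZMod p)) K0 (MvPolynomial.X i) ^
      (α i : ℕ) = 0) (α : Fin n → Fin p) : a α = 0 := by
  obtain ⟨s, hs⟩ := IsLocalization.exist_integer_multiples_of_finite
    (nonZeroDivisors (MvPolynomial (Fin n) (ZMod p))) a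
  choose P hP using hs
  have hs0 : algebraMap (MvPolynomial (Fin n) (ZMod p)) K0 s.1 ≠ 0 := by
    rw [Ne, IsFractionRing.to_map_eq_zero_iff]
    exact nonZeroDivisors.ne_zero s.2
  have h1 : ∑ α, P α ^ p * ∏ i, MvPolynomial.X i ^ (α i : ℕ) = 0 := by
    apply IsFractionRing.injective (MvPolynomial (Fin n) (ZMod p)) K0
    rw [map_zero, map_sum]
    have h2 : ∀ β, algebraMap (MvPolynomial (Fin n) (ZMod p)) K0
        (P β ^ p * ∏ i, MvPolynomial.X i ^ (β i : ℕ)) =
        algebraMap (MvPolynomial (Fin n) (ZMod p)) K0 s.1 ^ p * (a β ^ p *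
          ∏ i, algebraMap (MvPolynomial (Fin n) (ZMod p)) K0 (MvPolynomial.X i) ^ (β i : ℕ)) := by
      intro β
      rw [map_mul, map_pow, hP, map_prod, Algebra.smul_def, mul_pow, mul_assoc]
      simp only [map_pow]
    simp only [h2]
    rw [← Finset.mul_sum, h, mul_zero]
  have h2 := indep_poly P h1 α
  have h3 := hP α
  rw [h2, map_zero, Algebra.smul_def] at h3
  exact (mul_eq_zero.1 h3.symm).resolve_left hs0

variable [Field L] [Algebra K0 L] [Algebra (MvPolynomial (Fin n) (ZMod p)) L]
  [IsScalarTower (MvPolynomial (Fin n) (ZMod p)) K0 L] [CharP L p] [Algebra.IsSeparable K0 L]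

include K0 in
theorem indep_core (c : (Fin n → Fin p) → L)
    (h : ∑ α, c α ^ p * ∏ i, algebraMap (MvPolynomial (Fin n) (ZMod p)) L (MvPolynomial.X i) ^
      (α i : ℕ) = 0) (α : Fin n → Fin p) : c α = 0 := by
  classical
  have : CharP K0 p := (algebraMap K0 L).charP (algebraMap K0 L).injective p
  have : ExpChar K0 p := ExpChar.prime hp.out
  have : ExpChar L p := ExpChar.prime hp.out
  let b := Module.Basis.ofVectorSpace K0 L
  have hb := b.linearIndependent.map_pow_expChar_pow_of_isSeparable p 1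
  rw [pow_one] at hb
  -- the support
  let T : Finset _ := Finset.univ.biUnion fun α => (b.repr (c α)).support
  have hc : ∀ β, c β = ∑ j ∈ T, b.repr (c β) j • b j := by
    intro β
    conv_lhs => rw [← b.linearCombination_repr (c β), Finsupp.linearCombination_apply]
    refine Finsupp.sum_of_support_subset _ ?_ _ (fun j _ => zero_smul _ _)
    exact Finset.subset_biUnion_of_mem (fun α => (b.repr (c α)).support) (Finset.mem_univ β)
  have hcp : ∀ β, c β ^ p = ∑ j ∈ T, (b.repr (c β) j) ^ p • b j ^ p := by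
    intro β
    conv_lhs => rw [hc β]
    rw [sum_pow_char]
    exact Finset.sum_congr rfl fun j _ => by rw [smul_pow]
  have h1 : ∑ j ∈ T, (∑ β, (b.repr (c β) j) ^ p *
      ∏ i, algebraMap (MvPolynomial (Fin n) (ZMod p)) K0 (MvPolynomial.X i) ^ (β i : ℕ)) • b j ^ p
        = 0 := by
    rw [← h]
    simp only [hcp, Finset.sum_mul, Finset.sum_smul]
    rw [Finset.sum_comm]
    refine Finset.sum_congr rfl fun β _ => Finset.sum_congr rfl fun j _ => ?_
    rw [Algebra.smul_def, Algebra.smul_def, map_mul, map_prod]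
    simp only [map_pow, ← IsScalarTower.algebraMap_apply]
    ring
  have h2 := linearIndependent_iff'.1 hb T _ h1
  have h3 : ∀ j ∈ T, b.repr (c α) j = 0 := fun j hj => indep_frac _ (h2 j hj) α
  rw [hc α]
  exact Finset.sum_eq_zero fun j hj => by rw [h3 j hj, zero_smul]

end indep

end Pool.Agent.Lib.MP_732f67_ag.KC
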