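import Pool.Agent.Lib.MP_732f67_ag.KC.PDer
import Pool.Agent.Lib.MP_732f67_ag.KC.EtaleA
import Pool.Agent.Lib.MP_732f67_ag.KC.EtaleB

/-!
# Project KM, part C: standard etale charts in characteristic `p` and modulo `p ^ 2`
-/

set_option autoImplicit false
set_option linter.unusedSectionVars false

namespace Pool.Agent.Lib.MP_732f67_ag.KC

variable {n : ℕ}

/-- the value of `f` at `x, y` -/
noncomputable def ev2 {R : Type*} [CommRing R] (x : Fin n → R) (y : R)
    (f : Polynomial (MvPolynomial (Fin n) ℤ)) : R :=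
  Polynomial.eval₂ (MvPolynomial.aeval x : MvPolynomial (Fin n) ℤ →ₐ[ℤ] R).toRingHom y f

variable {L : Type*} [Field L] {p : ℕ}

/-- `A = 𝔽_p [x, y, u]` is a standard etale chart of the field `L` of characteristic `p` -/
structure EtCh (p : ℕ) (A : Subring L) (x : Fin n → L) (y u : L)
    (f : Polynomial (MvPolynomial (Fin n) ℤ)) : Prop where
  monic : f.Monic
  root : ev2 x y f = 0
  der_ne : ev2 x y f.derivative ≠ 0
  der_inv : (ev2 x y f.derivative)⁻¹ ∈ A
  u_ne : u ≠ 0
  u_inv : u⁻¹ ∈ Subring.closure (Set.range x ∪ {y})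
  A_eq : A = Subring.closure (Set.range x ∪ {y, u})
  ind : ∀ P : MvPolynomial (Fin n) ℤ, MvPolynomial.aeval x P = 0 → ∃ Q, P = (p : MvPolynomial (Fin n) ℤ) * Q
  gen : ∀ a : L, ∃ b ∈ Subring.closure (Set.range x ∪ {y}), ∃ c ∈ Subring.closure (Set.range x ∪ {y}),
    c ≠ 0 ∧ a = b / c

variable [Fact p.Prime] [CharP L p] {A : Subring L} {x : Fin n → L} {y u : L}
  {f : Polynomial (MvPolynomial (Fin n) ℤ)}

theorem EtCh.both (h : EtCh p A x y u f) :
    (∀ T : Subring L, (∀ i, x i ∈ T) → y ^ p ∈ T → ev2 x y f.derivative ^ p * y ∈ T) ∧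
      ∀ c : (Fin n → Fin p) → L, ∑ α, c α ^ p * mon p x α = 0 → ∀ α, c α = 0 := by
  have hp := (Fact.out : p.Prime)
  let _ : Algebra (ZMod p) L := ZMod.algebra L p
  set φ : MvPolynomial (Fin n) (ZMod p) →ₐ[ZMod p] L := MvPolynomial.aeval x
  set ψ : MvPolynomial (Fin n) ℤ →+* MvPolynomial (Fin n) (ZMod p) :=
    MvPolynomial.map (Int.castRingHom (ZMod p))
  have hφψ : φ.toRingHom.comp ψ =
      (MvPolynomial.aeval x : MvPolynomial (Fin n) ℤ →ₐ[ℤ] L).toRingHom := by
    apply MvPolynomial.ringHom_ext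
    · intro r
      simp [φ, ψ]
    · intro i
      simp [φ, ψ]
  have hinj : Function.Injective φ.toRingHom := by
    rw [injective_iff_map_eq_zero]
    intro P hP
    obtain ⟨P', rfl⟩ := MvPolynomial.map_surjective (Int.castRingHom (ZMod p))
      (ZMod.intCast_surjective) P
    have h1 : (MvPolynomial.aeval x : MvPolynomial (Fin n) ℤ →ₐ[ℤ] L) P' = 0 := by
      have := congrArg (fun g => g P') hφψ
      simp only [RingHom.comp_apply] at this
      exact this.symm.trans hP
    obtain ⟨Q, rfl⟩ := h.ind P' h1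
    rw [map_mul, map_natCast, CharP.cast_eq_zero, zero_mul]
  let _ : Algebra (MvPolynomial (Fin n) (ZMod p)) L := φ.toRingHom.toAlgebra
  have : FaithfulSMul (MvPolynomial (Fin n) (ZMod p)) L :=
    (faithfulSMul_iff_algebraMap_injective _ _).2 hinj
  let _ : Algebra (FractionRing (MvPolynomial (Fin n) (ZMod p))) L := FractionRing.liftAlgebra _ _
  have hxi : ∀ i, algebraMap (MvPolynomial (Fin n) (ZMod p)) L (MvPolynomial.X i) = x i := by
    intro i
    exact MvPolynomial.aeval_X x i
  set fb := f.map ψ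
  have hev : ∀ g : Polynomial (MvPolynomial (Fin n) ℤ),
      Polynomial.aeval y (g.map ψ) = ev2 x y g := by
    intro g
    rw [Polynomial.aeval_def, Polynomial.eval₂_map]
    show Polynomial.eval₂ (φ.toRingHom.comp ψ) y g = _
    rw [hφψ]
    rfl
  have hf : fb.Monic := h.monic.map ψ
  have h0 : Polynomial.aeval y fb = 0 := (hev f).trans h.root
  have hd : Polynomial.aeval y fb.derivative = ev2 x y f.derivative := by
    rw [Polynomial.derivative_map, hev]
  have h1 : Polynomial.aeval y fb.derivative ≠ 0 := by rw [hd]; exact h.der_ne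
  have htop : IntermediateField.adjoin (FractionRing (MvPolynomial (Fin n) (ZMod p))) {y} = ⊤ := by
    rw [eq_top_iff]
    intro a _
    have hB : Subring.closure (Set.range x ∪ {y}) ≤
        (IntermediateField.adjoin (FractionRing (MvPolynomial (Fin n) (ZMod p))) {y}).toSubring := by
      rw [Subring.closure_le]
      rintro z (⟨i, rfl⟩ | rfl)
      · rw [← hxi i, IsScalarTower.algebraMap_apply (MvPolynomial (Fin n) (ZMod p))
          (FractionRing (MvPolynomial (Fin n) (ZMod p))) L]
        exact IntermediateField.algebraMap_mem _ _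
      · exact IntermediateField.mem_adjoin_simple_self _ _
    obtain ⟨b, hb, c, hc, -, rfl⟩ := h.gen a
    exact div_mem (hB hb) (hB hc)
  refine ⟨fun T hT hyT => ?_, fun c hc => ?_⟩
  · have h2 := etale_core (K0 := FractionRing (MvPolynomial (Fin n) (ZMod p))) (p := p)
      hf h0 h1 htop
    rw [hd] at h2
    have h3 : ∀ z ∈ Algebra.adjoin (MvPolynomial (Fin n) (ZMod p)) {y ^ p}, z ∈ T := by
      intro z hz
      induction hz using Algebra.adjoin_induction with
      | mem z hz =>
        rw [Set.mem_singleton_iff.1 hz]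
        exact hyT
      | algebraMap s =>
        show φ s ∈ T
        induction s using MvPolynomial.induction_on with
        | C a =>
          rw [MvPolynomial.algHom_C, ← ZMod.natCast_zmod_val a, map_natCast]
          exact natCast_mem T _
        | add a b ha hb => rw [map_add]; exact T.add_mem ha hb
        | mul_X a i ha =>
          rw [map_mul, MvPolynomial.aeval_X]
          exact T.mul_mem ha (hT i)
      | add a b _ _ ha hb => exact T.add_mem ha hb
      | mul a b _ _ ha hb => exact T.mul_mem ha hb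
    exact h3 _ h2
  · have hsep : Algebra.IsSeparable (FractionRing (MvPolynomial (Fin n) (ZMod p))) L := by
      have hy := etale_isSeparable (K0 := FractionRing (MvPolynomial (Fin n) (ZMod p))) hf h0 h1
      have h := (IntermediateField.isSeparable_adjoin_simple_iff_isSeparable
        (FractionRing (MvPolynomial (Fin n) (ZMod p))) L).2 hy
      rw [htop] at h
      exact Algebra.IsSeparable.of_algHom _
        (⊤ : IntermediateField (FractionRing (MvPolynomial (Fin n) (ZMod p))) L)
        (IntermediateField.topEquiv.symm.toAlgHom)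
    refine indep_core (K0 := FractionRing (MvPolynomial (Fin n) (ZMod p))) c ?_
    simp only [hxi]
    exact hc

/-! ### The ring `A ^ p [x]` -/

/-- the sums of the `c α ^ p * x ^ α` with `c α ∈ A` -/
def pSpan (p : ℕ) (A : Subring L) (x : Fin n → L) : Set L :=
  {a | ∃ c : (Fin n → Fin p) → L, (∀ α, c α ∈ A) ∧ a = ∑ α, c α ^ p * mon p x α}

theorem pSpan_add {a b : L} (ha : a ∈ pSpan p A x) (hb : b ∈ pSpan p A x) : a + b ∈ pSpan p A x := by
  obtain ⟨c, hc, rfl⟩ := ha
  obtain ⟨d, hd, rfl⟩ := hb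
  refine ⟨c + d, fun α => A.add_mem (hc α) (hd α), ?_⟩
  rw [← Finset.sum_add_distrib]
  exact Finset.sum_congr rfl fun α _ => by rw [Pi.add_apply, add_pow_char, add_mul]

theorem pSpan_zero : (0 : L) ∈ pSpan p A x :=
  ⟨0, fun _ => A.zero_mem, by simp [(Fact.out : p.Prime).ne_zero]⟩

theorem pSpan_neg {a : L} (ha : a ∈ pSpan p A x) : -a ∈ pSpan p A x := by
  obtain ⟨c, hc, rfl⟩ := ha
  refine ⟨-c, fun α => A.neg_mem (hc α), ?_⟩
  rw [← Finset.sum_neg_distrib]
  refine Finset.sum_congr rfl fun α _ => ?_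
  have : (-c α) ^ p = -(c α) ^ p := by
    have h : (0 - c α) ^ p = 0 ^ p - c α ^ p := sub_pow_char _ _
    rwa [zero_sub, zero_pow (Fact.out : p.Prime).ne_zero, zero_sub] at h
  rw [Pi.neg_apply, this, neg_mul]

theorem pSpan_sum {ι : Type*} (s : Finset ι) (g : ι → L) (hg : ∀ i ∈ s, g i ∈ pSpan p A x) :
    ∑ i ∈ s, g i ∈ pSpan p A x := by
  classical
  induction s using Finset.induction_on with
  | empty => rw [Finset.sum_empty]; exact pSpan_zero
  | insert a s ha ih =>
    rw [Finset.sum_insert ha]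
    exact pSpan_add (hg a (Finset.mem_insert_self _ _))
      (ih fun i hi => hg i (Finset.mem_insert_of_mem hi))

theorem pSpan_single (hx : ∀ i, x i ∈ A) {c : L} (hc : c ∈ A) (k : Fin n → ℕ) :
    c ^ p * ∏ i, x i ^ k i ∈ pSpan p A x := by
  classical
  have hp := (Fact.out : p.Prime)
  set α : Fin n → Fin p := fun i => ⟨k i % p, Nat.mod_lt _ hp.pos⟩
  refine ⟨Pi.single α (c * ∏ i, x i ^ (k i / p)), fun β => ?_, ?_⟩
  · by_cases h : β = α
    · subst h
      rw [Pi.single_eq_same]
      exact A.mul_mem hc (A.prod_mem fun i _ => A.pow_mem (hx i) _)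
    · rw [Pi.single_eq_of_ne h]
      exact A.zero_mem
  · rw [Finset.sum_eq_single α]
    · rw [Pi.single_eq_same, mul_pow, ← Finset.prod_pow, mul_assoc, mon, ← Finset.prod_mul_distrib]
      congr 1
      refine Finset.prod_congr rfl fun i _ => ?_
      show x i ^ k i = (x i ^ (k i / p)) ^ p * x i ^ (k i % p)
      rw [← pow_mul, ← pow_add, Nat.div_add_mod']
    · intro β _ h
      rw [Pi.single_eq_of_ne h, zero_pow hp.ne_zero, zero_mul]
    · intro h
      exact absurd (Finset.mem_univ α) h

theorem pSpan_mul (hx : ∀ i, x i ∈ A) {a b : L} (ha : a ∈ pSpan p A x) (hb : b ∈ pSpan p A x) :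
    a * b ∈ pSpan p A x := by
  obtain ⟨c, hc, rfl⟩ := ha
  obtain ⟨d, hd, rfl⟩ := hb
  rw [Finset.sum_mul_sum]
  refine pSpan_sum _ _ fun α _ => pSpan_sum _ _ fun β _ => ?_
  have h := pSpan_single (p := p) hx (A.mul_mem (hc α) (hd β)) (fun i => (α i : ℕ) + (β i : ℕ))
  have h2 : c α ^ p * mon p x α * (d β ^ p * mon p x β) =
      (c α * d β) ^ p * ∏ i, x i ^ ((α i : ℕ) + (β i : ℕ)) := by
    simp only [mon, pow_add, Finset.prod_mul_distrib, mul_pow]
    ring
  rwa [h2]

/-- the subring `A ^ p [x]` -/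
def pRing (p : ℕ) [Fact p.Prime] [CharP L p] (A : Subring L) (x : Fin n → L)
    (hx : ∀ i, x i ∈ A) : Subring L where
  carrier := pSpan p A x
  zero_mem' := pSpan_zero
  one_mem' := by
    have h := pSpan_single (p := p) hx A.one_mem 0
    simpa using h
  add_mem' := pSpan_add
  neg_mem' := pSpan_neg
  mul_mem' := pSpan_mul hx

theorem pow_mem_pRing (hx : ∀ i, x i ∈ A) {c : L} (hc : c ∈ A) : c ^ p ∈ pRing p A x hx := by
  have h := pSpan_single (p := p) hx hc 0
  show c ^ p ∈ pSpan p A x
  simpa using h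

theorem x_mem_pRing (hx : ∀ i, x i ∈ A) (i : Fin n) : x i ∈ pRing p A x hx := by
  classical
  have h := pSpan_single (p := p) hx A.one_mem (Pi.single i 1)
  have h2 : ∏ j, x j ^ (Pi.single i 1 : Fin n → ℕ) j = x i := by
    rw [Finset.prod_eq_single i]
    · rw [Pi.single_eq_same, pow_one]
    · intro j _ hj
      rw [Pi.single_eq_of_ne hj, pow_zero]
    · intro h
      exact absurd (Finset.mem_univ i) h
  rw [h2, one_pow, one_mul] at h
  exact h

theorem EtCh.x_mem (h : EtCh p A x y u f) (i : Fin n) : x i ∈ A := by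
  rw [h.A_eq]
  exact Subring.subset_closure (Or.inl ⟨i, rfl⟩)

theorem EtCh.y_mem (h : EtCh p A x y u f) : y ∈ A := by
  rw [h.A_eq]
  exact Subring.subset_closure (Or.inr (Or.inl rfl))

theorem EtCh.u_mem (h : EtCh p A x y u f) : u ∈ A := by
  rw [h.A_eq]
  exact Subring.subset_closure (Or.inr (Or.inr rfl))

theorem EtCh.B_le (h : EtCh p A x y u f) : Subring.closure (Set.range x ∪ {y}) ≤ A := by
  rw [Subring.closure_le]
  rintro z (⟨i, rfl⟩ | rfl)
  · exact h.x_mem i
  · exact h.y_mem

/-- the coordinates of a standard etale chart are a p-basis of its ring -/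
theorem EtCh.pba (h : EtCh p A x y u f) : PBA p A x := by
  have hp := (Fact.out : p.Prime)
  refine ⟨h.x_mem, ?_⟩
  set T := pRing p A x h.x_mem
  suffices hle : A ≤ T from fun a ha => hle ha
  have hxT : ∀ i, x i ∈ T := x_mem_pRing h.x_mem
  have h1 := h.both.1 T hxT (pow_mem_pRing h.x_mem h.y_mem)
  have h2 : (ev2 x y f.derivative)⁻¹ ^ p ∈ T := pow_mem_pRing h.x_mem h.der_inv
  have hy : y ∈ T := by
    have h3 := T.mul_mem h2 h1
    rwa [← mul_assoc, ← mul_pow, inv_mul_cancel₀ h.der_ne, one_pow, one_mul] at h3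
  have hB : Subring.closure (Set.range x ∪ {y}) ≤ T := by
    rw [Subring.closure_le]
    rintro z (⟨i, rfl⟩ | rfl)
    · exact hxT i
    · exact hy
  have hu : u ∈ T := by
    have h3 := T.mul_mem (pow_mem_pRing (p := p) h.x_mem h.u_mem)
      (T.pow_mem (hB h.u_inv) (p - 1))
    have h4 : u ^ p * u⁻¹ ^ (p - 1) = u := by
      obtain ⟨k, hk⟩ : ∃ k, p = k + 1 := ⟨p - 1, by have := hp.pos; omega⟩
      rw [hk, Nat.add_sub_cancel, pow_succ, mul_right_comm, ← mul_pow, mul_inv_cancel₀ h.u_ne,
        one_pow, one_mul]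
    rwa [h4] at h3
  rw [h.A_eq, Subring.closure_le]
  rintro z (⟨i, rfl⟩ | rfl | rfl)
  · exact hxT i
  · exact hy
  · exact hu

/-- the coordinates of a standard etale chart are a p-basis of the field -/
theorem EtCh.isPB (h : EtCh p A x y u f) : IsPB p x := by
  have hp := (Fact.out : p.Prime)
  refine ⟨h.both.2, fun a => ?_⟩
  obtain ⟨b, hb, c, hc, hc0, rfl⟩ := h.gen a
  obtain ⟨d, -, hd⟩ := h.pba.span (b * c ^ (p - 1))
    (A.mul_mem (h.B_le hb) (A.pow_mem (h.B_le hc) _))
  refine ⟨fun α => d α / c, ?_⟩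
  have h1 : b / c = b * c ^ (p - 1) / c ^ p := by
    obtain ⟨k, hk⟩ : ∃ k, p = k + 1 := ⟨p - 1, by have := hp.pos; omega⟩
    rw [hk, Nat.add_sub_cancel, pow_succ]
    field_simp
  rw [h1, hd, Finset.sum_div]
  refine Finset.sum_congr rfl fun α _ => ?_
  rw [div_pow]
  ring

/-! ### Derivations -/

theorem der_aeval (x : Fin n → L) (P : MvPolynomial (Fin n) ℤ) : ∃ c : Fin n → L,
    (∀ l, c l ∈ Subring.closure (Set.range x)) ∧
      ∀ D : Derivation ℤ L L, D (MvPolynomial.aeval x P) = ∑ l, c l * D (x l) := by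
  classical
  have hmem : ∀ Q : MvPolynomial (Fin n) ℤ,
      MvPolynomial.aeval x Q ∈ Subring.closure (Set.range x) := by
    intro Q
    induction Q using MvPolynomial.induction_on with
    | C a =>
      rw [MvPolynomial.algHom_C, eq_intCast]
      exact intCast_mem _ _
    | add a b ha hb => rw [map_add]; exact Subring.add_mem _ ha hb
    | mul_X a i ha =>
      rw [map_mul, MvPolynomial.aeval_X]
      exact Subring.mul_mem _ ha (Subring.subset_closure ⟨i, rfl⟩)
  induction P using MvPolynomial.induction_on with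
  | C a =>
    refine ⟨0, fun _ => Subring.zero_mem _, fun D => ?_⟩
    rw [MvPolynomial.algHom_C]
    simp
  | add a b ha hb =>
    obtain ⟨c, hc, hc'⟩ := ha
    obtain ⟨d, hd, hd'⟩ := hb
    refine ⟨c + d, fun l => Subring.add_mem _ (hc l) (hd l), fun D => ?_⟩
    rw [map_add, map_add, hc', hd', ← Finset.sum_add_distrib]
    exact Finset.sum_congr rfl fun l _ => by rw [Pi.add_apply, add_mul]
  | mul_X a i ha =>
    obtain ⟨c, hc, hc'⟩ := ha
    refine ⟨fun l => x i * c l + if l = i then MvPolynomial.aeval x a else 0, fun l => ?_,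
      fun D => ?_⟩
    · refine Subring.add_mem _ (Subring.mul_mem _ (Subring.subset_closure ⟨i, rfl⟩) (hc l)) ?_
      split_ifs
      · exact hmem a
      · exact Subring.zero_mem _
    · rw [map_mul, MvPolynomial.aeval_X, Derivation.leibniz, hc', smul_eq_mul, smul_eq_mul]
      simp only [add_mul, Finset.sum_add_distrib, ite_mul, zero_mul, Finset.sum_ite_eq',
        Finset.mem_univ, if_true, Finset.mul_sum]
      rw [add_comm]
      congr 1
      exact Finset.sum_congr rfl fun l _ => by ring

theorem der_ev2 (x : Fin n → L) (y : L) (f : Polynomial (MvPolynomial (Fin n) ℤ)) :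
    ∃ c : Fin n → L, (∀ l, c l ∈ Subring.closure (Set.range x ∪ {y})) ∧
      ∀ D : Derivation ℤ L L,
        D (ev2 x y f) = ∑ l, c l * D (x l) + ev2 x y f.derivative * D y := by
  have hle : Subring.closure (Set.range x) ≤ Subring.closure (Set.range x ∪ {y}) :=
    Subring.closure_mono Set.subset_union_left
  have hyB : y ∈ Subring.closure (Set.range x ∪ {y}) := Subring.subset_closure (Or.inr rfl)
  induction f using Polynomial.induction_on' with
  | add a b ha hb =>
    obtain ⟨c, hc, hc'⟩ := ha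
    obtain ⟨d, hd, hd'⟩ := hb
    refine ⟨c + d, fun l => Subring.add_mem _ (hc l) (hd l), fun D => ?_⟩
    have h1 : ev2 x y (a + b) = ev2 x y a + ev2 x y b := Polynomial.eval₂_add _ _
    have h2 : ev2 x y (a + b).derivative = ev2 x y a.derivative + ev2 x y b.derivative := by
      rw [Polynomial.derivative_add]
      exact Polynomial.eval₂_add _ _
    rw [h1, h2, map_add, hc', hd']
    simp only [Pi.add_apply, add_mul, Finset.sum_add_distrib]
    ring
  | monomial i P =>
    obtain ⟨c, hc, hc'⟩ := der_aeval x P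
    refine ⟨fun l => y ^ i * c l, fun l => Subring.mul_mem _ (Subring.pow_mem _ hyB _) (hle (hc l)),
      fun D => ?_⟩
    have h1 : ev2 x y (Polynomial.monomial i P) = MvPolynomial.aeval x P * y ^ i :=
      Polynomial.eval₂_monomial _ _
    have h2 : ev2 x y (Polynomial.derivative (Polynomial.monomial i P)) =
        MvPolynomial.aeval x P * i * y ^ (i - 1) := by
      rw [Polynomial.derivative_monomial]
      refine (Polynomial.eval₂_monomial _ _).trans ?_
      congr 1
      exact (map_mul _ _ _).trans (by rw [map_natCast]; rfl)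
    rw [h1, h2, Derivation.leibniz, hc', Derivation.leibniz_pow]
    simp only [smul_eq_mul, nsmul_eq_mul, Finset.mul_sum, mul_assoc]
    ring

/-- the differentials of the elements of the ring of the chart -/
theorem EtCh.derA (h : EtCh p A x y u f) (D : Fin n → Derivation ℤ L L) : DerA D A x := by
  classical
  refine ⟨h.x_mem, ?_⟩
  -- the elements with good differentials
  let G : Subring L :=
    { carrier := {a | a ∈ A ∧ ∃ c : Fin n → L, (∀ l, c l ∈ A) ∧ ∀ k, D k a = ∑ l, c l * D k (x l)}
      zero_mem' := ⟨A.zero_mem, 0, fun _ => A.zero_mem, fun k => by simp⟩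
      one_mem' := ⟨A.one_mem, 0, fun _ => A.zero_mem, fun k => by simp⟩
      add_mem' := by
        rintro a b ⟨ha, c, hc, hc'⟩ ⟨hb, d, hd, hd'⟩
        refine ⟨A.add_mem ha hb, c + d, fun l => A.add_mem (hc l) (hd l), fun k => ?_⟩
        rw [map_add, hc', hd', ← Finset.sum_add_distrib]
        exact Finset.sum_congr rfl fun l _ => by rw [Pi.add_apply, add_mul]
      neg_mem' := by
        rintro a ⟨ha, c, hc, hc'⟩
        refine ⟨A.neg_mem ha, -c, fun l => A.neg_mem (hc l), fun k => ?_⟩
        rw [map_neg, hc', ← Finset.sum_neg_distrib]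
        exact Finset.sum_congr rfl fun l _ => by rw [Pi.neg_apply, neg_mul]
      mul_mem' := by
        rintro a b ⟨ha, c, hc, hc'⟩ ⟨hb, d, hd, hd'⟩
        refine ⟨A.mul_mem ha hb, fun l => a * d l + b * c l,
          fun l => A.add_mem (A.mul_mem ha (hd l)) (A.mul_mem hb (hc l)), fun k => ?_⟩
        rw [Derivation.leibniz, hc', hd']
        simp only [smul_eq_mul, Finset.mul_sum, add_mul, Finset.sum_add_distrib, mul_assoc] }
  suffices hle : A ≤ G from fun a ha => (hle ha).2
  have hxG : ∀ i, x i ∈ G := by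
    intro i
    refine ⟨h.x_mem i, Pi.single i 1, fun l => ?_, fun k => ?_⟩
    · by_cases hl : l = i
      · subst hl
        rw [Pi.single_eq_same]; exact A.one_mem
      · rw [Pi.single_eq_of_ne hl]; exact A.zero_mem
    · rw [Finset.sum_eq_single i]
      · rw [Pi.single_eq_same, one_mul]
      · intro l _ hl
        rw [Pi.single_eq_of_ne hl, zero_mul]
      · intro hi
        exact absurd (Finset.mem_univ i) hi
  have hyG : y ∈ G := by
    obtain ⟨c, hc, hc'⟩ := der_ev2 x y f
    refine ⟨h.y_mem, fun l => -((ev2 x y f.derivative)⁻¹ * c l),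
      fun l => A.neg_mem (A.mul_mem h.der_inv (h.B_le (hc l))), fun k => ?_⟩
    have h1 := hc' (D k)
    rw [h.root, map_zero] at h1
    have h2 : ∑ l, -((ev2 x y f.derivative)⁻¹ * c l) * D k (x l) =
        -(ev2 x y f.derivative)⁻¹ * ∑ l, c l * D k (x l) := by
      rw [Finset.mul_sum]
      exact Finset.sum_congr rfl fun l _ => by ring
    have h3 : ∑ l, c l * D k (x l) = -(ev2 x y f.derivative * D k y) := by
      linear_combination -h1
    rw [h2, h3]
    have h4 := h.der_ne
    field_simp
  have hB : Subring.closure (Set.range x ∪ {y}) ≤ G := by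
    rw [Subring.closure_le]
    rintro z (⟨i, rfl⟩ | rfl)
    · exact hxG i
    · exact hyG
  have huG : u ∈ G := by
    obtain ⟨-, c, hc, hc'⟩ := hB h.u_inv
    refine ⟨h.u_mem, fun l => -(u ^ 2 * c l),
      fun l => A.neg_mem (A.mul_mem (A.pow_mem h.u_mem 2) (hc l)), fun k => ?_⟩
    have h1 : D k (u * u⁻¹) = 0 := by
      rw [mul_inv_cancel₀ h.u_ne]
      exact Derivation.map_one_eq_zero _
    rw [Derivation.leibniz, hc', smul_eq_mul, smul_eq_mul] at h1
    have h2 : ∑ l, -(u ^ 2 * c l) * D k (x l) = -(u ^ 2 * ∑ l, c l * D k (x l)) := by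
      rw [Finset.mul_sum, ← Finset.sum_neg_distrib]
      exact Finset.sum_congr rfl fun l _ => by ring
    have h3 : u * u⁻¹ = 1 := mul_inv_cancel₀ h.u_ne
    rw [h2]
    linear_combination u * h1 - D k u * h3
  rw [h.A_eq, Subring.closure_le]
  rintro z (⟨i, rfl⟩ | rfl | rfl)
  · exact hxG i
  · exact hyG
  · exact huG

end Pool.Agent.Lib.MP_732f67_ag.KC
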