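import Mathlib

/-!
# Project KM, part C: differential forms with coefficients in a field

`Fm n L = L ⊗ ExteriorAlgebra ℤ (Fin n → ℤ)`: the forms in `dt_1, .., dt_n` over `L`; for
derivations `D k` (`= ∂/∂t_k`) of `L` the exterior derivative is `dd D = ∑ k, D k ⊗ (e k * ·)`.
-/

set_option autoImplicit false

open TensorProduct

namespace Pool.Agent.Lib.MP_732f67_ag.KC

/-- the exterior algebra over the integers on `e 1, .., e n` -/
abbrev EZ (n : ℕ) : Type := ExteriorAlgebra ℤ (Fin n → ℤ)

/-- the forms with coefficients in `L` -/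
abbrev Fm (n : ℕ) (L : Type*) [Field L] : Type _ := L ⊗[ℤ] EZ n

variable {n : ℕ} {L : Type*} [Field L]

/-- the generator `e k` (= `dt_k`) -/
noncomputable def ee (k : Fin n) : EZ n := ExteriorAlgebra.ι ℤ (Pi.single k 1)

/-- the one form with the components `w` -/
noncomputable def om (w : Fin n → L) : Fm n L := ∑ k, w k ⊗ₜ[ℤ] ee k

/-- a function as a form -/
noncomputable def fn (a : L) : Fm n L := a ⊗ₜ[ℤ] 1

/-- the exterior derivative -/
noncomputable def dd (D : Fin n → Derivation ℤ L L) : Fm n L →ₗ[ℤ] Fm n L :=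
  ∑ k, TensorProduct.map (D k : L →ₗ[ℤ] L) (LinearMap.mulLeft ℤ (ee k))

/-- the sign `(-1) ^ degree`, an automorphism of the ring of forms -/
noncomputable def inv : Fm n L →ₐ[L] Fm n L :=
  Algebra.TensorProduct.map (AlgHom.id L L) CliffordAlgebra.involute

/-- the coefficient of `e 1 .. e n`, over the integers -/
noncomputable def tz : EZ n →ₗ[ℤ] ℤ :=
  ExteriorAlgebra.liftAlternating fun i =>
    if h : i = n then
      (h ▸ (Matrix.detRowAlternating : (Fin n → ℤ) [⋀^Fin n]→ₗ[ℤ] ℤ) :
        (Fin n → ℤ) [⋀^Fin i]→ₗ[ℤ] ℤ)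
    else 0

/-- the coefficient of `dt_1 .. dt_n` -/
noncomputable def top : Fm n L →ₗ[L] L :=
  (TensorProduct.AlgebraTensorModule.rid ℤ L L).toLinearMap ∘ₗ LinearMap.baseChange L (tz (n := n))

theorem dd_tmul (D : Fin n → Derivation ℤ L L) (a : L) (x : EZ n) :
    dd D (a ⊗ₜ[ℤ] x) = ∑ k, D k a ⊗ₜ[ℤ] (ee k * x) := by
  have h : ∀ (s : Finset (Fin n)),
      (∑ k ∈ s, TensorProduct.map (D k : L →ₗ[ℤ] L) (LinearMap.mulLeft ℤ (ee k)))
        (a ⊗ₜ[ℤ] x) = ∑ k ∈ s, D k a ⊗ₜ[ℤ] (ee k * x) := by
    intro s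
    classical
    induction s using Finset.induction_on with
    | empty => rfl
    | insert k s hk ih =>
      rw [Finset.sum_insert hk, Finset.sum_insert hk, ← ih]
      rfl
  exact h Finset.univ

theorem fn_mul_tmul (a b : L) (x : EZ n) : fn a * (b ⊗ₜ[ℤ] x) = (a * b) ⊗ₜ[ℤ] x := by
  rw [fn, Algebra.TensorProduct.tmul_mul_tmul, one_mul]

/-- functions are central -/
theorem fn_comm (a : L) (x : Fm n L) : fn a * x = x * fn a := by
  induction x using TensorProduct.induction_on with
  | zero => rw [mul_zero, zero_mul]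
  | tmul b x =>
    rw [fn, Algebra.TensorProduct.tmul_mul_tmul, Algebra.TensorProduct.tmul_mul_tmul, one_mul,
      mul_one, mul_comm]
  | add x y hx hy => rw [mul_add, add_mul, hx, hy]

theorem fn_smul (a : L) (x : Fm n L) : fn a * x = a • x := by
  induction x using TensorProduct.induction_on with
  | zero => rw [mul_zero, smul_zero]
  | tmul b x => rw [fn_mul_tmul, TensorProduct.smul_tmul', smul_eq_mul]
  | add x y hx hy => rw [mul_add, smul_add, hx, hy]

theorem fn_mul (a b : L) : (fn (a * b) : Fm n L) = fn a * fn b := by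
  rw [fn_smul, fn, fn, TensorProduct.smul_tmul', smul_eq_mul]

theorem fn_add (a b : L) : (fn (a + b) : Fm n L) = fn a + fn b := by
  rw [fn, fn, fn, TensorProduct.add_tmul]

theorem fn_one : (fn (1 : L) : Fm n L) = 1 := rfl

theorem om_add (v w : Fin n → L) : (om (fun k => v k + w k) : Fm n L) = om v + om w := by
  simp only [om, TensorProduct.add_tmul, Finset.sum_add_distrib]

theorem om_smul (a : L) (w : Fin n → L) : (om (fun k => a * w k) : Fm n L) = a • om w := by
  simp only [om, Finset.smul_sum, TensorProduct.smul_tmul', smul_eq_mul]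

theorem ee_sq (k : Fin n) : (ee k * ee k : EZ n) = 0 := ExteriorAlgebra.ι_sq_zero _

theorem ee_anti (k l : Fin n) : (ee k * ee l : EZ n) = -(ee l * ee k) := by
  have h : (ee k * ee l + ee l * ee k : EZ n) = 0 := ExteriorAlgebra.ι_add_mul_swap _ _
  exact eq_neg_of_add_eq_zero_left h

/-- a double sum of an antisymmetric family with zero diagonal -/
theorem anti_sum {M : Type*} [AddCommGroup M] (F : Fin n → Fin n → M)
    (h : ∀ k i, F k i = -F i k) (h0 : ∀ k, F k k = 0) : ∑ k, ∑ i, F k i = 0 := by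
  classical
  rw [← Finset.sum_product']
  refine Finset.sum_involution (fun p _ => (p.2, p.1)) ?_ ?_ ?_ ?_
  · rintro ⟨k, i⟩ _
    show F k i + F i k = 0
    rw [h k i, neg_add_cancel]
  · rintro ⟨k, i⟩ _ hne heq
    have hki : i = k := congrArg Prod.fst heq
    subst hki
    exact hne (h0 i)
  · rintro ⟨k, i⟩ _
    exact Finset.mem_univ _
  · rintro ⟨k, i⟩ _
    rfl

/-- moving a generator past a form -/
theorem ee_mul (k : Fin n) (x : EZ n) : ee k * x = CliffordAlgebra.involute x * ee k := by
  induction x using ExteriorAlgebra.induction with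
  | algebraMap r =>
    rw [AlgHom.commutes, Algebra.commutes]
  | ι v =>
    have h := ExteriorAlgebra.ι_add_mul_swap (R := ℤ) (Pi.single k 1 : Fin n → ℤ) v
    have h2 : CliffordAlgebra.involute (ExteriorAlgebra.ι ℤ v : EZ n) = -ExteriorAlgebra.ι ℤ v :=
      CliffordAlgebra.involute_ι v
    rw [h2, neg_mul]
    exact eq_neg_of_add_eq_zero_left h
  | mul x y hx hy => rw [map_mul, ← mul_assoc, hx, mul_assoc, hy, mul_assoc]
  | add x y hx hy => rw [map_add, mul_add, add_mul, hx, hy]

theorem inv_tmul (a : L) (x : EZ n) :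
    inv (a ⊗ₜ[ℤ] x) = a ⊗ₜ[ℤ] CliffordAlgebra.involute x := rfl

/-- `d (d x) = 0` -/
theorem dd_dd (D : Fin n → Derivation ℤ L L) (hD : ∀ i j a, D i (D j a) = D j (D i a))
    (x : Fm n L) : dd D (dd D x) = 0 := by
  induction x using TensorProduct.induction_on with
  | zero => rw [map_zero, map_zero]
  | add x y hx hy => rw [map_add, map_add, hx, hy, add_zero]
  | tmul a x =>
    rw [dd_tmul, map_sum]
    simp only [dd_tmul]
    refine anti_sum (fun k i => D i (D k a) ⊗ₜ[ℤ] (ee i * (ee k * x))) ?_ ?_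
    · intro k i
      show D i (D k a) ⊗ₜ[ℤ] (ee i * (ee k * x)) = -(D k (D i a) ⊗ₜ[ℤ] (ee k * (ee i * x)))
      rw [hD i k, ← mul_assoc, ee_anti i k, ← mul_assoc, neg_mul, TensorProduct.tmul_neg]
    · intro k
      show D k (D k a) ⊗ₜ[ℤ] (ee k * (ee k * x)) = 0
      rw [← mul_assoc, ee_sq, zero_mul, TensorProduct.tmul_zero]

/-- Leibniz -/
theorem dd_mul (D : Fin n → Derivation ℤ L L) (x y : Fm n L) :
    dd D (x * y) = dd D x * y + inv x * dd D y := by
  induction x using TensorProduct.induction_on with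
  | zero => simp only [zero_mul, map_zero, add_zero]
  | add x x' hx hx' =>
    rw [add_mul, map_add, hx, hx', map_add, map_add, add_mul, add_mul]
    abel
  | tmul a x =>
    induction y using TensorProduct.induction_on with
    | zero => simp only [mul_zero, map_zero, add_zero]
    | add y y' hy hy' =>
      rw [mul_add, map_add, hy, hy', map_add, mul_add, mul_add]
      abel
    | tmul b y =>
      rw [Algebra.TensorProduct.tmul_mul_tmul, dd_tmul, dd_tmul, dd_tmul, inv_tmul,
        Finset.sum_mul, Finset.mul_sum, ← Finset.sum_add_distrib]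
      refine Finset.sum_congr rfl fun k _ => ?_
      rw [Algebra.TensorProduct.tmul_mul_tmul, Algebra.TensorProduct.tmul_mul_tmul,
        Derivation.leibniz, smul_eq_mul, smul_eq_mul, TensorProduct.add_tmul, ← mul_assoc,
        ← mul_assoc, ← ee_mul, mul_comm (D k a) b, add_comm]

theorem dd_fn (D : Fin n → Derivation ℤ L L) (a : L) : dd D (fn a) = om (fun k => D k a) := by
  rw [fn, dd_tmul, om]
  simp only [mul_one]

theorem dd_one (D : Fin n → Derivation ℤ L L) : dd D (1 : Fm n L) = 0 := by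
  rw [← fn_one, dd_fn, om]
  simp only [Derivation.map_one_eq_zero, TensorProduct.zero_tmul, Finset.sum_const_zero]

theorem inv_om (w : Fin n → L) : inv (om w) = -om w := by
  rw [om, map_sum, ← Finset.sum_neg_distrib]
  refine Finset.sum_congr rfl fun k _ => ?_
  have h2 : CliffordAlgebra.involute (ee k : EZ n) = -ee k := CliffordAlgebra.involute_ι _
  rw [inv_tmul, h2, TensorProduct.tmul_neg]

theorem inv_fn (a : L) : inv (fn a : Fm n L) = fn a := by
  rw [fn, inv_tmul, map_one]

theorem om_mul_self (w : Fin n → L) : om w * om w = (0 : Fm n L) := by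
  simp only [om, Finset.sum_mul_sum, Algebra.TensorProduct.tmul_mul_tmul]
  refine anti_sum (fun k i => (w k * w i) ⊗ₜ[ℤ] (ee k * ee i : EZ n)) ?_ ?_
  · intro k i
    show (w k * w i) ⊗ₜ[ℤ] (ee k * ee i : EZ n) = -((w i * w k) ⊗ₜ[ℤ] (ee i * ee k))
    rw [ee_anti k i, TensorProduct.tmul_neg, mul_comm]
  · intro k
    show (w k * w k) ⊗ₜ[ℤ] (ee k * ee k : EZ n) = 0
    rw [ee_sq, TensorProduct.tmul_zero]

theorem om_mul_om (v w : Fin n → L) : om v * om w = -(om w * om v : Fm n L) := by
  have h := om_mul_self (fun k => v k + w k)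
  rw [om_add, add_mul, mul_add, mul_add, om_mul_self, om_mul_self, zero_add, add_zero] at h
  exact eq_neg_of_add_eq_zero_left h

/-- the ring of forms generated by the functions in `A` and the one forms `om (β l)` -/
noncomputable def Log (A : Subring L) (β : Fin n → Fin n → L) : Subring (Fm n L) :=
  Subring.closure ((fn '' (A : Set L)) ∪ Set.range fun l => om (β l))

theorem fn_mem_Log {A : Subring L} {β : Fin n → Fin n → L} {a : L} (ha : a ∈ A) :
    fn a ∈ Log A β := Subring.subset_closure (Or.inl ⟨a, ha, rfl⟩)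

theorem om_mem_Log (A : Subring L) (β : Fin n → Fin n → L) (l : Fin n) :
    om (β l) ∈ Log A β := Subring.subset_closure (Or.inr ⟨l, rfl⟩)

theorem Log_mono {A A' : Subring L} (h : A ≤ A') {β β' : Fin n → Fin n → L}
    (hβ : ∀ l, om (β l) ∈ Log A' β') : Log A β ≤ Log A' β' := by
  refine Subring.closure_le.2 ?_
  rintro x (⟨a, ha, rfl⟩ | ⟨l, rfl⟩)
  · exact fn_mem_Log (h ha)
  · exact hβ l

theorem inv_mem_Log {A : Subring L} {β : Fin n → Fin n → L} {x : Fm n L} (hx : x ∈ Log A β) :
    inv x ∈ Log A β := by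
  induction hx using Subring.closure_induction with
  | mem x hx =>
    rcases hx with ⟨a, ha, rfl⟩ | ⟨l, rfl⟩
    · rw [inv_fn]
      exact fn_mem_Log ha
    · rw [inv_om]
      exact neg_mem (om_mem_Log A β l)
  | zero => rw [map_zero]; exact zero_mem _
  | one => rw [map_one]; exact one_mem _
  | add x y _ _ hx hy => rw [map_add]; exact add_mem hx hy
  | neg x _ hx => rw [map_neg]; exact neg_mem hx
  | mul x y _ _ hx hy => rw [map_mul]; exact mul_mem hx hy

/-- the exterior derivative preserves the ring of forms -/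
theorem dd_mem_Log (D : Fin n → Derivation ℤ L L) {A : Subring L} {β : Fin n → Fin n → L}
    (hA : ∀ a ∈ A, dd D (fn a) ∈ Log A β) (hβ : ∀ l, dd D (om (β l)) = 0) {x : Fm n L}
    (hx : x ∈ Log A β) : dd D x ∈ Log A β := by
  induction hx using Subring.closure_induction with
  | mem x hx =>
    rcases hx with ⟨a, ha, rfl⟩ | ⟨l, rfl⟩
    · exact hA a ha
    · rw [hβ]
      exact zero_mem _
  | zero => rw [map_zero]; exact zero_mem _
  | one => rw [dd_one]; exact zero_mem _
  | add x y _ _ hx hy => rw [map_add]; exact add_mem hx hy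
  | neg x _ hx => rw [map_neg]; exact neg_mem hx
  | mul x y hx' hy' hx hy =>
    rw [dd_mul]
    exact add_mem (mul_mem hx hy') (mul_mem (inv_mem_Log hx') hy)

end Pool.Agent.Lib.MP_732f67_ag.KC
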