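import Pool.Agent.Lib.MP_732f67_ag.KC.Ext

/-!
# Project KM, part C: the top component of a form
-/

set_option autoImplicit false

open TensorProduct

namespace Pool.Agent.Lib.MP_732f67_ag.KC

variable {n : ℕ} {L : Type*} [Field L]

/-- the top component of a pure tensor -/
theorem top_tmul (a : L) (x : EZ n) : top (a ⊗ₜ[ℤ] x) = (tz x : ℤ) • a := by
  simp [top]

/-- the trace of an exact form is zero -/
theorem tr_top_dd (D : Fin n → Derivation ℤ L L) (Tr : L →+ L) (hTr : ∀ k a, Tr (D k a) = 0)
    (x : Fm n L) : Tr (top (dd D x)) = 0 := by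
  induction x using TensorProduct.induction_on with
  | zero => rw [map_zero, map_zero, map_zero]
  | add x y hx hy => rw [map_add, map_add, map_add, hx, hy, add_zero]
  | tmul a x =>
    rw [dd_tmul, map_sum, map_sum]
    refine Finset.sum_eq_zero fun k _ => ?_
    rw [top_tmul, map_zsmul, hTr, smul_zero]

/-- `om` as a linear map -/
noncomputable def omL : (Fin n → L) →ₗ[L] Fm n L where
  toFun w := om w
  map_add' v w := om_add v w
  map_smul' a w := om_smul a w

/-- the map from the exterior algebra over `L` -/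
noncomputable def omE : ExteriorAlgebra L (Fin n → L) →ₐ[L] Fm n L :=
  ExteriorAlgebra.lift L ⟨omL, fun w => om_mul_self w⟩

theorem omE_ι (w : Fin n → L) : omE (ExteriorAlgebra.ι L w) = om w :=
  ExteriorAlgebra.lift_ι_apply L omL _ w

/-- the top component of a product of `m` one forms, as an alternating map -/
noncomputable def omA (m : ℕ) : (Fin n → L) [⋀^Fin m]→ₗ[L] L :=
  ((top (n := n) (L := L)) ∘ₗ (omE (n := n) (L := L)).toLinearMap).compAlternatingMap
    (ExteriorAlgebra.ιMulti L m)

theorem omA_apply {m : ℕ} (v : Fin m → Fin n → L) :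
    omA m v = top (List.ofFn fun i => om (v i)).prod := by
  have h : omE (ExteriorAlgebra.ιMulti L m v) = (List.ofFn fun i => om (v i)).prod := by
    rw [ExteriorAlgebra.ιMulti_apply, map_list_prod, List.map_ofFn]
    congr 2
    funext i
    exact omE_ι _
  simp only [omA, LinearMap.compAlternatingMap_apply, LinearMap.comp_apply, AlgHom.toLinearMap_apply, h]

theorem om_single (k : Fin n) : (om (Pi.single k 1) : Fm n L) = 1 ⊗ₜ[ℤ] ee k := by
  unfold om
  rw [Finset.sum_eq_single k]
  · rw [Pi.single_eq_same]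
  · intro j _ hj
    rw [Pi.single_eq_of_ne hj, TensorProduct.zero_tmul]
  · intro h
    exact absurd (Finset.mem_univ k) h

theorem prod_one_tmul {m : ℕ} (x : Fin m → EZ n) :
    (List.ofFn fun i => ((1 : L) ⊗ₜ[ℤ] x i : Fm n L)).prod = (1 : L) ⊗ₜ[ℤ] (List.ofFn x).prod := by
  have h := map_list_prod (Algebra.TensorProduct.includeRight : EZ n →ₐ[ℤ] L ⊗[ℤ] EZ n) (List.ofFn x)
  rw [Algebra.TensorProduct.includeRight_apply, List.map_ofFn] at h
  exact h.symm

theorem tz_ιMulti_ne {m : ℕ} (hm : m ≠ n) (v : Fin m → Fin n → ℤ) :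
    (tz (ExteriorAlgebra.ιMulti ℤ m v) : ℤ) = 0 := by
  rw [tz, ExteriorAlgebra.liftAlternating_apply_ιMulti, dif_neg hm]
  rfl

theorem tz_ιMulti (v : Fin n → Fin n → ℤ) :
    (tz (ExteriorAlgebra.ιMulti ℤ n v) : ℤ) = (Matrix.of v).det := by
  rw [tz, ExteriorAlgebra.liftAlternating_apply_ιMulti, dif_pos rfl]
  rfl

theorem omA_basis {m : ℕ} (k : Fin m → Fin n) :
    omA m (fun i => (Pi.single (k i) 1 : Fin n → L)) =
      ((tz (ExteriorAlgebra.ιMulti ℤ m fun i => Pi.single (k i) 1) : ℤ) : L) := by
  rw [omA_apply]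
  simp only [om_single]
  rw [prod_one_tmul, top_tmul, ExteriorAlgebra.ιMulti_apply, zsmul_eq_mul, mul_one]
  rfl

theorem omA_ne {m : ℕ} (hm : m ≠ n) : (omA m : (Fin n → L) [⋀^Fin m]→ₗ[L] L) = 0 := by
  refine (Pi.basisFun L (Fin n)).ext_alternating fun k _ => ?_
  have h := omA_basis (L := L) k
  simp only [Pi.basisFun_apply]
  rw [h, tz_ιMulti_ne hm, Int.cast_zero]
  rfl

/-- the top component of a product of one forms -/
theorem top_prod (v : Fin n → Fin n → L) :
    top (List.ofFn fun i => om (v i)).prod = (Matrix.of v).det := by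
  rw [← omA_apply]
  have h := (omA n : (Fin n → L) [⋀^Fin n]→ₗ[L] L).eq_smul_basis_det (Pi.basisFun L (Fin n))
  have h1 : omA n (Pi.basisFun L (Fin n)) = (1 : L) := by
    have h2 := omA_basis (L := L) (fun i : Fin n => i)
    have h3 : (fun i : Fin n => (Pi.single i 1 : Fin n → L)) = Pi.basisFun L (Fin n) := by
      funext i
      rw [Pi.basisFun_apply]
    rw [h3, tz_ιMulti] at h2
    rw [h2]
    have h4 : (Matrix.of fun i : Fin n => (Pi.single i 1 : Fin n → ℤ)) = 1 := by
      ext i j
      rw [Matrix.of_apply, Matrix.one_apply, Pi.single_apply]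
      simp only [eq_comm]
    rw [h4, Matrix.det_one, Int.cast_one]
  rw [h1, one_smul] at h
  rw [h, Pi.basisFun_det]
  rfl

/-- the top component of a product of functions and one forms -/
theorem top_smul_prod (c : L) (v : Fin n → Fin n → L) :
    top (c • (List.ofFn fun i => om (v i)).prod) = c * (Matrix.of v).det := by
  rw [map_smul, top_prod, smul_eq_mul]

theorem top_prod_ne {m : ℕ} (hm : m ≠ n) (v : Fin m → Fin n → L) :
    top (List.ofFn fun i => om (v i)).prod = 0 := by
  rw [← omA_apply, omA_ne hm]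
  rfl

theorem top_prod_list (β : Fin n → Fin n → L) (l : List (Fin n)) :
    ∃ z : ℤ, top (l.map fun i => om (β i)).prod = (Matrix.of β).det * (z : L) := by
  by_cases hl : l.length = n
  · obtain ⟨f, rfl⟩ : ∃ f : Fin n → Fin n, l = List.ofFn f := by
      refine ⟨fun i => l.get (Fin.cast hl.symm i), List.ext_get (by simp [hl]) fun k h1 h2 => ?_⟩
      simp
    refine ⟨((1 : Matrix (Fin n) (Fin n) ℤ).submatrix f id).det, ?_⟩
    rw [List.map_ofFn]
    have h := top_prod (fun i => β (f i))
    have h1 : (Matrix.of fun i => β (f i)) =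
        ((1 : Matrix (Fin n) (Fin n) ℤ).submatrix f id).map (Int.castRingHom L) * Matrix.of β := by
      ext i j
      rw [Matrix.mul_apply, Finset.sum_eq_single (f i)]
      · rw [Matrix.map_apply, Matrix.submatrix_apply, id_eq, Matrix.one_apply_eq, map_one, one_mul]
        rfl
      · intro k _ hk
        rw [Matrix.map_apply, Matrix.submatrix_apply, id_eq, Matrix.one_apply_ne hk.symm, map_zero,
          zero_mul]
      · intro h
        exact absurd (Finset.mem_univ _) h
    rw [h1, Matrix.det_mul, ← RingHom.mapMatrix_apply, ← RingHom.map_det, mul_comm] at h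
    exact h
  · refine ⟨0, ?_⟩
    have h := top_prod_ne (L := L) hl (fun i => β (l.get i))
    rw [Int.cast_zero, mul_zero, ← h]
    congr 2
    conv_lhs => rw [← List.ofFn_get l, List.map_ofFn]
    rfl

/-- the finite sums of `a` times a product of one forms -/
theorem Log_span {A : Subring L} {β : Fin n → Fin n → L} {x : Fm n L} (hx : x ∈ Log A β) :
    x ∈ AddSubgroup.closure {y : Fm n L | ∃ a ∈ A, ∃ l : List (Fin n),
      y = a • (l.map fun i => om (β i)).prod} := by
  set S : Set (Fm n L) := {y : Fm n L | ∃ a ∈ A, ∃ l : List (Fin n),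
      y = a • (l.map fun i => om (β i)).prod} with hS
  have hmul : ∀ x ∈ AddSubgroup.closure S, ∀ y ∈ AddSubgroup.closure S,
      x * y ∈ AddSubgroup.closure S := by
    intro x hx y hy
    induction hx using AddSubgroup.closure_induction with
    | zero => rw [zero_mul]; exact AddSubgroup.zero_mem _
    | add u v _ _ hu hv => rw [add_mul]; exact AddSubgroup.add_mem _ hu hv
    | neg u _ hu =>
      have e : -u * y = -(u * y) := neg_mul u y
      rw [e]
      exact AddSubgroup.neg_mem _ hu
    | mem u hu =>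
      induction hy using AddSubgroup.closure_induction with
      | zero => rw [mul_zero]; exact AddSubgroup.zero_mem _
      | add v w _ _ hv hw => rw [mul_add]; exact AddSubgroup.add_mem _ hv hw
      | neg v _ hv =>
        have e : u * -v = -(u * v) := mul_neg u v
        rw [e]
        exact AddSubgroup.neg_mem _ hv
      | mem v hv =>
        obtain ⟨a, ha, l, rfl⟩ := hu
        obtain ⟨b, hb, m, rfl⟩ := hv
        refine AddSubgroup.subset_closure ⟨a * b, A.mul_mem ha hb, l ++ m, ?_⟩
        rw [List.map_append, List.prod_append, smul_mul_smul_comm]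
  induction hx using Subring.closure_induction with
  | mem x hx =>
    rcases hx with ⟨a, ha, rfl⟩ | ⟨l, rfl⟩
    · refine AddSubgroup.subset_closure ⟨a, ha, [], ?_⟩
      rw [List.map_nil, List.prod_nil, ← fn_smul, mul_one]
    · refine AddSubgroup.subset_closure ⟨1, A.one_mem, [l], ?_⟩
      rw [List.map_singleton, List.prod_singleton, one_smul]
  | zero => exact AddSubgroup.zero_mem _
  | one =>
    refine AddSubgroup.subset_closure ⟨1, A.one_mem, [], ?_⟩
    rw [List.map_nil, List.prod_nil, one_smul]
  | add x y _ _ hx hy => exact AddSubgroup.add_mem _ hx hy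
  | neg x _ hx => exact AddSubgroup.neg_mem _ hx
  | mul x y _ _ hx hy => exact hmul x hx y hy

/-- the top component of an element of the ring of forms -/
theorem top_mem_Log {A : Subring L} {β : Fin n → Fin n → L} {x : Fm n L} (hx : x ∈ Log A β) :
    ∃ a ∈ A, top x = (Matrix.of β).det * a := by
  have h := Log_span hx
  clear hx
  induction h using AddSubgroup.closure_induction with
  | mem x hx =>
    obtain ⟨a, ha, l, rfl⟩ := hx
    obtain ⟨z, hz⟩ := top_prod_list β l
    refine ⟨a * z, A.mul_mem ha (intCast_mem A z), ?_⟩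
    rw [map_smul, hz, smul_eq_mul]
    ring
  | zero => exact ⟨0, A.zero_mem, by rw [map_zero, mul_zero]⟩
  | add x y _ _ hx hy =>
    obtain ⟨a, ha, e⟩ := hx
    obtain ⟨b, hb, e'⟩ := hy
    exact ⟨a + b, A.add_mem ha hb, by rw [map_add, e, e', mul_add]⟩
  | neg x _ hx =>
    obtain ⟨a, ha, e⟩ := hx
    exact ⟨-a, A.neg_mem ha, by rw [map_neg, e, mul_neg]⟩

end Pool.Agent.Lib.MP_732f67_ag.KC
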