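import Pool.Agent.Lib.MP_732f67_ag.KC.Etale

/-!
# Project KM, part C: Frobenius lifts of standard etale charts modulo `p ^ 2`
-/

set_option autoImplicit false

namespace Pool.Agent.Lib.MP_732f67_ag.KC

variable {n : ℕ} {L : Type*} [Field L] {p : ℕ} [Fact p.Prime] [CharP L p]

variable {R2 : Type*} [CommRing R2] {π : R2 →+* L}

/-- the evaluation as a ring homomorphism -/
private noncomputable def frobEv {R : Type*} [CommRing R] (x : Fin n → R) (y : R) :
    Polynomial (MvPolynomial (Fin n) ℤ) →+* R :=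
  Polynomial.eval₂RingHom (MvPolynomial.aeval x : MvPolynomial (Fin n) ℤ →ₐ[ℤ] R).toRingHom y

private theorem frobEv_eq {R : Type*} [CommRing R] (x : Fin n → R) (y : R)
    (f : Polynomial (MvPolynomial (Fin n) ℤ)) : frobEv x y f = ev2 x y f := rfl

omit [Fact p.Prime] [CharP L p] in
private theorem frob_pp (h : Lift2 p π) : (p : R2) * p = 0 := (h.flat p).2 ⟨1, by ring⟩

omit [Fact p.Prime] [CharP L p] in
private theorem frob_ker (h : Lift2 p π) {a : R2} (ha : π a = 0) : (p : R2) * a = 0 := by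
  obtain ⟨b, rfl⟩ := (h.ker a).1 ha
  rw [← mul_assoc, frob_pp h, zero_mul]

omit [Fact p.Prime] [CharP L p] in
private theorem frob_unit (h : Lift2 p π) {r : R2} (hr : π r ≠ 0) : ∃ s, r * s = 1 := by
  obtain ⟨s, hs⟩ := h.surj (π r)⁻¹
  have h1 : π (r * s - 1) = 0 := by rw [map_sub, map_mul, hs, map_one, mul_inv_cancel₀ hr, sub_self]
  obtain ⟨t, ht⟩ := (h.ker _).1 h1
  refine ⟨s * (1 - p * t), ?_⟩
  have h2 : r * s = 1 + p * t := by rw [← ht]; ring
  have h3 : r * (s * (1 - p * t)) = 1 - (p * p) * (t * t) := by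
    rw [← mul_assoc, h2]; ring
  rw [h3, frob_pp h, zero_mul, sub_zero]

private theorem frobEv_pow (x : Fin n → R2) (y z : R2) (hz : π z = (π y) ^ p)
    (P : Polynomial (MvPolynomial (Fin n) ℤ)) :
    π (frobEv (fun l => x l ^ p) z P) = (π (frobEv x y P)) ^ p := by
  have key : π.comp (frobEv (fun l => x l ^ p) z) = (frobenius L p).comp (π.comp (frobEv x y)) := by
    apply Polynomial.ringHom_ext'
    · apply MvPolynomial.ringHom_ext'
      · exact RingHom.ext_int _ _
      · intro i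
        simp [frobEv, frobenius_def]
    · simp [frobEv, frobenius_def, hz]
  exact congrArg (fun g => g P) key

private theorem frobEv_add (x : Fin n → R2) (y b : R2) (hb : b * b = 0)
    (P : Polynomial (MvPolynomial (Fin n) ℤ)) :
    frobEv x (y + b) P = frobEv x y P + b * frobEv x y P.derivative := by
  have h1 := Polynomial.eval_add_of_sq_eq_zero
    (P.map (MvPolynomial.aeval x : MvPolynomial (Fin n) ℤ →ₐ[ℤ] R2).toRingHom) y b (by rw [sq, hb])
  rw [Polynomial.derivative_map] at h1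
  simp only [Polynomial.eval_map] at h1
  rw [mul_comm b]
  exact h1

/-- **the Frobenius lift of a standard etale chart** -/
theorem exists_frob (h : Lift2 p π) (x : Fin n → R2) (y : R2)
    (f : Polynomial (MvPolynomial (Fin n) ℤ)) (hm : f.Monic) (h0 : ev2 x y f = 0)
    (hD : π (ev2 x y f.derivative) ≠ 0)
    (hind : ∀ P : Polynomial (MvPolynomial (Fin n) ℤ), P.degree < f.degree → π (ev2 x y P) = 0 →
      ∃ Q, P = (p : Polynomial (MvPolynomial (Fin n) ℤ)) * Q)
    (hgen : ∀ a : L, ∃ P Q : Polynomial (MvPolynomial (Fin n) ℤ), π (ev2 x y Q) ≠ 0 ∧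
      a * π (ev2 x y Q) = π (ev2 x y P)) :
    ∃ F : R2 →+* R2, IsFrob p π F ∧ ∀ l, F (x l) = x l ^ p := by
  classical
  simp only [← frobEv_eq] at h0 hD hind hgen
  have hp0 : p ≠ 0 := (Fact.out : p.Prime).ne_zero
  have hpp := frob_pp h
  -- the root
  obtain ⟨w, hw⟩ : ∃ w, frobEv (fun l => x l ^ p) (y ^ p) f = p * w := by
    apply (h.ker _).1
    rw [frobEv_pow x y (y ^ p) (map_pow π y p), h0, map_zero, zero_pow hp0]
  obtain ⟨i, hi⟩ : ∃ i, frobEv (fun l => x l ^ p) (y ^ p) f.derivative * i = 1 := by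
    apply frob_unit h
    rw [frobEv_pow x y (y ^ p) (map_pow π y p)]
    exact pow_ne_zero _ hD
  set z : R2 := y ^ p + p * (-w * i) with hz
  have hπp : π (p : R2) = 0 := by rw [map_natCast]; exact CharP.cast_eq_zero L p
  have hπz : π z = (π y) ^ p := by
    rw [hz, map_add, map_mul, hπp, zero_mul, add_zero, map_pow]
  let Φ := frobEv (fun l => x l ^ p) z
  let j := frobEv x y
  have hΦ : ∀ P, π (Φ P) = (π (j P)) ^ p := fun P => frobEv_pow x y z hπz P
  have hΦf : Φ f = 0 := by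
    change frobEv (fun l => x l ^ p) z f = 0
    rw [hz, frobEv_add _ _ _ (by linear_combination (w * i * (w * i)) * hpp), hw]
    linear_combination (-p * w) * hi
  -- the kernel of `j` is killed by `Φ`
  have hker : ∀ P, j P = 0 → Φ P = 0 := by
    intro P hP
    have hd := Polynomial.modByMonic_add_div P f
    have hP1 : j (P %ₘ f) = 0 := by
      have h1 := congrArg j hd
      rw [map_add, map_mul] at h1
      have h2 : j f = 0 := h0
      rw [h2, zero_mul, add_zero, hP] at h1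
      exact h1
    obtain ⟨Q1, hQ1⟩ := hind (P %ₘ f) (Polynomial.degree_modByMonic_lt P hm)
      (by change π (j (P %ₘ f)) = 0; rw [hP1, map_zero])
    have hpM : ((p : ℕ) : MvPolynomial (Fin n) ℤ) ≠ 0 := by exact_mod_cast hp0
    have hdeg : Q1.degree = (P %ₘ f).degree := by
      rw [hQ1]
      have h3 : (p : Polynomial (MvPolynomial (Fin n) ℤ)) = Polynomial.C ((p : ℕ) : MvPolynomial (Fin n) ℤ) := by
        simp
      rw [h3, Polynomial.degree_C_mul hpM]
    have hjQ : (p : R2) * j Q1 = 0 := by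
      have h4 := congrArg j hQ1
      rw [hP1, map_mul, map_natCast] at h4
      exact h4.symm
    have hπQ : π (j Q1) = 0 := (h.ker _).2 ((h.flat _).1 hjQ)
    obtain ⟨Q2, hQ2⟩ := hind Q1 (by rw [hdeg]; exact Polynomial.degree_modByMonic_lt P hm) hπQ
    rw [← hd, map_add, map_mul, hΦf, zero_mul, add_zero, hQ1, hQ2, map_mul, map_mul, map_natCast,
      ← mul_assoc, hpp, zero_mul]
  -- fractions
  let Rel : R2 → R2 → Prop := fun r s => ∃ P Q, π (j Q) ≠ 0 ∧ r * j Q = j P ∧ s * Φ Q = Φ P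
  have hex : ∀ r, ∃ s, Rel r s := by
    intro r
    obtain ⟨P, Q, hQ, hPQ⟩ := hgen (π r)
    have h1 : π (r * j Q - j P) = 0 := by
      rw [map_sub, map_mul]; exact sub_eq_zero.2 hPQ
    obtain ⟨t, ht⟩ := (h.ker _).1 h1
    obtain ⟨P', Q', hQ', hPQ'⟩ := hgen (π t)
    have h2 : π (t * j Q' - j P') = 0 := by
      rw [map_sub, map_mul]; exact sub_eq_zero.2 hPQ'
    have h3 := frob_ker h h2
    have hne : π (j (Q * Q')) ≠ 0 := by
      rw [map_mul, map_mul]; exact mul_ne_zero hQ hQ'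
    obtain ⟨i', hi'⟩ := frob_unit h (r := Φ (Q * Q')) (by rw [hΦ]; exact pow_ne_zero _ hne)
    refine ⟨Φ (P * Q' + p * P') * i', P * Q' + p * P', Q * Q', hne, ?_, ?_⟩
    · rw [map_mul, map_add, map_mul, map_mul, map_natCast]
      linear_combination (j Q') * ht + h3
    · rw [mul_assoc, mul_comm i', hi', mul_one]
  have huniq : ∀ r s s', Rel r s → Rel r s' → s = s' := by
    rintro r s s' ⟨P, Q, hQ, h1, h2⟩ ⟨P', Q', hQ', h1', h2'⟩
    have h3 : j (P * Q' - P' * Q) = 0 := by
      rw [map_sub, map_mul, map_mul]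
      linear_combination (-j Q') * h1 + (j Q) * h1'
    have h4 := hker _ h3
    rw [map_sub, map_mul, map_mul] at h4
    have hne : π (Φ (Q * Q')) ≠ 0 := by
      rw [hΦ, map_mul, map_mul]; exact pow_ne_zero _ (mul_ne_zero hQ hQ')
    obtain ⟨i', hi'⟩ := frob_unit h hne
    rw [map_mul] at hi'
    linear_combination (-(s - s')) * hi' + i' * (Φ Q' * h2 - Φ Q * h2' + h4)
  let F0 : R2 → R2 := fun r => Classical.choose (hex r)
  have hF0 : ∀ r, Rel r (F0 r) := fun r => Classical.choose_spec (hex r)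
  have hadd : ∀ a b, F0 (a + b) = F0 a + F0 b := by
    intro a b
    refine huniq (a + b) _ _ (hF0 _) ?_
    obtain ⟨P, Q, hQ, h1, h2⟩ := hF0 a
    obtain ⟨P', Q', hQ', h1', h2'⟩ := hF0 b
    refine ⟨P * Q' + P' * Q, Q * Q', ?_, ?_, ?_⟩
    · rw [map_mul, map_mul]; exact mul_ne_zero hQ hQ'
    · simp only [map_mul, map_add]
      linear_combination (j Q') * h1 + (j Q) * h1'
    · simp only [map_mul, map_add]
      linear_combination (Φ Q') * h2 + (Φ Q) * h2'
  have hmul : ∀ a b, F0 (a * b) = F0 a * F0 b := by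
    intro a b
    refine huniq (a * b) _ _ (hF0 _) ?_
    obtain ⟨P, Q, hQ, h1, h2⟩ := hF0 a
    obtain ⟨P', Q', hQ', h1', h2'⟩ := hF0 b
    refine ⟨P * P', Q * Q', ?_, ?_, ?_⟩
    · rw [map_mul, map_mul]; exact mul_ne_zero hQ hQ'
    · simp only [map_mul]
      linear_combination (b * j Q') * h1 + (j P) * h1'
    · simp only [map_mul]
      linear_combination (F0 b * Φ Q') * h2 + (Φ P) * h2'
  have hone : F0 1 = 1 := by
    refine huniq 1 _ _ (hF0 _) ⟨1, 1, ?_, ?_, ?_⟩
    · rw [map_one, map_one]; exact one_ne_zero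
    · simp
    · simp
  have hzero : F0 0 = 0 := by
    refine huniq 0 _ _ (hF0 _) ⟨0, 1, ?_, ?_, ?_⟩
    · rw [map_one, map_one]; exact one_ne_zero
    · simp
    · simp
  refine ⟨{ toFun := F0, map_one' := hone, map_mul' := hmul, map_zero' := hzero, map_add' := hadd },
    ?_, ?_⟩
  · intro r
    change π (F0 r) = (π r) ^ p
    obtain ⟨P, Q, hQ, h1, h2⟩ := hF0 r
    have h3 : π (F0 r) * (π (j Q)) ^ p = (π r) ^ p * (π (j Q)) ^ p := by
      have h4 := congrArg π h2
      rw [map_mul, hΦ, hΦ, ← h1, map_mul, mul_pow] at h4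
      exact h4
    exact mul_right_cancel₀ (pow_ne_zero _ hQ) h3
  · intro l
    change F0 (x l) = x l ^ p
    refine huniq (x l) _ _ (hF0 _) ⟨Polynomial.C (MvPolynomial.X l), 1, ?_, ?_, ?_⟩
    · rw [map_one, map_one]; exact one_ne_zero
    · simp [j, frobEv]
    · simp [Φ, frobEv]

end Pool.Agent.Lib.MP_732f67_ag.KC
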