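import Pool.Agent.Lib.MP_732f67_ag.KC.Etale

/-!
# Project KM, part C: the p-derivation of a standard etale chart preserves its ring
-/

set_option autoImplicit false

namespace Pool.Agent.Lib.MP_732f67_ag.KC

variable {n : ℕ} {L : Type*} [Field L] {p : ℕ} [Fact p.Prime] [CharP L p]

variable {R2 : Type*} [CommRing R2] {π : R2 →+* L}

theorem fs_hom {R S : Type*} [CommRing R] [CommRing S] (F : R →+* S) (x : Fin n → R) (y : R)
    (f : Polynomial (MvPolynomial (Fin n) ℤ)) :
    F (ev2 x y f) = ev2 (fun i => F (x i)) (F y) f := by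
  unfold ev2
  rw [Polynomial.hom_eval₂]
  congr 1
  ext i
  · simp
  · simp

theorem fs_add {R : Type*} [CommRing R] (x : Fin n → R) (y : R)
    (f g : Polynomial (MvPolynomial (Fin n) ℤ)) : ev2 x y (f + g) = ev2 x y f + ev2 x y g := by
  unfold ev2
  rw [Polynomial.eval₂_add]

theorem fs_mul {R : Type*} [CommRing R] (x : Fin n → R) (y : R)
    (f g : Polynomial (MvPolynomial (Fin n) ℤ)) : ev2 x y (f * g) = ev2 x y f * ev2 x y g := by
  unfold ev2
  rw [Polynomial.eval₂_mul]

theorem fs_C {R : Type*} [CommRing R] (x : Fin n → R) (y : R) (a : MvPolynomial (Fin n) ℤ) :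
    ev2 x y (Polynomial.C a) = MvPolynomial.aeval x a := by
  unfold ev2
  rw [Polynomial.eval₂_C]
  rfl

/-- the values are congruent to the Frobenius modulo `p` -/
theorem fs_frob (p : ℕ) [Fact p.Prime] {R : Type*} [CommRing R] (x : Fin n → R) (y : R)
    (f : Polynomial (MvPolynomial (Fin n) ℤ)) :
    ∃ w : R, ev2 (fun i => x i ^ p) (y ^ p) f = ev2 x y f ^ p + p * w := by
  have hp : p.Prime := Fact.out
  have hadd : ∀ a b a' b' : R, (∃ w, a' = a ^ p + p * w) → (∃ w, b' = b ^ p + p * w) →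
      ∃ w, a' + b' = (a + b) ^ p + p * w := by
    rintro a b _ _ ⟨u, rfl⟩ ⟨v, rfl⟩
    obtain ⟨r, hr⟩ := exists_add_pow_prime_eq hp a b
    exact ⟨u + v - a * b * r, by rw [hr]; ring⟩
  have hmul : ∀ a b a' b' : R, (∃ w, a' = a ^ p + p * w) → (∃ w, b' = b ^ p + p * w) →
      ∃ w, a' * b' = (a * b) ^ p + p * w := by
    rintro a b _ _ ⟨u, rfl⟩ ⟨v, rfl⟩
    exact ⟨a ^ p * v + b ^ p * u + p * u * v, by rw [mul_pow]; ring⟩
  have hC : ∀ a : MvPolynomial (Fin n) ℤ, ∃ w : R,
      MvPolynomial.aeval (fun i => x i ^ p) a = (MvPolynomial.aeval x a) ^ p + p * w := by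
    intro a
    induction a using MvPolynomial.induction_on with
    | C a =>
      have h1 : (a : ZMod p) ^ p = (a : ZMod p) := ZMod.pow_card _
      have h2 : ((a ^ p - a : ℤ) : ZMod p) = 0 := by
        push_cast
        rw [h1, sub_self]
      obtain ⟨k, hk⟩ := (ZMod.intCast_zmod_eq_zero_iff_dvd _ _).1 h2
      refine ⟨-(k : R), ?_⟩
      have h3 : (a : R) ^ p - a = p * k := by
        have := congrArg (Int.cast : ℤ → R) hk
        push_cast at this
        exact this
      rw [MvPolynomial.aeval_C, MvPolynomial.aeval_C]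
      simp only [algebraMap_int_eq, eq_intCast]
      linear_combination -h3
    | add a b ha hb =>
      rw [map_add, map_add]
      exact hadd _ _ _ _ ha hb
    | mul_X a i ha =>
      rw [map_mul, map_mul, MvPolynomial.aeval_X, MvPolynomial.aeval_X]
      exact hmul _ _ _ _ ha ⟨0, by rw [mul_zero, add_zero]⟩
  have hY : ∀ k : ℕ, ∃ w : R, ev2 (fun i => x i ^ p) (y ^ p) (Polynomial.X ^ k) =
      ev2 x y (Polynomial.X ^ k) ^ p + p * w := by
    intro k
    refine ⟨0, ?_⟩
    unfold ev2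
    rw [Polynomial.eval₂_pow, Polynomial.eval₂_pow, Polynomial.eval₂_X, Polynomial.eval₂_X, mul_zero,
      add_zero, ← pow_mul, ← pow_mul, mul_comm]
  induction f using Polynomial.induction_on' with
  | add f g hf hg =>
    rw [fs_add, fs_add]
    exact hadd _ _ _ _ hf hg
  | monomial k a =>
    rw [← Polynomial.C_mul_X_pow_eq_monomial, fs_mul, fs_mul]
    refine hmul _ _ _ _ ?_ (hY k)
    rw [fs_C, fs_C]
    exact hC a

/-- the Taylor expansion of the first order -/
theorem fs_taylor {R : Type*} [CommRing R] (x : Fin n → R) (y z : R)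
    (f : Polynomial (MvPolynomial (Fin n) ℤ)) :
    ∃ k : R, ev2 x (y + z) f = ev2 x y f + ev2 x y f.derivative * z + k * z ^ 2 := by
  obtain ⟨k, h2⟩ := (Polynomial.binomExpansion
    (f.map (MvPolynomial.aeval x : MvPolynomial (Fin n) ℤ →ₐ[ℤ] R).toRingHom) y z)
  refine ⟨k, ?_⟩
  rw [Polynomial.derivative_map, Polynomial.eval_map, Polynomial.eval_map, Polynomial.eval_map] at h2
  exact h2

omit [Fact p.Prime] [CharP L p] in
theorem fs_pp (h : Lift2 p π) : (p : R2) * p = 0 := (h.flat p).2 ⟨1, by rw [mul_one]⟩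

/-- the value of the p-derivation at `y` -/
theorem del_root (h : Lift2 p π) {F : R2 →+* R2} {δ : R2 → L} (hδ : IsDel p π F δ) (x : Fin n → R2)
    (hx : ∀ l, F (x l) = x l ^ p) (y : R2) (f : Polynomial (MvPolynomial (Fin n) ℤ))
    (h0 : ev2 x y f = 0) :
    ∃ c ∈ Subring.closure (Set.range x ∪ {y}),
      δ y * (π (ev2 x y f.derivative)) ^ p = π c := by
  have hp : p.Prime := Fact.out
  set B : Subring R2 := Subring.closure (Set.range x ∪ {y}) with hB
  let x' : Fin n → B := fun i => ⟨x i, Subring.subset_closure (Or.inl ⟨i, rfl⟩)⟩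
  let y' : B := ⟨y, Subring.subset_closure (Or.inr rfl)⟩
  have hB1 : ∀ g : Polynomial (MvPolynomial (Fin n) ℤ), ((ev2 x' y' g : B) : R2) = ev2 x y g :=
    fun g => fs_hom B.subtype x' y' g
  have hB2 : ∀ g : Polynomial (MvPolynomial (Fin n) ℤ),
      ((ev2 (fun i => x' i ^ p) (y' ^ p) g : B) : R2) = ev2 (fun i => x i ^ p) (y ^ p) g :=
    fun g => fs_hom B.subtype (fun i => x' i ^ p) (y' ^ p) g
  obtain ⟨w, hw⟩ := fs_frob p x' y' f
  have hw' : ev2 (fun i => x i ^ p) (y ^ p) f = p * (w : R2) := by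
    have := congrArg (Subtype.val : B → R2) hw
    rw [hB2, Subring.coe_add, Subring.coe_pow, hB1, h0, zero_pow hp.ne_zero, zero_add,
      Subring.coe_mul, Subring.coe_natCast] at this
    exact this
  obtain ⟨w1, hw1⟩ := fs_frob p x y f.derivative
  obtain ⟨s, hs, hs'⟩ := hδ y
  obtain ⟨k, hk⟩ := fs_taylor (fun i => x i ^ p) (y ^ p) (p * s) f
  have h1 : ev2 (fun i => x i ^ p) (y ^ p + p * s) f = 0 := by
    have := fs_hom F x y f
    rw [h0, map_zero, hs] at this
    simp only [hx] at this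
    exact this.symm
  have hpp := fs_pp h
  rw [h1, hw', hw1] at hk
  have h2 : (p : R2) * (w + s * ev2 x y f.derivative ^ p) = 0 := by
    linear_combination -hk - (w1 * s + k * s ^ 2) * hpp
  obtain ⟨z, hz⟩ := (h.flat _).1 h2
  have h3 : π (w : R2) + π s * π (ev2 x y f.derivative) ^ p = 0 := by
    have := congrArg π hz
    rw [map_add, map_mul, map_mul, map_pow, map_natCast, CharP.cast_eq_zero, zero_mul] at this
    exact this
  refine ⟨-(w : R2), B.neg_mem w.2, ?_⟩
  rw [hs', map_neg]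
  linear_combination h3

/-- the values of `δ` on a ring generated by elements with values in a bigger ring -/
theorem fs_stab_le (h : Lift2 p π) {F : R2 →+* R2} {δ : R2 → L} (hδ : IsDel p π F δ)
    {A : Subring R2} {S : Set R2} (hSA : S ⊆ A) (hS : ∀ r ∈ S, δ r ∈ A.map π) {r : R2}
    (hr : r ∈ Subring.closure S) : δ r ∈ A.map π := by
  have hp : p.Prime := Fact.out
  have hle : Subring.closure S ≤ A := Subring.closure_le.2 hSA
  have hneg1 : δ (-1) ∈ A.map π := by
    have h1 : ((-1 : ℤ) : ZMod p) ^ p = ((-1 : ℤ) : ZMod p) := ZMod.pow_card _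
    have h2 : (((-1) ^ p - (-1) : ℤ) : ZMod p) = 0 := by
      push_cast
      push_cast at h1
      rw [h1, sub_self]
    obtain ⟨k, hk⟩ := (ZMod.intCast_zmod_eq_zero_iff_dvd _ _).1 h2
    have h3 : (-1 : R2) ^ p - (-1) = p * k := by
      have := congrArg (Int.cast : ℤ → R2) hk
      push_cast at this
      exact this
    have h4 : F (-1) = (-1) ^ p + p * (-(k : R2)) := by
      rw [map_neg, map_one]
      linear_combination -h3
    rw [hδ.unique h h4]
    exact ⟨-(k : R2), A.neg_mem (intCast_mem A k), rfl⟩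
  induction hr using Subring.closure_induction with
  | mem x hx => exact hS x hx
  | zero =>
    have h1 : F 0 = 0 ^ p + p * (0 : R2) := by
      rw [map_zero, zero_pow hp.ne_zero, mul_zero, add_zero]
    rw [hδ.unique h h1, map_zero]
    exact Subring.zero_mem _
  | one =>
    rw [hδ.one h]
    exact Subring.zero_mem _
  | add a b ha hb iha ihb =>
    obtain ⟨s, hs, hs'⟩ := hδ a
    obtain ⟨t, ht, ht'⟩ := hδ b
    obtain ⟨r, hr⟩ := exists_add_pow_prime_eq hp (⟨a, hle ha⟩ : A) ⟨b, hle hb⟩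
    have hr' : (a + b) ^ p = a ^ p + b ^ p + p * a * b * (r : R2) := by
      have := congrArg (Subtype.val : A → R2) hr
      exact this
    have h1 : F (a + b) = (a + b) ^ p + p * (s + t - a * b * r) := by
      rw [map_add, hs, ht, hr']
      ring
    rw [hδ.unique h h1, map_sub, map_add, ← hs', ← ht']
    exact Subring.sub_mem _ (Subring.add_mem _ iha ihb)
      ⟨a * b * r, A.mul_mem (A.mul_mem (hle ha) (hle hb)) r.2, rfl⟩
  | neg a ha iha =>
    have h1 : -a = (-1) * a := by ring
    rw [h1, hδ.mul h]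
    refine Subring.add_mem _ (Subring.mul_mem _ ?_ iha) (Subring.mul_mem _ ?_ hneg1)
    · exact Subring.pow_mem _ (Subring.mem_map.2 ⟨-1, A.neg_mem A.one_mem, rfl⟩) _
    · exact Subring.pow_mem _ (Subring.mem_map.2 ⟨a, hle ha, rfl⟩) _
  | mul a b ha hb iha ihb =>
    rw [hδ.mul h]
    refine Subring.add_mem _ (Subring.mul_mem _ ?_ ihb) (Subring.mul_mem _ ?_ iha)
    · exact Subring.pow_mem _ (Subring.mem_map.2 ⟨a, hle ha, rfl⟩) _
    · exact Subring.pow_mem _ (Subring.mem_map.2 ⟨b, hle hb, rfl⟩) _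

/-- the p-derivation of the chart preserves its ring -/
theorem del_stab (h : Lift2 p π) {F : R2 →+* R2} {δ : R2 → L} (hδ : IsDel p π F δ) (x : Fin n → R2)
    (hx : ∀ l, F (x l) = x l ^ p) (y u v : R2) (f : Polynomial (MvPolynomial (Fin n) ℤ))
    (h0 : ev2 x y f = 0) (hu : u * v = 1) (hv : v ∈ Subring.closure (Set.range x ∪ {y}))
    (hD : ∃ w ∈ Subring.closure (Set.range x ∪ {y, u}), w * ev2 x y f.derivative = 1) :
    DStab δ π (Subring.closure (Set.range x ∪ {y, u})) := by
  set A : Subring R2 := Subring.closure (Set.range x ∪ {y, u}) with hA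
  have hS : (Set.range x ∪ {y} : Set R2) ⊆ A := by
    rintro r (hr | hr)
    · exact Subring.subset_closure (Or.inl hr)
    · exact Subring.subset_closure (Or.inr (Or.inl hr))
  have hle : Subring.closure (Set.range x ∪ {y}) ≤ A := Subring.closure_le.2 hS
  have hxl : ∀ l, δ (x l) ∈ A.map π := by
    intro l
    have h1 : F (x l) = x l ^ p + p * (0 : R2) := by rw [hx, mul_zero, add_zero]
    rw [hδ.unique h h1, map_zero]
    exact Subring.zero_mem _
  have hy : δ y ∈ A.map π := by
    obtain ⟨c, hc, e⟩ := del_root h hδ x hx y f h0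
    obtain ⟨w, hw, hw1⟩ := hD
    refine ⟨c * w ^ p, A.mul_mem (hle hc) (A.pow_mem hw _), ?_⟩
    have h1 : π w * π (ev2 x y f.derivative) = 1 := by rw [← map_mul, hw1, map_one]
    have h2 : π w ^ p * π (ev2 x y f.derivative) ^ p = 1 := by rw [← mul_pow, h1, one_pow]
    rw [map_mul, map_pow, ← e]
    linear_combination δ y * h2
  have hvA : δ v ∈ A.map π := by
    refine fs_stab_le h hδ hS ?_ hv
    rintro r (⟨l, rfl⟩ | hr)
    · exact hxl l
    · rw [Set.mem_singleton_iff] at hr
      rw [hr]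
      exact hy
  have huA : δ u ∈ A.map π := by
    rw [hδ.inv h hu]
    refine Subring.mul_mem _ (Subring.neg_mem _ (Subring.pow_mem _ ?_ _)) hvA
    exact ⟨u, Subring.subset_closure (Or.inr (Or.inr rfl)), rfl⟩
  refine hδ.stab h ?_
  rintro r (⟨l, rfl⟩ | hr | hr)
  · exact hxl l
  · rw [hr]
    exact hy
  · rw [Set.mem_singleton_iff] at hr
    rw [hr]
    exact huA

end Pool.Agent.Lib.MP_732f67_ag.KC
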