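import Mathlib

/-!
# Project KM: the rings of the intersections of the charts

`z j` (`j : Fin N`) are the homogeneous coordinates (elements of the field `L`), the charts are
`z (σ a) ≠ 0`, `a : Λ`; `AJ z σ J` is the ring of the intersection of the charts in `J`.
-/

set_option autoImplicit false

namespace Pool.Agent.Lib.MP_732f67_ag.KC

variable {L : Type*} [Field L] {N : ℕ} {Λ : Type*}

/-- the ring of the intersection of the charts in `J` -/
def AJ (z : Fin N → L) (σ : Λ → Fin N) (J : Finset Λ) : Subring L :=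
  Subring.closure {a | ∃ j, ∃ l ∈ J, a = z j / z (σ l)}

theorem AJ_mono (z : Fin N → L) (σ : Λ → Fin N) {J J' : Finset Λ} (h : J ⊆ J') :
    AJ z σ J ≤ AJ z σ J' := by
  refine Subring.closure_mono ?_
  rintro a ⟨j, l, hl, rfl⟩
  exact ⟨j, l, h hl, rfl⟩

theorem div_mem_AJ (z : Fin N → L) (σ : Λ → Fin N) {J : Finset Λ} {a : Λ} (ha : a ∈ J) (j : Fin N) :
    z j / z (σ a) ∈ AJ z σ J := Subring.subset_closure ⟨j, a, ha, rfl⟩

end Pool.Agent.Lib.MP_732f67_ag.KC
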