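import Pool.Agent.Lib.MP_732f67_ag.KC.Etale
import Pool.Agent.Lib.MP_732f67_ag.KC.Frob
import Pool.Agent.Lib.MP_732f67_ag.KC.Lat
import Pool.Agent.Lib.MP_732f67_ag.KM.AtDefs

/-!
# Project KM, part C: the data in characteristic `p`

`Geo`: a smooth projective variety `W` over `𝔽_p` with function field `L` together with its lift modulo
`p ^ 2`: homogeneous coordinates `zz j` (units of `R2`, `zi j` the inverses), charts `zz (σ a) ≠ 0` which
are standard etale with coordinates `xx a l`, a normal crossing divisor with components `j : E`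
(`ε a j = some l`: the component `j` is `xx a l = 0` on the chart `a`; `none`: it does not meet the chart).

`Pol`: `O(1) = m N` with the ample `ℚ`-divisor `N = G + ∑ α_j E_j`, `αj = m α_j`, `G` an integral divisor
with the local equations `g a` (in part KM: `G = - K_W`, `g = jac`).

`Can`: the rational `m`-canonical form `w (dt) ^ m` with the divisor `- ∑ b i M_i + ∑ ej j E_j`, `M_i` with
the local equations `d a i`.
-/

set_option autoImplicit false

namespace Pool.Agent.Lib.MP_732f67_ag.KC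

variable {n N : ℕ} {L : Type*} [Field L] {Λ E I : Type} {R2 : Type*} [CommRing R2]

theorem AJ_le (z : Fin N → L) (σ : Λ → Fin N) {J : Finset Λ} {a : Λ} (ha : a ∈ J) :
    AJ z σ {a} ≤ AJ z σ J := AJ_mono z σ (Finset.singleton_subset_iff.2 ha)

/-- the local equation of the component `j` on the chart `a` -/
def ep {R : Type*} [One R] (x : Λ → Fin n → R) (ε : Λ → E → Option (Fin n)) (a : Λ) (j : E) : R :=
  (ε a j).elim 1 (x a)

/-- the Jacobian determinant of the coordinates of the chart `a` -/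
noncomputable def jac (D : Fin n → Derivation ℤ L L) (x : Λ → Fin n → L) (a : Λ) : L :=
  (Matrix.of fun l k => D k (x a l)).det

open Classical in
/-- the (log) one forms of the chart `a`: `dx_l / x_l` if `x_l = 0` is a component, `dx_l` otherwise -/
noncomputable def bet (D : Fin n → Derivation ℤ L L) (x : Λ → Fin n → L)
    (ε : Λ → E → Option (Fin n)) (a : Λ) (l : Fin n) : Fin n → L :=
  if ∃ j, ε a j = some l then fun k => D k (x a l) / x a l else fun k => D k (x a l)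

/-- the ring of the intersection of the charts in `J`, modulo `p ^ 2` -/
def A2 (zz zi : Fin N → R2) (σ : Λ → Fin N) (J : Finset Λ) : Subring R2 :=
  Subring.closure {r | ∃ j, ∃ l ∈ J, r = zz j * zi (σ l)}

variable [LinearOrder Λ] [Fintype Λ] [Fintype E]

/-- the charts modulo `p ^ 2` -/
structure Geo (p : ℕ) (π : R2 →+* L) (zz zi : Fin N → R2) (σ : Λ → Fin N) (xx : Λ → Fin n → R2)
    (yy uu : Λ → R2) (f : Λ → Polynomial (MvPolynomial (Fin n) ℤ)) (ε : Λ → E → Option (Fin n)) :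
    Prop where
  lift : Lift2 p π
  inv : ∀ j, zz j * zi j = 1
  monic : ∀ a, (f a).Monic
  root : ∀ a, ev2 (xx a) (yy a) (f a) = 0
  ring_eq : ∀ a, A2 zz zi σ {a} = Subring.closure (Set.range (xx a) ∪ {yy a, uu a})
  uinv : ∀ a, ∃ v ∈ Subring.closure (Set.range (xx a) ∪ {yy a}), uu a * v = 1
  derinv : ∀ a, ∃ w ∈ Subring.closure (Set.range (xx a) ∪ {yy a, uu a}),
    w * ev2 (xx a) (yy a) (f a).derivative = 1
  ind : ∀ a (P : Polynomial (MvPolynomial (Fin n) ℤ)), P.degree < (f a).degree →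
    π (ev2 (xx a) (yy a) P) = 0 → ∃ Q, P = (p : Polynomial (MvPolynomial (Fin n) ℤ)) * Q
  gen : ∀ a (c : L), ∃ P Q : Polynomial (MvPolynomial (Fin n) ℤ), π (ev2 (xx a) (yy a) Q) ≠ 0 ∧
    c * π (ev2 (xx a) (yy a) Q) = π (ev2 (xx a) (yy a) P)
  x_ne : ∀ a l, π (xx a l) ≠ 0
  inj : ∀ a j j' l, ε a j = some l → ε a j' = some l → j = j'
  tr : ∀ a a' j, ∃ v ∈ A2 zz zi σ {a, a'}, ∃ w ∈ A2 zz zi σ {a, a'},
    v * w = 1 ∧ ep xx ε a j = v * ep xx ε a' j
  cover : ∃ M : ℕ, ∀ j, ∃ s : Λ → MvPolynomial (Fin N) ℤ, (∀ a, (s a).IsHomogeneous M) ∧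
    π (zz j) ^ (M + 1) = ∑ a, π (zz (σ a)) * MvPolynomial.aeval (fun i => π (zz i)) (s a)

/-- the charts modulo `p`, with the derivations `D k = ∂/∂t_k` and the Cartier operator `Tr` of the
reference basis: what is used after the construction of the section -/
structure Gp (p : ℕ) (z : Fin N → L) (σ : Λ → Fin N) (x : Λ → Fin n → L)
    (ε : Λ → E → Option (Fin n)) (D : Fin n → Derivation ℤ L L) (Tr : L →+ L) : Prop where
  z_ne : ∀ j, z j ≠ 0
  x_ne : ∀ a l, x a l ≠ 0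
  x_mem : ∀ a l, x a l ∈ AJ z σ {a}
  pb : ∀ a, IsPB p (x a)
  pba : ∀ a, PBA p (AJ z σ {a}) (x a)
  jac_ne : ∀ a, jac D x a ≠ 0
  inj : ∀ a j j' l, ε a j = some l → ε a j' = some l → j = j'
  tr : ∀ a a' j, ∃ v, KM.UnitOf (AJ z σ {a, a'}) v ∧ ep x ε a j = v * ep x ε a' j
  cover : ∃ M : ℕ, ∀ j, ∃ s : Λ → MvPolynomial (Fin N) ℤ, (∀ a, (s a).IsHomogeneous M) ∧
    z j ^ (M + 1) = ∑ a, z (σ a) * MvPolynomial.aeval z (s a)
  Tr_mul : ∀ a b, Tr (a ^ p * b) = a * Tr b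
  trc : ∀ a, ∃ (D' : Fin n → Derivation ℤ L L) (Tr' : L →+ L), Ref p D' (x a) Tr' ∧
    ∀ g, Tr (jac D x a * g) = jac D x a * Tr' g

/-- the polarisation `O(1) = m N`, `N = G + ∑ α_j E_j`, `αj = m α_j` -/
structure Pol (m : ℕ) (z : Fin N → L) (σ : Λ → Fin N) (x : Λ → Fin n → L)
    (ε : Λ → E → Option (Fin n)) (g un : Λ → L) (αj : E → ℤ) : Prop where
  m_pos : 1 ≤ m
  un_unit : ∀ a, KM.UnitOf (AJ z σ {a}) (un a)
  g_ne : ∀ a, g a ≠ 0
  g_tr : ∀ a a', ∃ v, KM.UnitOf (AJ z σ {a, a'}) v ∧ g a = v * g a'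
  O1 : ∀ a, z (σ a) * g a ^ m * ∏ j, ep x ε a j ^ αj j = un a

/-- the rational `m`-canonical form `w (dt) ^ m` with divisor `- ∑ b i M_i + ∑ ej j E_j` -/
structure Can (m : ℕ) (D : Fin n → Derivation ℤ L L) (z : Fin N → L) (σ : Λ → Fin N)
    (x : Λ → Fin n → L) (ε : Λ → E → Option (Fin n)) (uw : Λ → L) (w : L) (ej : E → ℤ)
    [Fintype I] (d : Λ → I → L) (b : I → ℕ) : Prop where
  uw_unit : ∀ a, KM.UnitOf (AJ z σ {a}) (uw a)
  w_ne : w ≠ 0
  d_ne : ∀ a i, d a i ≠ 0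
  d_tr : ∀ a a' i, ∃ v, KM.UnitOf (AJ z σ {a, a'}) v ∧ d a i = v * d a' i
  Om : ∀ a, w * ∏ i, d a i ^ b i = uw a * jac D x a ^ m * ∏ j, ep x ε a j ^ ej j

/-- the rounding up of `α_j = αj / m` -/
def ceα (m : ℕ) (αj : E → ℤ) (j : E) : ℤ := -(-αj j / m)

/-- the local generator of the lattice: `Ω(log E)(-E + ⌈N⌉) ⊗ O(l)` -/
noncomputable def kap (m l : ℕ) (z : Fin N → L) (σ : Λ → Fin N) (x : Λ → Fin n → L)
    (ε : Λ → E → Option (Fin n)) (g : Λ → L) (αj : E → ℤ) (a : Λ) : L :=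
  z (σ a) ^ l * (g a)⁻¹ * ∏ j, ep x ε a j ^ (1 - ceα m αj j)

/-- the local generator of `O(⌈α⌉ E)` -/
noncomputable def phi (m : ℕ) (x : Λ → Fin n → L) (ε : Λ → E → Option (Fin n)) (αj : E → ℤ) (a : Λ) :
    L := ∏ j, ep x ε a j ^ (-ceα m αj j)

end Pool.Agent.Lib.MP_732f67_ag.KC
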