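import Pool.Agent.Lib.MP_732f67_ag.KC.Geo
import Pool.Agent.Lib.MP_732f67_ag.KC.FrobStab

/-!
# Project KM, part C: the charts in characteristic `p`
-/

set_option autoImplicit false
set_option linter.unusedSectionVars false

namespace Pool.Agent.Lib.MP_732f67_ag.KC

variable {n N : ℕ} {L : Type*} [Field L] {Λ E : Type} {R2 : Type*} [CommRing R2]
  [LinearOrder Λ] [Fintype Λ] [Fintype E] {p : ℕ} [Fact p.Prime] [CharP L p] {π : R2 →+* L}
  {zz zi : Fin N → R2} {σ : Λ → Fin N} {xx : Λ → Fin n → R2} {yy uu : Λ → R2}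
  {f : Λ → Polynomial (MvPolynomial (Fin n) ℤ)} {ε : Λ → E → Option (Fin n)}

theorem Geo.z_ne (h : Geo p π zz zi σ xx yy uu f ε) (j : Fin N) : π (zz j) ≠ 0 := by
  intro h0
  have h1 := congrArg π (h.inv j)
  rw [map_mul, h0, zero_mul, map_one] at h1
  exact zero_ne_one h1

theorem Geo.zi_eq (h : Geo p π zz zi σ xx yy uu f ε) (j : Fin N) : π (zi j) = (π (zz j))⁻¹ := by
  have h1 := congrArg π (h.inv j)
  rw [map_mul, map_one] at h1
  exact eq_inv_of_mul_eq_one_right h1

/-- the values of polynomials are in the ring generated -/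
theorem gA_ev2_mem {R : Type*} [CommRing R] (x : Fin n → R) (y : R)
    (g : Polynomial (MvPolynomial (Fin n) ℤ)) :
    ev2 x y g ∈ Subring.closure (Set.range x ∪ {y}) := by
  set B : Subring R := Subring.closure (Set.range x ∪ {y})
  let x' : Fin n → B := fun i => ⟨x i, Subring.subset_closure (Or.inl ⟨i, rfl⟩)⟩
  let y' : B := ⟨y, Subring.subset_closure (Or.inr rfl)⟩
  have : B.subtype (ev2 x' y' g) = ev2 x y g := fs_hom B.subtype x' y' g
  rw [← this]
  exact (ev2 x' y' g).2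

theorem gA_ep (x : Λ → Fin n → R2) (ε : Λ → E → Option (Fin n)) (a : Λ) (j : E) :
    ep (fun a l => π (x a l)) ε a j = π (ep x ε a j) := by
  unfold ep
  cases ε a j with
  | none => exact (map_one π).symm
  | some l => rfl

/-- reduction of the rings modulo `p` -/
theorem Geo.map_A2 (h : Geo p π zz zi σ xx yy uu f ε) (J : Finset Λ) :
    (A2 zz zi σ J).map π = AJ (fun j => π (zz j)) σ J := by
  rw [A2, AJ, RingHom.map_closure]
  congr 1
  ext a
  constructor
  · rintro ⟨_, ⟨j, l, hl, rfl⟩, rfl⟩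
    exact ⟨j, l, hl, by rw [map_mul, h.zi_eq, div_eq_mul_inv]⟩
  · rintro ⟨j, l, hl, rfl⟩
    exact ⟨_, ⟨j, l, hl, rfl⟩, by rw [map_mul, h.zi_eq, div_eq_mul_inv]⟩

/-- the charts in characteristic `p` are standard etale -/
theorem Geo.et (h : Geo p π zz zi σ xx yy uu f ε) (a : Λ) :
    EtCh p (AJ (fun j => π (zz j)) σ {a}) (fun l => π (xx a l)) (π (yy a)) (π (uu a)) (f a) := by
  have hr1 : π '' (Set.range (xx a) ∪ {yy a}) = Set.range (fun l => π (xx a l)) ∪ {π (yy a)} := by
    rw [Set.image_union, Set.image_singleton, ← Set.range_comp]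
    rfl
  have hr2 : π '' (Set.range (xx a) ∪ {yy a, uu a}) =
      Set.range (fun l => π (xx a l)) ∪ {π (yy a), π (uu a)} := by
    rw [Set.image_union, Set.image_pair, ← Set.range_comp]
    rfl
  have hB : (Subring.closure (Set.range (xx a) ∪ {yy a})).map π =
      Subring.closure (Set.range (fun l => π (xx a l)) ∪ {π (yy a)}) := by
    rw [RingHom.map_closure, hr1]
  have hA : (Subring.closure (Set.range (xx a) ∪ {yy a, uu a})).map π =
      Subring.closure (Set.range (fun l => π (xx a l)) ∪ {π (yy a), π (uu a)}) := by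
    rw [RingHom.map_closure, hr2]
  have hAJ : AJ (fun j => π (zz j)) σ {a} =
      Subring.closure (Set.range (fun l => π (xx a l)) ∪ {π (yy a), π (uu a)}) := by
    rw [← h.map_A2, h.ring_eq, hA]
  have hev : ∀ g : Polynomial (MvPolynomial (Fin n) ℤ), π (ev2 (xx a) (yy a) g) =
      ev2 (fun l => π (xx a l)) (π (yy a)) g := fun g => fs_hom π (xx a) (yy a) g
  obtain ⟨w, hw, hw1⟩ := h.derinv a
  obtain ⟨v, hv, hv1⟩ := h.uinv a
  have hw2 := congrArg π hw1
  rw [map_mul, map_one, hev] at hw2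
  have hv2 := congrArg π hv1
  rw [map_mul, map_one] at hv2
  refine ⟨h.monic a, ?_, ?_, ?_, ?_, ?_, hAJ, ?_, ?_⟩
  · rw [← hev, h.root, map_zero]
  · exact right_ne_zero_of_mul_eq_one hw2
  · rw [hAJ, ← hA, ← eq_inv_of_mul_eq_one_left hw2]
    exact ⟨w, hw, rfl⟩
  · exact left_ne_zero_of_mul_eq_one hv2
  · rw [← hB, ← eq_inv_of_mul_eq_one_right hv2]
    exact ⟨v, hv, rfl⟩
  · intro P hP
    have h1 : (Polynomial.C P).degree < (f a).degree := by
      refine lt_of_le_of_lt Polynomial.degree_C_le ?_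
      by_contra h2
      have h3 : f a = 1 := by
        refine Polynomial.eq_one_of_monic_natDegree_zero (h.monic a) ?_
        exact Polynomial.natDegree_eq_zero_iff_degree_le_zero.2 (not_lt.1 h2)
      have h4 := congrArg π (h.root a)
      rw [h3, map_zero, ev2, Polynomial.eval₂_one, map_one] at h4
      exact one_ne_zero h4
    have h2 : π (ev2 (xx a) (yy a) (Polynomial.C P)) = 0 := by
      rw [hev, ev2, Polynomial.eval₂_C]
      exact hP
    obtain ⟨Q, hQ⟩ := h.ind a _ h1 h2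
    refine ⟨Q.coeff 0, ?_⟩
    have := congrArg (fun q => Polynomial.coeff q 0) hQ
    simpa using this
  · intro c
    obtain ⟨P, Q, hQ, hc⟩ := h.gen a c
    rw [hev] at hQ
    rw [hev, hev] at hc
    exact ⟨_, gA_ev2_mem _ _ P, _, gA_ev2_mem _ _ Q, hQ, eq_div_of_mul_eq hQ hc⟩

/-- the transition units in characteristic `p` -/
theorem Geo.tr1 (h : Geo p π zz zi σ xx yy uu f ε) (a a' : Λ) (j : E) :
    ∃ v, KM.UnitOf (AJ (fun j => π (zz j)) σ {a, a'}) v ∧
      ep (fun a l => π (xx a l)) ε a j = v * ep (fun a l => π (xx a l)) ε a' j := by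
  obtain ⟨v, hv, w, hw, hvw, he⟩ := h.tr a a' j
  have h1 := congrArg π hvw
  rw [map_mul, map_one] at h1
  refine ⟨π v, ⟨left_ne_zero_of_mul_eq_one h1, ?_, ?_⟩, ?_⟩
  · rw [← h.map_A2]
    exact ⟨v, hv, rfl⟩
  · rw [← h.map_A2, ← eq_inv_of_mul_eq_one_right h1]
    exact ⟨w, hw, rfl⟩
  · rw [gA_ep, gA_ep, he, map_mul]

end Pool.Agent.Lib.MP_732f67_ag.KC
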