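import Pool.Agent.Lib.MP_732f67_ag.KC.GeoA

/-!
# Project KM, part C: the log forms of the charts
-/

set_option autoImplicit false

namespace Pool.Agent.Lib.MP_732f67_ag.KC

variable {n N : ℕ} {L : Type*} [Field L] {Λ E : Type} {R2 : Type*} [CommRing R2]
  [LinearOrder Λ] [Fintype Λ] [Fintype E] {p : ℕ} [Fact p.Prime] [CharP L p] {π : R2 →+* L}
  {zz zi : Fin N → R2} {σ : Λ → Fin N} {xx : Λ → Fin n → R2} {yy uu : Λ → R2}
  {f : Λ → Polynomial (MvPolynomial (Fin n) ℤ)} {ε : Λ → E → Option (Fin n)}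
  {D : Fin n → Derivation ℤ L L} {t : Fin n → L} {Tr : L →+ L}

/-- the elements of `A` whose differentials are combinations of the `dx_l` with coefficients in
`A` -/
def goodD {n : ℕ} {L : Type*} [Field L] (D : Fin n → Derivation ℤ L L) (A : Subring L)
    (x : Fin n → L) : Subring L where
  carrier := {a | a ∈ A ∧ ∃ c : Fin n → L, (∀ l, c l ∈ A) ∧ ∀ k, D k a = ∑ l, c l * D k (x l)}
  zero_mem' := ⟨A.zero_mem, 0, fun _ => A.zero_mem, fun k => by simp⟩
  one_mem' := ⟨A.one_mem, 0, fun _ => A.zero_mem, fun k => by simp⟩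
  add_mem' := by
    rintro a b ⟨ha, c, hc, hc'⟩ ⟨hb, d, hd, hd'⟩
    refine ⟨A.add_mem ha hb, c + d, fun l => A.add_mem (hc l) (hd l), fun k => ?_⟩
    rw [map_add, hc', hd', ← Finset.sum_add_distrib]
    exact Finset.sum_congr rfl fun l _ => by rw [Pi.add_apply, add_mul]
  neg_mem' := by
    rintro a ⟨ha, c, hc, hc'⟩
    refine ⟨A.neg_mem ha, -c, fun l => A.neg_mem (hc l), fun k => ?_⟩
    rw [map_neg, hc', ← Finset.sum_neg_distrib]
    exact Finset.sum_congr rfl fun l _ => by rw [Pi.neg_apply, neg_mul]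
  mul_mem' := by
    rintro a b ⟨ha, c, hc, hc'⟩ ⟨hb, d, hd, hd'⟩
    refine ⟨A.mul_mem ha hb, fun l => a * d l + b * c l,
      fun l => A.add_mem (A.mul_mem ha (hd l)) (A.mul_mem hb (hc l)), fun k => ?_⟩
    rw [Derivation.leibniz, hc', hd', smul_eq_mul, smul_eq_mul, Finset.mul_sum, Finset.mul_sum,
      ← Finset.sum_add_distrib]
    exact Finset.sum_congr rfl fun l _ => by ring

omit [LinearOrder Λ] [Fintype Λ] [Fintype E] [Fact p.Prime] [CharP L p] in
/-- the good elements contain the inverses which lie in the ring -/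
theorem goodD_inv {D : Fin n → Derivation ℤ L L} {A : Subring L} {x : Fin n → L} {a : L}
    (ha : a ∈ goodD D A x) (hi : a⁻¹ ∈ A) : a⁻¹ ∈ goodD D A x := by
  obtain ⟨ha, c, hc, hc'⟩ := ha
  refine ⟨hi, fun l => -(a⁻¹ * a⁻¹) * c l,
    fun l => A.mul_mem (A.neg_mem (A.mul_mem hi hi)) (hc l), fun k => ?_⟩
  rw [Derivation.leibniz_inv, hc', smul_eq_mul, Finset.mul_sum]
  exact Finset.sum_congr rfl fun l _ => by ring

/-- the coordinates of the chart `a` on all `J ∋ a` -/
theorem Geo.derA (h : Geo p π zz zi σ xx yy uu f ε) (D : Fin n → Derivation ℤ L L)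
    {J : Finset Λ} {a : Λ} (ha : a ∈ J) :
    DerA D (AJ (fun j => π (zz j)) σ J) (fun l => π (xx a l)) := by
  have h1 := (h.et a).derA D
  have hle := AJ_le (fun j => π (zz j)) σ ha
  have hG : AJ (fun j => π (zz j)) σ {a} ≤
      goodD D (AJ (fun j => π (zz j)) σ J) (fun l => π (xx a l)) := by
    intro x hx
    obtain ⟨c, hc, hc'⟩ := h1.2 x hx
    exact ⟨hle hx, c, fun l => hle (hc l), hc'⟩
  refine ⟨fun l => hle (h1.1 l), ?_⟩
  have h2 : AJ (fun j => π (zz j)) σ J ≤
      goodD D (AJ (fun j => π (zz j)) σ J) (fun l => π (xx a l)) := by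
    refine Subring.closure_le.2 ?_
    rintro x ⟨j, l, hl, rfl⟩
    have hg1 := hG (div_mem_AJ (fun j => π (zz j)) σ (Finset.mem_singleton_self a) j)
    have hg2 := hG (div_mem_AJ (fun j => π (zz j)) σ (Finset.mem_singleton_self a) (σ l))
    have hg3 : (π (zz (σ l)) / π (zz (σ a)))⁻¹ ∈ AJ (fun j => π (zz j)) σ J := by
      rw [inv_div]
      exact div_mem_AJ (fun j => π (zz j)) σ hl (σ a)
    have hg4 := goodD_inv hg2 hg3
    have hne := h.z_ne (σ a)
    have h3 : π (zz j) / π (zz (σ l)) =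
        π (zz j) / π (zz (σ a)) * (π (zz (σ l)) / π (zz (σ a)))⁻¹ := by
      rw [inv_div, div_mul_div_cancel₀ hne]
    show π (zz j) / π (zz (σ l)) ∈ _
    rw [h3]
    exact Subring.mul_mem _ hg1 hg4
  intro x hx
  exact (h2 hx).2

/-- the forms `dx_l` of the chart `a` -/
theorem Geo.dx_mem (h : Geo p π zz zi σ xx yy uu f ε) {J : Finset Λ} {a : Λ}
    (ha : a ∈ J) (l : Fin n) :
    (om (fun k => D k (π (xx a l))) : Fm n L) ∈
      Log (AJ (fun j => π (zz j)) σ J) (bet D (fun a l => π (xx a l)) ε a) := by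
  have h1 := om_mem_Log (AJ (fun j => π (zz j)) σ J) (bet D (fun a l => π (xx a l)) ε a) l
  by_cases hj : ∃ j, ε a j = some l
  · have h2 : (om (fun k => D k (π (xx a l))) : Fm n L) =
        fn (π (xx a l)) * om (bet D (fun a l => π (xx a l)) ε a l) := by
      rw [fn_smul, ← om_smul]
      congr 1
      funext k
      rw [bet, if_pos hj, mul_div_cancel₀]
      exact h.x_ne a l
    rw [h2]
    exact Subring.mul_mem _ (fn_mem_Log ((h.derA D ha).1 l)) h1
  · rw [bet, if_neg hj] at h1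
    exact h1

/-- `dx ∈ Log` for `x` in the ring of `J` -/
theorem Geo.dA (h : Geo p π zz zi σ xx yy uu f ε) (hr : Ref p D t Tr) {J : Finset Λ} {a : Λ}
    (ha : a ∈ J) {x : L} (hx : x ∈ AJ (fun j => π (zz j)) σ J) :
    dd D (fn x) ∈ Log (AJ (fun j => π (zz j)) σ J) (bet D (fun a l => π (xx a l)) ε a) := by
  obtain ⟨c, hc, hc'⟩ := (h.derA D ha).2 x hx
  have h1 : (dd D (fn x) : Fm n L) = ∑ l, fn (c l) * om (fun k => D k (π (xx a l))) := by
    rw [dd_fn]
    have h2 : (fun k => D k x) = ∑ l, fun k => c l * D k (π (xx a l)) := by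
      funext k
      rw [hc', Finset.sum_apply]
    rw [h2, ← omL_apply, map_sum]
    refine Finset.sum_congr rfl (fun l _ => ?_)
    rw [omL_apply, om_smul, fn_smul]
  rw [h1]
  exact Subring.sum_mem _ (fun l _ => Subring.mul_mem _ (fn_mem_Log (hc l)) (h.dx_mem ha l))

/-- `dlog` of the local equations -/
theorem Geo.dlog_ep (h : Geo p π zz zi σ xx yy uu f ε) (hr : Ref p D t Tr) (a : Λ) (j : E) :
    (ep (fun a l => π (xx a l)) ε a j)⁻¹ • dd D (fn (ep (fun a l => π (xx a l)) ε a j)) ∈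
      Log (AJ (fun j => π (zz j)) σ {a}) (bet D (fun a l => π (xx a l)) ε a) := by
  cases hj : ε a j with
  | none =>
    have h1 : ep (fun a l => π (xx a l)) ε a j = 1 := by
      rw [ep, hj]
      rfl
    rw [h1, fn_one, dd_one, smul_zero]
    exact Subring.zero_mem _
  | some l =>
    have h1 : ep (fun a l => π (xx a l)) ε a j = π (xx a l) := by
      rw [ep, hj]
      rfl
    have h2 : (π (xx a l))⁻¹ • dd D (fn (π (xx a l))) =
        om (bet D (fun a l => π (xx a l)) ε a l) := by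
      rw [dd_fn, ← om_smul]
      congr 1
      funext k
      rw [bet, if_pos ⟨j, hj⟩, div_eq_inv_mul]
    rw [h1, h2]
    exact om_mem_Log _ _ l

theorem Geo.chβ (h : Geo p π zz zi σ xx yy uu f ε) (hr : Ref p D t Tr) {J : Finset Λ} {a b : Λ}
    (ha : a ∈ J) (hb : b ∈ J) (l : Fin n) :
    om (bet D (fun a l => π (xx a l)) ε a l) ∈
      Log (AJ (fun j => π (zz j)) σ J) (bet D (fun a l => π (xx a l)) ε b) := by
  by_cases hj : ∃ j, ε a j = some l
  · obtain ⟨j, hj⟩ := hj
    have h1 : ep (fun a l => π (xx a l)) ε a j = π (xx a l) := by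
      rw [ep, hj]
      rfl
    have h2 : (om (bet D (fun a l => π (xx a l)) ε a l) : Fm n L) =
        (π (xx a l))⁻¹ • dd D (fn (π (xx a l))) := by
      rw [dd_fn, ← om_smul]
      congr 1
      funext k
      rw [bet, if_pos ⟨j, hj⟩, div_eq_inv_mul]
    obtain ⟨v, ⟨hv0, hv, hv'⟩, he⟩ := h.tr1 a b j
    have hle : AJ (fun j => π (zz j)) σ {a, b} ≤ AJ (fun j => π (zz j)) σ J := by
      refine AJ_mono _ σ ?_
      intro c hc
      rw [Finset.mem_insert, Finset.mem_singleton] at hc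
      rcases hc with rfl | rfl
      · exact ha
      · exact hb
    set eb := ep (fun a l => π (xx a l)) ε b j with hebdef
    have heb : eb ≠ 0 := by
      intro h0
      rw [h0, mul_zero, h1] at he
      exact h.x_ne a l he
    have h3 : (π (xx a l))⁻¹ • dd D (fn (π (xx a l))) =
        fn v⁻¹ * dd D (fn v) + eb⁻¹ • dd D (fn eb) := by
      have e1 : (v * eb)⁻¹ * eb = v⁻¹ := by
        field_simp
      have e2 : (v * eb)⁻¹ * v = eb⁻¹ := by
        field_simp
      rw [← h1, he, fn_mul, dd_fn_mul, ← fn_comm eb (dd D (fn v)), fn_smul, fn_smul, fn_smul,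
        smul_add, smul_smul, smul_smul, e1, e2]
    rw [h2, h3]
    refine Subring.add_mem _ (Subring.mul_mem _ (fn_mem_Log (hle hv')) (h.dA hr hb (hle hv))) ?_
    exact Log_mono (AJ_le (fun j => π (zz j)) σ hb) (fun l => om_mem_Log _ _ l)
      (h.dlog_ep hr b j)
  · have h1 : (om (bet D (fun a l => π (xx a l)) ε a l) : Fm n L) = dd D (fn (π (xx a l))) := by
      rw [bet, if_neg hj, dd_fn]
    rw [h1]
    exact h.dA hr hb ((h.derA D ha).1 l)

theorem Geo.closed (h : Geo p π zz zi σ xx yy uu f ε) (hr : Ref p D t Tr) (a : Λ) (l : Fin n) :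
    dd D (om (bet D (fun a l => π (xx a l)) ε a l)) = 0 := by
  by_cases hj : ∃ j, ε a j = some l
  · have h2 : (om (bet D (fun a l => π (xx a l)) ε a l) : Fm n L) =
        (π (xx a l))⁻¹ • dd D (fn (π (xx a l))) := by
      rw [dd_fn, ← om_smul]
      congr 1
      funext k
      rw [bet, if_pos hj, div_eq_inv_mul]
    have h3 : (dd D (fn (π (xx a l))⁻¹) : Fm n L) =
        (-(π (xx a l))⁻¹ ^ 2) • om (fun k => D k (π (xx a l))) := by
      rw [dd_fn, ← om_smul]
      congr 1
      funext k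
      rw [Derivation.leibniz_inv, smul_eq_mul]
    rw [h2, dd_smul, dd_dd D hr.comm, smul_zero, add_zero, h3, dd_fn, smul_mul_assoc, om_mul_self,
      smul_zero]
  · rw [bet, if_neg hj, ← dd_fn, dd_dd D hr.comm]

end Pool.Agent.Lib.MP_732f67_ag.KC
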