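import Pool.Agent.Lib.MP_732f67_ag.KC.GeoB

/-!
# Project KM, part C: integrality of the Frobenius lifts on log forms, one chart
-/

set_option autoImplicit false

namespace Pool.Agent.Lib.MP_732f67_ag.KC

variable {n N : ℕ} {L : Type*} [Field L] {Λ E : Type} {R2 : Type*} [CommRing R2]
  [LinearOrder Λ] [Fintype Λ] [Fintype E] {p : ℕ} [Fact p.Prime] [CharP L p] {π : R2 →+* L}
  {zz zi : Fin N → R2} {σ : Λ → Fin N} {xx : Λ → Fin n → R2} {yy uu : Λ → R2}
  {f : Λ → Polynomial (MvPolynomial (Fin n) ℤ)} {ε : Λ → E → Option (Fin n)}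
  {D : Fin n → Derivation ℤ L L} {t : Fin n → L} {Tr : L →+ L} {tt : Fin n → R2}

/-- the Frobenius lift of the chart `a` on its log forms -/
theorem Geo.fβ (h : Geo p π zz zi σ xx yy uu f ε) (ht : IsPB p t) (hr : Ref p D t Tr)
    (htt : ∀ k, π (tt k) = t k) {a : Λ} {F : R2 →+* R2} {δ : R2 → L} (hδ : IsDel p π F δ)
    (hF : ∀ l, F (xx a l) = xx a l ^ p) (l : Fin n) :
    om (fv p D t (fun k => δ (tt k)) (bet D (fun a l => π (xx a l)) ε a l)) ∈
      Log (AJ (fun j => π (zz j)) σ {a}) (bet D (fun a l => π (xx a l)) ε a) := by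
  classical
  have hp : p.Prime := Fact.out
  have hx0 : π (xx a l) ≠ 0 := h.x_ne a l
  have hδ0 : δ (xx a l) = 0 := by
    rw [hδ.unique h.lift (r := xx a l) (s := 0) (by rw [hF l, mul_zero, add_zero]), map_zero]
  have hfd : ∀ j, ∑ k, D k (π (xx a l)) ^ p * ((if j = k then t k ^ (p - 1) else 0) +
      D j (δ (tt k))) = π (xx a l) ^ (p - 1) * D j (π (xx a l)) := by
    intro j
    have h1 := hδ.fv_eq h.lift ht hr htt (xx a l) j
    rw [hδ0, map_zero, add_zero] at h1
    exact h1
  by_cases hc : ∃ j, ε a j = some l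
  · have hb : bet D (fun a l => π (xx a l)) ε a l = fun k => D k (π (xx a l)) / π (xx a l) :=
      if_pos hc
    have hfb : fv p D t (fun k => δ (tt k)) (bet D (fun a l => π (xx a l)) ε a l) =
        bet D (fun a l => π (xx a l)) ε a l := by
      rw [hb]
      funext j
      show ∑ k, (D k (π (xx a l)) / π (xx a l)) ^ p *
        ((if j = k then t k ^ (p - 1) else 0) + D j (δ (tt k))) = D j (π (xx a l)) / π (xx a l)
      have h2 : ∑ k, (D k (π (xx a l)) / π (xx a l)) ^ p *
          ((if j = k then t k ^ (p - 1) else 0) + D j (δ (tt k))) =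
          ((π (xx a l))⁻¹) ^ p * (π (xx a l) ^ (p - 1) * D j (π (xx a l))) := by
        rw [← hfd j, Finset.mul_sum]
        refine Finset.sum_congr rfl fun k _ => ?_
        rw [div_eq_mul_inv, mul_pow]
        ring
      rw [h2]
      have h3 : π (xx a l) ^ p = π (xx a l) ^ (p - 1) * π (xx a l) := by
        rw [← pow_succ, Nat.sub_add_cancel hp.one_le]
      rw [inv_pow, h3]
      field_simp
    rw [hfb]
    exact om_mem_Log _ _ l
  · have hb : bet D (fun a l => π (xx a l)) ε a l = fun k => D k (π (xx a l)) := if_neg hc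
    have hfb : fv p D t (fun k => δ (tt k)) (bet D (fun a l => π (xx a l)) ε a l) =
        fun k => π (xx a l) ^ (p - 1) * bet D (fun a l => π (xx a l)) ε a l k := by
      rw [hb]
      funext j
      exact hfd j
    rw [hfb, om_smul, ← fn_smul]
    exact Subring.mul_mem _ (fn_mem_Log (Subring.pow_mem _ ((h.et a).x_mem l) _))
      (om_mem_Log _ _ l)

end Pool.Agent.Lib.MP_732f67_ag.KC
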