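import Pool.Agent.Lib.MP_732f67_ag.KC.GeoJ

/-!
# Project KM, part C: the generators of the lattices

`kap` is the local generator of `Ω(log E)(-E + ⌈N⌉) ⊗ O(l)`, `p = m l + 1`.
-/

set_option autoImplicit false
set_option linter.unusedSectionVars false

namespace Pool.Agent.Lib.MP_732f67_ag.KC

variable {n N : ℕ} {L : Type*} [Field L] {Λ E : Type} {R2 : Type*} [CommRing R2]
  [LinearOrder Λ] [Fintype Λ] [Fintype E] {p : ℕ} [Fact p.Prime] [CharP L p] {π : R2 →+* L}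
  {zz zi : Fin N → R2} {σ : Λ → Fin N} {xx : Λ → Fin n → R2} {yy uu : Λ → R2}
  {f : Λ → Polynomial (MvPolynomial (Fin n) ℤ)} {ε : Λ → E → Option (Fin n)}
  {D : Fin n → Derivation ℤ L L} {t : Fin n → L} {Tr : L →+ L} {tt : Fin n → R2}
  {m l : ℕ} {g un : Λ → L} {αj : E → ℤ}

/-- `α_j ≤ ⌈α_j⌉ < α_j + 1` -/
theorem ceα_spec (hm : 1 ≤ m) (αj : E → ℤ) (j : E) :
    αj j ≤ m * ceα m αj j ∧ (m : ℤ) * ceα m αj j < αj j + m := by
  have hm' : (0 : ℤ) < m := by exact_mod_cast hm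
  have h1 := Int.mul_ediv_add_emod (-αj j) m
  have h2 := Int.emod_nonneg (-αj j) hm'.ne'
  have h3 := Int.emod_lt_of_pos (-αj j) hm'
  rw [ceα, mul_neg]
  constructor <;> linarith

omit [LinearOrder Λ] [Fintype Λ] [Fintype E] in
theorem ep_ne {x : Λ → Fin n → L} (hx : ∀ a l, x a l ≠ 0) (ε : Λ → E → Option (Fin n)) (a : Λ) (j : E) :
    ep x ε a j ≠ 0 := by
  unfold ep
  cases ε a j with
  | none => exact one_ne_zero
  | some l => exact hx a l

theorem gD_zpow {A : Subring L} {v : L} (hv : KM.UnitOf A v) (k : ℤ) : v ^ k ∈ A := by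
  obtain ⟨k, rfl | rfl⟩ := k.eq_nat_or_neg
  · rw [zpow_natCast]
    exact A.pow_mem hv.2.1 _
  · rw [zpow_neg, zpow_natCast, ← inv_pow]
    exact A.pow_mem hv.2.2 _

/-- the generator of the lattice up to `p`-th powers -/
theorem Pol.kap_eq {z : Fin N → L} {x : Λ → Fin n → L} (hz : ∀ j, z j ≠ 0) (hx : ∀ a l, x a l ≠ 0)
    (hP : Pol m z σ x ε g un αj) (hm : p = m * l + 1) (a : Λ) :
    kap m l z σ x ε g αj a =
      un a ^ l * ((g a)⁻¹) ^ p * ∏ j, ep x ε a j ^ (1 - ceα m αj j - l * αj j) := by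
  have _ := hz
  have hg := hP.g_ne a
  have h1 : ∏ j, ep x ε a j ^ (1 - ceα m αj j) =
      (∏ j, ep x ε a j ^ αj j) ^ l * ∏ j, ep x ε a j ^ (1 - ceα m αj j - l * αj j) := by
    rw [← Finset.prod_pow, ← Finset.prod_mul_distrib]
    refine Finset.prod_congr rfl fun j _ => ?_
    rw [← zpow_natCast (ep x ε a j ^ αj j) l, ← zpow_mul, ← zpow_add₀ (ep_ne hx ε a j)]
    congr 1
    ring
  rw [kap, h1, ← hP.O1 a, hm, pow_succ, mul_pow, mul_pow, ← pow_mul, inv_pow]
  field_simp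

theorem Geo.chκ (h : Geo p π zz zi σ xx yy uu f ε)
    (hP : Pol m (fun j => π (zz j)) σ (fun a l => π (xx a l)) ε g un αj) (l : ℕ) {J : Finset Λ}
    {a b : Λ} (ha : a ∈ J) (hb : b ∈ J) :
    ∃ c ∈ AJ (fun j => π (zz j)) σ J,
      kap m l (fun j => π (zz j)) σ (fun a l => π (xx a l)) ε g αj a =
        kap m l (fun j => π (zz j)) σ (fun a l => π (xx a l)) ε g αj b * c := by
  classical
  have hz : ∀ j, π (zz j) ≠ 0 := h.z_ne
  obtain ⟨w, hw, hgw⟩ := hP.g_tr b a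
  choose v hv hev using fun j => h.tr1 a b j
  have hab : ({a, b} : Finset Λ) ⊆ J := by
    intro c hc
    rw [Finset.mem_insert, Finset.mem_singleton] at hc
    rcases hc with rfl | rfl
    · exact ha
    · exact hb
  have hba : ({b, a} : Finset Λ) ⊆ J := by
    rw [Finset.pair_comm]
    exact hab
  refine ⟨(π (zz (σ a)) / π (zz (σ b))) ^ l * w * ∏ j, v j ^ (1 - ceα m αj j), ?_, ?_⟩
  · refine Subring.mul_mem _ (Subring.mul_mem _ (Subring.pow_mem _
      (div_mem_AJ (fun j => π (zz j)) σ hb (σ a)) _) (AJ_mono _ σ hba hw.2.1)) ?_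
    exact Subring.prod_mem _ fun j _ => AJ_mono _ σ hab (gD_zpow (hv j) _)
  · have h1 : ∏ j, ep (fun a l => π (xx a l)) ε a j ^ (1 - ceα m αj j) =
        (∏ j, v j ^ (1 - ceα m αj j)) *
          ∏ j, ep (fun a l => π (xx a l)) ε b j ^ (1 - ceα m αj j) := by
      rw [← Finset.prod_mul_distrib]
      refine Finset.prod_congr rfl fun j _ => ?_
      rw [hev j, mul_zpow]
    have hg := hP.g_ne a
    have hz1 := hz (σ b)
    rw [kap, kap, h1, hgw, div_pow]
    have hw0 := hw.1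
    field_simp

theorem Geo.κdet (h : Geo p π zz zi σ xx yy uu f ε) (ht : IsPB p t) (hr : Ref p D t Tr)
    (hP : Pol m (fun j => π (zz j)) σ (fun a l => π (xx a l)) ε g un αj) (hm : p = m * l + 1)
    {v : L} (a : Λ) (hv : v * (jac D (fun a l => π (xx a l)) a)⁻¹ * g a *
      ∏ j, ep (fun a l => π (xx a l)) ε a j ^ ceα m αj j ∈ AJ (fun j => π (zz j)) σ {a}) :
    ∃ c ∈ AJ (fun j => π (zz j)) σ {a},
      v ^ p * ((Matrix.of (bet D (fun a l => π (xx a l)) ε a)).det⁻¹) ^ p =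
        kap m l (fun j => π (zz j)) σ (fun a l => π (xx a l)) ε g αj a * c := by
  have hm1 := hP.m_pos
  have hj := h.jac_ne ht hr a
  have hdet := h.det_bet D a
  have hg := hP.g_ne a
  have hun := hP.un_unit a
  have hx : ∀ a l, (fun a l => π (xx a l)) a l ≠ 0 := h.x_ne
  set w : L := v * (jac D (fun a l => π (xx a l)) a)⁻¹ * g a *
      ∏ j, ep (fun a l => π (xx a l)) ε a j ^ ceα m αj j with hw
  have hep : ∀ j, ep (fun a l => π (xx a l)) ε a j ∈ AJ (fun j => π (zz j)) σ {a} := by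
    intro j
    unfold ep
    cases ε a j with
    | none => exact Subring.one_mem _
    | some l => exact (h.et a).x_mem l
  have hk : ∀ j, ∃ k : ℕ, (k : ℤ) = l * (m * (1 - ceα m αj j) + αj j) := by
    intro j
    have h1 := (ceα_spec hm1 αj j).2
    have h2 : 0 ≤ (l : ℤ) * (m * (1 - ceα m αj j) + αj j) := by
      refine mul_nonneg (Int.natCast_nonneg _) ?_
      linarith
    exact ⟨_, Int.toNat_of_nonneg h2⟩
  choose k hk using hk
  refine ⟨(un a)⁻¹ ^ l * w ^ p * ∏ j, ep (fun a l => π (xx a l)) ε a j ^ k j, ?_, ?_⟩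
  · exact Subring.mul_mem _ (Subring.mul_mem _ (Subring.pow_mem _ hun.2.2 _)
      (Subring.pow_mem _ hv _)) (Subring.prod_mem _ fun j _ => Subring.pow_mem _ (hep j) _)
  · have hP0 : ∏ j, ep (fun a l => π (xx a l)) ε a j ≠ 0 :=
      Finset.prod_ne_zero_iff.2 fun j _ => ep_ne hx ε a j
    have h1 : (Matrix.of (bet D (fun a l => π (xx a l)) ε a)).det⁻¹ =
        (jac D (fun a l => π (xx a l)) a)⁻¹ * ∏ j, ep (fun a l => π (xx a l)) ε a j := by
      rw [← hdet, mul_inv, inv_mul_cancel_right₀ hP0]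
    have h2 : (∏ j, ep (fun a l => π (xx a l)) ε a j) ^ p =
        (∏ j, ep (fun a l => π (xx a l)) ε a j ^ (1 - ceα m αj j - l * αj j)) *
        (∏ j, ep (fun a l => π (xx a l)) ε a j ^ ceα m αj j) ^ p *
        ∏ j, ep (fun a l => π (xx a l)) ε a j ^ k j := by
      rw [← Finset.prod_pow, ← Finset.prod_pow, ← Finset.prod_mul_distrib,
        ← Finset.prod_mul_distrib]
      refine Finset.prod_congr rfl fun j _ => ?_
      have h0 := ep_ne hx ε a j
      rw [← zpow_natCast (ep _ ε a j) (k j), hk j, ← zpow_natCast (_ ^ ceα m αj j) p, ← zpow_mul,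
        ← zpow_add₀ h0, ← zpow_add₀ h0, ← zpow_natCast _ p]
      congr 1
      rw [hm]
      push_cast
      ring
    rw [hP.kap_eq (fun j => h.z_ne j) hx hm a, h1, mul_pow, h2, hw, mul_pow, mul_pow, mul_pow]
    have hu := hun.1
    have hgp : g a ^ p * (g a)⁻¹ ^ p = 1 := by
      rw [← mul_pow, mul_inv_cancel₀ hg, one_pow]
    have hup : un a ^ l * (un a)⁻¹ ^ l = 1 := by
      rw [← mul_pow, mul_inv_cancel₀ hu, one_pow]
    linear_combination (-(v ^ p * (jac D (fun a l => π (xx a l)) a)⁻¹ ^ p *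
      (∏ j, ep (fun a l => π (xx a l)) ε a j ^ (1 - ceα m αj j - l * αj j)) *
        (∏ j, ep (fun a l => π (xx a l)) ε a j ^ ceα m αj j) ^ p *
        ∏ j, ep (fun a l => π (xx a l)) ε a j ^ k j)) * (hgp * (un a ^ l * (un a)⁻¹ ^ l) + hup)

end Pool.Agent.Lib.MP_732f67_ag.KC
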