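import Pool.Agent.Lib.MP_732f67_ag.KC.GeoA
import Pool.Agent.Lib.MP_732f67_ag.KC.FrobStab

/-!
# Project KM, part C: the Frobenius lifts of the charts
-/

set_option autoImplicit false

namespace Pool.Agent.Lib.MP_732f67_ag.KC

variable {n N : ℕ} {L : Type*} [Field L] {Λ E : Type} {R2 : Type*} [CommRing R2]
  [LinearOrder Λ] [Fintype Λ] [Fintype E] {p : ℕ} [Fact p.Prime] [CharP L p] {π : R2 →+* L}
  {zz zi : Fin N → R2} {σ : Λ → Fin N} {xx : Λ → Fin n → R2} {yy uu : Λ → R2}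
  {f : Λ → Polynomial (MvPolynomial (Fin n) ℤ)} {ε : Λ → E → Option (Fin n)}

/-- **the Frobenius lifts of the charts** -/
theorem Geo.frob (h : Geo p π zz zi σ xx yy uu f ε) :
    ∃ (F : Λ → R2 →+* R2) (δ : Λ → R2 → L), ∀ a, IsFrob p π (F a) ∧ IsDel p π (F a) (δ a) ∧
      (∀ l, F a (xx a l) = xx a l ^ p) ∧ ∀ J : Finset Λ, a ∈ J → DStab (δ a) π (A2 zz zi σ J) := by
  have key : ∀ a, ∃ (F : R2 →+* R2) (δ : R2 → L), IsFrob p π F ∧ IsDel p π F δ ∧
      (∀ l, F (xx a l) = xx a l ^ p) ∧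
      ∀ J : Finset Λ, a ∈ J → DStab δ π (A2 zz zi σ J) := by
    intro a
    have hD : π (ev2 (xx a) (yy a) (f a).derivative) ≠ 0 := by
      obtain ⟨w, -, hw1⟩ := h.derinv a
      intro h0
      have h1 := congrArg π hw1
      rw [map_mul, h0, mul_zero, map_one] at h1
      exact zero_ne_one h1
    obtain ⟨F, hF, hFx⟩ := exists_frob h.lift (xx a) (yy a) (f a) (h.monic a) (h.root a) hD
      (h.ind a) (h.gen a)
    obtain ⟨δ, hδ⟩ := exists_del h.lift hF
    refine ⟨F, δ, hF, hδ, hFx, ?_⟩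
    obtain ⟨v, hv, hv1⟩ := h.uinv a
    have hst : DStab δ π (A2 zz zi σ {a}) := by
      rw [h.ring_eq a]
      exact del_stab h.lift hδ (xx a) hFx (yy a) (uu a) v (f a) (h.root a) hv1 hv (h.derinv a)
    intro J ha
    have hle : A2 zz zi σ {a} ≤ A2 zz zi σ J := by
      refine Subring.closure_mono ?_
      rintro r ⟨j, l, hl, rfl⟩
      rw [Finset.mem_singleton] at hl
      subst hl
      exact ⟨j, l, ha, rfl⟩
    have hmem : ∀ (j : Fin N) (b : Λ), b ∈ J → zz j * zi (σ b) ∈ A2 zz zi σ J :=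
      fun j b hb => Subring.subset_closure ⟨j, b, hb, rfl⟩
    have hdel : ∀ j : Fin N, δ (zz j * zi (σ a)) ∈ (A2 zz zi σ J).map π := by
      intro j
      have h1 : zz j * zi (σ a) ∈ A2 zz zi σ {a} :=
        Subring.subset_closure ⟨j, a, Finset.mem_singleton_self a, rfl⟩
      obtain ⟨r, hr, hr'⟩ := Subring.mem_map.1 (hst _ h1)
      exact Subring.mem_map.2 ⟨r, hle hr, hr'⟩
    refine hδ.stab h.lift ?_
    rintro _ ⟨j, b, hb, rfl⟩
    show δ (zz j * zi (σ b)) ∈ (A2 zz zi σ J).map π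
    have e1 : zz j * zi (σ b) = (zz j * zi (σ a)) * (zz (σ a) * zi (σ b)) := by
      linear_combination -(zz j * zi (σ b)) * h.inv (σ a)
    have hinv : (zz (σ a) * zi (σ b)) * (zz (σ b) * zi (σ a)) = 1 := by
      linear_combination (zz (σ b) * zi (σ b)) * h.inv (σ a) + h.inv (σ b)
    have hpi : ∀ r ∈ A2 zz zi σ J, π r ∈ (A2 zz zi σ J).map π :=
      fun r hr => Subring.mem_map.2 ⟨r, hr, rfl⟩
    rw [e1, hδ.mul h.lift, hδ.inv h.lift hinv]
    refine Subring.add_mem _ (Subring.mul_mem _ (Subring.pow_mem _ (hpi _ (hmem j a ha)) _)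
      (Subring.mul_mem _ (Subring.neg_mem _ (Subring.pow_mem _ (hpi _ (hmem (σ a) b hb)) _))
        (hdel (σ b)))) (Subring.mul_mem _ (Subring.pow_mem _ (hpi _ (hmem (σ a) b hb)) _)
      (hdel j))
  choose F δ hF using key
  exact ⟨F, δ, hF⟩

end Pool.Agent.Lib.MP_732f67_ag.KC
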