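import Pool.Agent.Lib.MP_732f67_ag.KC.GeoB

/-!
# Project KM, part C: integrality of the Frobenius lifts on log forms, two charts
-/

set_option autoImplicit false
set_option linter.unusedSectionVars false

namespace Pool.Agent.Lib.MP_732f67_ag.KC

variable {n N : ℕ} {L : Type*} [Field L] {Λ E : Type} {R2 : Type*} [CommRing R2]
  [LinearOrder Λ] [Fintype Λ] [Fintype E] {p : ℕ} [Fact p.Prime] [CharP L p] {π : R2 →+* L}
  {zz zi : Fin N → R2} {σ : Λ → Fin N} {xx : Λ → Fin n → R2} {yy uu : Λ → R2}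
  {f : Λ → Polynomial (MvPolynomial (Fin n) ℤ)} {ε : Λ → E → Option (Fin n)}
  {D : Fin n → Derivation ℤ L L} {t : Fin n → L} {Tr : L →+ L} {tt : Fin n → R2}

omit [LinearOrder Λ] [Fintype Λ] in
theorem gh_A2_mono (zz zi : Fin N → R2) (σ : Λ → Fin N) {J J' : Finset Λ} (h : J ⊆ J') :
    A2 zz zi σ J ≤ A2 zz zi σ J' := by
  refine Subring.closure_mono ?_
  rintro _ ⟨j, l, hl, rfl⟩
  exact ⟨j, l, h hl, rfl⟩

theorem gh_xx_mem (h : Geo p π zz zi σ xx yy uu f ε) {J : Finset Λ} {a : Λ} (ha : a ∈ J)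
    (l : Fin n) : xx a l ∈ A2 zz zi σ J := by
  refine gh_A2_mono zz zi σ (Finset.singleton_subset_iff.2 ha) ?_
  rw [h.ring_eq]
  exact Subring.subset_closure (Or.inl ⟨l, rfl⟩)

/-- the coordinates whose Frobenius lift is the `p`-th power -/
theorem gh_del_zero (h : Geo p π zz zi σ xx yy uu f ε) {a : Λ} {F : R2 →+* R2} {δ : R2 → L}
    (hδ : IsDel p π F δ) (hF : ∀ l, F (xx a l) = xx a l ^ p) (l : Fin n) : δ (xx a l) = 0 := by
  rw [hδ.unique h.lift (r := xx a l) (s := 0) (by rw [hF, mul_zero, add_zero]), map_zero]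

theorem gh_del_ep (h : Geo p π zz zi σ xx yy uu f ε) {a : Λ} {F : R2 →+* R2} {δ : R2 → L}
    (hδ : IsDel p π F δ) (hF : ∀ l, F (xx a l) = xx a l ^ p) (j : E) : δ (ep xx ε a j) = 0 := by
  unfold ep
  cases ε a j with
  | none => exact hδ.one h.lift
  | some l => exact gh_del_zero h hδ hF l

theorem gh_ep_ne (h : Geo p π zz zi σ xx yy uu f ε) (a : Λ) (j : E) : π (ep xx ε a j) ≠ 0 := by
  unfold ep
  cases ε a j with
  | none =>
    show π 1 ≠ 0
    rw [map_one]
    exact one_ne_zero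
  | some l => exact h.x_ne a l

/-- the difference of the Frobenius lifts of the charts `a`, `b` on the log forms of `a` -/
theorem Geo.hβ (h : Geo p π zz zi σ xx yy uu f ε) (ht : IsPB p t) (hr : Ref p D t Tr)
    (htt : ∀ k, π (tt k) = t k) {a b : Λ} {F F' : R2 →+* R2} {δ δ' : R2 → L}
    (hδ : IsDel p π F δ) (hδ' : IsDel p π F' δ') (hF : ∀ l, F (xx a l) = xx a l ^ p)
    (hF' : ∀ l, F' (xx b l) = xx b l ^ p) {J : Finset Λ} (ha : a ∈ J) (hb : b ∈ J)
    (hs : DStab δ' π (A2 zz zi σ J)) (l : Fin n) :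
    hv p (fun k => δ (tt k)) (fun k => δ' (tt k)) (bet D (fun a l => π (xx a l)) ε a l) ∈
      AJ (fun j => π (zz j)) σ J := by
  have h0 : δ (xx a l) = 0 := gh_del_zero h hδ hF l
  have h1 := hδ.hv_eq h.lift hδ' ht hr htt (xx a l)
  rw [h0, sub_zero] at h1
  by_cases hc : ∃ j, ε a j = some l
  · have h2 : bet D (fun a l => π (xx a l)) ε a l =
        (π (xx a l))⁻¹ • (fun k => D k (π (xx a l))) := by
      unfold bet
      rw [if_pos hc]
      funext k
      rw [Pi.smul_apply, smul_eq_mul, div_eq_inv_mul]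
    rw [h2, hv_smul_vec, h1]
    obtain ⟨j, hj⟩ := hc
    obtain ⟨v, hv, w, hw, hvw, he⟩ := h.tr a b j
    have h3 : ep xx ε a j = xx a l := by
      unfold ep
      rw [hj]
      rfl
    rw [h3] at he
    have h4 : δ' (xx a l) = (π (ep xx ε b j)) ^ p * δ' v := by
      rw [he, hδ'.mul h.lift, gh_del_ep h hδ' hF' j, mul_zero, zero_add]
    have h5 := congrArg π hvw
    rw [map_mul, map_one] at h5
    have h6 : ((π (xx a l))⁻¹) ^ p * (π (ep xx ε b j)) ^ p = (π w) ^ p := by
      rw [← mul_pow]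
      congr 1
      have h7 := gh_ep_ne h b j
      have h8 : π v ≠ 0 := left_ne_zero_of_mul_eq_one h5
      rw [he, map_mul, eq_inv_of_mul_eq_one_right h5]
      field_simp
    have hsub : ({a, b} : Finset Λ) ⊆ J := by
      intro c hc
      rw [Finset.mem_insert, Finset.mem_singleton] at hc
      rcases hc with rfl | rfl
      · exact ha
      · exact hb
    rw [h4, ← mul_assoc, h6, ← h.map_A2]
    exact Subring.mul_mem _ (Subring.pow_mem _
      (Subring.mem_map.2 ⟨w, gh_A2_mono zz zi σ hsub hw, rfl⟩) _)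
      (hs v (gh_A2_mono zz zi σ hsub hv))
  · have h2 : bet D (fun a l => π (xx a l)) ε a l = fun k => D k (π (xx a l)) := by
      unfold bet
      rw [if_neg hc]
    rw [h2, h1, ← h.map_A2]
    exact hs _ (gh_xx_mem h ha l)

end Pool.Agent.Lib.MP_732f67_ag.KC
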