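import Pool.Agent.Lib.MP_732f67_ag.KC.GeoC
import Pool.Agent.Lib.MP_732f67_ag.KC.GeoD
import Pool.Agent.Lib.MP_732f67_ag.KC.GeoF
import Pool.Agent.Lib.MP_732f67_ag.KC.GeoH

/-!
# Project KM, part C: the section with given trace

`kap` is the local generator of `Ω(log E)(-E + ⌈N⌉) ⊗ O(l)`, `p = m l + 1`. Main result: `Geo.dI`.
-/

set_option autoImplicit false

namespace Pool.Agent.Lib.MP_732f67_ag.KC

variable {n N : ℕ} {L : Type*} [Field L] {Λ E : Type} {R2 : Type*} [CommRing R2]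
  [LinearOrder Λ] [Fintype Λ] [Fintype E] {p : ℕ} [Fact p.Prime] [CharP L p] {π : R2 →+* L}
  {zz zi : Fin N → R2} {σ : Λ → Fin N} {xx : Λ → Fin n → R2} {yy uu : Λ → R2}
  {f : Λ → Polynomial (MvPolynomial (Fin n) ℤ)} {ε : Λ → E → Option (Fin n)}
  {D : Fin n → Derivation ℤ L L} {t : Fin n → L} {Tr : L →+ L} {tt : Fin n → R2}
  {m l : ℕ} {g un : Λ → L} {αj : E → ℤ}

/-- elements `c` with `dlog c` in the ring `Λ` of log forms are closed under products -/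
theorem dlog_mul {Rg : Subring (Fm n L)} {D : Fin n → Derivation ℤ L L} {c c' : L}
    (h : ∃ y ∈ Rg, dd D (fn c) = c • y) (h' : ∃ y ∈ Rg, dd D (fn c') = c' • y) :
    ∃ y ∈ Rg, dd D (fn (c * c')) = (c * c') • y := by
  obtain ⟨y, hy, e⟩ := h
  obtain ⟨y', hy', e'⟩ := h'
  refine ⟨y + y', Subring.add_mem _ hy hy', ?_⟩
  rw [fn_mul, dd_fn_mul, e, e', ← fn_comm, fn_smul, fn_smul, smul_smul, smul_smul, smul_add,
    mul_comm c' c]

theorem dlog_one {Rg : Subring (Fm n L)} {D : Fin n → Derivation ℤ L L} :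
    ∃ y ∈ Rg, dd D (fn (1 : L)) = (1 : L) • y :=
  ⟨0, Subring.zero_mem _, by rw [fn_one, dd_one, smul_zero]⟩

theorem dlog_inv {Rg : Subring (Fm n L)} {D : Fin n → Derivation ℤ L L} {c : L} (hc : c ≠ 0)
    (h : ∃ y ∈ Rg, dd D (fn c) = c • y) : ∃ y ∈ Rg, dd D (fn c⁻¹) = c⁻¹ • y := by
  obtain ⟨y, hy, e⟩ := h
  refine ⟨-y, Subring.neg_mem _ hy, ?_⟩
  have h1 : dd D (fn (c * c⁻¹) : Fm n L) = 0 := by rw [mul_inv_cancel₀ hc, fn_one, dd_one]
  rw [fn_mul, dd_fn_mul, e, ← fn_comm, fn_smul, fn_smul, smul_smul, inv_mul_cancel₀ hc,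
    one_smul] at h1
  have h2 : c • dd D (fn c⁻¹ : Fm n L) = -y := (neg_eq_of_add_eq_zero_right h1).symm
  rw [← h2, smul_smul, inv_mul_cancel₀ hc, one_smul]

theorem dlog_pow {Rg : Subring (Fm n L)} {D : Fin n → Derivation ℤ L L} {c : L}
    (h : ∃ y ∈ Rg, dd D (fn c) = c • y) (k : ℕ) : ∃ y ∈ Rg, dd D (fn (c ^ k)) = c ^ k • y := by
  induction k with
  | zero => rw [pow_zero]; exact dlog_one
  | succ k ih => rw [pow_succ]; exact dlog_mul ih h

theorem dlog_zpow {Rg : Subring (Fm n L)} {D : Fin n → Derivation ℤ L L} {c : L} (hc : c ≠ 0)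
    (h : ∃ y ∈ Rg, dd D (fn c) = c • y) (k : ℤ) : ∃ y ∈ Rg, dd D (fn (c ^ k)) = c ^ k • y := by
  obtain ⟨k, rfl | rfl⟩ := k.eq_nat_or_neg
  · rw [zpow_natCast]
    exact dlog_pow h k
  · rw [zpow_neg, zpow_natCast]
    exact dlog_inv (pow_ne_zero _ hc) (dlog_pow h k)

theorem dlog_prod {ι : Type*} (s : Finset ι) {Rg : Subring (Fm n L)}
    {D : Fin n → Derivation ℤ L L} {c : ι → L}
    (h : ∀ i ∈ s, ∃ y ∈ Rg, dd D (fn (c i)) = c i • y) :
    ∃ y ∈ Rg, dd D (fn (∏ i ∈ s, c i)) = (∏ i ∈ s, c i) • y := by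
  classical
  induction s using Finset.induction_on with
  | empty => rw [Finset.prod_empty]; exact dlog_one
  | insert a s ha ih =>
    rw [Finset.prod_insert ha]
    exact dlog_mul (h a (Finset.mem_insert_self a s))
      (ih fun i hi => h i (Finset.mem_insert_of_mem hi))

theorem dlog_of_mem {Rg : Subring (Fm n L)} {D : Fin n → Derivation ℤ L L} {c : L} (hc : c ≠ 0)
    (h : c⁻¹ • dd D (fn c) ∈ Rg) : ∃ y ∈ Rg, dd D (fn c) = c • y :=
  ⟨_, h, by rw [smul_smul, mul_inv_cancel₀ hc, one_smul]⟩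

/-- `κ` is closed up to log forms of the chart `a` -/
theorem Geo.dκ (h : Geo p π zz zi σ xx yy uu f ε) (hr : Ref p D t Tr)
    (hP : Pol m (fun j => π (zz j)) σ (fun a l => π (xx a l)) ε g un αj) (hm : p = m * l + 1)
    (a : Λ) :
    ∃ y ∈ Log (AJ (fun j => π (zz j)) σ {a}) (bet D (fun a l => π (xx a l)) ε a),
      dd D (fn (kap m l (fun j => π (zz j)) σ (fun a l => π (xx a l)) ε g αj a)) =
        kap m l (fun j => π (zz j)) σ (fun a l => π (xx a l)) ε g αj a • y := by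
  have hx : ∀ a l, (fun a l => π (xx a l)) a l ≠ 0 := h.x_ne
  rw [hP.kap_eq h.z_ne hx hm a]
  obtain ⟨hu0, hu, hu'⟩ := hP.un_unit a
  refine dlog_mul (dlog_mul (dlog_pow (dlog_of_mem hu0 ?_) l) ?_) (dlog_prod _ fun j _ =>
    dlog_zpow (ep_ne hx ε a j) (dlog_of_mem (ep_ne hx ε a j) (h.dlog_ep hr a j)) _)
  · rw [← fn_smul]
    exact Subring.mul_mem _ (fn_mem_Log hu') (h.dA hr (Finset.mem_singleton_self a) hu)
  · exact ⟨0, Subring.zero_mem _, by rw [dd_fn_pow, smul_zero]⟩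

/-- the hypotheses of `exists_section` -/
theorem Geo.chs (h : Geo p π zz zi σ xx yy uu f ε) (ht : IsPB p t) (hr : Ref p D t Tr)
    (htt : ∀ k, π (tt k) = t k)
    (hP : Pol m (fun j => π (zz j)) σ (fun a l => π (xx a l)) ε g un αj) (hm : p = m * l + 1)
    {v : L} (hv0 : v ≠ 0) (hv : ∀ a, v * (jac D (fun a l => π (xx a l)) a)⁻¹ * g a *
      ∏ j, ep (fun a l => π (xx a l)) ε a j ^ ceα m αj j ∈ AJ (fun j => π (zz j)) σ {a}) :
    ∃ γ : Λ → Fin n → L, Chs p D t (AJ (fun j => π (zz j)) σ)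
      (bet D (fun a l => π (xx a l)) ε) γ (fun a => (v ^ p)⁻¹ *
        kap m l (fun j => π (zz j)) σ (fun a l => π (xx a l)) ε g αj a) := by
  obtain ⟨F, δ, hF⟩ := h.frob
  have hvp : v ^ p ≠ 0 := pow_ne_zero _ hv0
  refine ⟨fun a k => δ a (tt k), ?_⟩
  exact
    { A_mono := fun J J' _ hJ => AJ_mono _ _ hJ
      det_ne := fun a => by
        have h1 := h.det_bet D a
        intro h0
        rw [h0, zero_mul] at h1
        exact h.jac_ne ht hr a h1.symm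
      closed := fun a l => h.closed hr a l
      dA := fun J a ha x hx => h.dA hr ha hx
      chβ := fun J a b ha hb l => h.chβ hr ha hb l
      fβ := fun a l => h.fβ ht hr htt (hF a).2.1 (hF a).2.2.1 l
      hβ := fun J a b ha hb l => h.hβ ht hr htt (hF a).2.1 (hF b).2.1 (hF a).2.2.1 (hF b).2.2.1
        ha hb ((hF b).2.2.2 J hb) l
      chκ := fun J a b ha hb => by
        obtain ⟨c, hc, e⟩ := h.chκ hP l ha hb
        exact ⟨c, hc, by rw [e, mul_assoc]⟩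
      dκ := fun a => by
        obtain ⟨y, hy, e⟩ := h.dκ hr hP hm a
        refine dlog_mul ⟨0, Subring.zero_mem _, ?_⟩ ⟨y, hy, e⟩
        rw [← inv_pow, dd_fn_pow, smul_zero]
      κdet := fun a => by
        obtain ⟨c, hc, e⟩ := h.κdet ht hr hP hm a (hv a)
        refine ⟨c, hc, ?_⟩
        rw [mul_assoc, ← e, ← mul_assoc, inv_mul_cancel₀ hvp, one_mul] }

/-- vanishing for a multiple of the lattice -/
theorem KVan_mul {A : Finset Λ → Subring L} {β : Λ → Fin n → Fin n → L} {κ : Λ → L} {v : L}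
    (hv : v ≠ 0) (h : KVan (Kl A β κ)) : KVan (Kl A β (fun a => v * κ a)) := by
  have hcd : ∀ (c : L) (z : Finset Λ → Fm n L) (J : Finset Λ),
      cd (fun J => c • z J) J = c • cd z J := fun c z J =>
    cd_map (DistribSMul.toAddMonoidHom (Fm n L) c) z J
  intro b hb z hz hz'
  obtain ⟨w, hw, hw'⟩ := h b hb (fun J => v⁻¹ • z J) (fun J hJ a ha => by
      obtain ⟨y, hy, e⟩ := hz J hJ a ha
      refine ⟨y, hy, ?_⟩
      show v⁻¹ • z J = κ a • y
      rw [e, smul_smul, ← mul_assoc, inv_mul_cancel₀ hv, one_mul])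
    (fun J hJ => by rw [hcd, hz' J hJ, smul_zero])
  refine ⟨fun J => v • w J, fun J hJ a ha => ?_, fun J hJ => ?_⟩
  · obtain ⟨y, hy, e⟩ := hw J hJ a ha
    refine ⟨y, hy, ?_⟩
    show v • w J = (v * κ a) • y
    rw [e, smul_smul]
  · rw [hcd, hw' J hJ, smul_smul, mul_inv_cancel₀ hv, one_smul]

/-- **the Deligne - Illusie theorem in top degree**: `H⁰(K_W + ⌈p N⌉) → H⁰(K_W + ⌈N⌉)` is surjective -/
theorem Geo.dI [Nonempty Λ] (hn : n < p) (h : Geo p π zz zi σ xx yy uu f ε) (ht : IsPB p t)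
    (hr : Ref p D t Tr) (htt : ∀ k, π (tt k) = t k)
    (hP : Pol m (fun j => π (zz j)) σ (fun a l => π (xx a l)) ε g un αj) (hm : p = m * l + 1)
    (hK : KVan (Kl (AJ (fun j => π (zz j)) σ) (bet D (fun a l => π (xx a l)) ε)
      (kap m l (fun j => π (zz j)) σ (fun a l => π (xx a l)) ε g αj)))
    {v : L} (hv : ∀ a, v * (jac D (fun a l => π (xx a l)) a)⁻¹ * g a *
      ∏ j, ep (fun a l => π (xx a l)) ε a j ^ ceα m αj j ∈ AJ (fun j => π (zz j)) σ {a}) :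
    ∃ s : L, Tr s = v ∧ ∀ a, ∃ c ∈ AJ (fun j => π (zz j)) σ {a},
      s = π (zz (σ a)) ^ l * (g a)⁻¹ * jac D (fun a l => π (xx a l)) a *
        (∏ j, ep (fun a l => π (xx a l)) ε a j ^ (-ceα m αj j)) * c := by
  by_cases hv0 : v = 0
  · refine ⟨0, by rw [map_zero, hv0], fun a => ⟨0, Subring.zero_mem _, by rw [mul_zero]⟩⟩
  obtain ⟨γ, hc⟩ := h.chs ht hr htt hP hm hv0 hv
  have hvp : v ^ p ≠ 0 := pow_ne_zero _ hv0
  obtain ⟨s, hs, hs'⟩ := exists_section hn hr hc (KVan_mul (inv_ne_zero hvp) hK)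
  refine ⟨v ^ p * s, by rw [hr.Tr_mul, hs, mul_one], fun a => ?_⟩
  obtain ⟨c, hc, e⟩ := hs' a
  refine ⟨c, hc, ?_⟩
  have hx : ∀ a l, (fun a l => π (xx a l)) a l ≠ 0 := h.x_ne
  have h1 : ∏ j, ep (fun a l => π (xx a l)) ε a j ^ (1 - ceα m αj j) =
      (∏ j, ep (fun a l => π (xx a l)) ε a j) *
        ∏ j, ep (fun a l => π (xx a l)) ε a j ^ (-ceα m αj j) := by
    rw [← Finset.prod_mul_distrib]
    refine Finset.prod_congr rfl fun j _ => ?_
    rw [sub_eq_add_neg, zpow_add₀ (ep_ne hx ε a j), zpow_one]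
  rw [e, ← h.det_bet D a, kap, h1]
  field_simp

end Pool.Agent.Lib.MP_732f67_ag.KC
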