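import Pool.Agent.Lib.MP_732f67_ag.KC.GeoTauB

/-!
# Project KM, part C: the affine regular pieces and the cover
-/

set_option autoImplicit false

namespace Pool.Agent.Lib.MP_732f67_ag.KC

open KM (IsInv)

variable {n N : ℕ} {L : Type*} [Field L] {Λ E I : Type} [LinearOrder Λ] [Fintype Λ] [Fintype E]
  [Fintype I] [DecidableEq I] {p : ℕ} [Fact p.Prime] [CharP L p] {z : Fin N → L}
  {σ : Λ → Fin N} {x : Λ → Fin n → L} {ε : Λ → E → Option (Fin n)}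
  {D : Fin n → Derivation ℤ L L} {Tr : L →+ L} {m l : ℕ} {un uw : Λ → L} {w : L} {αj ej : E → ℤ}
  {b : I → ℕ} {K : Subfield L} {X : KM.Atl K Λ I}

omit [LinearOrder Λ] [Fintype Λ] [Fintype E] [Fintype I] [DecidableEq I] [Fact p.Prime]
  [CharP L p] in
theorem ghh_zpow {A : Subring L} {v : L} (hv : KM.UnitOf A v) (k : ℤ) : KM.UnitOf A (v ^ k) := by
  have h : ∀ u : L, u ∈ A → u⁻¹ ∈ A → ∀ k : ℤ, u ^ k ∈ A := by
    intro u h1 h2 k
    obtain ⟨m, hm | hm⟩ := k.eq_nat_or_neg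
    · rw [hm, zpow_natCast]
      exact A.pow_mem h1 m
    · rw [hm, zpow_neg, zpow_natCast, ← inv_pow]
      exact A.pow_mem h2 m
  refine ⟨zpow_ne_zero _ hv.1, h v hv.2.1 hv.2.2 k, ?_⟩
  rw [← zpow_neg]
  exact h v hv.2.1 hv.2.2 _

omit [LinearOrder Λ] [Fintype Λ] [Fintype E] [DecidableEq I] [Fact p.Prime] [CharP L p] in
theorem ghh_prod {A : Subring L} {v : I → L} (hv : ∀ i, KM.UnitOf A (v i)) :
    KM.UnitOf A (∏ i, v i) := by
  refine ⟨Finset.prod_ne_zero_iff.2 fun i _ => (hv i).1, A.prod_mem fun i _ => (hv i).2.1, ?_⟩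
  rw [← Finset.prod_inv_distrib]
  exact A.prod_mem fun i _ => (hv i).2.2

theorem ghh_pair (hG : Gp p z σ x ε D Tr) (a ν : Λ) (j₀ : Fin N) :
    AJ z σ {a, ν} ≤ Loc (AJ z σ {ν}) (EP x ε ν * (z j₀ / z (σ ν)) * (z (σ a) / z (σ ν))) := by
  have hν := Finset.mem_singleton_self ν
  have e0 := hG.EP_ne ν
  have f0 : z j₀ / z (σ ν) ≠ 0 := div_ne_zero (hG.z_ne _) (hG.z_ne _)
  have h0 : z (σ a) / z (σ ν) ≠ 0 := div_ne_zero (hG.z_ne _) (hG.z_ne _)
  refine (AJ_pair_le hG.z_ne σ a ν).trans (Subring.closure_le.2 ?_)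
  have e1 := hG.EP_mem ν
  have f1 : z j₀ / z (σ ν) ∈ AJ z σ {ν} := div_mem_AJ z σ hν _
  generalize EP x ε ν = e at *
  generalize z j₀ / z (σ ν) = f at *
  generalize z (σ a) / z (σ ν) = h at *
  rintro y (hy | hy)
  · exact le_Loc _ _ hy
  · rw [Set.mem_singleton_iff.1 hy]
    have h3 : h⁻¹ = (e * f * h)⁻¹ * (e * f) := by field_simp
    rw [h3]
    exact Subring.mul_mem _ (inv_mem_Loc _ _) (le_Loc _ _ (Subring.mul_mem _ e1 f1))

/-- transition units of `X` -/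
theorem eq_trans (hC : Can m D z σ x ε uw w ej X.d b) (T : I → ℤ) (a ν : Λ) :
    ∃ v, KM.UnitOf (AJ z σ {a, ν}) v ∧ X.eq ν T = v * X.eq a T := by
  choose v hv hd using hC.d_tr a ν
  refine ⟨∏ i, v i ^ (-T i), ghh_prod fun i => ghh_zpow (hv i) _, ?_⟩
  unfold KM.Atl.eq
  rw [← Finset.prod_mul_distrib]
  refine Finset.prod_congr rfl fun i _ => ?_
  rw [hd i, mul_zpow, ← mul_assoc, ← zpow_add₀ (hv i).1, neg_add_cancel, zpow_zero, one_mul]

/-- `(z j₀ w) (z (σ a) w)` on the chart `ν` -/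
theorem zzww_eq (hG : Gp p z σ x ε D Tr) (hP : Pol m z σ x ε (jac D x) un αj)
    (hC : Can m D z σ x ε uw w ej X.d b) (a ν : Λ) (j₀ : Fin N) (k : ℕ) :
    ∃ v ∈ Loc (AJ z σ {ν}) (EP x ε ν), (z j₀ * w * (z (σ a) * w)) ^ k * X.eq ν ((2 * k) • bZ b) =
      ((z j₀ / z (σ ν)) * (z (σ a) / z (σ ν))) ^ k * v := by
  refine ⟨(tbW un uw x ε αj ej ν ^ 2) ^ k,
    Subring.pow_mem _ (Subring.pow_mem _ (tbW_mem hG hP hC ν) 2) k, ?_⟩
  rw [KM.Atl.eq_nsmul, pow_mul, ← mul_pow, ← mul_pow]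
  congr 1
  have h1 := tbW_eq hG hP hC ν
  have h2 : z j₀ * w * (z (σ a) * w) * X.eq ν (bZ b) ^ 2 =
      z j₀ * z (σ a) * (w * X.eq ν (bZ b)) ^ 2 := by ring
  have h3 := hG.z_ne (σ ν)
  rw [h2, h1]
  field_simp

/-- a function on the affine regular piece of the chart `a` times a power of `z j₀ z (σ a) w²` -/
theorem clear_mem (hG : Gp p z σ x ε D Tr) (hP : Pol m z σ x ε (jac D x) un αj)
    (hC : Can m D z σ x ε uw w ej X.d b) (hX : ∀ a, X.A a = AJ z σ {a}) (hH : Hart x ε X)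
    (a : Λ) (j₀ : Fin N) (T : I → ℤ) {y : L}
    (hy : y * X.eq a T ∈ Loc (AJ z σ {a}) (EP x ε a * (z j₀ / z (σ a)))) :
    ∃ k : ℕ, y * (z j₀ * w * (z (σ a) * w)) ^ k ∈ X.V (T + (2 * k) • bZ b) := by
  have hE : ∀ ν, ∃ k₀ : ℕ, ∀ k ≥ k₀, y * X.eq ν T *
      (EP x ε ν * (z j₀ / z (σ ν)) * (z (σ a) / z (σ ν))) ^ k ∈ AJ z σ {ν} := by
    intro ν
    have hν := Finset.mem_singleton_self ν
    refine mem_Loc_le (Subring.mul_mem _ (Subring.mul_mem _ (hG.EP_mem ν) (div_mem_AJ z σ hν _))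
      (div_mem_AJ z σ hν _)) (mul_ne_zero (mul_ne_zero (hG.EP_ne ν)
      (div_ne_zero (hG.z_ne _) (hG.z_ne _))) (div_ne_zero (hG.z_ne _) (hG.z_ne _))) ?_
    obtain ⟨v, hv, he⟩ := eq_trans hC T a ν
    have h1 : y * X.eq ν T = v * (y * X.eq a T) := by
      rw [he]
      ring
    rw [h1]
    exact Subring.mul_mem _ (ghh_pair hG a ν j₀ hv.2.1) (hG.loc_le a ν j₀ hy)
  choose k₀ hk₀ using hE
  refine ⟨Finset.univ.sup k₀, hH _ _ fun ν => ?_⟩
  set k : ℕ := Finset.univ.sup k₀ with hk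
  have h1 := hk₀ ν k (Finset.le_sup (Finset.mem_univ ν))
  rw [hX ν]
  refine (mem_Loc (hG.EP_mem ν) (hG.EP_ne ν)).1 ?_
  obtain ⟨v, hv, he⟩ := zzww_eq hG hP hC a ν j₀ k
  have h2 : y * (z j₀ * w * (z (σ a) * w)) ^ k * X.eq ν (T + (2 * k) • bZ b) =
      (y * X.eq ν T * ((z j₀ / z (σ ν)) * (z (σ a) / z (σ ν))) ^ k) * v := by
    rw [KM.Atl.eq_add]
    linear_combination (y * X.eq ν T) * he
  rw [h2]
  refine Subring.mul_mem _ ((mem_Loc (hG.EP_mem ν) (hG.EP_ne ν)).2 ⟨k, ?_⟩) hv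
  have h3 : y * X.eq ν T * ((z j₀ / z (σ ν)) * (z (σ a) / z (σ ν))) ^ k * EP x ε ν ^ k =
      y * X.eq ν T * (EP x ε ν * (z j₀ / z (σ ν)) * (z (σ a) / z (σ ν))) ^ k := by
    rw [mul_assoc, ← mul_pow]
    congr 2
    ring
  rw [h3]
  exact h1

/-- the cover -/
theorem geo_cov (hG : Gp p z σ x ε D Tr) (hP : Pol m z σ x ε (jac D x) un αj)
    (hC : Can m D z σ x ε uw w ej X.d b) (hX : ∀ a, X.A a = AJ z σ {a}) (hH : Hart x ε X)
    (j₀ : Fin N) : ∃ (M : ℕ) (s : Λ → L), (∀ a, s a ∈ X.V (M • bZ b)) ∧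
      (z j₀ * w) ^ (M + 1) = ∑ a, z (σ a) * w * s a := by
  obtain ⟨M, hM⟩ := hG.cover
  obtain ⟨s, hs, he⟩ := hM j₀
  refine ⟨M, fun a => w ^ M * MvPolynomial.aeval z (s a), fun a => ?_, ?_⟩
  · beta_reduce
    rw [MvPolynomial.aeval_def, MvPolynomial.eval₂_eq', Finset.mul_sum]
    refine Submodule.sum_mem _ fun d hd => ?_
    have h1 : ∑ i, d i = M := by
      have h2 := hs a (MvPolynomial.mem_support_iff.1 hd)
      rw [Finsupp.weight_apply, Finsupp.sum_fintype _ _ (by simp)] at h2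
      simpa using h2
    have h2 : ∀ S : Finset (Fin N), ∏ i ∈ S, (z i * w) ^ d i ∈ X.V ((∑ i ∈ S, d i) • bZ b) := by
      intro S
      induction S using Finset.induction_on with
      | empty =>
        rw [Finset.prod_empty, Finset.sum_empty, zero_smul]
        exact KM.Atl.K_mem_V K.one_mem
      | insert i S hi ih =>
        rw [Finset.prod_insert hi, Finset.sum_insert hi, add_smul]
        exact KM.Atl.V_mul (KM.Atl.V_pow (zw_mem hG hP hC hX hH i) _) ih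
    have h3 : w ^ M * (algebraMap ℤ L (MvPolynomial.coeff d (s a)) * ∏ i, z i ^ d i) =
        MvPolynomial.coeff d (s a) • ∏ i, (z i * w) ^ d i := by
      have h4 : ∏ i, (z i * w) ^ d i = w ^ M * ∏ i, z i ^ d i := by
        rw [← h1, ← Finset.prod_pow_eq_pow_sum, ← Finset.prod_mul_distrib]
        exact Finset.prod_congr rfl fun i _ => by rw [mul_pow, mul_comm]
      rw [h4, zsmul_eq_mul, eq_intCast]
      ring
    rw [h3]
    have h5 := h2 Finset.univ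
    rw [h1] at h5
    exact zsmul_mem h5 _
  · rw [mul_pow, he, Finset.sum_mul]
    refine Finset.sum_congr rfl fun a _ => ?_
    ring

end Pool.Agent.Lib.MP_732f67_ag.KC
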