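import Pool.Agent.Lib.MP_732f67_ag.KC.Geo

/-!
# Project KM, part C: rings of fractions inside the field
-/

set_option autoImplicit false

namespace Pool.Agent.Lib.MP_732f67_ag.KC

variable {n N : ℕ} {L : Type*} [Field L] {Λ E : Type} {p : ℕ}

/-- the ring `A[1/g]` -/
def Loc (A : Subring L) (g : L) : Subring L := Subring.closure ((A : Set L) ∪ {g⁻¹})

theorem le_Loc (A : Subring L) (g : L) : A ≤ Loc A g := by
  intro a ha
  exact Subring.subset_closure (Or.inl ha)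

theorem inv_mem_Loc (A : Subring L) (g : L) : g⁻¹ ∈ Loc A g := by
  exact Subring.subset_closure (Or.inr rfl)

theorem mem_Loc {A : Subring L} {g : L} (hg : g ∈ A) (h0 : g ≠ 0) {x : L} :
    x ∈ Loc A g ↔ ∃ k : ℕ, x * g ^ k ∈ A := by
  constructor
  · intro hx
    refine Subring.closure_induction (p := fun x _ => ∃ k : ℕ, x * g ^ k ∈ A) ?_ ?_ ?_ ?_ ?_ ?_ hx
    · rintro y (hy | hy)
      · exact ⟨0, by rw [pow_zero, mul_one]; exact hy⟩
      · refine ⟨1, ?_⟩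
        rw [Set.mem_singleton_iff.1 hy, pow_one, inv_mul_cancel₀ h0]
        exact A.one_mem
    · exact ⟨0, by rw [zero_mul]; exact A.zero_mem⟩
    · exact ⟨0, by rw [pow_zero, mul_one]; exact A.one_mem⟩
    · rintro a b _ _ ⟨k, hk⟩ ⟨l, hl⟩
      refine ⟨k + l, ?_⟩
      have h : (a + b) * g ^ (k + l) = (a * g ^ k) * g ^ l + (b * g ^ l) * g ^ k := by ring
      rw [h]
      exact A.add_mem (A.mul_mem hk (A.pow_mem hg l)) (A.mul_mem hl (A.pow_mem hg k))
    · rintro a _ ⟨k, hk⟩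
      refine ⟨k, ?_⟩
      rw [neg_mul]
      exact A.neg_mem hk
    · rintro a b _ _ ⟨k, hk⟩ ⟨l, hl⟩
      refine ⟨k + l, ?_⟩
      have h : (a * b) * g ^ (k + l) = (a * g ^ k) * (b * g ^ l) := by ring
      rw [h]
      exact A.mul_mem hk hl
  · rintro ⟨k, hk⟩
    have h : x = (x * g ^ k) * (g⁻¹) ^ k := by
      rw [mul_assoc, ← mul_pow, mul_inv_cancel₀ h0, one_pow, mul_one]
    rw [h]
    exact (Loc A g).mul_mem (le_Loc A g hk) ((Loc A g).pow_mem (inv_mem_Loc A g) k)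

/-- a common exponent -/
theorem mem_Loc_le {A : Subring L} {g : L} (hg : g ∈ A) (h0 : g ≠ 0) {x : L} (hx : x ∈ Loc A g) :
    ∃ k₀ : ℕ, ∀ k ≥ k₀, x * g ^ k ∈ A := by
  obtain ⟨k₀, hk₀⟩ := (mem_Loc hg h0).1 hx
  refine ⟨k₀, fun k hk => ?_⟩
  obtain ⟨m, rfl⟩ := Nat.exists_eq_add_of_le hk
  rw [pow_add, ← mul_assoc]
  exact A.mul_mem hk₀ (A.pow_mem hg m)

theorem Loc_noeth (A : Subring L) [IsNoetherianRing A] (g : L) : IsNoetherianRing (Loc A g) := by
  have h : Loc A g = (Polynomial.eval₂RingHom A.subtype g⁻¹).range := by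
    refine le_antisymm (Subring.closure_le.2 ?_) ?_
    · rintro y (hy | hy)
      · exact ⟨Polynomial.C ⟨y, hy⟩, by simp⟩
      · exact ⟨Polynomial.X, by rw [Set.mem_singleton_iff.1 hy]; simp⟩
    · rintro _ ⟨q, rfl⟩
      rw [Polynomial.coe_eval₂RingHom, Polynomial.eval₂_eq_sum, Polynomial.sum]
      refine Subring.sum_mem _ fun k _ => ?_
      exact (Loc A g).mul_mem (le_Loc A g (q.coeff k).2) ((Loc A g).pow_mem (inv_mem_Loc A g) k)
  rw [h]
  exact isNoetherianRing_range _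

theorem AJ_noeth [Finite Λ] (z : Fin N → L) (σ : Λ → Fin N) (J : Finset Λ) :
    IsNoetherianRing (AJ z σ J) := by
  refine is_noetherian_subring_closure _ ?_
  refine Set.Finite.subset (Set.finite_range fun q : Fin N × Λ => z q.1 / z (σ q.2)) ?_
  rintro y ⟨j, l, _, rfl⟩
  exact ⟨(j, l), rfl⟩

theorem PBA_Loc [Fact p.Prime] [CharP L p] {A : Subring L} {x : Fin n → L} (h : PBA p A x) {g : L}
    (hg : g ∈ A) (h0 : g ≠ 0) : PBA p (Loc A g) x := by
  refine PBA.frac h (le_Loc A g) fun a ha => ?_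
  obtain ⟨k, hk⟩ := (mem_Loc hg h0).1 ha
  refine ⟨g ^ k, A.pow_mem hg k, pow_ne_zero k h0, ?_, hk⟩
  rw [← inv_pow]
  exact (Loc A g).pow_mem (inv_mem_Loc A g) k

/-- the ring of two charts in terms of one of them -/
theorem AJ_pair_le [LinearOrder Λ] {z : Fin N → L} (hz : ∀ j, z j ≠ 0) (σ : Λ → Fin N) (a ν : Λ) :
    AJ z σ {a, ν} ≤ Loc (AJ z σ {ν}) (z (σ a) / z (σ ν)) := by
  refine Subring.closure_le.2 ?_
  rintro _ ⟨j, l, hl, rfl⟩
  have h1 : ∀ i, z i / z (σ ν) ∈ Loc (AJ z σ {ν}) (z (σ a) / z (σ ν)) := fun i =>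
    le_Loc _ _ (div_mem_AJ z σ (Finset.mem_singleton_self ν) i)
  rcases Finset.mem_insert.1 hl with rfl | hl
  · have h2 : z j / z (σ l) = z j / z (σ ν) * (z (σ l) / z (σ ν))⁻¹ := by
      have := hz (σ l)
      have := hz (σ ν)
      field_simp
    rw [h2]
    exact Subring.mul_mem _ (h1 j) (inv_mem_Loc _ _)
  · rw [Finset.mem_singleton.1 hl]
    exact h1 j

variable [LinearOrder Λ] [Fintype Λ] [Fintype E] [Fact p.Prime] [CharP L p] {z : Fin N → L}
  {σ : Λ → Fin N} {x : Λ → Fin n → L} {ε : Λ → E → Option (Fin n)}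
  {D : Fin n → Derivation ℤ L L} {Tr : L →+ L}

/-- the product of the local equations of the components -/
def EP (x : Λ → Fin n → L) (ε : Λ → E → Option (Fin n)) (a : Λ) : L := ∏ j, ep x ε a j

theorem Gp.ep_mem (hG : Gp p z σ x ε D Tr) (a : Λ) (j : E) : ep x ε a j ∈ AJ z σ {a} := by
  unfold ep
  cases ε a j with
  | none => exact Subring.one_mem _
  | some l => exact hG.x_mem a l

theorem Gp.ep_ne (hG : Gp p z σ x ε D Tr) (a : Λ) (j : E) : ep x ε a j ≠ 0 := by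
  unfold ep
  cases ε a j with
  | none => exact one_ne_zero
  | some l => exact hG.x_ne a l

theorem Gp.EP_mem (hG : Gp p z σ x ε D Tr) (a : Λ) : EP x ε a ∈ AJ z σ {a} := by
  exact Subring.prod_mem _ fun j _ => hG.ep_mem a j

theorem Gp.EP_ne (hG : Gp p z σ x ε D Tr) (a : Λ) : EP x ε a ≠ 0 := by
  exact Finset.prod_ne_zero_iff.2 fun j _ => hG.ep_ne a j

/-- monomials in the local equations are units of `A[1/EP]` -/
theorem Gp.mono_mem (hG : Gp p z σ x ε D Tr) (a : Λ) (e : E → ℤ) :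
    ∏ j, ep x ε a j ^ e j ∈ Loc (AJ z σ {a}) (EP x ε a) := by
  classical
  refine Subring.prod_mem _ fun j _ => ?_
  have h1 : ep x ε a j ∈ Loc (AJ z σ {a}) (EP x ε a) := le_Loc _ _ (hG.ep_mem a j)
  have h2 : (ep x ε a j)⁻¹ ∈ Loc (AJ z σ {a}) (EP x ε a) := by
    have h3 : (ep x ε a j)⁻¹ = (∏ i ∈ Finset.univ.erase j, ep x ε a i) * (EP x ε a)⁻¹ := by
      have h4 : EP x ε a = ep x ε a j * ∏ i ∈ Finset.univ.erase j, ep x ε a i :=
        (Finset.mul_prod_erase _ _ (Finset.mem_univ j)).symm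
      have h5 : ∏ i ∈ Finset.univ.erase j, ep x ε a i ≠ 0 :=
        Finset.prod_ne_zero_iff.2 fun i _ => hG.ep_ne a i
      have h6 := hG.ep_ne a j
      rw [h4]
      field_simp
    rw [h3]
    exact Subring.mul_mem _ (le_Loc _ _ (Subring.prod_mem _ fun i _ => hG.ep_mem a i))
      (inv_mem_Loc _ _)
  obtain ⟨m, hm | hm⟩ := (e j).eq_nat_or_neg
  · rw [hm, zpow_natCast]
    exact Subring.pow_mem _ h1 m
  · rw [hm, zpow_neg, zpow_natCast, ← inv_pow]
    exact Subring.pow_mem _ h2 m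

/-- the affine regular pieces -/
theorem Gp.loc_le (hG : Gp p z σ x ε D Tr) (a ν : Λ) (j₀ : Fin N) :
    Loc (AJ z σ {a}) (EP x ε a * (z j₀ / z (σ a))) ≤
      Loc (AJ z σ {ν}) (EP x ε ν * (z j₀ / z (σ ν)) * (z (σ a) / z (σ ν))) := by
  have hν := Finset.mem_singleton_self ν
  have ha := Finset.mem_singleton_self a
  have e0 := hG.EP_ne ν
  have f0 : z j₀ / z (σ ν) ≠ 0 := div_ne_zero (hG.z_ne _) (hG.z_ne _)
  have h0 : z (σ a) / z (σ ν) ≠ 0 := div_ne_zero (hG.z_ne _) (hG.z_ne _)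
  set e : L := EP x ε ν with he
  set f : L := z j₀ / z (σ ν) with hf
  set h : L := z (σ a) / z (σ ν) with hh
  set B : Subring L := Loc (AJ z σ {ν}) (e * f * h) with hB
  have hA : AJ z σ {ν} ≤ B := le_Loc _ _
  have e1 : e ∈ B := hA (hG.EP_mem ν)
  have f1 : f ∈ B := hA (div_mem_AJ z σ hν _)
  have h1 : h ∈ B := hA (div_mem_AJ z σ hν _)
  have g1 : (e * f * h)⁻¹ ∈ B := inv_mem_Loc _ _
  have e2 : e⁻¹ ∈ B := by
    have h3 : e⁻¹ = (e * f * h)⁻¹ * (f * h) := by field_simp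
    rw [h3]
    exact B.mul_mem g1 (B.mul_mem f1 h1)
  have f2 : f⁻¹ ∈ B := by
    have h3 : f⁻¹ = (e * f * h)⁻¹ * (e * h) := by field_simp
    rw [h3]
    exact B.mul_mem g1 (B.mul_mem e1 h1)
  have h2 : h⁻¹ ∈ B := by
    have h3 : h⁻¹ = (e * f * h)⁻¹ * (e * f) := by field_simp
    rw [h3]
    exact B.mul_mem g1 (B.mul_mem e1 f1)
  have hp : AJ z σ {a, ν} ≤ B := by
    refine (AJ_pair_le hG.z_ne σ a ν).trans (Subring.closure_le.2 ?_)
    rintro y (hy | hy)
    · exact hA hy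
    · rw [Set.mem_singleton_iff.1 hy]
      exact h2
  have ha1 : AJ z σ {a} ≤ B := (AJ_mono z σ (by
    intro i hi
    rw [Finset.mem_singleton.1 hi]
    exact Finset.mem_insert_self a _)).trans hp
  refine Subring.closure_le.2 ?_
  rintro y (hy | hy)
  · exact ha1 hy
  · rw [Set.mem_singleton_iff.1 hy, mul_inv]
    refine B.mul_mem ?_ ?_
    · choose v hv1 hv2 using hG.tr a ν
      have h3 : (EP x ε a)⁻¹ = (∏ j, (v j)⁻¹) * e⁻¹ := by
        rw [he]
        unfold EP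
        rw [← Finset.prod_inv_distrib, ← Finset.prod_inv_distrib, ← Finset.prod_mul_distrib]
        refine Finset.prod_congr rfl fun j _ => ?_
        rw [hv2 j, mul_inv]
      rw [h3]
      exact B.mul_mem (B.prod_mem fun j _ => hp (hv1 j).2.2) e2
    · have h3 : (z j₀ / z (σ a))⁻¹ = h * f⁻¹ := by
        rw [hh, hf]
        have := hG.z_ne (σ ν)
        have := hG.z_ne (σ a)
        have := hG.z_ne j₀
        field_simp
      rw [h3]
      exact B.mul_mem h1 f2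

end Pool.Agent.Lib.MP_732f67_ag.KC
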