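import Pool.Agent.Lib.MP_732f67_ag.KC.GeoFin

/-!
# Project KM, part C without Hartogs: the sections have no poles along the boundary, because the
exponents `αj j < ej j` are not equal; several `z j` in the Hochster - Huneke step
-/

set_option autoImplicit false
set_option linter.unusedSectionVars false

namespace Pool.Agent.Lib.MP_732f67_ag.KC

open KM (IsInv)

section alg

variable {L : Type*} [Field L] {p : ℕ} {I : Type*}

/-- a large power of a sum -/
theorem powsum (V : (I → ℤ) → AddSubgroup L) (h1 : (1 : L) ∈ V 0)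
    (hmul : ∀ s t, ∀ x ∈ V s, ∀ y ∈ V t, x * y ∈ V (s + t)) {A b : I → ℤ} {ι : Type*}
    {z s : ι → L} (hz : ∀ j, z j ∈ V b) (hs : ∀ j, s j ∈ V (A - b)) (M : ℕ) (S : Finset ι) :
    ∀ K : ℕ, S.card * M < K + 1 → (∃ j, j ∈ S) → ∃ X : ι → L,
      (∀ j, X j ∈ V (K • A - M • b)) ∧
      (∑ j ∈ S, z j * s j) ^ K = ∑ j ∈ S, z j ^ M * X j := by
  classical
  have hzs : ∀ j, z j * s j ∈ V A := fun j => by
    have h := hmul _ _ _ (hz j) _ (hs j)
    rwa [add_sub_cancel] at h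
  have hsum : ∀ T : Finset ι, ∑ j ∈ T, z j * s j ∈ V A := fun T =>
    sum_mem fun j _ => hzs j
  induction S using Finset.induction_on with
  | empty =>
    rintro K - ⟨j, hj⟩
    exact absurd hj (Finset.notMem_empty j)
  | insert a S ha ih =>
    intro K hK _
    rw [Finset.card_insert_of_notMem ha] at hK
    rw [Finset.sum_insert ha, add_pow]
    -- every term of the binomial formula
    have key : ∀ i ∈ Finset.range (K + 1), ∃ X : ι → L, (∀ j, X j ∈ V (K • A - M • b)) ∧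
        (z a * s a) ^ i * (∑ j ∈ S, z j * s j) ^ (K - i) * (K.choose i : L) =
          ∑ j ∈ insert a S, z j ^ M * X j := by
      intro i hi
      have hiK : i ≤ K := Nat.lt_succ_iff.1 (Finset.mem_range.1 hi)
      by_cases hiM : M ≤ i
      · obtain ⟨d, rfl⟩ := Nat.exists_eq_add_of_le hiM
        set Y : L := z a ^ d * s a ^ (M + d) * (∑ j ∈ S, z j * s j) ^ (K - (M + d)) *
          (K.choose (M + d) : L) with hY
        have hYV : Y ∈ V (K • A - M • b) := by
          have e1 := hmul _ _ _ (hmul _ _ _ (pow_mem_V h1 hmul (hz a) d) _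
            (pow_mem_V h1 hmul (hs a) (M + d))) _
            (pow_mem_V h1 hmul (hsum S) (K - (M + d)))
          have e2 : d • b + (M + d) • (A - b) + (K - (M + d)) • A = K • A - M • b := by
            obtain ⟨c, rfl⟩ := Nat.exists_eq_add_of_le hiK
            rw [Nat.add_sub_cancel_left]
            funext i
            simp only [Pi.add_apply, Pi.sub_apply, nsmul_eq_mul, Pi.mul_apply, Pi.natCast_apply]
            push_cast
            ring
          rw [e2] at e1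
          have e3 : Y = (K.choose (M + d)) • (z a ^ d * s a ^ (M + d) *
              (∑ j ∈ S, z j * s j) ^ (K - (M + d))) := by
            rw [hY, nsmul_eq_mul, mul_comm]
          rw [e3]
          exact nsmul_mem e1 _
        refine ⟨fun j => if j = a then Y else 0, fun j => ?_, ?_⟩
        · dsimp only
          split_ifs
          · exact hYV
          · exact zero_mem _
        · rw [Finset.sum_eq_single_of_mem a (Finset.mem_insert_self a S)]
          · dsimp only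
            rw [if_pos rfl, hY, mul_pow, pow_add (z a) M d]
            ring
          · intro j _ hj
            dsimp only
            rw [if_neg hj, mul_zero]
      · push Not at hiM
        rcases S.eq_empty_or_nonempty with rfl | hS
        · rw [Finset.card_empty, zero_add, one_mul] at hK
          refine ⟨fun _ => 0, fun _ => zero_mem _, ?_⟩
          have h2 : K - i ≠ 0 := by omega
          rw [Finset.sum_empty, zero_pow h2]
          simp
        · obtain ⟨X, hX, hXe⟩ := ih (K - i) (by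
            have h3 : (S.card + 1) * M = S.card * M + M := by ring
            omega) hS
          refine ⟨fun j => if j = a then 0 else (z a * s a) ^ i * X j * (K.choose i : L),
            fun j => ?_, ?_⟩
          · dsimp only
            split_ifs
            · exact zero_mem _
            · have e1 := hmul _ _ _ (pow_mem_V h1 hmul (hzs a) i) _ (hX j)
              have e2 : i • A + ((K - i) • A - M • b) = K • A - M • b := by
                obtain ⟨c, rfl⟩ := Nat.exists_eq_add_of_le hiK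
                rw [Nat.add_sub_cancel_left, add_nsmul]
                abel
              rw [e2] at e1
              rw [mul_comm _ (K.choose i : L), ← nsmul_eq_mul]
              exact nsmul_mem e1 _
          · rw [hXe, Finset.sum_insert ha]
            dsimp only
            rw [if_pos rfl, mul_zero, zero_add, Finset.mul_sum, Finset.sum_mul]
            refine Finset.sum_congr rfl fun j hj => ?_
            have hja : j ≠ a := by
              rintro rfl
              exact ha hj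
            rw [if_neg hja]
            ring
    choose! X hX hXe using key
    refine ⟨fun j => ∑ i ∈ Finset.range (K + 1), X i j, fun j =>
      sum_mem fun i hi => hX i hi j, ?_⟩
    rw [Finset.sum_congr rfl hXe, Finset.sum_comm]
    exact Finset.sum_congr rfl fun j _ => (Finset.mul_sum _ _ _).symm

/-- **global Hochster - Huneke**, with several `z j` -/
theorem hh_globalN (hp : 2 ≤ p) (V : (I → ℤ) → AddSubgroup L) (h1 : (1 : L) ∈ V 0)
    (hmul : ∀ s t, ∀ x ∈ V s, ∀ y ∈ V t, x * y ∈ V (s + t)) {τ : L → L} (hτ : IsInv p τ)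
    (A b : I → ℤ) {ι : Type*} [Fintype ι] {z s : ι → L} (hz : ∀ j, z j ∈ V b)
    (hs : ∀ j, s j ∈ V (A - b)) (hzs : τ (∑ j, z j * s j) = 1)
    {Λ : Type*} [Fintype Λ] (g : Λ → L) (hg : ∀ l, g l ∈ V b)
    (hcov : ∀ j, ∃ (M : ℕ) (s : Λ → L), (∀ l, s l ∈ V (M • b)) ∧ z j ^ (M + 1) = ∑ l, g l * s l)
    {u : I → ℤ} {c : L} (hloc : ∀ j l, ∃ N₀ : ℕ, ∀ N ≥ N₀, ∃ (y : L) (k : ℕ),
      τ^[N] (c * y) = 1 ∧ y * (z j * g l) ^ k ∈ V (eN p N • A - u + (2 * k) • b)) (N₁ : ℕ) :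
    ∃ N ≥ N₁, ∃ y ∈ V (eN p N • A - u), τ^[N] (c * y) = 1 := by
  classical
  have hne : Nonempty ι := by
    by_contra hcon
    rw [not_nonempty_iff] at hcon
    rw [Finset.univ_eq_empty, Finset.sum_empty, inv_zero hτ] at hzs
    exact zero_ne_one hzs
  choose N₀ hN₀ using hloc
  set N := N₁ ⊔ Finset.univ.sup fun j => Finset.univ.sup (N₀ j) with hN
  have hNl : ∀ j l, N₀ j l ≤ N := fun j l =>
    (Finset.le_sup (f := N₀ j) (Finset.mem_univ l)).trans
      ((Finset.le_sup (f := fun j => Finset.univ.sup (N₀ j)) (Finset.mem_univ j)).trans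
        le_sup_right)
  choose y k hy hyk using fun j l => hN₀ j l N (hNl j l)
  have hiN := iterate_inv hτ N
  -- for every `z j`
  have key : ∀ j, ∃ M₀ : ℕ, ∀ M₃ ≥ M₀, ∃ Y ∈ V (eN p N • A - u + (p ^ N * M₃) • b),
      τ^[N] (c * Y) = z j ^ M₃ := by
    intro j
    set M := Finset.univ.sup (k j) with hM
    have hkM : ∀ l, k j l ≤ p ^ N * M := fun l =>
      (Finset.le_sup (f := k j) (Finset.mem_univ l)).trans
        (Nat.le_mul_of_pos_left _ (Nat.pow_pos (by omega)))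
    obtain ⟨M₂, hM₂, s', hsV, hsum⟩ := cover_pow V h1 hmul b (hz j) g hg (hcov j) M
    have hzg : ∀ l, z j * g l ∈ V (2 • b) := fun l => by
      rw [two_nsmul]
      exact hmul _ _ _ (hz j) _ (hg l)
    have hYV : ∀ l, y j l * (z j * g l) ^ (p ^ N * M) ∈
        V (eN p N • A - u + (2 * (p ^ N * M)) • b) := by
      intro l
      obtain ⟨d, hd⟩ := Nat.exists_eq_add_of_le (hkM l)
      have h := hmul _ _ _ (hyk j l) _ (pow_mem_V h1 hmul (hzg l) d)
      rw [hd, pow_add, ← mul_assoc]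
      convert h using 2
      rw [add_assoc, smul_smul, ← add_nsmul]
      congr 2
      ring
    have hYτ : ∀ l, τ^[N] (c * (y j l * (z j * g l) ^ (p ^ N * M))) = (z j * g l) ^ M := by
      intro l
      have : c * (y j l * (z j * g l) ^ (p ^ N * M)) =
          ((z j * g l) ^ M) ^ (p ^ N) * (c * y j l) := by
        rw [← pow_mul, mul_comm M]
        ring
      rw [this, hiN.lin, hy, mul_one]
    set Y : L := ∑ l, s' l ^ (p ^ N) * (y j l * (z j * g l) ^ (p ^ N * M)) with hY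
    have hYmem : Y ∈ V (eN p N • A - u + (p ^ N * (M₂ + M)) • b) := by
      refine sum_mem fun l _ => ?_
      have h := hmul _ _ _ (pow_mem_V h1 hmul (hsV l) (p ^ N)) _ (hYV l)
      convert h using 2
      rw [smul_smul, add_comm ((p ^ N * (M₂ - M)) • b), add_assoc, ← add_nsmul]
      congr 2
      obtain ⟨d, rfl⟩ := Nat.exists_eq_add_of_le hM₂
      rw [Nat.add_sub_cancel_left]
      ring
    have hYtau : τ^[N] (c * Y) = z j ^ (M₂ + M) := by
      rw [hY, Finset.mul_sum, inv_sum hiN, pow_add, hsum, Finset.sum_mul]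
      refine Finset.sum_congr rfl fun l _ => ?_
      have : c * (s' l ^ (p ^ N) * (y j l * (z j * g l) ^ (p ^ N * M))) =
          s' l ^ (p ^ N) * (c * (y j l * (z j * g l) ^ (p ^ N * M))) := by ring
      rw [this, hiN.lin, hYτ, mul_pow]
      ring
    refine ⟨M₂ + M, fun M₃ hM₃ => ?_⟩
    obtain ⟨d, rfl⟩ := Nat.exists_eq_add_of_le hM₃
    refine ⟨(z j ^ d) ^ (p ^ N) * Y, ?_, ?_⟩
    · have h := hmul _ _ _ (pow_mem_V h1 hmul (pow_mem_V h1 hmul (hz j) d) (p ^ N)) _ hYmem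
      convert h using 2
      funext i
      simp only [Pi.add_apply, Pi.sub_apply, nsmul_eq_mul, Pi.mul_apply, Pi.natCast_apply]
      push_cast
      ring
    · have : c * ((z j ^ d) ^ (p ^ N) * Y) = (z j ^ d) ^ (p ^ N) * (c * Y) := by ring
      rw [this, hiN.lin, hYtau, ← pow_add, add_comm d]
  choose M₀ hM₀ using key
  set M₃ := Finset.univ.sup M₀ with hM₃
  choose Y hYV hYτ using fun j => hM₀ j M₃ (Finset.le_sup (f := M₀) (Finset.mem_univ j))
  -- the second step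
  set N' := Fintype.card ι * M₃ with hN'
  have hle : Fintype.card ι * M₃ ≤ eN p N' := le_eN hp N'
  obtain ⟨X, hXV, hXe⟩ := powsum V h1 hmul hz hs M₃ Finset.univ (eN p N') (by
    rw [Finset.card_univ]
    omega) ⟨Classical.arbitrary ι, Finset.mem_univ _⟩
  refine ⟨N' + N, ?_, ∑ j, X j ^ (p ^ N) * Y j, ?_, ?_⟩
  · exact le_sup_left.trans (Nat.le_add_left _ _)
  · refine sum_mem fun j _ => ?_
    have h := hmul _ _ _ (pow_mem_V h1 hmul (hXV j) (p ^ N)) _ (hYV j)
    convert h using 2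
    rw [eN_add]
    funext i
    simp only [Pi.add_apply, Pi.sub_apply, nsmul_eq_mul, Pi.mul_apply, Pi.natCast_apply]
    push_cast
    ring
  · have h2 : τ^[N] (c * ∑ j, X j ^ (p ^ N) * Y j) = (∑ j, z j * s j) ^ eN p N' := by
      rw [hXe, Finset.mul_sum, inv_sum hiN]
      refine Finset.sum_congr rfl fun j _ => ?_
      have : c * (X j ^ (p ^ N) * Y j) = X j ^ (p ^ N) * (c * Y j) := by ring
      rw [this, hiN.lin, hYτ, mul_comm]
    rw [Function.iterate_add_apply, h2]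
    exact iterate_pow hτ hzs N'

end alg

variable {n N : ℕ} {L : Type*} [Field L] {Λ E I : Type} [LinearOrder Λ] [Fintype Λ] [Fintype E]
  [Fintype I] [DecidableEq I] {p : ℕ} [Fact p.Prime] [CharP L p] {z : Fin N → L}
  {σ : Λ → Fin N} {x : Λ → Fin n → L} {ε : Λ → E → Option (Fin n)}
  {D : Fin n → Derivation ℤ L L} {Tr : L →+ L} {m l : ℕ} {un uw : Λ → L} {w : L} {αj ej : E → ℤ}
  {b : I → ℕ} {K : Subfield L} {X : KM.Atl K Λ I}

/-- monomials with non-negative exponents -/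
theorem mono_nonneg (hG : Gp p z σ x ε D Tr) (a : Λ) {e : E → ℤ} (he : ∀ j, 0 ≤ e j) :
    ∏ j, ep x ε a j ^ e j ∈ AJ z σ {a} := by
  refine Subring.prod_mem _ fun j _ => ?_
  obtain ⟨k, hk⟩ := Int.eq_ofNat_of_zero_le (he j)
  rw [hk, zpow_natCast]
  exact Subring.pow_mem _ (hG.ep_mem a j) k

theorem tbW_memN (hG : Gp p z σ x ε D Tr) (hP : Pol m z σ x ε (jac D x) un αj)
    (hC : Can m D z σ x ε uw w ej X.d b) (hE : ∀ j, αj j + 1 ≤ ej j) (a : Λ) :
    ∃ v ∈ AJ z σ {a}, tbW un uw x ε αj ej a = EP x ε a * v := by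
  refine ⟨uw a * un a * ∏ j, ep x ε a j ^ (ej j - αj j - 1), Subring.mul_mem _
    (Subring.mul_mem _ (hC.uw_unit a).2.1 (hP.un_unit a).2.1)
    (mono_nonneg hG a fun j => by have := hE j; omega), ?_⟩
  have h1 : ∏ j, ep x ε a j ^ (ej j - αj j) =
      EP x ε a * ∏ j, ep x ε a j ^ (ej j - αj j - 1) := by
    unfold EP
    rw [← Finset.prod_mul_distrib]
    refine Finset.prod_congr rfl fun j _ => ?_
    rw [← zpow_one_add₀ (hG.ep_ne a j)]
    congr 1
    ring
  unfold tbW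
  rw [h1]
  ring

theorem zw_memN (hG : Gp p z σ x ε D Tr) (hP : Pol m z σ x ε (jac D x) un αj)
    (hC : Can m D z σ x ε uw w ej X.d b) (hX : ∀ a, X.A a = AJ z σ {a})
    (hE : ∀ j, αj j + 1 ≤ ej j) (j : Fin N) : z j * w ∈ X.V (bZ b) := by
  intro a
  rw [hX a]
  obtain ⟨v, hv, he⟩ := tbW_memN hG hP hC hE a
  have h1 : z j * w * X.eq a (bZ b) = z j / z (σ a) * (EP x ε a * v) := by
    rw [← he, mul_assoc, tbW_eq hG hP hC a]
    ring
  rw [h1]
  exact Subring.mul_mem _ (div_mem_AJ z σ (Finset.mem_singleton_self a) j)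
    (Subring.mul_mem _ (hG.EP_mem a) hv)

theorem gw_memN (hG : Gp p z σ x ε D Tr) (hP : Pol m z σ x ε (jac D x) un αj)
    (hC : Can m D z σ x ε uw w ej X.d b) (hX : ∀ a, X.A a = AJ z σ {a})
    (hE : ∀ j, αj j + 1 ≤ ej j) {k : ℕ} (hk : ∀ j, ceα m αj j ≤ k) {g : L}
    (hg : ∀ a, ∃ y ∈ AJ z σ {a}, g = z (σ a) ^ k * phi m x ε αj a * y) :
    g * w ^ k ∈ X.V ((k : ℤ) • bZ b) := by
  intro a
  rw [hX a]
  obtain ⟨y, hy, he⟩ := hg a
  have h1 : g * w ^ k * X.eq a ((k : ℤ) • bZ b) =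
      phi m x ε αj a * y * tbW un uw x ε αj ej a ^ k := by
    rw [natCast_zsmul, KM.Atl.eq_nsmul, mul_assoc, ← mul_pow, tbW_eq hG hP hC a, he, mul_pow]
    have h2 : z (σ a) ^ k * ((z (σ a))⁻¹) ^ k = 1 := by
      rw [← mul_pow, mul_inv_cancel₀ (hG.z_ne _), one_pow]
    linear_combination (phi m x ε αj a * y * tbW un uw x ε αj ej a ^ k) * h2
  have h3 : phi m x ε αj a * y * tbW un uw x ε αj ej a ^ k =
      y * (uw a * un a) ^ k * ∏ j, ep x ε a j ^ ((k : ℤ) * (ej j - αj j) - ceα m αj j) := by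
    have h4 : ∏ j, ep x ε a j ^ ((k : ℤ) * (ej j - αj j) - ceα m αj j) =
        (∏ j, ep x ε a j ^ (ej j - αj j)) ^ k * ∏ j, ep x ε a j ^ (-ceα m αj j) := by
      rw [← Finset.prod_pow, ← Finset.prod_mul_distrib]
      refine Finset.prod_congr rfl fun j _ => ?_
      rw [sub_eq_add_neg, zpow_add₀ (hG.ep_ne a j), mul_comm (k : ℤ), zpow_mul, zpow_natCast]
    rw [h4]
    unfold phi tbW
    rw [mul_pow]
    ring
  rw [h1, h3]
  refine Subring.mul_mem _ (Subring.mul_mem _ hy (Subring.pow_mem _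
    (Subring.mul_mem _ (hC.uw_unit a).2.1 (hP.un_unit a).2.1) k)) (mono_nonneg hG a fun j => ?_)
  have h5 := hk j
  have h6 : (k : ℤ) * 1 ≤ (k : ℤ) * (ej j - αj j) :=
    mul_le_mul_of_nonneg_left (by have := hE j; omega) (Int.natCast_nonneg k)
  omega

/-- a function on the affine regular piece of the chart `a` times a power of `z j₀ z (σ a) w²` -/
theorem clear_memN (hG : Gp p z σ x ε D Tr) (hP : Pol m z σ x ε (jac D x) un αj)
    (hC : Can m D z σ x ε uw w ej X.d b) (hX : ∀ a, X.A a = AJ z σ {a})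
    (hE : ∀ j, αj j + 1 ≤ ej j)
    (a : Λ) (j₀ : Fin N) (T : I → ℤ) {y : L}
    (hy : y * X.eq a T ∈ Loc (AJ z σ {a}) (EP x ε a * (z j₀ / z (σ a)))) :
    ∃ k : ℕ, y * (z j₀ * w * (z (σ a) * w)) ^ k ∈ X.V (T + (2 * k) • bZ b) := by
  have hE' : ∀ ν, ∃ k₀ : ℕ, ∀ k ≥ k₀, y * X.eq ν T *
      (EP x ε ν * (z j₀ / z (σ ν)) * (z (σ a) / z (σ ν))) ^ k ∈ AJ z σ {ν} := by
    intro ν
    have hν := Finset.mem_singleton_self ν
    refine mem_Loc_le (Subring.mul_mem _ (Subring.mul_mem _ (hG.EP_mem ν) (div_mem_AJ z σ hν _))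
      (div_mem_AJ z σ hν _)) (mul_ne_zero (mul_ne_zero (hG.EP_ne ν)
      (div_ne_zero (hG.z_ne _) (hG.z_ne _))) (div_ne_zero (hG.z_ne _) (hG.z_ne _))) ?_
    obtain ⟨v, hv, he⟩ := eq_trans hC T a ν
    have h1 : y * X.eq ν T = v * (y * X.eq a T) := by
      rw [he]
      ring
    rw [h1]
    exact Subring.mul_mem _ (ghh_pair hG a ν j₀ hv.2.1) (hG.loc_le a ν j₀ hy)
  choose k₀ hk₀ using hE'
  refine ⟨Finset.univ.sup k₀, fun ν => ?_⟩
  set k : ℕ := Finset.univ.sup k₀ with hk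
  have h1 := hk₀ ν k (Finset.le_sup (Finset.mem_univ ν))
  rw [hX ν]
  obtain ⟨v, hv, he⟩ := tbW_memN hG hP hC hE ν
  have h3 := hG.z_ne (σ ν)
  have h2 : y * (z j₀ * w * (z (σ a) * w)) ^ k * X.eq ν (T + (2 * k) • bZ b) =
      (y * X.eq ν T * (EP x ε ν * (z j₀ / z (σ ν)) * (z (σ a) / z (σ ν))) ^ k) *
        (EP x ε ν * v ^ 2) ^ k := by
    have h4 : z j₀ * w * (z (σ a) * w) * X.eq ν (bZ b) ^ 2 =
        (EP x ε ν * (z j₀ / z (σ ν)) * (z (σ a) / z (σ ν))) * (EP x ε ν * v ^ 2) := by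
      have h5 : z j₀ * w * (z (σ a) * w) * X.eq ν (bZ b) ^ 2 =
          z j₀ * z (σ a) * (w * X.eq ν (bZ b)) ^ 2 := by ring
      rw [h5, tbW_eq hG hP hC ν, he]
      field_simp
    rw [KM.Atl.eq_add, KM.Atl.eq_nsmul, pow_mul]
    have h6 : y * (z j₀ * w * (z (σ a) * w)) ^ k * (X.eq ν T * (X.eq ν (bZ b) ^ 2) ^ k) =
        y * X.eq ν T * (z j₀ * w * (z (σ a) * w) * X.eq ν (bZ b) ^ 2) ^ k := by
      rw [mul_pow _ (X.eq ν (bZ b) ^ 2)]
      ring
    rw [h6, h4, mul_pow _ (EP x ε ν * v ^ 2)]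
    ring
  rw [h2]
  exact Subring.mul_mem _ h1 (Subring.pow_mem _ (Subring.mul_mem _ (hG.EP_mem ν)
    (Subring.pow_mem _ hv 2)) k)

/-- the cover -/
theorem geo_covN (hG : Gp p z σ x ε D Tr) (hP : Pol m z σ x ε (jac D x) un αj)
    (hC : Can m D z σ x ε uw w ej X.d b) (hX : ∀ a, X.A a = AJ z σ {a})
    (hE : ∀ j, αj j + 1 ≤ ej j)
    (j₀ : Fin N) : ∃ (M : ℕ) (s : Λ → L), (∀ a, s a ∈ X.V (M • bZ b)) ∧
      (z j₀ * w) ^ (M + 1) = ∑ a, z (σ a) * w * s a := by
  obtain ⟨M, hM⟩ := hG.cover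
  obtain ⟨s, hs, he⟩ := hM j₀
  refine ⟨M, fun a => w ^ M * MvPolynomial.aeval z (s a), fun a => ?_, ?_⟩
  · beta_reduce
    rw [MvPolynomial.aeval_def, MvPolynomial.eval₂_eq', Finset.mul_sum]
    refine Submodule.sum_mem _ fun d hd => ?_
    have h1 : ∑ i, d i = M := by
      have h2 := hs a (MvPolynomial.mem_support_iff.1 hd)
      rw [Finsupp.weight_apply, Finsupp.sum_fintype _ _ (by simp)] at h2
      simpa using h2
    have h2 : ∀ S : Finset (Fin N), ∏ i ∈ S, (z i * w) ^ d i ∈ X.V ((∑ i ∈ S, d i) • bZ b) := by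
      intro S
      induction S using Finset.induction_on with
      | empty =>
        rw [Finset.prod_empty, Finset.sum_empty, zero_smul]
        exact KM.Atl.K_mem_V K.one_mem
      | insert i S hi ih =>
        rw [Finset.prod_insert hi, Finset.sum_insert hi, add_smul]
        exact KM.Atl.V_mul (KM.Atl.V_pow (zw_memN hG hP hC hX hE i) _) ih
    have h3 : w ^ M * (algebraMap ℤ L (MvPolynomial.coeff d (s a)) * ∏ i, z i ^ d i) =
        MvPolynomial.coeff d (s a) • ∏ i, (z i * w) ^ d i := by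
      have h4 : ∏ i, (z i * w) ^ d i = w ^ M * ∏ i, z i ^ d i := by
        rw [← h1, ← Finset.prod_pow_eq_pow_sum, ← Finset.prod_mul_distrib]
        exact Finset.prod_congr rfl fun i _ => by rw [mul_pow, mul_comm]
      rw [h4, zsmul_eq_mul, eq_intCast]
      ring
    rw [h3]
    have h5 := h2 Finset.univ
    rw [h1] at h5
    exact zsmul_mem h5 _
  · rw [mul_pow, he, Finset.sum_mul]
    refine Finset.sum_congr rfl fun a _ => ?_
    ring

/-- **the local step** -/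
theorem geo_locN (hG : Gp p z σ x ε D Tr) (hP : Pol m z σ x ε (jac D x) un αj)
    (hC : Can m D z σ x ε uw w ej X.d b) (hX : ∀ a, X.A a = AJ z σ {a})
    (hE : ∀ j, αj j + 1 ≤ ej j)
    (hm : p = m * l + 1) (a : Λ) (j₀ : Fin N) {u : I → ℤ} {c : L} (hc : c ∈ X.V u) (hc0 : c ≠ 0) :
    ∃ N₀ : ℕ, ∀ M ≥ N₀, ∃ (y : L) (k : ℕ), (tau Tr w l)^[M] (c * y) = 1 ∧
      y * (z j₀ * w * (z (σ a) * w)) ^ k ∈ X.V (eN p M • ((l : ℤ) • bZ b) - u + (2 * k) • bZ b) := by
  classical
  set A : Subring L := AJ z σ {a} with hA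
  set q : L := z j₀ / z (σ a) with hq
  have hqA : q ∈ A := div_mem_AJ z σ (Finset.mem_singleton_self a) j₀
  have hq0 : q ≠ 0 := div_ne_zero (hG.z_ne _) (hG.z_ne _)
  have hgA : EP x ε a * q ∈ A := A.mul_mem (hG.EP_mem a) hqA
  have hg0 : EP x ε a * q ≠ 0 := mul_ne_zero (hG.EP_ne a) hq0
  set R : Subring L := Loc A (EP x ε a * q) with hR
  have : IsNoetherianRing A := AJ_noeth z σ {a}
  have : IsNoetherianRing R := Loc_noeth A _
  have hRb : PBA p R (x a) := PBA_Loc (hG.pba a) hgA hg0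
  obtain ⟨D', Tr', hr, hT⟩ := hG.trc a
  have hE0 : ∀ T : I → ℤ, X.eq a T ≠ 0 := fun T =>
    Finset.prod_ne_zero_iff.2 fun i _ => zpow_ne_zero _ (X.ne a i)
  have hc1 : c * X.eq a u ∈ R := by
    refine le_Loc A _ ?_
    rw [hA, ← hX a]
    exact hc a
  obtain ⟨N₀, hN⟩ := hh_local (hG.pb a) hRb hr hc1 (mul_ne_zero hc0 (hE0 u))
  -- the unit
  have hle : Loc A (EP x ε a) ≤ R := by
    refine Subring.closure_le.2 ?_
    rintro y (hy | hy)
    · exact le_Loc A _ hy
    · rw [Set.mem_singleton_iff.1 hy]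
      have h2 : (EP x ε a)⁻¹ = (EP x ε a * q)⁻¹ * q := by
        have := hG.EP_ne a
        field_simp
      rw [h2]
      exact R.mul_mem (inv_mem_Loc _ _) (le_Loc A _ hqA)
  set v : L := uE l uw x ε ej a with hv
  have hvR : v ∈ R := by
    rw [hv]
    exact R.mul_mem (R.pow_mem (le_Loc A _ (hC.uw_unit a).2.1) l) (hle (hG.mono_mem a _))
  have hv0 : v ≠ 0 := by
    rw [hv]
    exact mul_ne_zero (pow_ne_zero _ (hC.uw_unit a).1)
      (Finset.prod_ne_zero_iff.2 fun j _ => zpow_ne_zero _ (hG.ep_ne a j))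
  refine ⟨N₀, fun M hM => ?_⟩
  obtain ⟨y1, hy1, h1⟩ := hN M hM
  set B : I → ℤ := eN p M • ((l : ℤ) • bZ b) with hB
  set y : L := y1 * v ^ eN p M * (X.eq a B)⁻¹ * X.eq a u with hy
  have h2 : (tau Tr w l)^[M] (c * y) = 1 := by
    have h3 := tau_iter hG hC hm a hT hr.Tr_mul M 0 (c * X.eq a u * y1 * v ^ eN p M)
    rw [smul_zero, zero_add, ← hB, KM.Atl.eq_zero, inv_one, one_mul,
      mul_inv_cancel_right₀ (pow_ne_zero _ hv0), h1] at h3
    rw [← h3, hy]
    congr 1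
    ring
  have h3 : y * X.eq a (B - u) ∈ R := by
    have h4 : X.eq a (B - u) * X.eq a u = X.eq a B := by
      rw [← KM.Atl.eq_add, sub_add_cancel]
    have h5 : y * X.eq a (B - u) = y1 * v ^ eN p M := by
      have h6 : y * X.eq a (B - u) = y1 * v ^ eN p M * ((X.eq a B)⁻¹ * (X.eq a (B - u) * X.eq a u)) := by
        rw [hy]
        ring
      rw [h6, h4, inv_mul_cancel₀ (hE0 B), mul_one]
    rw [h5]
    exact R.mul_mem hy1 (R.pow_mem hvR _)
  obtain ⟨k, hk⟩ := clear_memN hG hP hC hX hE a j₀ (B - u) h3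
  exact ⟨y, k, h2, hk⟩

/-- the poles of `τ y` along the boundary -/
theorem tau_pole (hG : Gp p z σ x ε D Tr) (hC : Can m D z σ x ε uw w ej X.d b) (hm : p = m * l + 1)
    (hX : ∀ a, X.A a = AJ z σ {a}) {r : E → ℤ} (hr : ∀ j, (l : ℤ) * ej j ≤ p * r j)
    {T : I → ℤ} {y : L} (hy : y ∈ X.V ((p : ℤ) • T + (l : ℤ) • bZ b)) (a : Λ) :
    tau Tr w l y * X.eq a T * ∏ j, ep x ε a j ^ r j ∈ X.A a := by
  obtain ⟨D', Tr', hr', hT⟩ := hG.trc a
  set h : L := y * X.eq a ((p : ℤ) • T + (l : ℤ) • bZ b) with hh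
  have hE0 : ∀ T : I → ℤ, X.eq a T ≠ 0 := fun T =>
    Finset.prod_ne_zero_iff.2 fun i _ => zpow_ne_zero _ (X.ne a i)
  have hhA : h ∈ AJ z σ {a} := by
    rw [← hX a]
    exact hy a
  have h1 := tau_loc hG hC hm a hT T h
  have h2 : h * (X.eq a ((p : ℤ) • T + (l : ℤ) • bZ b))⁻¹ = y := by
    rw [hh, mul_inv_cancel_right₀ (hE0 _)]
  rw [h2] at h1
  have h3 : tau Tr w l y * X.eq a T = Tr' (h * (uE l uw x ε ej a)⁻¹) := by
    rw [h1, mul_comm, ← mul_assoc, mul_inv_cancel₀ (hE0 T), one_mul]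
  set q : L := ∏ j, ep x ε a j ^ r j with hq
  have hq0 : q ≠ 0 := Finset.prod_ne_zero_iff.2 fun j _ => zpow_ne_zero _ (hG.ep_ne a j)
  have h4 : h * (uE l uw x ε ej a)⁻¹ = (q⁻¹) ^ p * (h * ((uw a)⁻¹ ^ l *
      ∏ j, ep x ε a j ^ (p * r j - l * ej j))) := by
    have h5 : ∏ j, ep x ε a j ^ (p * r j - l * ej j) =
        q ^ p * (∏ j, ep x ε a j ^ ((l : ℤ) * ej j))⁻¹ := by
      rw [hq, ← Finset.prod_pow, ← Finset.prod_inv_distrib, ← Finset.prod_mul_distrib]
      refine Finset.prod_congr rfl fun j _ => ?_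
      rw [zpow_sub₀ (hG.ep_ne a j), mul_comm (p : ℤ), zpow_mul, zpow_natCast, div_eq_mul_inv]
    rw [h5]
    unfold uE
    rw [mul_inv, inv_pow, inv_pow]
    have := pow_ne_zero p hq0
    field_simp
  rw [h3, h4, hr'.Tr_mul, hX a]
  have h6 : q⁻¹ * Tr' (h * ((uw a)⁻¹ ^ l * ∏ j, ep x ε a j ^ (p * r j - l * ej j))) * q =
      Tr' (h * ((uw a)⁻¹ ^ l * ∏ j, ep x ε a j ^ (p * r j - l * ej j))) := by
    field_simp
  rw [h6]
  exact (hG.pba a).tr hr' (Subring.mul_mem _ hhA (Subring.mul_mem _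
    (Subring.pow_mem _ (hC.uw_unit a).2.2 l) (mono_nonneg hG a fun j => by
      have := hr j
      omega)))

section fin

variable {R2 : Type*} [CommRing R2] {π : R2 →+* L} {zz zi : Fin N → R2} {xx : Λ → Fin n → R2}
  {yy uu : Λ → R2} {f : Λ → Polynomial (MvPolynomial (Fin n) ℤ)} {t : Fin n → L} {tt : Fin n → R2}

/-- **Part C without Hartogs**: the `p⁻¹`-linear map and the Hochster - Huneke property -/
theorem Geo.final2 [Nonempty Λ] (hn : n < p) (h : Geo p π zz zi σ xx yy uu f ε) (ht : IsPB p t)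
    (hr : Ref p D t Tr) (htt : ∀ k, π (tt k) = t k) (hm : p = m * (l + 1) + 1)
    (hP : Pol m (fun j => π (zz j)) σ (fun a l => π (xx a l)) ε
      (jac D fun a l => π (xx a l)) un αj)
    (hα : ∀ j, -(m : ℤ) < αj j)
    (hC : Can m D (fun j => π (zz j)) σ (fun a l => π (xx a l)) ε uw w ej X.d b)
    (hX : ∀ a, X.A a = AJ (fun j => π (zz j)) σ {a})
    (hg : ∀ j, αj j < ej j) (hl : ∀ j, ceα m αj j ≤ l)
    (hv : KVan (Kl (AJ (fun j => π (zz j)) σ) (bet D (fun a l => π (xx a l)) ε)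
      (kap m (l + 1) (fun j => π (zz j)) σ (fun a l => π (xx a l)) ε
        (jac D fun a l => π (xx a l)) αj)))
    (hs : ∀ s : L, (∀ a, ∃ y ∈ AJ (fun j => π (zz j)) σ {a},
        s = π (zz (σ a)) ^ (l + 1) * phi m (fun a l => π (xx a l)) ε αj a * y) →
      ∃ g : Fin N → L, (∀ j a, ∃ y ∈ AJ (fun j => π (zz j)) σ {a},
        g j = π (zz (σ a)) ^ l * phi m (fun a l => π (xx a l)) ε αj a * y) ∧
        s = ∑ j, π (zz j) * g j) :
    IsInv p (tau Tr w (l + 1)) ∧
      (∀ T, ∀ y ∈ X.V ((p : ℤ) • T + ((l + 1 : ℕ) : ℤ) • bZ b), ∀ a, ∃ k : ℕ,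
        tau Tr w (l + 1) y * X.eq a T * EP (fun a l => π (xx a l)) ε a ^ k ∈ X.A a) ∧
      ∀ u, ∀ c ∈ X.V u, c ≠ 0 → ∀ N₁ : ℕ, ∃ M ≥ N₁,
        ∃ y ∈ X.V (eN p M • (((l + 1 : ℕ) : ℤ) • bZ b) - u),
          (tau Tr w (l + 1))^[M] (c * y) = 1 := by
  have hG := h.gp ht hr htt
  have hm1 : 1 ≤ m := hP.m_pos
  have hE : ∀ j, αj j + 1 ≤ ej j := fun j => by
    have := hg j
    omega
  have hce : ∀ j, 0 ≤ ceα m αj j := by
    intro j
    have h1 := (ceα_spec hm1 αj j).1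
    have h2 := hα j
    by_contra hneg
    have h3 : ceα m αj j ≤ -1 := by omega
    have h4 : (m : ℤ) * ceα m αj j ≤ m * (-1) :=
      mul_le_mul_of_nonneg_left h3 (Int.natCast_nonneg m)
    omega
  have hv1 : ∀ a, 1 * (jac D (fun a l => π (xx a l)) a)⁻¹ * jac D (fun a l => π (xx a l)) a *
      ∏ j, ep (fun a l => π (xx a l)) ε a j ^ ceα m αj j ∈ AJ (fun j => π (zz j)) σ {a} := by
    intro a
    rw [one_mul, inv_mul_cancel₀ (hG.jac_ne a), one_mul]
    exact mono_nonneg hG a hce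
  obtain ⟨s, hs1, hs2⟩ := h.dI hn ht hr htt hP hm hv hv1
  obtain ⟨g, hg', hsum⟩ := hs s (fun a => by
    obtain ⟨c, hc, e⟩ := hs2 a
    refine ⟨c, hc, ?_⟩
    rw [e, mul_assoc (π (zz (σ a)) ^ (l + 1)), inv_mul_cancel₀ (hG.jac_ne a), mul_one]
    rfl)
  rw [hsum] at hs1
  have hw := hC.w_ne
  have hτ1 : tau Tr w (l + 1) (∑ j, π (zz j) * w * (g j * w ^ l)) = 1 := by
    have h6 : (∑ j, π (zz j) * w * (g j * w ^ l)) * (w ^ (l + 1))⁻¹ = ∑ j, π (zz j) * g j := by
      rw [Finset.sum_mul]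
      refine Finset.sum_congr rfl fun j _ => ?_
      field_simp
      ring
    unfold tau
    rw [h6, hs1]
  refine ⟨tau_inv hG.Tr_mul w (l + 1), fun T y hy a => tau_mem hG hC hm hX hy a, ?_⟩
  intro u c hc hc0 N₁
  have hV1 : (1 : L) ∈ X.V 0 := by
    intro i
    have h1 : X.eq i 0 = 1 := Finset.prod_eq_one fun j _ => zpow_zero _
    rw [h1, mul_one]
    exact (X.A i).one_mem
  exact hh_globalN (p := p) (Fact.out : p.Prime).two_le (fun T => (X.V T).toAddSubgroup) hV1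
    (fun s t x hx y hy => X.V_mul hx hy) (tau_inv hG.Tr_mul w (l + 1))
    (((l + 1 : ℕ) : ℤ) • bZ b) (bZ b) (fun j => zw_memN hG hP hC hX hE j)
    (fun j => by
      have h1 := gw_memN hG hP hC hX hE hl (hg' j)
      have h6 : ((l + 1 : ℕ) : ℤ) • bZ b - bZ b = (l : ℤ) • bZ b := by
        push_cast
        rw [add_smul, one_smul, add_sub_cancel_right]
      rw [h6]
      exact h1) hτ1
    (fun a => π (zz (σ a)) * w) (fun a => zw_memN hG hP hC hX hE (σ a))
    (fun j => geo_covN hG hP hC hX hE j)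
    (fun j a => geo_locN hG hP hC hX hE hm a j hc hc0) N₁

end fin

end Pool.Agent.Lib.MP_732f67_ag.KC
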