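import Pool.Agent.Lib.MP_732f67_ag.KM.Defs

/-!
# Project KM, part C: the global Hochster - Huneke step

`V t` is a multiplicative family (sections of `O(t)`), `τ` is a `p⁻¹`-linear map, `z₀ ∈ V b`,
`s₁ ∈ V (A - b)` with `τ (z₀ s₁) = 1`, the `g l ∈ V b` cover `z₀ ≠ 0`.

Proof. `e N = 1 + p + .. + p ^ (N-1)`. Take one `N` for all `l`, `M` with `p ^ N M ≥ k l` for all `l`,
`Y l = y l (z₀ g l) ^ (p ^ N M) ∈ V (e N • A - u + 2 p ^ N M • b)`, `τ^N (c Y l) = (z₀ g l) ^ M`. Powers of the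
cover equation: `z₀ ^ M₂ = ∑ (g l) ^ M s l`, `s l ∈ V ((M₂ - M) • b)`; `Y = ∑ (s l) ^ (p ^ N) Y l`,
`τ^N (c Y) = z₀ ^ M₃`, `M₃ = M₂ + M`, `Y ∈ V (e N • A - u + p ^ N M₃ • b)`. Now take `N'` with
`e N' ≥ M₃`, `x = z₀ ^ (e N' - M₃) s₁ ^ (e N')`, `τ^N' (z₀ ^ M₃ x) = 1`, and `Y x ^ (p ^ N)` for `N + N'`.
-/

set_option autoImplicit false

namespace Pool.Agent.Lib.MP_732f67_ag.KC

open KM (IsInv)

variable {L : Type*} [Field L] {p : ℕ} {I : Type*}

/-- `1 + p + .. + p ^ (N - 1)` -/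
def eN (p N : ℕ) : ℕ := ∑ i ∈ Finset.range N, p ^ i

theorem iterate_inv {τ : L → L} (hτ : IsInv p τ) (N : ℕ) : IsInv (p ^ N) τ^[N] := by
  induction N with
  | zero => exact ⟨fun _ _ => rfl, fun x y => by simp⟩
  | succ n ih =>
    refine ⟨fun x y => ?_, fun x y => ?_⟩
    · rw [Function.iterate_succ_apply, Function.iterate_succ_apply, Function.iterate_succ_apply,
        hτ.add, ih.add]
    · rw [Function.iterate_succ_apply, Function.iterate_succ_apply, pow_succ, pow_mul, hτ.lin,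
        ih.lin]

theorem eN_succ (p N : ℕ) : eN p (N + 1) = eN p N * p + 1 := by
  unfold eN
  rw [Finset.sum_range_succ', Finset.sum_mul, pow_zero]
  simp only [pow_succ]

theorem eN_add (p N N' : ℕ) : eN p (N' + N) = eN p N + p ^ N * eN p N' := by
  unfold eN
  rw [add_comm N' N, Finset.sum_range_add, Finset.mul_sum]
  simp only [pow_add]

theorem le_eN {p : ℕ} (hp : 2 ≤ p) (N : ℕ) : N ≤ eN p N := by
  unfold eN
  calc N = ∑ i ∈ Finset.range N, 1 := by simp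
    _ ≤ ∑ i ∈ Finset.range N, p ^ i :=
        Finset.sum_le_sum fun i _ => Nat.one_le_pow _ _ (by omega)

/-- the iterates of `τ` on the powers of an element with `τ s = 1` -/
theorem iterate_pow {τ : L → L} (hτ : IsInv p τ) {s : L} (hs : τ s = 1) (N : ℕ) :
    τ^[N] (s ^ eN p N) = 1 := by
  induction N with
  | zero => simp [eN]
  | succ n ih =>
    rw [Function.iterate_succ_apply, eN_succ, pow_succ, pow_mul, hτ.lin, hs, mul_one, ih]

theorem inv_zero {Q : ℕ} {ψ : L → L} (h : IsInv Q ψ) : ψ 0 = 0 := by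
  have := h.add 0 0
  rw [add_zero] at this
  simpa using this

theorem inv_sum {Q : ℕ} {ψ : L → L} (h : IsInv Q ψ) {ι : Type*} (s : Finset ι) (f : ι → L) :
    ψ (∑ i ∈ s, f i) = ∑ i ∈ s, ψ (f i) := by
  classical
  induction s using Finset.induction_on with
  | empty => simp [inv_zero h]
  | insert a s ha ih => rw [Finset.sum_insert ha, Finset.sum_insert ha, h.add, ih]

theorem pow_mem_V {V : (I → ℤ) → AddSubgroup L} (h1 : (1 : L) ∈ V 0)
    (hmul : ∀ s t, ∀ x ∈ V s, ∀ y ∈ V t, x * y ∈ V (s + t)) {t : I → ℤ} {x : L} (hx : x ∈ V t)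
    (n : ℕ) : x ^ n ∈ V (n • t) := by
  induction n with
  | zero => simpa using h1
  | succ n ih =>
    rw [pow_succ, succ_nsmul]
    exact hmul _ _ _ ih _ hx

/-- the graded ring of the multiples of `b` -/
def ReesV (V : (I → ℤ) → AddSubgroup L) (h1 : (1 : L) ∈ V 0)
    (hmul : ∀ s t, ∀ x ∈ V s, ∀ y ∈ V t, x * y ∈ V (s + t)) (b : I → ℤ) :
    Subring (Polynomial L) where
  carrier := {f | ∀ n : ℕ, f.coeff n ∈ V (n • b)}
  zero_mem' := fun n => by
    rw [Polynomial.coeff_zero]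
    exact zero_mem _
  add_mem' := fun {f g} hf hg n => by
    rw [Polynomial.coeff_add]
    exact add_mem (hf n) (hg n)
  neg_mem' := fun {f} hf n => by
    rw [Polynomial.coeff_neg]
    exact neg_mem (hf n)
  one_mem' := fun n => by
    rw [Polynomial.coeff_one]
    split_ifs with h
    · subst h
      simpa using h1
    · exact zero_mem _
  mul_mem' := fun {f g} hf hg n => by
    rw [Polynomial.coeff_mul]
    refine sum_mem fun ij hij => ?_
    rw [Finset.HasAntidiagonal.mem_antidiagonal] at hij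
    have h : f.coeff ij.1 * g.coeff ij.2 ∈ V (ij.1 • b + ij.2 • b) :=
      hmul _ _ _ (hf ij.1) _ (hg ij.2)
    rwa [← add_nsmul, hij] at h

theorem mono_mem_Rees {V : (I → ℤ) → AddSubgroup L} (h1 : (1 : L) ∈ V 0)
    (hmul : ∀ s t, ∀ x ∈ V s, ∀ y ∈ V t, x * y ∈ V (s + t)) {b : I → ℤ} {m : ℕ} {x : L}
    (hx : x ∈ V (m • b)) : Polynomial.monomial m x ∈ ReesV V h1 hmul b := by
  intro n
  rw [Polynomial.coeff_monomial]
  split_ifs with h
  · subst h
    exact hx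
  · exact zero_mem _

/-- powers of the cover equation -/
theorem cover_pow (V : (I → ℤ) → AddSubgroup L) (h1 : (1 : L) ∈ V 0)
    (hmul : ∀ s t, ∀ x ∈ V s, ∀ y ∈ V t, x * y ∈ V (s + t)) (b : I → ℤ) {z₀ : L}
    (hz : z₀ ∈ V b) {Λ : Type*} [Fintype Λ] (g : Λ → L) (hg : ∀ l, g l ∈ V b)
    (hcov : ∃ (M : ℕ) (s : Λ → L), (∀ l, s l ∈ V (M • b)) ∧ z₀ ^ (M + 1) = ∑ l, g l * s l)
    (M : ℕ) : ∃ M₂ ≥ M, ∃ s : Λ → L, (∀ l, s l ∈ V ((M₂ - M) • b)) ∧
      z₀ ^ M₂ = ∑ l, s l * g l ^ M := by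
  classical
  obtain ⟨M₀, s, hs, hcov⟩ := hcov
  let R := ReesV V h1 hmul b
  have hg' : ∀ l, g l ∈ V (1 • b) := fun l => by rw [one_nsmul]; exact hg l
  have hz' : z₀ ∈ V (1 • b) := by rw [one_nsmul]; exact hz
  let G : Λ → R := fun l => ⟨Polynomial.monomial 1 (g l), mono_mem_Rees h1 hmul (hg' l)⟩
  let Z : R := ⟨Polynomial.monomial 1 z₀, mono_mem_Rees h1 hmul hz'⟩
  let S : Λ → R := fun l => ⟨Polynomial.monomial M₀ (s l), mono_mem_Rees h1 hmul (hs l)⟩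
  have hZ : Z ^ (M₀ + 1) = ∑ l, S l * G l := by
    apply Subtype.ext
    rw [SubmonoidClass.coe_pow, AddSubmonoidClass.coe_finsetSum]
    simp only [MulMemClass.coe_mul, Z, S, G]
    rw [Polynomial.monomial_pow, one_mul, hcov]
    simp only [Polynomial.monomial_mul_monomial]
    rw [map_sum]
    exact Finset.sum_congr rfl fun l _ => by rw [mul_comm]
  have hZI : Z ^ (M₀ + 1) ∈ Ideal.span (Set.range G) := by
    rw [hZ]
    exact sum_mem fun l _ => Ideal.mul_mem_left _ _ (Ideal.subset_span ⟨l, rfl⟩)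
  have hrad : Ideal.span (Set.range G) ≤ (Ideal.span (Set.range fun l => G l ^ M)).radical := by
    rw [Ideal.span_le]
    rintro _ ⟨l, rfl⟩
    exact ⟨M, Ideal.subset_span ⟨l, rfl⟩⟩
  have hfg : (Ideal.span (Set.range G)).FG := by
    refine ⟨Finset.univ.image G, ?_⟩
    simp
  obtain ⟨n, hn⟩ := Ideal.exists_pow_le_of_le_radical_of_fg hrad hfg
  have hmem : Z ^ ((M₀ + 1) * (n + M)) ∈ Ideal.span (Set.range fun l => G l ^ M) := by
    rw [pow_mul, pow_add]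
    exact Ideal.mul_mem_right _ _ (hn (Ideal.pow_mem_pow hZI n))
  rw [Ideal.mem_span_range_iff_exists_fun] at hmem
  obtain ⟨C, hC⟩ := hmem
  have hle : M ≤ (M₀ + 1) * (n + M) := by nlinarith [Nat.zero_le n, Nat.zero_le (M₀ * (n + M))]
  obtain ⟨d, hd⟩ := Nat.exists_eq_add_of_le' hle
  rw [hd] at hC
  have hco := congrArg (fun f : R => (f : Polynomial L).coeff (d + M)) hC
  simp only [SubmonoidClass.coe_pow, AddSubmonoidClass.coe_finsetSum, MulMemClass.coe_mul, Z, G,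
    Polynomial.monomial_pow, one_mul, Polynomial.finsetSum_coeff, Polynomial.coeff_mul_monomial,
    Polynomial.coeff_monomial, if_true] at hco
  refine ⟨d + M, Nat.le_add_left _ _, fun l => (C l : Polynomial L).coeff d, fun l => ?_,
    hco.symm⟩
  rw [Nat.add_sub_cancel]
  exact (C l).2 d

/-- **global Hochster - Huneke** -/
theorem hh_global (hp : 2 ≤ p) (V : (I → ℤ) → AddSubgroup L) (h1 : (1 : L) ∈ V 0)
    (hmul : ∀ s t, ∀ x ∈ V s, ∀ y ∈ V t, x * y ∈ V (s + t)) {τ : L → L} (hτ : IsInv p τ)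
    (A b : I → ℤ) {z₀ s₁ : L} (hz : z₀ ∈ V b) (hs : s₁ ∈ V (A - b)) (hzs : τ (z₀ * s₁) = 1)
    {Λ : Type*} [Fintype Λ] (g : Λ → L) (hg : ∀ l, g l ∈ V b)
    (hcov : ∃ (M : ℕ) (s : Λ → L), (∀ l, s l ∈ V (M • b)) ∧ z₀ ^ (M + 1) = ∑ l, g l * s l)
    {u : I → ℤ} {c : L} (hloc : ∀ l, ∃ N₀ : ℕ, ∀ N ≥ N₀, ∃ (y : L) (k : ℕ), τ^[N] (c * y) = 1 ∧
      y * (z₀ * g l) ^ k ∈ V (eN p N • A - u + (2 * k) • b)) (N₁ : ℕ) :
    ∃ N ≥ N₁, ∃ y ∈ V (eN p N • A - u), τ^[N] (c * y) = 1 := by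
  classical
  have hz0 : z₀ ≠ 0 := by
    rintro rfl
    rw [zero_mul, inv_zero hτ] at hzs
    exact zero_ne_one hzs
  choose N₀ hN₀ using hloc
  set N := N₁ ⊔ Finset.univ.sup N₀ with hN
  have hNl : ∀ l, N₀ l ≤ N := fun l =>
    (Finset.le_sup (f := N₀) (Finset.mem_univ l)).trans le_sup_right
  choose y k hy hyk using fun l => hN₀ l N (hNl l)
  set M := Finset.univ.sup k with hM
  have hkM : ∀ l, k l ≤ p ^ N * M := fun l =>
    (Finset.le_sup (f := k) (Finset.mem_univ l)).trans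
      (Nat.le_mul_of_pos_left _ (Nat.pow_pos (by omega)))
  obtain ⟨M₂, hM₂, s, hsV, hsum⟩ := cover_pow V h1 hmul b hz g hg hcov M
  have hiN := iterate_inv hτ N
  -- `Y l`
  have hzg : ∀ l, z₀ * g l ∈ V (2 • b) := fun l => by
    rw [two_nsmul]
    exact hmul _ _ _ hz _ (hg l)
  have hYV : ∀ l, y l * (z₀ * g l) ^ (p ^ N * M) ∈ V (eN p N • A - u + (2 * (p ^ N * M)) • b) := by
    intro l
    obtain ⟨d, hd⟩ := Nat.exists_eq_add_of_le (hkM l)
    have h := hmul _ _ _ (hyk l) _ (pow_mem_V h1 hmul (hzg l) d)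
    rw [hd, pow_add, ← mul_assoc]
    convert h using 2
    rw [add_assoc, smul_smul, ← add_nsmul]
    congr 2
    ring
  have hYτ : ∀ l, τ^[N] (c * (y l * (z₀ * g l) ^ (p ^ N * M))) = (z₀ * g l) ^ M := by
    intro l
    have : c * (y l * (z₀ * g l) ^ (p ^ N * M)) = ((z₀ * g l) ^ M) ^ (p ^ N) * (c * y l) := by
      rw [← pow_mul, mul_comm M]
      ring
    rw [this, hiN.lin, hy, mul_one]
  set Y : L := ∑ l, s l ^ (p ^ N) * (y l * (z₀ * g l) ^ (p ^ N * M)) with hY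
  have hYmem : Y ∈ V (eN p N • A - u + (p ^ N * (M₂ + M)) • b) := by
    refine sum_mem fun l _ => ?_
    have h := hmul _ _ _ (pow_mem_V h1 hmul (hsV l) (p ^ N)) _ (hYV l)
    convert h using 2
    rw [smul_smul, add_comm ((p ^ N * (M₂ - M)) • b), add_assoc, ← add_nsmul]
    congr 2
    obtain ⟨d, rfl⟩ := Nat.exists_eq_add_of_le hM₂
    rw [Nat.add_sub_cancel_left]
    ring
  have hYtau : τ^[N] (c * Y) = z₀ ^ (M₂ + M) := by
    rw [hY, Finset.mul_sum, inv_sum hiN, pow_add, hsum, Finset.sum_mul]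
    refine Finset.sum_congr rfl fun l _ => ?_
    have : c * (s l ^ (p ^ N) * (y l * (z₀ * g l) ^ (p ^ N * M))) =
        s l ^ (p ^ N) * (c * (y l * (z₀ * g l) ^ (p ^ N * M))) := by ring
    rw [this, hiN.lin, hYτ, mul_pow]
    ring
  -- the second step
  set M₃ := M₂ + M with hM₃
  have hle : M₃ ≤ eN p M₃ := le_eN hp M₃
  obtain ⟨d, hd⟩ := Nat.exists_eq_add_of_le hle
  set x : L := z₀ ^ d * s₁ ^ eN p M₃ with hx
  have hxmem : x ∈ V (d • b + eN p M₃ • (A - b)) :=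
    hmul _ _ _ (pow_mem_V h1 hmul hz d) _ (pow_mem_V h1 hmul hs _)
  have hxτ : τ^[M₃] (x * z₀ ^ M₃) = 1 := by
    have : x * z₀ ^ M₃ = (z₀ * s₁) ^ eN p M₃ := by
      rw [mul_pow, hx]
      nth_rewrite 2 [hd]
      rw [pow_add]
      ring
    rw [this]
    exact iterate_pow hτ hzs M₃
  refine ⟨M₃ + N, ?_, x ^ (p ^ N) * Y, ?_, ?_⟩
  · exact le_sup_left.trans (Nat.le_add_left _ _)
  · have h := hmul _ _ _ (pow_mem_V h1 hmul hxmem (p ^ N)) _ hYmem
    convert h using 2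
    rw [eN_add]
    have hd' : ((eN p M₃ : ℕ) : ℤ) = (M₃ : ℤ) + d := by exact_mod_cast hd
    funext i
    simp only [Pi.add_apply, Pi.sub_apply, nsmul_eq_mul, Pi.mul_apply, Pi.natCast_apply]
    push_cast
    rw [hd']
    ring
  · have : c * (x ^ (p ^ N) * Y) = x ^ (p ^ N) * (c * Y) := by ring
    rw [Function.iterate_add_apply, this, hiN.lin, hYtau, hxτ]

end Pool.Agent.Lib.MP_732f67_ag.KC
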