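import Pool.Agent.Lib.MP_732f67_ag.KC.PBasis

/-!
# Project KM, part C: the local Hochster - Huneke step

For a noetherian domain `A` with a p-basis every `c ≠ 0` is split off by a high iterate of the trace:
the ideals `I N = {Tr^N (c y) | y ∈ A}` increase (the coefficients of an element of `I N` with respect
to the p-basis lie in `I (N + 1)`), and if all of them are contained in a maximal ideal `m` then
`c ∈ m ^ (p ^ N)` for all `N` (the coefficients of `c` with respect to the basis of level `N` lie in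
`I N`), so `c = 0` by Krull's intersection theorem.
-/

set_option autoImplicit false

namespace Pool.Agent.Lib.MP_732f67_ag.KC

variable {n : ℕ} {L : Type*} [Field L] {p : ℕ} [Fact p.Prime] [CharP L p]

/-- the ideal of the `Tr^N (c y)`, `y ∈ A`, as a set -/
def trI (Tr : L →+ L) (A : Subring L) (c : L) (N : ℕ) : Set L := {r | ∃ y ∈ A, r = Tr^[N] (c * y)}

/-- the trace of a monomial with exponents less than `p` -/
theorem tr_mon {x : Fin n → L} {D : Fin n → Derivation ℤ L L} {Tr : L →+ L} (hr : Ref p D x Tr)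
    (α : Fin n → Fin p) : Tr (mon p x α) = if ∀ i, (α i : ℕ) = p - 1 then 1 else 0 := by
  classical
  have hp := (Fact.out : p.Prime).pos
  have h := hr.tr_sum (Pi.single α 1)
  have h1 : ∑ β, (Pi.single α (1 : L) : (Fin n → Fin p) → L) β ^ p * mon p x β = mon p x α := by
    rw [Finset.sum_eq_single α]
    · rw [Pi.single_eq_same, one_pow, one_mul]
    · intro β _ hβ
      rw [Pi.single_eq_of_ne hβ, zero_pow hp.ne', zero_mul]
    · intro h
      exact absurd (Finset.mem_univ _) h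
  rw [h1] at h
  rw [h, Pi.single_apply]
  congr 1
  rw [eq_iff_iff]
  constructor
  · intro h2 i
    rw [← h2]
  · intro h2
    funext i
    exact Fin.ext (h2 i).symm

/-- the trace of a monomial -/
theorem tr_monN {x : Fin n → L} {D : Fin n → Derivation ℤ L L} {Tr : L →+ L} (hr : Ref p D x Tr)
    (e : Fin n → ℕ) (he : ∃ i, e i % p ≠ p - 1) : Tr (∏ i, x i ^ e i) = 0 := by
  have hp := (Fact.out : p.Prime).pos
  have h1 : ∏ i, x i ^ e i = (∏ i, x i ^ (e i / p)) ^ p *
      mon p x (fun i => ⟨e i % p, Nat.mod_lt _ hp⟩) := by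
    rw [mon, ← Finset.prod_pow, ← Finset.prod_mul_distrib]
    refine Finset.prod_congr rfl (fun i _ => ?_)
    rw [← pow_mul, ← pow_add]
    congr 1
    exact (Nat.div_add_mod' (e i) p).symm
  rw [h1, hr.Tr_mul, tr_mon hr, if_neg, mul_zero]
  intro h2
  obtain ⟨i, hi⟩ := he
  exact hi (h2 i)

/-- the complementary monomial -/
def com (p : ℕ) (x : Fin n → L) (α : Fin n → Fin p) : L := ∏ i, x i ^ (p - 1 - (α i : ℕ))

/-- the coefficients in terms of the trace -/
theorem tr_com {x : Fin n → L} {D : Fin n → Derivation ℤ L L} {Tr : L →+ L} (hr : Ref p D x Tr)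
    (c : (Fin n → Fin p) → L) (α : Fin n → Fin p) :
    Tr ((∑ β, c β ^ p * mon p x β) * com p x α) = c α := by
  classical
  have hp := (Fact.out : p.Prime).pos
  rw [Finset.sum_mul, map_sum, Finset.sum_eq_single α]
  · rw [mul_assoc, hr.Tr_mul]
    have h1 : mon p x α * com p x α = ∏ k, x k ^ (p - 1) := by
      rw [mon, com, ← Finset.prod_mul_distrib]
      refine Finset.prod_congr rfl (fun i _ => ?_)
      rw [← pow_add]
      congr 1
      have := (α i).isLt
      omega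
    rw [h1, hr.Tr_t, mul_one]
  · intro β _ hβ
    rw [mul_assoc, hr.Tr_mul]
    have h1 : mon p x β * com p x α = ∏ k, x k ^ ((β k : ℕ) + (p - 1 - (α k : ℕ))) := by
      rw [mon, com, ← Finset.prod_mul_distrib]
      refine Finset.prod_congr rfl (fun i _ => ?_)
      rw [← pow_add]
    rw [h1, tr_monN hr, mul_zero]
    obtain ⟨i, hi⟩ := Function.ne_iff.1 hβ
    refine ⟨i, fun h2 => hi (Fin.ext ?_)⟩
    have h3 := (α i).isLt
    have h4 := (β i).isLt
    rcases lt_or_ge ((β i : ℕ) + (p - 1 - (α i : ℕ))) p with h5 | h5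
    · rw [Nat.mod_eq_of_lt h5] at h2
      omega
    · rw [Nat.mod_eq_sub_mod h5, Nat.mod_eq_of_lt (by omega)] at h2
      omega
  · intro h
    exact absurd (Finset.mem_univ _) h

theorem mon_mem {x : Fin n → L} {A : Subring L} (hA : PBA p A x) (α : Fin n → Fin p) :
    mon p x α ∈ A := Subring.prod_mem _ fun i _ => Subring.pow_mem _ (hA.mem i) _

theorem com_mem {x : Fin n → L} {A : Subring L} (hA : PBA p A x) (α : Fin n → Fin p) :
    com p x α ∈ A := Subring.prod_mem _ fun i _ => Subring.pow_mem _ (hA.mem i) _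

/-- powers of the trace are semilinear -/
theorem trN_mul {x : Fin n → L} {D : Fin n → Derivation ℤ L L} {Tr : L →+ L} (hr : Ref p D x Tr)
    (N : ℕ) (a b : L) : Tr^[N] (a ^ p ^ N * b) = a * Tr^[N] b := by
  induction N generalizing b with
  | zero => simp
  | succ N ih =>
    rw [Function.iterate_succ_apply, Function.iterate_succ_apply]
    have h1 : a ^ p ^ (N + 1) = (a ^ p ^ N) ^ p := by rw [← pow_mul, pow_succ]
    rw [h1, hr.Tr_mul, ih]

theorem trN_add (Tr : L →+ L) (N : ℕ) (a b : L) : Tr^[N] (a + b) = Tr^[N] a + Tr^[N] b := by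
  induction N generalizing a b with
  | zero => rfl
  | succ N ih =>
    rw [Function.iterate_succ_apply, Function.iterate_succ_apply, Function.iterate_succ_apply,
      map_add, ih]

theorem trN_zero (Tr : L →+ L) (N : ℕ) : Tr^[N] (0 : L) = 0 := by
  induction N with
  | zero => rfl
  | succ N ih => rw [Function.iterate_succ_apply, map_zero, ih]

theorem trN_mem {x : Fin n → L} {A : Subring L} (hA : PBA p A x)
    {D : Fin n → Derivation ℤ L L} {Tr : L →+ L} (hr : Ref p D x Tr) (N : ℕ) {a : L} (ha : a ∈ A) :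
    Tr^[N] a ∈ A := by
  induction N generalizing a with
  | zero => exact ha
  | succ N ih =>
    rw [Function.iterate_succ_apply]
    exact ih (hA.tr hr ha)

/-- the ideal of the `Tr^N (c y)` -/
def trId {x : Fin n → L} {A : Subring L} (hA : PBA p A x)
    {D : Fin n → Derivation ℤ L L} {Tr : L →+ L} (hr : Ref p D x Tr) {c : L} (hc : c ∈ A) (N : ℕ) :
    Ideal A where
  carrier := {r | (r : L) ∈ trI Tr A c N}
  zero_mem' := ⟨0, A.zero_mem, by rw [mul_zero, trN_zero]; rfl⟩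
  add_mem' := by
    rintro a b ⟨y, hy, h⟩ ⟨z, hz, h'⟩
    exact ⟨y + z, A.add_mem hy hz, by rw [mul_add, trN_add, ← h, ← h']; rfl⟩
  smul_mem' := by
    rintro a b ⟨y, hy, h⟩
    refine ⟨(a : L) ^ p ^ N * y, A.mul_mem (A.pow_mem a.2 _) hy, ?_⟩
    have h1 : c * ((a : L) ^ p ^ N * y) = (a : L) ^ p ^ N * (c * y) := by ring
    rw [h1, trN_mul hr, ← h]
    rfl

theorem mem_trId {x : Fin n → L} {A : Subring L} (hA : PBA p A x)
    {D : Fin n → Derivation ℤ L L} {Tr : L →+ L} (hr : Ref p D x Tr) {c : L} (hc : c ∈ A) (N : ℕ)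
    (r : A) : r ∈ trId hA hr hc N ↔ ∃ y ∈ A, (r : L) = Tr^[N] (c * y) := Iff.rfl

/-- the coefficients of an element of `I N` lie in `I (N + 1)` -/
theorem trI_coeff {x : Fin n → L} {A : Subring L} (hA : PBA p A x)
    {D : Fin n → Derivation ℤ L L} {Tr : L →+ L} (hr : Ref p D x Tr) (c : L) (N : ℕ) {r : L}
    (hr' : r ∈ trI Tr A c N) {b : (Fin n → Fin p) → L} (hb : r = ∑ α, b α ^ p * mon p x α)
    (α : Fin n → Fin p) : b α ∈ trI Tr A c (N + 1) := by
  obtain ⟨y, hy, h⟩ := hr'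
  refine ⟨(com p x α) ^ p ^ N * y, A.mul_mem (A.pow_mem (com_mem hA α) _) hy, ?_⟩
  have h1 : c * ((com p x α) ^ p ^ N * y) = (com p x α) ^ p ^ N * (c * y) := by ring
  rw [Function.iterate_succ_apply', h1, trN_mul hr, ← h, hb, mul_comm, tr_com hr]

theorem trI_smul {x : Fin n → L} {A : Subring L}
    {D : Fin n → Derivation ℤ L L} {Tr : L →+ L} (hr : Ref p D x Tr) (c : L) (N : ℕ) {r a : L}
    (ha : a ∈ A) (hr' : r ∈ trI Tr A c N) : a * r ∈ trI Tr A c N := by
  obtain ⟨y, hy, h⟩ := hr'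
  refine ⟨a ^ p ^ N * y, A.mul_mem (A.pow_mem ha _) hy, ?_⟩
  have h1 : c * (a ^ p ^ N * y) = a ^ p ^ N * (c * y) := by ring
  rw [h1, trN_mul hr, ← h]

theorem trI_add (Tr : L →+ L) (A : Subring L) (c : L) (N : ℕ) {r s : L}
    (h : r ∈ trI Tr A c N) (h' : s ∈ trI Tr A c N) : r + s ∈ trI Tr A c N := by
  obtain ⟨y, hy, h⟩ := h
  obtain ⟨z, hz, h'⟩ := h'
  exact ⟨y + z, A.add_mem hy hz, by rw [mul_add, trN_add, ← h, ← h']⟩

theorem trI_zero (Tr : L →+ L) (A : Subring L) (c : L) (N : ℕ) : (0 : L) ∈ trI Tr A c N :=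
  ⟨0, A.zero_mem, by rw [mul_zero, trN_zero]⟩

theorem trI_sum (Tr : L →+ L) (A : Subring L) (c : L) (N : ℕ) {ι : Type*} (s : Finset ι) (f : ι → L)
    (h : ∀ i ∈ s, f i ∈ trI Tr A c N) : ∑ i ∈ s, f i ∈ trI Tr A c N := by
  classical
  induction s using Finset.induction_on with
  | empty =>
    rw [Finset.sum_empty]
    exact trI_zero Tr A c N
  | insert i s hi ih =>
    rw [Finset.sum_insert hi]
    exact trI_add Tr A c N (h i (Finset.mem_insert_self i s))
      (ih fun j hj => h j (Finset.mem_insert_of_mem hj))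

theorem trI_mem {x : Fin n → L} {A : Subring L} (hA : PBA p A x)
    {D : Fin n → Derivation ℤ L L} {Tr : L →+ L} (hr : Ref p D x Tr) {c : L} (hc : c ∈ A) (N : ℕ)
    {r : L} (h : r ∈ trI Tr A c N) : r ∈ A := by
  obtain ⟨y, hy, rfl⟩ := h
  exact trN_mem hA hr N (A.mul_mem hc hy)

theorem trI_mono {x : Fin n → L} {A : Subring L} (hA : PBA p A x)
    {D : Fin n → Derivation ℤ L L} {Tr : L →+ L} (hr : Ref p D x Tr) {c : L} (hc : c ∈ A) (N : ℕ) :
    trI Tr A c N ⊆ trI Tr A c (N + 1) := by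
  have hp := (Fact.out : p.Prime).pos
  intro r hr'
  obtain ⟨b, hbA, hb⟩ := hA.span r (trI_mem hA hr hc N hr')
  rw [hb]
  refine trI_sum Tr A c (N + 1) Finset.univ _ (fun α _ => ?_)
  have h1 := trI_coeff hA hr c N hr' hb α
  have h2 : b α ^ p * mon p x α = (b α ^ (p - 1) * mon p x α) * b α := by
    nth_rw 1 [show p = p - 1 + 1 by omega]
    rw [pow_succ]
    ring
  rw [h2]
  exact trI_smul hr c (N + 1) (A.mul_mem (A.pow_mem (hbA α) _) (mon_mem hA α)) h1

/-- `c` lies in the ideal generated by the `p ^ N`-th powers of the elements of `I N` -/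
theorem mem_pow_trI {x : Fin n → L} {A : Subring L} (hA : PBA p A x)
    {D : Fin n → Derivation ℤ L L} {Tr : L →+ L} (hr : Ref p D x Tr) {c : L} (hc : c ∈ A)
    (N : ℕ) :
    ∃ (ι : Type) (_ : Fintype ι) (r : ι → A) (a : ι → A), (∀ i, (r i : L) ∈ trI Tr A c N) ∧
      c = ∑ i, (r i : L) ^ p ^ N * (a i : L) := by
  induction N with
  | zero =>
    refine ⟨Unit, inferInstance, fun _ => ⟨c, hc⟩, fun _ => 1, fun _ => ⟨1, A.one_mem, ?_⟩, ?_⟩
    · simp
    · simp
  | succ N ih =>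
    obtain ⟨ι, hι, r, a, h1, h2⟩ := ih
    have h3 : ∀ i, ∃ b : (Fin n → Fin p) → L, (∀ α, b α ∈ A) ∧
        (r i : L) = ∑ α, b α ^ p * mon p x α := fun i => hA.span _ (r i).2
    choose b hb hb' using h3
    refine ⟨ι × (Fin n → Fin p), inferInstance, fun q => ⟨b q.1 q.2, hb q.1 q.2⟩,
      fun q => ⟨(mon p x q.2) ^ p ^ N, A.pow_mem (mon_mem hA q.2) _⟩ * a q.1, fun q => ?_, ?_⟩
    · exact trI_coeff hA hr c N (h1 q.1) (hb' q.1) q.2
    · rw [Fintype.sum_prod_type]
      nth_rw 1 [h2]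
      refine Finset.sum_congr rfl (fun i _ => ?_)
      rw [hb' i, sum_pow_char_pow, Finset.sum_mul]
      refine Finset.sum_congr rfl (fun α _ => ?_)
      push_cast
      rw [mul_pow, ← pow_mul, ← pow_succ']
      ring

/-- **local Hochster - Huneke** -/
theorem hh_local {x : Fin n → L} (hx : IsPB p x) {A : Subring L} [IsNoetherianRing A]
    (hA : PBA p A x) {D : Fin n → Derivation ℤ L L} {Tr : L →+ L} (hr : Ref p D x Tr) {c : L}
    (hc : c ∈ A) (hc0 : c ≠ 0) : ∃ N₀ : ℕ, ∀ N ≥ N₀, ∃ y ∈ A, Tr^[N] (c * y) = 1 := by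
  have hmono : Monotone (trI Tr A c) := monotone_nat_of_le_succ (fun N => trI_mono hA hr hc N)
  suffices h : ∃ N, (1 : L) ∈ trI Tr A c N by
    obtain ⟨N₀, h⟩ := h
    refine ⟨N₀, fun N hN => ?_⟩
    obtain ⟨y, hy, h1⟩ := hmono hN h
    exact ⟨y, hy, h1.symm⟩
  by_contra hcon
  push Not at hcon
  -- the union of the ideals
  let I : Ideal A :=
    { carrier := {r | ∃ N, (r : L) ∈ trI Tr A c N}
      zero_mem' := ⟨0, trI_zero Tr A c 0⟩
      add_mem' := by
        rintro a b ⟨N, h⟩ ⟨M, h'⟩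
        exact ⟨max N M, trI_add Tr A c _ (hmono (le_max_left N M) h) (hmono (le_max_right N M) h')⟩
      smul_mem' := by
        rintro a b ⟨N, h⟩
        exact ⟨N, trI_smul hr c N a.2 h⟩ }
  have hI : I ≠ ⊤ := by
    intro h
    have h1 : (1 : A) ∈ I := by
      rw [h]
      exact Submodule.mem_top
    obtain ⟨N, h2⟩ := h1
    exact hcon N h2
  have h1 : (⟨c, hc⟩ : A) ∈ (⨅ i : ℕ, I ^ i : Ideal A) := by
    rw [Ideal.mem_iInf]
    intro i
    have hi : i ≤ p ^ i := (Nat.lt_pow_self (Fact.out : p.Prime).one_lt).le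
    obtain ⟨ι, _, r, a, h2, h3⟩ := mem_pow_trI hA hr hc i
    have h4 : (⟨c, hc⟩ : A) = ∑ j, r j ^ p ^ i * a j := by
      apply Subtype.ext
      push_cast
      exact h3
    rw [h4]
    refine Ideal.sum_mem _ (fun j _ => Ideal.mul_mem_right _ _ ?_)
    have h5 : r j ∈ I := ⟨i, h2 j⟩
    exact Ideal.pow_le_pow_right hi (Ideal.pow_mem_pow h5 _)
  have h6 : (⨅ i : ℕ, I ^ i : Ideal A) = ⊥ := Ideal.iInf_pow_eq_bot_of_isDomain I hI
  rw [h6, Ideal.mem_bot] at h1
  exact hc0 (congrArg Subtype.val h1)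

/-- a ring with a p-basis is integrally closed (`y = Tr^N (c y' y ^ (p ^ N))` with `c y ^ k ∈ A` for all
`k`) -/
theorem pba_closed {x : Fin n → L} (hx : IsPB p x) {A : Subring L} [IsNoetherianRing A]
    (hA : PBA p A x) {D : Fin n → Derivation ℤ L L} {Tr : L →+ L} (hr : Ref p D x Tr)
    (hfr : ∀ a : L, ∃ b ∈ A, b ≠ 0 ∧ a * b ∈ A) {y : L} (hy : IsIntegral A y) : y ∈ A := by
  obtain ⟨b, hb, hb0, hyb⟩ := hfr y
  obtain ⟨c, hc, h1⟩ := hy.isAlmostIntegral_of_exists_smul_mem_range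
    ⟨⟨b, hb⟩, mem_nonZeroDivisors_of_ne_zero (fun h => hb0 (congrArg Subtype.val h)),
      ⟨⟨y * b, hyb⟩, mul_comm y b⟩⟩
  have hc0 : (c : L) ≠ 0 := fun h => nonZeroDivisors.ne_zero hc (Subtype.ext h)
  obtain ⟨N, hN⟩ := hh_local hx hA hr c.2 hc0
  obtain ⟨z, hz, h2⟩ := hN N le_rfl
  obtain ⟨w, hw⟩ := h1 (p ^ N)
  have h3 : (c : L) * y ^ p ^ N ∈ A := by
    have h4 : (c : L) * y ^ p ^ N = (w : L) := hw.symm
    rw [h4]
    exact w.2
  have h4 : y = Tr^[N] (((c : L) * y ^ p ^ N) * z) := by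
    have h5 : ((c : L) * y ^ p ^ N) * z = y ^ p ^ N * ((c : L) * z) := by ring
    rw [h5, trN_mul hr, h2, mul_one]
  rw [h4]
  exact trN_mem hA hr N (A.mul_mem h3 hz)

end Pool.Agent.Lib.MP_732f67_ag.KC
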