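import Pool.Agent.Lib.MP_732f67_ag.KC.GeoL
import Pool.Agent.Lib.MP_732f67_ag.KC.HHLoc
import Pool.Agent.Lib.MP_732f67_ag.KC.HHGlob
import Pool.Agent.Lib.MP_732f67_ag.KM.AtSys

/-!
# Project KM, part C: the `p⁻¹`-linear map `τ`

`τ f = Tr (f w ^ (-l))`, `w (dt) ^ m` the rational canonical form, `p = m l + 1`.
-/

set_option autoImplicit false

namespace Pool.Agent.Lib.MP_732f67_ag.KC

open KM (IsInv)

variable {n N : ℕ} {L : Type*} [Field L] {Λ E I : Type} [LinearOrder Λ] [Fintype Λ] [Fintype E]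
  [Fintype I] [DecidableEq I] {p : ℕ} [Fact p.Prime] [CharP L p] {z : Fin N → L}
  {σ : Λ → Fin N} {x : Λ → Fin n → L} {ε : Λ → E → Option (Fin n)}
  {D : Fin n → Derivation ℤ L L} {Tr : L →+ L} {m l : ℕ} {un uw : Λ → L} {w : L} {αj ej : E → ℤ}
  {b : I → ℕ} {K : Subfield L} {X : KM.Atl K Λ I}

/-- the map `τ` -/
def tau (Tr : L →+ L) (w : L) (l : ℕ) (f : L) : L := Tr (f * (w ^ l)⁻¹)

/-- the multiplicities as integers -/
def bZ (b : I → ℕ) (i : I) : ℤ := b i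

/-- the unit of `A_a[1/EP]` with `w ^ l (∏ d ^ b) ^ l = uE jac ^ (m l)` -/
def uE (l : ℕ) (uw : Λ → L) (x : Λ → Fin n → L) (ε : Λ → E → Option (Fin n)) (ej : E → ℤ) (a : Λ) :
    L := uw a ^ l * ∏ j, ep x ε a j ^ ((l : ℤ) * ej j)

theorem tau_inv (hT : ∀ a b, Tr (a ^ p * b) = a * Tr b) (w : L) (l : ℕ) : IsInv p (tau Tr w l) := by
  refine ⟨fun a b => ?_, fun a b => ?_⟩
  · show Tr ((a + b) * (w ^ l)⁻¹) = Tr (a * (w ^ l)⁻¹) + Tr (b * (w ^ l)⁻¹)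
    rw [add_mul, map_add]
  · show Tr (a ^ p * b * (w ^ l)⁻¹) = a * Tr (b * (w ^ l)⁻¹)
    rw [mul_assoc, hT]

theorem uE_eq (hC : Can m D z σ x ε uw w ej X.d b) (l : ℕ) (a : Λ) :
    w ^ l * X.eq a ((l : ℤ) • bZ b) = uE l uw x ε ej a * jac D x a ^ (m * l) := by
  have h1 : X.eq a ((l : ℤ) • bZ b) = (∏ i, X.d a i ^ b i) ^ l := by
    rw [KM.Atl.eq, ← Finset.prod_pow]
    refine Finset.prod_congr rfl fun i _ => ?_
    rw [Pi.smul_apply, smul_eq_mul, bZ, ← pow_mul, mul_comm (b i) l, ← zpow_natCast]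
    push_cast
    rfl
  have h2 : ∏ j, ep x ε a j ^ ((l : ℤ) * ej j) = (∏ j, ep x ε a j ^ ej j) ^ l := by
    rw [← Finset.prod_pow]
    refine Finset.prod_congr rfl fun j _ => ?_
    rw [mul_comm, zpow_mul, zpow_natCast]
  rw [h1, ← mul_pow, hC.Om a, uE, h2, mul_pow, mul_pow, ← pow_mul]
  ring

/-- `τ` on the chart `a` -/
theorem tau_loc (hG : Gp p z σ x ε D Tr) (hC : Can m D z σ x ε uw w ej X.d b) (hm : p = m * l + 1)
    (a : Λ) {Tr' : L →+ L} (hT : ∀ g, Tr (jac D x a * g) = jac D x a * Tr' g) (T : I → ℤ) (h : L) :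
    tau Tr w l (h * (X.eq a ((p : ℤ) • T + (l : ℤ) • bZ b))⁻¹) =
      (X.eq a T)⁻¹ * Tr' (h * (uE l uw x ε ej a)⁻¹) := by
  have hj := hG.jac_ne a
  have h1 : X.eq a ((p : ℤ) • T + (l : ℤ) • bZ b) = X.eq a T ^ p * X.eq a ((l : ℤ) • bZ b) := by
    rw [X.eq_add, natCast_zsmul, X.eq_nsmul]
  have h2 : h * (X.eq a ((p : ℤ) • T + (l : ℤ) • bZ b))⁻¹ * (w ^ l)⁻¹ =
      ((X.eq a T)⁻¹ * (jac D x a)⁻¹) ^ p * (jac D x a * (h * (uE l uw x ε ej a)⁻¹)) := by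
    have h3 : (X.eq a ((l : ℤ) • bZ b))⁻¹ * (w ^ l)⁻¹ =
        (uE l uw x ε ej a)⁻¹ * (jac D x a ^ (m * l))⁻¹ := by
      rw [← mul_inv, ← mul_inv, ← uE_eq hC l a, mul_comm (w ^ l)]
    have h4 : (jac D x a ^ (m * l))⁻¹ = (jac D x a)⁻¹ ^ p * jac D x a := by
      conv_rhs => rw [hm, pow_succ, inv_pow, mul_assoc, inv_mul_cancel₀ hj, mul_one]
    calc h * (X.eq a ((p : ℤ) • T + (l : ℤ) • bZ b))⁻¹ * (w ^ l)⁻¹ =
        h * (X.eq a T)⁻¹ ^ p * ((X.eq a ((l : ℤ) • bZ b))⁻¹ * (w ^ l)⁻¹) := by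
          rw [h1, mul_inv, inv_pow]
          ring
      _ = _ := by
          rw [h3, h4, mul_pow]
          ring
  show Tr (h * (X.eq a ((p : ℤ) • T + (l : ℤ) • bZ b))⁻¹ * (w ^ l)⁻¹) = _
  rw [h2, hG.Tr_mul, hT, mul_assoc, inv_mul_cancel_left₀ hj]

/-- the iterates of `τ` on the chart `a` -/
theorem tau_iter (hG : Gp p z σ x ε D Tr) (hC : Can m D z σ x ε uw w ej X.d b)
    (hm : p = m * l + 1) (a : Λ) {Tr' : L →+ L} (hT : ∀ g, Tr (jac D x a * g) = jac D x a * Tr' g)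
    (hT' : ∀ a b, Tr' (a ^ p * b) = a * Tr' b) (M : ℕ) (T : I → ℤ) (h : L) :
    (tau Tr w l)^[M] (h * (X.eq a (((p : ℤ) ^ M) • T + eN p M • ((l : ℤ) • bZ b)))⁻¹) =
      (X.eq a T)⁻¹ * Tr'^[M] (h * (uE l uw x ε ej a ^ eN p M)⁻¹) := by
  induction M generalizing h with
  | zero =>
    have h0 : eN p 0 = 0 := by simp [eN]
    rw [h0, Function.iterate_zero, Function.iterate_zero, pow_zero, one_smul, zero_smul, add_zero,
      pow_zero, inv_one, mul_one]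
    exact mul_comm _ _
  | succ M ih =>
    rw [Function.iterate_succ_apply, Function.iterate_succ_apply]
    have h1 : ((p : ℤ) ^ (M + 1)) • T + eN p (M + 1) • ((l : ℤ) • bZ b) =
        (p : ℤ) • (((p : ℤ) ^ M) • T + eN p M • ((l : ℤ) • bZ b)) + (l : ℤ) • bZ b := by
      rw [eN_succ]
      generalize (l : ℤ) • bZ b = A
      funext i
      simp only [Pi.add_apply, Pi.smul_apply]
      simp only [smul_eq_mul, nsmul_eq_mul]
      push_cast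
      ring
    rw [h1, tau_loc hG hC hm a hT, mul_comm ((X.eq a _)⁻¹), ih]
    congr 2
    have h2 : h * (uE l uw x ε ej a ^ eN p (M + 1))⁻¹ =
        ((uE l uw x ε ej a ^ eN p M)⁻¹) ^ p * (h * (uE l uw x ε ej a)⁻¹) := by
      rw [eN_succ, pow_succ, pow_mul, mul_inv, inv_pow]
      ring
    rw [h2, hT']
    exact mul_comm _ _

end Pool.Agent.Lib.MP_732f67_ag.KC
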