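import Pool.Agent.Lib.MP_732f67_ag.KC.GeoTau

/-!
# Project KM, part C: sections
-/

set_option autoImplicit false

namespace Pool.Agent.Lib.MP_732f67_ag.KC

open KM (IsInv)

variable {n N : ℕ} {L : Type*} [Field L] {Λ E I : Type} [LinearOrder Λ] [Fintype Λ] [Fintype E]
  [Fintype I] [DecidableEq I] {p : ℕ} [Fact p.Prime] [CharP L p] {z : Fin N → L}
  {σ : Λ → Fin N} {x : Λ → Fin n → L} {ε : Λ → E → Option (Fin n)}
  {D : Fin n → Derivation ℤ L L} {Tr : L →+ L} {m l : ℕ} {un uw : Λ → L} {w : L} {αj ej : E → ℤ}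
  {b : I → ℕ} {K : Subfield L} {X : KM.Atl K Λ I}

/-- `τ` maps sections to sections with poles along the boundary -/
theorem tau_mem (hG : Gp p z σ x ε D Tr) (hC : Can m D z σ x ε uw w ej X.d b) (hm : p = m * l + 1)
    (hX : ∀ a, X.A a = AJ z σ {a}) {T : I → ℤ} {y : L}
    (hy : y ∈ X.V ((p : ℤ) • T + (l : ℤ) • bZ b)) (a : Λ) :
    ∃ k : ℕ, tau Tr w l y * X.eq a T * EP x ε a ^ k ∈ X.A a := by
  obtain ⟨D', Tr', hr, hT⟩ := hG.trc a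
  set h : L := y * X.eq a ((p : ℤ) • T + (l : ℤ) • bZ b) with hh
  have hE0 : ∀ T : I → ℤ, X.eq a T ≠ 0 := fun T =>
    Finset.prod_ne_zero_iff.2 fun i _ => zpow_ne_zero _ (X.ne a i)
  have hhA : h ∈ AJ z σ {a} := by
    rw [← hX a]
    exact hy a
  have h1 := tau_loc hG hC hm a hT T h
  have h2 : h * (X.eq a ((p : ℤ) • T + (l : ℤ) • bZ b))⁻¹ = y := by
    rw [hh, mul_inv_cancel_right₀ (hE0 _)]
  rw [h2] at h1
  have h3 : tau Tr w l y * X.eq a T = Tr' (h * (uE l uw x ε ej a)⁻¹) := by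
    rw [h1, mul_comm, ← mul_assoc, mul_inv_cancel₀ (hE0 T), one_mul]
  set R : Subring L := Loc (AJ z σ {a}) (EP x ε a) with hR
  have h4 : (uE l uw x ε ej a)⁻¹ ∈ R := by
    unfold uE
    rw [mul_inv, ← inv_pow, ← Finset.prod_inv_distrib]
    refine R.mul_mem (R.pow_mem (le_Loc _ _ (hC.uw_unit a).2.2) l) ?_
    have h5 : ∏ j, (ep x ε a j ^ ((l : ℤ) * ej j))⁻¹ = ∏ j, ep x ε a j ^ (-((l : ℤ) * ej j)) :=
      Finset.prod_congr rfl fun j _ => by rw [zpow_neg]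
    rw [h5]
    exact hG.mono_mem a _
  have h6 : Tr' (h * (uE l uw x ε ej a)⁻¹) ∈ R :=
    (PBA_Loc (hG.pba a) (hG.EP_mem a) (hG.EP_ne a)).tr hr (R.mul_mem (le_Loc _ _ hhA) h4)
  obtain ⟨k, hk⟩ := (mem_Loc (hG.EP_mem a) (hG.EP_ne a)).1 h6
  refine ⟨k, ?_⟩
  rw [h3, hX a]
  exact hk

/-- Hartogs: sections may have poles along the boundary -/
def Hart (x : Λ → Fin n → L) (ε : Λ → E → Option (Fin n)) (X : KM.Atl K Λ I) : Prop :=
  ∀ (T : I → ℤ) (f : L), (∀ a, ∃ k : ℕ, f * X.eq a T * EP x ε a ^ k ∈ X.A a) → f ∈ X.V T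

/-- the unit of `A_a[1/EP]` with `z (σ a) w ∏ d ^ b = tbW` -/
def tbW (un uw : Λ → L) (x : Λ → Fin n → L) (ε : Λ → E → Option (Fin n)) (αj ej : E → ℤ) (a : Λ) :
    L := uw a * un a * ∏ j, ep x ε a j ^ (ej j - αj j)

theorem tbW_eq (hG : Gp p z σ x ε D Tr) (hP : Pol m z σ x ε (jac D x) un αj)
    (hC : Can m D z σ x ε uw w ej X.d b) (a : Λ) :
    w * X.eq a (bZ b) = (z (σ a))⁻¹ * tbW un uw x ε αj ej a := by
  have h1 : X.eq a (bZ b) = ∏ i, X.d a i ^ b i :=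
    Finset.prod_congr rfl fun i _ => zpow_natCast _ _
  have h2 : ∏ j, ep x ε a j ^ (ej j - αj j) =
      (∏ j, ep x ε a j ^ ej j) * (∏ j, ep x ε a j ^ αj j)⁻¹ := by
    rw [← Finset.prod_inv_distrib, ← Finset.prod_mul_distrib]
    exact Finset.prod_congr rfl fun j _ => by rw [zpow_sub₀ (hG.ep_ne a j), div_eq_mul_inv]
  have h3 : ∏ j, ep x ε a j ^ αj j ≠ 0 :=
    Finset.prod_ne_zero_iff.2 fun j _ => zpow_ne_zero _ (hG.ep_ne a j)
  have h4 := hG.z_ne (σ a)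
  rw [h1, hC.Om a]
  unfold tbW
  rw [h2, ← hP.O1 a]
  field_simp

theorem tbW_mem (hG : Gp p z σ x ε D Tr) (hP : Pol m z σ x ε (jac D x) un αj)
    (hC : Can m D z σ x ε uw w ej X.d b) (a : Λ) :
    tbW un uw x ε αj ej a ∈ Loc (AJ z σ {a}) (EP x ε a) :=
  Subring.mul_mem _ (Subring.mul_mem _ (le_Loc _ _ (hC.uw_unit a).2.1)
    (le_Loc _ _ (hP.un_unit a).2.1)) (hG.mono_mem a _)

theorem zw_mem (hG : Gp p z σ x ε D Tr) (hP : Pol m z σ x ε (jac D x) un αj)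
    (hC : Can m D z σ x ε uw w ej X.d b) (hX : ∀ a, X.A a = AJ z σ {a}) (hH : Hart x ε X)
    (j : Fin N) : z j * w ∈ X.V (bZ b) := by
  refine hH _ _ fun a => ?_
  rw [hX a]
  refine (mem_Loc (hG.EP_mem a) (hG.EP_ne a)).1 ?_
  have h1 : z j * w * X.eq a (bZ b) = z j / z (σ a) * tbW un uw x ε αj ej a := by
    rw [mul_assoc, tbW_eq hG hP hC a]
    ring
  rw [h1]
  exact Subring.mul_mem _ (le_Loc _ _ (div_mem_AJ z σ (Finset.mem_singleton_self a) j))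
    (tbW_mem hG hP hC a)

theorem gw_mem (hG : Gp p z σ x ε D Tr) (hP : Pol m z σ x ε (jac D x) un αj)
    (hC : Can m D z σ x ε uw w ej X.d b) (hX : ∀ a, X.A a = AJ z σ {a}) (hH : Hart x ε X)
    {k : ℕ} {g : L} (hg : ∀ a, ∃ y ∈ AJ z σ {a}, g = z (σ a) ^ k * phi m x ε αj a * y) :
    g * w ^ k ∈ X.V ((k : ℤ) • bZ b) := by
  refine hH _ _ fun a => ?_
  rw [hX a]
  refine (mem_Loc (hG.EP_mem a) (hG.EP_ne a)).1 ?_
  obtain ⟨y, hy, he⟩ := hg a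
  have h1 : g * w ^ k * X.eq a ((k : ℤ) • bZ b) =
      phi m x ε αj a * y * tbW un uw x ε αj ej a ^ k := by
    rw [natCast_zsmul, KM.Atl.eq_nsmul, mul_assoc, ← mul_pow, tbW_eq hG hP hC a, he, mul_pow]
    have h2 : z (σ a) ^ k * ((z (σ a))⁻¹) ^ k = 1 := by
      rw [← mul_pow, mul_inv_cancel₀ (hG.z_ne _), one_pow]
    linear_combination (phi m x ε αj a * y * tbW un uw x ε αj ej a ^ k) * h2
  rw [h1]
  exact Subring.mul_mem _ (Subring.mul_mem _ (hG.mono_mem a _) (le_Loc _ _ hy))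
    (Subring.pow_mem _ (tbW_mem hG hP hC a) k)

/-- an element with `τ = 1` divisible by a section of `O(1)` -/
theorem exists_s1 (hG : Gp p z σ x ε D Tr) (hP : Pol m z σ x ε (jac D x) un αj)
    (hC : Can m D z σ x ε uw w ej X.d b) (hX : ∀ a, X.A a = AJ z σ {a}) (hH : Hart x ε X)
    (hK : ∀ f ∈ X.V 0, f ∈ K) (hm : p = m * (l + 1) + 1) {g : Fin N → L}
    (hg : ∀ j a, ∃ y ∈ AJ z σ {a}, g j = z (σ a) ^ l * phi m x ε αj a * y)
    (h1 : Tr (∑ j, z j * g j) = 1) :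
    ∃ j₀, ∃ s₁ ∈ X.V (((l + 1 : ℕ) : ℤ) • bZ b - bZ b), tau Tr w (l + 1) (z j₀ * w * s₁) = 1 := by
  have h2 : ∃ j₀, Tr (z j₀ * g j₀) ≠ 0 := by
    by_contra hcon
    push Not at hcon
    rw [map_sum, Finset.sum_eq_zero fun j _ => hcon j] at h1
    exact zero_ne_one h1
  obtain ⟨j₀, hj⟩ := h2
  refine ⟨j₀, ?_⟩
  set c : L := Tr (z j₀ * g j₀) with hc
  have hw := hC.w_ne
  have h3 : tau Tr w (l + 1) (z j₀ * w * (g j₀ * w ^ l)) = c := by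
    have h6 : z j₀ * w * (g j₀ * w ^ l) * (w ^ (l + 1))⁻¹ = z j₀ * g j₀ := by
      field_simp
      ring
    unfold tau
    rw [hc, h6]
  have h4 : g j₀ * w ^ l ∈ X.V ((l : ℤ) • bZ b) := gw_mem hG hP hC hX hH (hg j₀)
  have h5 : z j₀ * w * (g j₀ * w ^ l) ∈ X.V ((p : ℤ) • (0 : I → ℤ) + ((l + 1 : ℕ) : ℤ) • bZ b) := by
    have h6 : (p : ℤ) • (0 : I → ℤ) + ((l + 1 : ℕ) : ℤ) • bZ b = bZ b + (l : ℤ) • bZ b := by
      push_cast
      rw [smul_zero, zero_add, add_smul, one_smul, add_comm]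
    rw [h6]
    exact KM.Atl.V_mul (zw_mem hG hP hC hX hH j₀) h4
  have h7 : c ∈ K := hK c (hH 0 c fun a => by
    have h8 := tau_mem hG hC hm hX h5 a
    rwa [h3] at h8)
  have h9 : (c⁻¹) ^ p ∈ K := K.pow_mem (K.inv_mem h7) p
  refine ⟨(⟨(c⁻¹) ^ p, h9⟩ : K) • (g j₀ * w ^ l), ?_, ?_⟩
  · have h6 : ((l + 1 : ℕ) : ℤ) • bZ b - bZ b = (l : ℤ) • bZ b := by
      push_cast
      rw [add_smul, one_smul, add_sub_cancel_right]
    rw [h6]
    exact Submodule.smul_mem _ _ h4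
  · have h8 : z j₀ * w * ((⟨(c⁻¹) ^ p, h9⟩ : K) • (g j₀ * w ^ l)) =
        (c⁻¹) ^ p * (z j₀ * w * (g j₀ * w ^ l)) := by
      rw [Subfield.smul_def, smul_eq_mul]
      ring
    rw [h8, (tau_inv hG.Tr_mul w (l + 1)).lin, h3, inv_mul_cancel₀ hj]

end Pool.Agent.Lib.MP_732f67_ag.KC
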