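import Pool.Agent.Lib.MP_732f67_ag.KC.DI

/-!
# Project KM, part C: p-bases

`IsPB p x`: `x` is a p-basis of the field `L` of characteristic `p`; `PBA p A x`: all coefficients of an
element of the subring `A` lie in `A`.
-/

set_option autoImplicit false

namespace Pool.Agent.Lib.MP_732f67_ag.KC

variable {n : ℕ} {L : Type*} [Field L] {p : ℕ}

/-- the monomials with exponents less than `p` -/
def mon (p : ℕ) (x : Fin n → L) (α : Fin n → Fin p) : L := ∏ i, x i ^ (α i : ℕ)

/-- `x` is a p-basis of `L` -/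
structure IsPB (p : ℕ) (x : Fin n → L) : Prop where
  indep : ∀ c : (Fin n → Fin p) → L, ∑ α, c α ^ p * mon p x α = 0 → ∀ α, c α = 0
  span : ∀ a : L, ∃ c : (Fin n → Fin p) → L, a = ∑ α, c α ^ p * mon p x α

/-- the coefficients of the elements of `A` with respect to the p-basis `x` lie in `A` -/
structure PBA (p : ℕ) (A : Subring L) (x : Fin n → L) : Prop where
  mem : ∀ i, x i ∈ A
  span : ∀ a ∈ A, ∃ c : (Fin n → Fin p) → L, (∀ α, c α ∈ A) ∧ a = ∑ α, c α ^ p * mon p x α

/-- a Frobenius derivation -/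
structure FDer (p : ℕ) {E : Type*} [AddCommGroup E] [Module L E] (H : L → E) : Prop where
  add : ∀ a b, H (a + b) = H a + H b
  mul : ∀ a b, H (a * b) = a ^ p • H b + b ^ p • H a

variable [Fact p.Prime] [CharP L p]

/-! ### Monomials and coefficients -/

omit [Fact p.Prime] [CharP L p] in
private theorem prod_kill {M : L → Prop} {x : Fin n → L} (h1 : M 1) (hm : ∀ a b, M a → M b → M (a * b))
    (hx : ∀ i, M (x i)) (m : Fin n → ℕ) : M (∏ i, x i ^ m i) := by
  refine Finset.prod_induction _ M hm h1 (fun i _ => ?_)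
  generalize m i = k
  induction k with
  | zero => rw [pow_zero]; exact h1
  | succ k ih => rw [pow_succ]; exact hm _ _ ih (hx i)

omit [Fact p.Prime] [CharP L p] in
/-- to prove a property of the elements of `L` -/
theorem IsPB.ind {x : Fin n → L} (hx : IsPB p x) {P : L → Prop} (h0 : P 0)
    (hadd : ∀ a b, P a → P b → P (a + b)) (hm : ∀ c α, P (c ^ p * mon p x α)) (a : L) : P a := by
  obtain ⟨c, rfl⟩ := hx.span a
  exact Finset.sum_induction _ P hadd h0 (fun α _ => hm (c α) α)

/-- the coefficients -/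
private noncomputable def cf {x : Fin n → L} (hx : IsPB p x) (a : L) : (Fin n → Fin p) → L :=
  (hx.span a).choose

omit [Fact p.Prime] [CharP L p] in
private theorem cf_spec {x : Fin n → L} (hx : IsPB p x) (a : L) :
    ∑ α, cf hx a α ^ p * mon p x α = a := (hx.span a).choose_spec.symm

private theorem cf_eq {x : Fin n → L} (hx : IsPB p x) (c : (Fin n → Fin p) → L) :
    cf hx (∑ α, c α ^ p * mon p x α) = c := by
  funext α
  have h := hx.indep (fun α => cf hx (∑ α, c α ^ p * mon p x α) α - c α) ?_ α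
  · exact sub_eq_zero.1 h
  · simp only [sub_pow_char, sub_mul]
    rw [Finset.sum_sub_distrib, cf_spec, sub_self]

/-- the operator with the values `φ` on the monomials -/
private noncomputable def TT {x : Fin n → L} (hx : IsPB p x) (φ : (Fin n → Fin p) → L) (a : L) : L :=
  ∑ α, cf hx a α ^ p * φ α

private theorem TT_sum {x : Fin n → L} (hx : IsPB p x) (φ c : (Fin n → Fin p) → L) :
    TT hx φ (∑ α, c α ^ p * mon p x α) = ∑ α, c α ^ p * φ α := by
  rw [TT, cf_eq]

private theorem TT_add {x : Fin n → L} (hx : IsPB p x) (φ : (Fin n → Fin p) → L) (a b : L) :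
    TT hx φ (a + b) = TT hx φ a + TT hx φ b := by
  obtain ⟨c, rfl⟩ := hx.span a
  obtain ⟨d, rfl⟩ := hx.span b
  have h1 : ∑ α, c α ^ p * mon p x α + ∑ α, d α ^ p * mon p x α =
      ∑ α, (c α + d α) ^ p * mon p x α := by
    rw [← Finset.sum_add_distrib]
    refine Finset.sum_congr rfl (fun α _ => ?_)
    rw [add_pow_char, add_mul]
  rw [h1, TT_sum hx φ fun α => c α + d α, TT_sum, TT_sum, ← Finset.sum_add_distrib]
  refine Finset.sum_congr rfl (fun α _ => ?_)
  rw [add_pow_char, add_mul]

private theorem TT_mul {x : Fin n → L} (hx : IsPB p x) (φ : (Fin n → Fin p) → L) (a b : L) :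
    TT hx φ (a ^ p * b) = a ^ p * TT hx φ b := by
  obtain ⟨c, rfl⟩ := hx.span b
  have h1 : a ^ p * ∑ α, c α ^ p * mon p x α = ∑ α, (a * c α) ^ p * mon p x α := by
    rw [Finset.mul_sum]
    refine Finset.sum_congr rfl (fun α _ => ?_)
    rw [mul_pow, mul_assoc]
  rw [h1, TT_sum hx φ fun α => a * c α, TT_sum, Finset.mul_sum]
  refine Finset.sum_congr rfl (fun α _ => ?_)
  rw [mul_pow, mul_assoc]

private theorem TT_mon {x : Fin n → L} (hx : IsPB p x) (φ : (Fin n → Fin p) → L) (α : Fin n → Fin p) :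
    TT hx φ (mon p x α) = φ α := by
  classical
  have hp : p ≠ 0 := (Fact.out : p.Prime).ne_zero
  have h1 : mon p x α = ∑ β, (Pi.single α (1 : L) : (Fin n → Fin p) → L) β ^ p * mon p x β := by
    rw [Finset.sum_eq_single α]
    · rw [Pi.single_eq_same, one_pow, one_mul]
    · intro β _ hβ
      rw [Pi.single_eq_of_ne hβ, zero_pow hp, zero_mul]
    · intro h
      exact absurd (Finset.mem_univ _) h
  conv_lhs => rw [h1]
  rw [TT_sum, Finset.sum_eq_single α]
  · rw [Pi.single_eq_same, one_pow, one_mul]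
  · intro β _ hβ
    rw [Pi.single_eq_of_ne hβ, zero_pow hp, zero_mul]
  · intro h
    exact absurd (Finset.mem_univ _) h

theorem IsPB.ne_zero {x : Fin n → L} (hx : IsPB p x) (k : Fin n) : x k ≠ 0 := by
  classical
  intro h0
  have hp : 1 < p := (Fact.out : p.Prime).one_lt
  set α : Fin n → Fin p := fun i => if i = k then ⟨1, hp⟩ else ⟨0, by omega⟩ with hα
  have h1 : mon p x α = 0 := by
    rw [mon]
    refine Finset.prod_eq_zero (Finset.mem_univ k) ?_
    rw [h0, hα]
    simp
  have h2 := TT_mon hx (fun _ => (1 : L)) α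
  have h3 := TT_mul hx (fun _ => (1 : L)) 0 (mon p x α)
  rw [zero_pow (by omega), zero_mul, zero_mul] at h3
  rw [h1, h3] at h2
  exact zero_ne_one h2

private theorem mon_div {x : Fin n → L} (m : Fin n → ℕ) :
    ∏ i, x i ^ m i = (∏ i, x i ^ (m i / p)) ^ p *
      mon p x (fun i => ⟨m i % p, Nat.mod_lt _ (Fact.out : p.Prime).pos⟩) := by
  rw [mon, ← Finset.prod_pow, ← Finset.prod_mul_distrib]
  refine Finset.prod_congr rfl (fun i _ => ?_)
  rw [← pow_mul, ← pow_add]
  congr 1
  exact (Nat.div_add_mod' (m i) p).symm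

/-- the values of the derivation `∂ / ∂ x_k` on the monomials -/
private noncomputable def phi (x : Fin n → L) (k : Fin n) (α : Fin n → Fin p) : L :=
  ((α k : ℕ) : L) * mon p x α * (x k)⁻¹

private theorem TT_prod {x : Fin n → L} (hx : IsPB p x) (k : Fin n) (m : Fin n → ℕ) :
    TT hx (phi x k) (∏ i, x i ^ m i) = (m k : L) * (∏ i, x i ^ m i) * (x k)⁻¹ := by
  have h1 : (((m k % p : ℕ)) : L) = (m k : L) := (CharP.cast_eq_mod L p (m k)).symm
  rw [mon_div (p := p) m, TT_mul, TT_mon, phi, h1]
  ring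

private theorem TT_leib {x : Fin n → L} (hx : IsPB p x) (k : Fin n) (a b : L) :
    TT hx (phi x k) (a * b) = a • TT hx (phi x k) b + b • TT hx (phi x k) a := by
  have h0 : TT hx (phi x k) 0 = 0 := by
    have := TT_mul hx (phi x k) 0 0
    rwa [zero_pow (Fact.out : p.Prime).ne_zero, zero_mul, zero_mul] at this
  refine hx.ind (P := fun a => TT hx (phi x k) (a * b) =
    a • TT hx (phi x k) b + b • TT hx (phi x k) a) ?_ ?_ ?_ a
  · rw [zero_mul, h0, zero_smul, smul_zero, add_zero]
  · intro a a' h h'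
    rw [add_mul, TT_add, TT_add, h, h', add_smul, smul_add]
    abel
  · intro c α
    refine hx.ind (P := fun b => TT hx (phi x k) (c ^ p * mon p x α * b) =
      (c ^ p * mon p x α) • TT hx (phi x k) b + b • TT hx (phi x k) (c ^ p * mon p x α))
      ?_ ?_ ?_ b
    · rw [mul_zero, h0, zero_smul, smul_zero, add_zero]
    · intro a a' h h'
      rw [mul_add, TT_add, TT_add, h, h', add_smul, smul_add]
      abel
    · intro d β
      have e1 : mon p x α * mon p x β = ∏ i, x i ^ ((α i : ℕ) + (β i : ℕ)) := by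
        rw [mon, mon, ← Finset.prod_mul_distrib]
        exact Finset.prod_congr rfl (fun i _ => (pow_add _ _ _).symm)
      have e2 : c ^ p * mon p x α * (d ^ p * mon p x β) =
          (c * d) ^ p * ∏ i, x i ^ ((α i : ℕ) + (β i : ℕ)) := by
        rw [← e1, mul_pow]
        ring
      rw [e2, TT_mul, TT_prod hx k fun i => (α i : ℕ) + (β i : ℕ), TT_mul, TT_mul, TT_mon, TT_mon,
        ← e1, phi, phi, mul_pow]
      push_cast
      simp only [smul_eq_mul]
      ring

/-- the derivation `∂ / ∂ x_k` -/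
private noncomputable def Dk {x : Fin n → L} (hx : IsPB p x) (k : Fin n) : Derivation ℤ L L :=
  Derivation.mk' (AddMonoidHom.toIntLinearMap (AddMonoidHom.mk' (TT hx (phi x k))
    (TT_add hx (phi x k)))) (TT_leib hx k)

private theorem Dk_apply {x : Fin n → L} (hx : IsPB p x) (k : Fin n) (a : L) :
    Dk hx k a = TT hx (phi x k) a := rfl

/-- the trace -/
private noncomputable def TrA {x : Fin n → L} (hx : IsPB p x) : L →+ L :=
  AddMonoidHom.mk' (fun a => cf hx a (fun _ => ⟨p - 1, by
        have := (Fact.out : p.Prime).pos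
        omega⟩)) (by
    intro a b
    obtain ⟨c, rfl⟩ := hx.span a
    obtain ⟨d, rfl⟩ := hx.span b
    have h1 : ∑ α, c α ^ p * mon p x α + ∑ α, d α ^ p * mon p x α =
        ∑ α, (c α + d α) ^ p * mon p x α := by
      rw [← Finset.sum_add_distrib]
      refine Finset.sum_congr rfl (fun α _ => ?_)
      rw [add_pow_char, add_mul]
    rw [h1, cf_eq hx fun α => c α + d α, cf_eq, cf_eq])

private theorem TrA_sum {x : Fin n → L} (hx : IsPB p x) (c : (Fin n → Fin p) → L) :
    TrA hx (∑ α, c α ^ p * mon p x α) = c (fun _ => ⟨p - 1, by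
        have := (Fact.out : p.Prime).pos
        omega⟩) := by
  change cf hx (∑ α, c α ^ p * mon p x α) _ = _
  rw [cf_eq]

private theorem TrA_mul {x : Fin n → L} (hx : IsPB p x) (a b : L) :
    TrA hx (a ^ p * b) = a * TrA hx b := by
  obtain ⟨c, rfl⟩ := hx.span b
  have h1 : a ^ p * ∑ α, c α ^ p * mon p x α = ∑ α, (a * c α) ^ p * mon p x α := by
    rw [Finset.mul_sum]
    refine Finset.sum_congr rfl (fun α _ => ?_)
    rw [mul_pow, mul_assoc]
  rw [h1, TrA_sum hx fun α => a * c α, TrA_sum]

private theorem TrA_mon {x : Fin n → L} (hx : IsPB p x) (α : Fin n → Fin p) :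
    TrA hx (mon p x α) = if α = (fun _ => ⟨p - 1, by
        have := (Fact.out : p.Prime).pos
        omega⟩) then 1 else 0 := by
  classical
  have hp : p ≠ 0 := (Fact.out : p.Prime).ne_zero
  have h1 : mon p x α = ∑ β, (Pi.single α (1 : L) : (Fin n → Fin p) → L) β ^ p * mon p x β := by
    rw [Finset.sum_eq_single α]
    · rw [Pi.single_eq_same, one_pow, one_mul]
    · intro β _ hβ
      rw [Pi.single_eq_of_ne hβ, zero_pow hp, zero_mul]
    · intro h
      exact absurd (Finset.mem_univ _) h
  conv_lhs => rw [h1]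
  rw [TrA_sum, Pi.single_apply]
  exact if_congr eq_comm rfl rfl

/-- a derivation which kills a p-basis is zero -/
private theorem der_kill {x : Fin n → L} (hx : IsPB p x) (D : Derivation ℤ L L) (h : ∀ l, D (x l) = 0)
    (a : L) : D a = 0 := by
  refine hx.ind (P := fun a => D a = 0) (map_zero D) ?_ ?_ a
  · intro a b ha hb
    rw [map_add, ha, hb, add_zero]
  · intro c α
    have h1 : D (mon p x α) = 0 := by
      refine prod_kill (M := fun a => D a = 0) D.map_one_eq_zero ?_ h (fun i => (α i : ℕ))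
      intro a b ha hb
      rw [D.leibniz, ha, hb, smul_zero, smul_zero, add_zero]
    rw [D.leibniz, h1, deriv_pow, smul_zero, smul_zero, add_zero]

/-- a derivation in terms of the `∂ / ∂ x_k` -/
private theorem der_eq_aux {x : Fin n → L} (hx : IsPB p x) {D : Fin n → Derivation ℤ L L}
    (hD : ∀ k l, D k (x l) = if k = l then 1 else 0) (D' : Derivation ℤ L L) (a : L) :
    D' a = ∑ k, D k a * D' (x k) := by
  classical
  have h1 : ∀ b, (D' - ∑ k, D' (x k) • D k : Derivation ℤ L L) b =
      D' b - ∑ k, D k b * D' (x k) := by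
    intro b
    have hs : ∀ (s : Finset (Fin n)) (f : Fin n → Derivation ℤ L L),
        (∑ k ∈ s, f k) b = ∑ k ∈ s, f k b := by
      intro s f
      induction s using Finset.induction_on with
      | empty => rw [Finset.sum_empty, Finset.sum_empty, Derivation.zero_apply]
      | insert i s hi ih => rw [Finset.sum_insert hi, Finset.sum_insert hi, Derivation.add_apply, ih]
    rw [Derivation.sub_apply, hs]
    congr 1
    refine Finset.sum_congr rfl (fun k _ => ?_)
    rw [Derivation.smul_apply, smul_eq_mul, mul_comm]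
  have h2 := der_kill hx (D' - ∑ k, D' (x k) • D k) (fun l => ?_) a
  · rw [h1] at h2
    exact sub_eq_zero.1 h2
  · rw [h1, Finset.sum_eq_single l]
    · rw [hD, if_pos rfl, one_mul, sub_self]
    · intro k _ hk
      rw [hD, if_neg hk, zero_mul]
    · intro h
      exact absurd (Finset.mem_univ _) h

private theorem Dk_x {x : Fin n → L} (hx : IsPB p x) (k l : Fin n) :
    Dk hx k (x l) = if k = l then 1 else 0 := by
  classical
  have h1 : x l = ∏ i, x i ^ (if i = l then 1 else 0) := by
    rw [Finset.prod_eq_single l]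
    · rw [if_pos rfl, pow_one]
    · intro i _ hi
      rw [if_neg hi, pow_zero]
    · intro h
      exact absurd (Finset.mem_univ _) h
  rw [Dk_apply]
  conv_lhs => rw [h1]
  rw [TT_prod hx k fun i => if i = l then 1 else 0, ← h1]
  split_ifs with h
  · subst h
    rw [Nat.cast_one, one_mul]
    exact mul_inv_cancel₀ (hx.ne_zero k)
  · rw [Nat.cast_zero, zero_mul, zero_mul]

private theorem Dk_comm {x : Fin n → L} (hx : IsPB p x) (i j : Fin n) (a : L) :
    Dk hx i (Dk hx j a) = Dk hx j (Dk hx i a) := by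
  have h0 := der_kill hx ⁅Dk hx i, Dk hx j⁆ (fun l => ?_) a
  · rw [Derivation.commutator_apply] at h0
    exact sub_eq_zero.1 h0
  · rw [Derivation.commutator_apply, Dk_x, Dk_x]
    have h1 : ∀ (D : Derivation ℤ L L) (P : Prop) [Decidable P],
        D (if P then (1 : L) else 0) = 0 := by
      intro D P _
      split_ifs
      · exact D.map_one_eq_zero
      · exact map_zero D
    rw [h1, h1, sub_zero]

/-- the derivations and the trace of a p-basis -/
theorem exists_ref {x : Fin n → L} (hx : IsPB p x) :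
    ∃ (D : Fin n → Derivation ℤ L L) (Tr : L →+ L), Ref p D x Tr ∧
      ∀ c : (Fin n → Fin p) → L, Tr (∑ α, c α ^ p * mon p x α) = c (fun _ => ⟨p - 1, by
        have := (Fact.out : p.Prime).pos
        omega⟩) := by
  have hp1 := (Fact.out : p.Prime).one_lt
  refine ⟨Dk hx, TrA hx, ⟨Dk_comm hx, Dk_x hx, TrA_mul hx, ?_, ?_⟩, TrA_sum hx⟩
  · intro k a
    refine hx.ind (P := fun a => TrA hx (Dk hx k a) = 0) ?_ ?_ ?_ a
    · rw [map_zero, map_zero]
    · intro a b ha hb
      rw [map_add, map_add, ha, hb, add_zero]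
    · intro c α
      rw [Dk_apply, TT_mul, TT_mon, TrA_mul, phi]
      rcases Nat.eq_zero_or_pos (α k : ℕ) with h0 | h0
      · rw [h0, Nat.cast_zero, zero_mul, zero_mul, map_zero, mul_zero]
      · have h1 : mon p x α * (x k)⁻¹ =
            mon p x (fun i => if i = k then ⟨(α k : ℕ) - 1, by omega⟩ else α i) := by
          rw [mul_inv_eq_iff_eq_mul₀ (hx.ne_zero k), mon, mon,
            ← Finset.mul_prod_erase _ _ (Finset.mem_univ k),
            ← Finset.mul_prod_erase _ _ (Finset.mem_univ k)]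
          simp only [if_true]
          have h2 : ∏ i ∈ Finset.univ.erase k, x i ^ (α i : ℕ) =
              ∏ i ∈ Finset.univ.erase k,
                x i ^ (((if i = k then ⟨(α k : ℕ) - 1, by omega⟩ else α i : Fin p)) : ℕ) := by
            refine Finset.prod_congr rfl (fun i hi => ?_)
            rw [if_neg (Finset.ne_of_mem_erase hi)]
          rw [h2]
          have h3 : x k ^ (α k : ℕ) = x k ^ ((α k : ℕ) - 1) * x k := by
            rw [← pow_succ]
            congr 1
            omega
          rw [h3]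
          ring
        rw [mul_assoc, h1, ← nsmul_eq_mul, map_nsmul, TrA_mon, if_neg, nsmul_zero, mul_zero]
        intro h
        have h2 := congrArg Fin.val (congrFun h k)
        simp only [if_true] at h2
        have h3 := (α k).2
        omega
  · have h1 : ∏ k, x k ^ (p - 1) = mon p x (fun _ => ⟨p - 1, by omega⟩) := rfl
    rw [h1, TrA_mon, if_pos rfl]

/-- all derivations of `L` -/
theorem der_eq {x : Fin n → L} (hx : IsPB p x) {D : Fin n → Derivation ℤ L L} {Tr : L →+ L}
    (h : Ref p D x Tr) (D' : Derivation ℤ L L) (a : L) : D' a = ∑ k, D k a * D' (x k) :=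
  der_eq_aux hx h.Dt D' a

private theorem fder_one {E : Type*} [AddCommGroup E] [Module L E] {H : L → E} (hH : FDer p H) :
    H 1 = 0 := by
  have h := hH.mul 1 1
  rw [one_mul, one_pow, one_smul] at h
  exact left_eq_add.1 h

private theorem fder_zero {E : Type*} [AddCommGroup E] [Module L E] {H : L → E} (hH : FDer p H) :
    H 0 = 0 := by
  have h := hH.add 0 0
  rw [add_zero] at h
  exact left_eq_add.1 h

private theorem fder_pow {E : Type*} [AddCommGroup E] [Module L E] {H : L → E} (hH : FDer p H) (a : L)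
    (m : ℕ) : H (a ^ (m + 1)) = (((m + 1 : ℕ) : L) * (a ^ p) ^ m) • H a := by
  induction m with
  | zero => simp
  | succ m ih =>
    rw [pow_succ, hH.mul, ih, smul_smul, ← add_smul]
    congr 1
    push_cast
    ring

private theorem fder_kill {x : Fin n → L} (hx : IsPB p x) {E : Type*} [AddCommGroup E] [Module L E]
    {H : L → E} (hH : FDer p H) (h : ∀ l, H (x l) = 0) (a : L) : H a = 0 := by
  refine hx.ind (P := fun a => H a = 0) (fder_zero hH) ?_ ?_ a
  · intro a b ha hb
    rw [hH.add, ha, hb, add_zero]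
  · intro c α
    have h1 : H (mon p x α) = 0 := by
      refine prod_kill (M := fun a => H a = 0) (fder_one hH) ?_ h (fun i => (α i : ℕ))
      intro a b ha hb
      rw [hH.mul, ha, hb, smul_zero, smul_zero, add_zero]
    have h2 : H (c ^ p) = 0 := by
      obtain ⟨m, hm⟩ : ∃ m, p = m + 1 := ⟨p - 1, by have := (Fact.out : p.Prime).pos; omega⟩
      have h3 := fder_pow hH c m
      rw [← hm, CharP.cast_eq_zero, zero_mul, zero_smul] at h3
      exact h3
    rw [hH.mul, h1, h2, smul_zero, smul_zero, add_zero]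

/-- a Frobenius derivation is determined by its values on a p-basis -/
theorem fder_eq {x : Fin n → L} (hx : IsPB p x) {D : Fin n → Derivation ℤ L L} {Tr : L →+ L}
    (h : Ref p D x Tr) {E : Type*} [AddCommGroup E] [Module L E] {H : L → E} (hH : FDer p H) (a : L) :
    H a = ∑ k, (D k a) ^ p • H (x k) := by
  have hp : p ≠ 0 := (Fact.out : p.Prime).ne_zero
  have hF : FDer p (fun a => H a - ∑ k, (D k a) ^ p • H (x k)) := by
    constructor
    · intro a b
      have h1 : ∑ k, (D k (a + b)) ^ p • H (x k) =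
          ∑ k, (D k a) ^ p • H (x k) + ∑ k, (D k b) ^ p • H (x k) := by
        rw [← Finset.sum_add_distrib]
        refine Finset.sum_congr rfl (fun k _ => ?_)
        rw [map_add, add_pow_char, add_smul]
      rw [h1, hH.add]
      abel
    · intro a b
      have h1 : ∑ k, (D k (a * b)) ^ p • H (x k) =
          a ^ p • ∑ k, (D k b) ^ p • H (x k) + b ^ p • ∑ k, (D k a) ^ p • H (x k) := by
        rw [Finset.smul_sum, Finset.smul_sum, ← Finset.sum_add_distrib]
        refine Finset.sum_congr rfl (fun k _ => ?_)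
        rw [(D k).leibniz, smul_eq_mul, smul_eq_mul, add_pow_char, mul_pow, mul_pow, add_smul,
          smul_smul, smul_smul]
      rw [h1, hH.mul, smul_sub, smul_sub]
      abel
  refine sub_eq_zero.1 (fder_kill hx hF (fun l => ?_) a)
  rw [Finset.sum_eq_single l]
  · rw [h.Dt, if_pos rfl, one_pow, one_smul, sub_self]
  · intro k _ hk
    rw [h.Dt, if_neg hk, zero_pow hp, zero_smul]
  · intro h
    exact absurd (Finset.mem_univ _) h

/-- the p-basis of a ring of fractions -/
theorem PBA.frac {A A' : Subring L} {x : Fin n → L} (h : PBA p A x) (hA : A ≤ A')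
    (hfr : ∀ a ∈ A', ∃ v : L, v ∈ A ∧ v ≠ 0 ∧ v⁻¹ ∈ A' ∧ a * v ∈ A) : PBA p A' x := by
  refine ⟨fun i => hA (h.mem i), fun a ha => ?_⟩
  obtain ⟨v, hv, hv0, hvi, hav⟩ := hfr a ha
  have hp := (Fact.out : p.Prime).pos
  have h1 : a * v ^ p ∈ A := by
    obtain ⟨m, hm⟩ : ∃ m, p = m + 1 := ⟨p - 1, by omega⟩
    rw [hm, pow_succ', ← mul_assoc]
    exact A.mul_mem hav (A.pow_mem hv m)
  obtain ⟨c, hc, he⟩ := h.span _ h1
  refine ⟨fun α => c α * v⁻¹, fun α => A'.mul_mem (hA (hc α)) hvi, ?_⟩
  have h2 : a = (a * v ^ p) * (v⁻¹) ^ p := by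
    rw [mul_assoc, ← mul_pow, mul_inv_cancel₀ hv0, one_pow, mul_one]
  rw [h2, he, Finset.sum_mul]
  refine Finset.sum_congr rfl (fun α _ => ?_)
  rw [mul_pow]
  ring

/-- the derivations preserve `A` -/
theorem PBA.der {A : Subring L} {x : Fin n → L} (h : PBA p A x) (hx : IsPB p x)
    {D : Fin n → Derivation ℤ L L} {Tr : L →+ L} (hr : Ref p D x Tr) {a : L} (ha : a ∈ A) (k : Fin n) :
    D k a ∈ A := by
  obtain ⟨c, hc, rfl⟩ := h.span a ha
  rw [map_sum]
  refine A.sum_mem (fun α _ => ?_)
  have h1 : mon p x α ∈ A ∧ D k (mon p x α) ∈ A := by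
    refine prod_kill (M := fun a => a ∈ A ∧ D k a ∈ A)
      ⟨A.one_mem, by rw [(D k).map_one_eq_zero]; exact A.zero_mem⟩ ?_ ?_ (fun i => (α i : ℕ))
    · rintro a b ⟨ha, ha'⟩ ⟨hb, hb'⟩
      refine ⟨A.mul_mem ha hb, ?_⟩
      rw [(D k).leibniz, smul_eq_mul, smul_eq_mul]
      exact A.add_mem (A.mul_mem ha hb') (A.mul_mem hb ha')
    · intro i
      refine ⟨h.mem i, ?_⟩
      rw [hr.Dt]
      split_ifs
      · exact A.one_mem
      · exact A.zero_mem
  rw [(D k).leibniz, deriv_pow, smul_zero, add_zero, smul_eq_mul]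
  exact A.mul_mem (A.pow_mem (hc α) p) h1.2

/-- the Euler operator on monomials -/
theorem Ref.euler {x : Fin n → L} {D : Fin n → Derivation ℤ L L} {Tr : L →+ L}
    (hr : Ref p D x Tr) (k : Fin n) (m : Fin n → ℕ) (s : Finset (Fin n)) :
    x k * D k (∏ i ∈ s, x i ^ m i) =
      (if k ∈ s then (m k : L) else 0) * ∏ i ∈ s, x i ^ m i := by
  classical
  induction s using Finset.induction_on with
  | empty => simp
  | insert i s hi ih =>
    rw [Finset.prod_insert hi, (D k).leibniz, smul_eq_mul, smul_eq_mul, (D k).leibniz_pow, hr.Dt]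
    by_cases hk : k = i
    · subst hk
      rw [if_neg hi, zero_mul] at ih
      rw [if_pos rfl, if_pos (Finset.mem_insert_self _ _)]
      have h1 : x k * (x k ^ m k * D k (∏ i ∈ s, x i ^ m i) +
          (∏ i ∈ s, x i ^ m i) * (m k • x k ^ (m k - 1) • (1 : L))) =
          x k ^ m k * (x k * D k (∏ i ∈ s, x i ^ m i)) +
            (m k : L) * (x k * x k ^ (m k - 1)) * ∏ i ∈ s, x i ^ m i := by
        rw [nsmul_eq_mul, smul_eq_mul]
        ring
      rw [h1, ih, mul_zero, zero_add]
      rcases Nat.eq_zero_or_pos (m k) with h0 | h0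
      · rw [h0, Nat.cast_zero]
        ring
      · rw [← pow_succ', Nat.sub_add_cancel h0]
        ring
    · rw [if_neg hk, smul_zero, smul_zero, mul_zero, add_zero]
      have h2 : (k ∈ insert i s) ↔ k ∈ s := by
        rw [Finset.mem_insert]
        exact ⟨fun h => h.resolve_left hk, Or.inr⟩
      rw [if_congr h2 rfl rfl]
      calc x k * (x i ^ m i * D k (∏ i ∈ s, x i ^ m i)) =
          x i ^ m i * (x k * D k (∏ i ∈ s, x i ^ m i)) := by ring
        _ = _ := by rw [ih]; ring

/-- the trace of a monomial -/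
theorem Ref.tr_mon {x : Fin n → L} {D : Fin n → Derivation ℤ L L} {Tr : L →+ L}
    (hr : Ref p D x Tr) {α : Fin n → Fin p} {k : Fin n} (hk : (α k : ℕ) + 1 < p) :
    Tr (mon p x α) = 0 := by
  have h1 : D k (mon p x α * x k) = ((α k : ℕ) + 1) • mon p x α := by
    have h2 := hr.euler k (fun i => (α i : ℕ)) Finset.univ
    rw [if_pos (Finset.mem_univ _)] at h2
    have h3 : x k * D k (mon p x α) = ((α k : ℕ) : L) * mon p x α := h2
    rw [(D k).leibniz, hr.Dt, if_pos rfl, smul_eq_mul, smul_eq_mul, h3, nsmul_eq_mul]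
    push_cast
    ring
  have h2 := hr.Tr_D k (mon p x α * x k)
  rw [h1, map_nsmul, nsmul_eq_mul] at h2
  refine (mul_eq_zero.1 h2).resolve_left ?_
  intro h3
  have h4 := (CharP.cast_eq_zero_iff L p ((α k : ℕ) + 1)).1 h3
  exact absurd (Nat.le_of_dvd (Nat.succ_pos _) h4) (by omega)

/-- the trace in terms of the coefficients -/
theorem Ref.tr_sum {x : Fin n → L} {D : Fin n → Derivation ℤ L L} {Tr : L →+ L}
    (hr : Ref p D x Tr) (c : (Fin n → Fin p) → L) :
    Tr (∑ α, c α ^ p * mon p x α) = c (fun _ => ⟨p - 1, by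
        have := (Fact.out : p.Prime).pos
        omega⟩) := by
  have hp := (Fact.out : p.Prime).pos
  rw [map_sum, Finset.sum_eq_single (fun _ => ⟨p - 1, by omega⟩ : Fin n → Fin p)]
  · rw [hr.Tr_mul]
    have h1 : mon p x (fun _ => ⟨p - 1, by omega⟩) = ∏ k, x k ^ (p - 1) := rfl
    rw [h1, hr.Tr_t, mul_one]
  · intro α _ hα
    obtain ⟨k, hk⟩ := Function.ne_iff.1 hα
    have hk' : (α k : ℕ) ≠ p - 1 := fun h => hk (Fin.ext h)
    have h2 := (α k).2
    rw [hr.Tr_mul, hr.tr_mon (k := k) (by omega), mul_zero]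
  · intro h
    exact absurd (Finset.mem_univ _) h

/-- the trace preserves `A` -/
theorem PBA.tr {A : Subring L} {x : Fin n → L} (h : PBA p A x) {D : Fin n → Derivation ℤ L L}
    {Tr : L →+ L} (hr : Ref p D x Tr) {a : L} (ha : a ∈ A) : Tr a ∈ A := by
  obtain ⟨c, hc, rfl⟩ := h.span a ha
  rw [hr.tr_sum]
  exact hc _

/-- coordinates `x` on a chart: the differentials of the elements of `A` are combinations of the
`dx_l` with coefficients in `A` -/
def DerA (D : Fin n → Derivation ℤ L L) (A : Subring L) (x : Fin n → L) : Prop :=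
  (∀ l, x l ∈ A) ∧ ∀ a ∈ A, ∃ c : Fin n → L, (∀ l, c l ∈ A) ∧ ∀ k, D k a = ∑ l, c l * D k (x l)

end Pool.Agent.Lib.MP_732f67_ag.KC
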