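import Pool.Agent.Lib.MP_732f67_ag.KC.PBasis

/-!
# Project KM, part C: Frobenius lifts modulo `p ^ 2` and p-derivations

`R2` is flat over `ℤ / p ^ 2` with `R2 / p = L`. For a lift `F` of the Frobenius, `δ : R2 → L` is
`(F r - r ^ p) / p`.
-/

set_option autoImplicit false

namespace Pool.Agent.Lib.MP_732f67_ag.KC

variable {n : ℕ} {L : Type*} [Field L] {p : ℕ} {R2 : Type*} [CommRing R2]

/-- `R2` is flat over `ℤ / p ^ 2` with residue field `L` -/
structure Lift2 (p : ℕ) (π : R2 →+* L) : Prop where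
  surj : Function.Surjective π
  ker : ∀ x, π x = 0 ↔ ∃ y, x = p * y
  flat : ∀ x, (p : R2) * x = 0 ↔ ∃ y, x = p * y

/-- `F` lifts the Frobenius -/
def IsFrob (p : ℕ) (π : R2 →+* L) (F : R2 →+* R2) : Prop := ∀ r, π (F r) = (π r) ^ p

/-- `δ r = (F r - r ^ p) / p` -/
def IsDel (p : ℕ) (π : R2 →+* L) (F : R2 →+* R2) (δ : R2 → L) : Prop :=
  ∀ r, ∃ s, F r = r ^ p + p * s ∧ δ r = π s

/-- the p-derivation takes the elements of `A2` into `π A2` -/
def DStab (δ : R2 → L) (π : R2 →+* L) (A2 : Subring R2) : Prop := ∀ r ∈ A2, δ r ∈ A2.map π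

variable [Fact p.Prime] [CharP L p] {π : R2 →+* L}

theorem exists_del (h : Lift2 p π) {F : R2 →+* R2} (hF : IsFrob p π F) : ∃ δ, IsDel p π F δ := by
  have h1 : ∀ r, ∃ y, F r = r ^ p + p * y := by
    intro r
    have h2 : π (F r - r ^ p) = 0 := by rw [map_sub, hF, map_pow, sub_self]
    obtain ⟨y, hy⟩ := (h.ker _).1 h2
    exact ⟨y, by rw [← hy]; ring⟩
  choose y hy using h1
  exact ⟨fun r => π (y r), fun r => ⟨y r, hy r, rfl⟩⟩

theorem IsDel.unique (h : Lift2 p π) {F : R2 →+* R2} {δ : R2 → L} (hδ : IsDel p π F δ) {r s : R2}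
    (hs : F r = r ^ p + p * s) : δ r = π s := by
  obtain ⟨s', h1, h2⟩ := hδ r
  have h3 : (p : R2) * (s' - s) = 0 := by
    rw [mul_sub, sub_eq_zero]
    rw [h1] at hs
    exact add_left_cancel hs
  obtain ⟨y, hy⟩ := (h.flat _).1 h3
  have h4 : π (s' - s) = 0 := (h.ker _).2 ⟨y, hy⟩
  rw [h2]
  rwa [map_sub, sub_eq_zero] at h4

theorem IsDel.mul (h : Lift2 p π) {F : R2 →+* R2} {δ : R2 → L} (hδ : IsDel p π F δ) (a b : R2) :
    δ (a * b) = (π a) ^ p * δ b + (π b) ^ p * δ a := by
  obtain ⟨s, h1, h2⟩ := hδ a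
  obtain ⟨t, h3, h4⟩ := hδ b
  rw [hδ.unique h (r := a * b) (s := a ^ p * t + b ^ p * s + p * s * t)
    (by rw [map_mul, h1, h3]; ring), h2, h4]
  simp only [map_add, map_mul, map_pow, map_natCast, CharP.cast_eq_zero, zero_mul, add_zero]

/-- elements of the integers -/
theorem IsDel.one (h : Lift2 p π) {F : R2 →+* R2} {δ : R2 → L} (hδ : IsDel p π F δ) : δ 1 = 0 := by
  rw [hδ.unique h (r := 1) (s := 0) (by rw [map_one, one_pow, mul_zero, add_zero]), map_zero]

/-- inverses -/
theorem IsDel.inv (h : Lift2 p π) {F : R2 →+* R2} {δ : R2 → L} (hδ : IsDel p π F δ) {a b : R2}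
    (hab : a * b = 1) : δ a = -(π a) ^ (2 * p) * δ b := by
  have h1 := hδ.mul h a b
  rw [hab, hδ.one h] at h1
  have h2 : (π a) ^ p * (π b) ^ p = 1 := by rw [← mul_pow, ← map_mul, hab, map_one, one_pow]
  calc δ a = ((π a) ^ p * (π b) ^ p) * δ a := by rw [h2, one_mul]
    _ = (π a) ^ p * ((π a) ^ p * δ b + (π b) ^ p * δ a) - (π a) ^ (2 * p) * δ b := by ring
    _ = -(π a) ^ (2 * p) * δ b := by rw [← h1]; ring

/-- the polynomial `((a + b) ^ p - a ^ p - b ^ p) / p` -/
def sgm (p : ℕ) {R : Type*} [CommRing R] (a b : R) : R :=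
  ∑ k ∈ Finset.Ioo 0 p, a ^ k * b ^ (p - k) * ((p.choose k / p : ℕ) : R)

omit [Fact p.Prime] [CharP L p] in
theorem map_sgm (π : R2 →+* L) (a b : R2) : π (sgm p a b) = sgm p (π a) (π b) := by
  simp only [sgm, map_sum, map_mul, map_pow, map_natCast]

theorem IsDel.add (h : Lift2 p π) {F : R2 →+* R2} {δ : R2 → L} (hδ : IsDel p π F δ) (a b : R2) :
    δ (a + b) = δ a + δ b - sgm p (π a) (π b) := by
  obtain ⟨s, h1, h2⟩ := hδ a
  obtain ⟨t, h3, h4⟩ := hδ b
  have hp : p.Prime := Fact.out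
  have h5 : (a + b) ^ p = a ^ p + b ^ p + p * sgm p a b := add_pow_prime_eq' hp a b
  rw [hδ.unique h (r := a + b) (s := s + t - sgm p a b)
    (by rw [map_add, h1, h3, h5]; ring), h2, h4, map_sub, map_add, map_sgm]

theorem IsDel.neg (h : Lift2 p π) {F : R2 →+* R2} {δ : R2 → L} (hδ : IsDel p π F δ) (a : R2) :
    ∃ e : ℤ, δ (-a) = -δ a + e * (π a) ^ p := by
  obtain ⟨s, h1, h2⟩ := hδ a
  have hp : p.Prime := Fact.out
  rcases hp.eq_two_or_odd' with h3 | h3
  · refine ⟨-1, ?_⟩
    rw [hδ.unique h (r := -a) (s := -s - a ^ p) (by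
      rw [map_neg, h1]
      subst h3
      push_cast
      ring), h2]
    simp only [map_sub, map_neg, map_pow]
    push_cast
    ring
  · refine ⟨0, ?_⟩
    rw [hδ.unique h (r := -a) (s := -s) (by
      rw [map_neg, h1, h3.neg_pow]; ring), h2]
    simp

/-- the values on multiples of `p` -/
theorem IsDel.pmul (h : Lift2 p π) {F : R2 →+* R2} {δ : R2 → L} (hδ : IsDel p π F δ) (y : R2) :
    δ (p * y) = (π y) ^ p := by
  have hp : p.Prime := Fact.out
  have h1 : δ (p : R2) = 1 := by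
    have h2 : p = (p - 1) + 1 := (Nat.sub_add_cancel hp.one_le).symm
    rw [hδ.unique h (r := (p : R2)) (s := 1 - (p : R2) ^ (p - 1)) (by
      rw [map_natCast]
      have h3 : (p : R2) ^ p = p * (p : R2) ^ (p - 1) := by
        conv_lhs => rw [h2, pow_succ]
        rw [← h2]
        ring
      rw [h3]; ring)]
    have h4 : p - 1 ≠ 0 := by have := hp.two_le; omega
    simp only [map_sub, map_one, map_pow, map_natCast, CharP.cast_eq_zero, zero_pow h4, sub_zero]
  rw [hδ.mul h, h1, map_natCast, CharP.cast_eq_zero, zero_pow hp.ne_zero, zero_mul, zero_add,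
    mul_one]

/-- a function on `R2` which behaves as a Frobenius derivation of `L` -/
theorem fder_lift (h : Lift2 p π) {t : Fin n → L} (ht : IsPB p t) {D : Fin n → Derivation ℤ L L}
    {Tr : L →+ L} (hr : Ref p D t Tr) {tt : Fin n → R2} (htt : ∀ k, π (tt k) = t k) {G : R2 → L}
    (hadd : ∀ a b, G (a + b) = G a + G b)
    (hmul : ∀ a b, G (a * b) = (π a) ^ p * G b + (π b) ^ p * G a)
    (h0 : ∀ y, G (p * y) = 0) (r : R2) : G r = ∑ k, (D k (π r)) ^ p * G (tt k) := by
  choose σ hσ using h.surj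
  have hwd : ∀ a b, π a = π b → G a = G b := by
    intro a b hab
    have h1 : π (a - b) = 0 := by rw [map_sub, hab, sub_self]
    obtain ⟨y, hy⟩ := (h.ker _).1 h1
    have h2 : a = b + p * y := by rw [← hy]; ring
    rw [h2, hadd, h0, add_zero]
  have hH : FDer p (fun a : L => G (σ a)) := by
    refine ⟨fun a b => ?_, fun a b => ?_⟩
    · show G (σ (a + b)) = G (σ a) + G (σ b)
      rw [← hadd]
      exact hwd _ _ (by rw [hσ, map_add, hσ, hσ])
    · show G (σ (a * b)) = a ^ p • G (σ b) + b ^ p • G (σ a)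
      have h1 := hmul (σ a) (σ b)
      rw [hσ, hσ] at h1
      rw [smul_eq_mul, smul_eq_mul, ← h1]
      exact hwd _ _ (by rw [hσ, map_mul, hσ, hσ])
  have h1 := fder_eq ht hr hH (π r)
  have h2 : G (σ (π r)) = G r := hwd _ _ (hσ _)
  rw [← h2]
  refine h1.trans (Finset.sum_congr rfl (fun k _ => ?_))
  rw [smul_eq_mul]
  congr 1
  exact hwd _ _ (by rw [hσ, htt])

omit [Fact p.Prime] [CharP L p] in
theorem choose_div_mul (hp : p.Prime) {k : ℕ} (hk : k ∈ Finset.Ioo 0 p) :
    (p.choose k / p) * k = (p - 1).choose (k - 1) := by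
  rw [Finset.mem_Ioo] at hk
  have h1 : p ∣ p.choose k := hp.dvd_choose_self hk.1.ne' hk.2
  have h2 : (p - 1 + 1) * (p - 1).choose (k - 1) = (p - 1 + 1).choose (k - 1 + 1) * (k - 1 + 1) :=
    Nat.add_one_mul_choose_eq (p - 1) (k - 1)
  rw [Nat.sub_add_cancel hp.one_le, Nat.sub_add_cancel hk.1] at h2
  apply Nat.eq_of_mul_eq_mul_left hp.pos
  rw [h2, ← mul_assoc, Nat.mul_div_cancel' h1]

omit [Fact p.Prime] [CharP L p] in
theorem choose_div_mul' (hp : p.Prime) {k : ℕ} (hk : k ∈ Finset.Ioo 0 p) :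
    (p.choose k / p) * (p - k) = (p - 1).choose k := by
  rw [Finset.mem_Ioo] at hk
  have h1 : p ∣ p.choose k := hp.dvd_choose_self hk.1.ne' hk.2
  have h2 : (p - 1 + 1).choose k * (p - 1 + 1 - k) = (p - 1).choose k * (p - 1 + 1) :=
    (Nat.choose_mul_succ_eq (p - 1) k).symm
  rw [Nat.sub_add_cancel hp.one_le] at h2
  apply Nat.eq_of_mul_eq_mul_left hp.pos
  rw [← mul_assoc, Nat.mul_div_cancel' h1, h2, mul_comm]

theorem deriv_sgm (D : Derivation ℤ L L) (a b : L) :
    D (sgm p a b) = (a + b) ^ (p - 1) * D (a + b) - a ^ (p - 1) * D a - b ^ (p - 1) * D b := by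
  have hp : p.Prime := Fact.out
  have h1 : ∀ k ∈ Finset.Ioo 0 p, D (a ^ k * b ^ (p - k) * ((p.choose k / p : ℕ) : L)) =
      ((p - 1).choose (k - 1) : L) * (a ^ (k - 1) * b ^ (p - k)) * D a +
      ((p - 1).choose k : L) * (a ^ k * b ^ (p - k - 1)) * D b := by
    intro k hk
    rw [Derivation.leibniz, Derivation.map_natCast, smul_zero, zero_add, Derivation.leibniz,
      Derivation.leibniz_pow, Derivation.leibniz_pow, ← choose_div_mul hp hk,
      ← choose_div_mul' hp hk]
    simp only [smul_eq_mul, nsmul_eq_mul]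
    push_cast
    ring
  have h2 : p = (p - 1) + 1 := (Nat.sub_add_cancel hp.one_le).symm
  have h3 : (a + b) ^ (p - 1) = ∑ k ∈ Finset.range p,
      ((p - 1).choose k : L) * (a ^ k * b ^ (p - k - 1)) := by
    rw [add_pow, ← h2]
    refine Finset.sum_congr rfl (fun k _ => ?_)
    rw [Nat.sub_right_comm]
    ring
  have h4 : ∑ k ∈ Finset.Ioo 0 p, ((p - 1).choose k : L) * (a ^ k * b ^ (p - k - 1)) =
      (a + b) ^ (p - 1) - b ^ (p - 1) := by
    rw [h3, Finset.range_eq_Ico, ← Finset.Ioo_insert_left hp.pos,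
      Finset.sum_insert (by simp)]
    simp
  have h5 : ∑ k ∈ Finset.Ioo 0 p, ((p - 1).choose (k - 1) : L) * (a ^ (k - 1) * b ^ (p - k)) =
      (a + b) ^ (p - 1) - a ^ (p - 1) := by
    have h6 : ∑ k ∈ Finset.Ioo 0 p, ((p - 1).choose (k - 1) : L) * (a ^ (k - 1) * b ^ (p - k)) =
        ∑ k ∈ Finset.range (p - 1), ((p - 1).choose k : L) * (a ^ k * b ^ (p - k - 1)) := by
      refine Finset.sum_bij' (fun k _ => k - 1) (fun k _ => k + 1) ?_ ?_ ?_ ?_ ?_
      · intro k hk
        rw [Finset.mem_Ioo] at hk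
        rw [Finset.mem_range]
        omega
      · intro k hk
        rw [Finset.mem_range] at hk
        rw [Finset.mem_Ioo]
        omega
      · intro k hk
        rw [Finset.mem_Ioo] at hk
        omega
      · intro k hk
        omega
      · intro k hk
        rw [Finset.mem_Ioo] at hk
        have h7 : p - k = p - (k - 1) - 1 := by omega
        rw [h7]
    have h8 : ∑ k ∈ Finset.range p, ((p - 1).choose k : L) * (a ^ k * b ^ (p - k - 1)) =
        ∑ k ∈ Finset.range (p - 1 + 1), ((p - 1).choose k : L) * (a ^ k * b ^ (p - k - 1)) := by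
      rw [← h2]
    have h9 : p - (p - 1) - 1 = 0 := by omega
    rw [h6, h3, h8, Finset.sum_range_succ, h9, Nat.choose_self, pow_zero, Nat.cast_one, one_mul,
      mul_one, add_sub_cancel_right]
  rw [sgm, map_sum, Finset.sum_congr rfl h1, Finset.sum_add_distrib, ← Finset.sum_mul,
    ← Finset.sum_mul, h4, h5, map_add]
  ring

/-- the values of `δ` on a ring generated by elements with good values -/
theorem IsDel.stab (h : Lift2 p π) {F : R2 →+* R2} {δ : R2 → L} (hδ : IsDel p π F δ) {S : Set R2}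
    (hS : ∀ r ∈ S, δ r ∈ (Subring.closure S).map π) : DStab δ π (Subring.closure S) := by
  have hpp : p.Prime := Fact.out
  intro r hr
  have hmem : ∀ x ∈ Subring.closure S, π x ∈ (Subring.closure S).map π :=
    fun x hx => Subring.mem_map.2 ⟨x, hx, rfl⟩
  induction hr using Subring.closure_induction with
  | mem x hx => exact hS x hx
  | zero =>
    have h1 := hδ.pmul h 0
    rw [mul_zero, map_zero, zero_pow hpp.ne_zero] at h1
    rw [h1]
    exact Subring.zero_mem _
  | one =>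
    rw [hδ.one h]
    exact Subring.zero_mem _
  | add x y hx hy hx' hy' =>
    rw [hδ.add h]
    refine Subring.sub_mem _ (Subring.add_mem _ hx' hy') (Subring.sum_mem _ (fun k _ => ?_))
    exact Subring.mul_mem _ (Subring.mul_mem _ (Subring.pow_mem _ (hmem x hx) _)
      (Subring.pow_mem _ (hmem y hy) _)) (natCast_mem _ _)
  | neg x hx hx' =>
    obtain ⟨e, he⟩ := hδ.neg h x
    rw [he]
    exact Subring.add_mem _ (Subring.neg_mem _ hx') (Subring.mul_mem _ (intCast_mem _ _)
      (Subring.pow_mem _ (hmem x hx) _))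
  | mul x y hx hy hx' hy' =>
    rw [hδ.mul h]
    exact Subring.add_mem _ (Subring.mul_mem _ (Subring.pow_mem _ (hmem x hx) _) hy')
      (Subring.mul_mem _ (Subring.pow_mem _ (hmem y hy) _) hx')

/-- **the fundamental identity** `f_F (dx) = x ^ (p - 1) dx + d (δ x)` -/
theorem IsDel.fv_eq (h : Lift2 p π) {F : R2 →+* R2} {δ : R2 → L} (hδ : IsDel p π F δ)
    {t : Fin n → L} (ht : IsPB p t) {D : Fin n → Derivation ℤ L L} {Tr : L →+ L} (hr : Ref p D t Tr)
    {tt : Fin n → R2} (htt : ∀ k, π (tt k) = t k) (r : R2) (j : Fin n) :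
    fv p D t (fun k => δ (tt k)) (fun k => D k (π r)) j = (π r) ^ (p - 1) * D j (π r) + D j (δ r) := by
  have hpp : p.Prime := Fact.out
  have hp1 : p - 1 ≠ 0 := by have := hpp.two_le; omega
  have h2 : p = (p - 1) + 1 := (Nat.sub_add_cancel hpp.one_le).symm
  have key := fder_lift h ht hr htt (G := fun r => (π r) ^ (p - 1) * D j (π r) + D j (δ r))
    (by
      intro a b
      rw [hδ.add h, map_sub, deriv_sgm (p := p) (D j) (π a) (π b), map_add π, map_add (D j) (δ a)]
      ring)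
    (by
      intro a b
      have e1 : ∀ x : L, x ^ p = x ^ (p - 1) * x := by
        intro x
        conv_lhs => rw [h2, pow_succ]
      rw [hδ.mul h, map_add (D j), Derivation.leibniz (D j) (π a ^ p),
        Derivation.leibniz (D j) (π b ^ p), deriv_pow, deriv_pow, map_mul π,
        Derivation.leibniz (D j) (π a) (π b)]
      simp only [smul_eq_mul]
      rw [e1 (π a), e1 (π b), mul_pow]
      ring)
    (by
      intro y
      rw [hδ.pmul h, deriv_pow, map_mul, map_natCast, CharP.cast_eq_zero, zero_mul,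
        zero_pow hp1, zero_mul, add_zero]) r
  rw [fv]
  refine Eq.trans (Finset.sum_congr rfl (fun k _ => ?_)) key.symm
  show D k (π r) ^ p * ((if j = k then t k ^ (p - 1) else 0) + D j (δ (tt k))) =
    D k (π r) ^ p * (π (tt k) ^ (p - 1) * D j (π (tt k)) + D j (δ (tt k)))
  rw [htt, hr.Dt, mul_ite, mul_one, mul_zero]

/-- the difference of two Frobenius lifts -/
theorem IsDel.hv_eq (h : Lift2 p π) {F F' : R2 →+* R2} {δ δ' : R2 → L} (hδ : IsDel p π F δ)
    (hδ' : IsDel p π F' δ') {t : Fin n → L} (ht : IsPB p t) {D : Fin n → Derivation ℤ L L}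
    {Tr : L →+ L} (hr : Ref p D t Tr) {tt : Fin n → R2} (htt : ∀ k, π (tt k) = t k) (r : R2) :
    hv p (fun k => δ (tt k)) (fun k => δ' (tt k)) (fun k => D k (π r)) = δ' r - δ r := by
  have key := fder_lift h ht hr htt (G := fun r => δ' r - δ r)
    (by
      intro a b
      rw [hδ.add h, hδ'.add h]
      ring)
    (by
      intro a b
      rw [hδ.mul h, hδ'.mul h]
      ring)
    (by
      intro y
      rw [hδ.pmul h, hδ'.pmul h, sub_self]) r
  rw [hv]
  exact key.symm

end Pool.Agent.Lib.MP_732f67_ag.KC
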