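import Pool.Agent.Lib.MP_732f67_ag.KC.PBasis

/-!
# Project KM: the projection `d⁻¹ Tr` on a subfield `M` of degree `d` prime to `p`

It commutes with the Frobenius and with the Cartier operator of a p-basis in `M`, and it preserves
integrality over subrings of `M`.
-/

set_option autoImplicit false

namespace Pool.Agent.Lib.MP_732f67_ag.KC

variable {n : ℕ} {F : Type*} [Field F] (M : Subfield F) {p : ℕ}

/-- `d⁻¹ Tr` -/
noncomputable def prj (x : F) : F :=
  (((Module.finrank M F : M)⁻¹ * Algebra.trace M F x : M) : F)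

theorem prj_mem (x : F) : prj M x ∈ M := SetLike.coe_mem _

theorem prj_add (x y : F) : prj M (x + y) = prj M x + prj M y := by
  rw [prj, prj, prj, map_add, mul_add]
  rfl

theorem prj_mul {c : F} (hc : c ∈ M) (x : F) : prj M (c * x) = c * prj M x := by
  have h1 : c * x = (⟨c, hc⟩ : M) • x := rfl
  have h2 : ((Module.finrank M F : M)⁻¹ * ((⟨c, hc⟩ : M) * Algebra.trace M F x) : M) =
      (⟨c, hc⟩ : M) * ((Module.finrank M F : M)⁻¹ * Algebra.trace M F x) := by ring
  rw [prj, prj, h1, map_smul, smul_eq_mul, h2]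
  rfl

/-- PROOF. `Algebra.trace_algebraMap`. -/
theorem prj_of_mem [FiniteDimensional M F] (h : (Module.finrank M F : M) ≠ 0) {x : F} (hx : x ∈ M) :
    prj M x = x := by
  have h1 : Algebra.trace M F x = (Module.finrank M F : M) * ⟨x, hx⟩ := by
    have h2 := Algebra.trace_algebraMap (R := M) (S := F) (⟨x, hx⟩ : M)
    rw [nsmul_eq_mul] at h2
    exact h2
  rw [prj, h1, ← mul_assoc, inv_mul_cancel₀ h, one_mul]

/-- PROOF. `trace_eq_sum_embeddings` over an algebraic closure `E` of `F`, and `sum_pow_char`; the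
number `(finrank : M)⁻¹` is a `p`-th power of itself (it is in the prime field: `ZMod.pow_card`, or
`frobenius` fixes the images of natural numbers). -/
theorem prj_pow [Fact p.Prime] [CharP F p] [FiniteDimensional M F] [Algebra.IsSeparable M F] (x : F) :
    prj M (x ^ p) = prj M x ^ p := by
  have hcM : CharP M p := M.subtype.charP M.subtype_injective p
  have h1 : Algebra.trace M F (x ^ p) = Algebra.trace M F x ^ p := by
    have hcE : CharP (AlgebraicClosure F) p :=
      charP_of_injective_algebraMap (algebraMap F (AlgebraicClosure F)).injective p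
    apply (algebraMap M (AlgebraicClosure F)).injective
    have e1 := trace_eq_sum_embeddings (K := M) (L := F) (AlgebraicClosure F) (x := x ^ p)
    have e2 := trace_eq_sum_embeddings (K := M) (L := F) (AlgebraicClosure F) (x := x)
    rw [e1, map_pow (algebraMap M (AlgebraicClosure F)), e2, sum_pow_char]
    exact Finset.sum_congr rfl fun σ _ => map_pow σ x p
  have h2 : ((Module.finrank M F : M)⁻¹) ^ p = (Module.finrank M F : M)⁻¹ := by
    rw [inv_pow]
    congr 1
    exact map_natCast (frobenius M p) _
  rw [prj, prj, h1]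
  have h3 : (((Module.finrank M F : M)⁻¹ * Algebra.trace M F x : M) : F) ^ p =
      ((((Module.finrank M F : M)⁻¹ * Algebra.trace M F x) ^ p : M) : F) := rfl
  rw [h3, mul_pow, h2]

/-- PROOF. `B' := B.comap M.subtype`; `x` is integral over `B'` (all coefficients are in `M`);
`Algebra.isIntegral_trace`; the inverse of the natural number `d` is a power of `d`, `d ^ (p - 2)`, so
it is in `B`. -/
theorem prj_int [Fact p.Prime] [CharP F p] [FiniteDimensional M F]
    (h : (Module.finrank M F : M) ≠ 0) {B : Subring F}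
    (hB : ∀ b ∈ B, b ∈ M) {x : F} (hx : IsIntegral B x) : IsIntegral B (prj M x) := by
  have hcM : CharP M p := M.subtype.charP M.subtype_injective p
  let _ : Algebra B M := (B.subtype.codRestrict M.toSubring fun b => hB b b.2).toAlgebra
  have _ : IsScalarTower B M F := IsScalarTower.of_algebraMap_eq fun b => rfl
  have h1 : IsIntegral B (Algebra.trace M F x) := Algebra.isIntegral_trace hx
  have h2 : (Module.finrank M F : M) ^ p = (Module.finrank M F : M) :=
    map_natCast (frobenius M p) _
  have hp : p = p - 2 + 1 + 1 := by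
    have := (Fact.out : p.Prime).two_le
    omega
  have h3 : (Module.finrank M F : M)⁻¹ = (Module.finrank M F : M) ^ (p - 2) := by
    rw [hp, pow_succ] at h2
    have h4 : (Module.finrank M F : M) ^ (p - 2 + 1) = 1 :=
      mul_right_cancel₀ h (by rw [h2, one_mul])
    rw [pow_succ] at h4
    exact (eq_inv_of_mul_eq_one_left h4).symm
  have h5 : IsIntegral B ((Module.finrank M F : M)⁻¹ * Algebra.trace M F x) := by
    rw [h3]
    exact ((isIntegral_natCast _).pow _).mul h1
  exact h5.algebraMap

private theorem mon_mem {t : Fin n → F} (htM : ∀ k, t k ∈ M) (α : Fin n → Fin p) :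
    mon p t α ∈ M := by
  rw [mon]
  exact M.prod_mem fun i _ => M.pow_mem (htM i) _

private theorem prj_zero : prj M 0 = 0 := by
  have h := prj_mul M M.zero_mem 0
  rwa [zero_mul, zero_mul] at h

private theorem prj_sum {ι : Type*} (s : Finset ι) (f : ι → F) :
    prj M (∑ i ∈ s, f i) = ∑ i ∈ s, prj M (f i) := by
  classical
  induction s using Finset.induction_on with
  | empty => rw [Finset.sum_empty, Finset.sum_empty, prj_zero]
  | insert i s hi ih => rw [Finset.sum_insert hi, Finset.sum_insert hi, prj_add, ih]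

private theorem prj_expand [Fact p.Prime] [CharP F p] [FiniteDimensional M F]
    [Algebra.IsSeparable M F] {t : Fin n → F} (htM : ∀ k, t k ∈ M) (c : (Fin n → Fin p) → F) :
    prj M (∑ α, c α ^ p * mon p t α) = ∑ α, prj M (c α) ^ p * mon p t α := by
  rw [prj_sum]
  refine Finset.sum_congr rfl fun α _ => ?_
  rw [mul_comm, prj_mul M (mon_mem M htM α), prj_pow, mul_comm]

/-- the coefficients of the elements of `M` with respect to a p-basis in `M` are in `M`

PROOF. `x = ∑ c α ^ p * mon p t α` with `c α ∈ F`; apply `prj`: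
`x = prj x = ∑ prj (c α) ^ p * mon p t α` (`prj_mul` for `mon p t α ∈ M`, `prj_pow`). -/
theorem prj_coef [Fact p.Prime] [CharP F p] [FiniteDimensional M F] [Algebra.IsSeparable M F]
    (h : (Module.finrank M F : M) ≠ 0) {t : Fin n → F} (ht : IsPB p t) (htM : ∀ k, t k ∈ M) {x : F}
    (hx : x ∈ M) : ∃ c : (Fin n → Fin p) → F, (∀ α, c α ∈ M) ∧ x = ∑ α, c α ^ p * mon p t α := by
  obtain ⟨c, hc⟩ := ht.span x
  refine ⟨fun α => prj M (c α), fun α => prj_mem M (c α), ?_⟩
  have h1 := prj_expand M htM c
  rw [← hc, prj_of_mem M h hx] at h1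
  exact h1

/-- **the projection commutes with the Cartier operator**

PROOF. `x = ∑ c α ^ p * mon p t α`, `prj x = ∑ prj (c α) ^ p * mon p t α`, and `Ref.tr_sum` for both. -/
theorem prj_tr [Fact p.Prime] [CharP F p] [FiniteDimensional M F] [Algebra.IsSeparable M F]
    {t : Fin n → F} (ht : IsPB p t) (htM : ∀ k, t k ∈ M) {D : Fin n → Derivation ℤ F F} {Tr : F →+ F}
    (hr : Ref p D t Tr) (x : F) : Tr (prj M x) = prj M (Tr x) := by
  obtain ⟨c, rfl⟩ := ht.span x
  rw [prj_expand M htM c, hr.tr_sum, hr.tr_sum]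

/-- the Cartier operator maps `M` to `M`

PROOF. `Tr x = Tr (prj x) = prj (Tr x)`. -/
theorem tr_mem_sub [Fact p.Prime] [CharP F p] [FiniteDimensional M F] [Algebra.IsSeparable M F]
    (h : (Module.finrank M F : M) ≠ 0) {t : Fin n → F} (ht : IsPB p t) (htM : ∀ k, t k ∈ M)
    {D : Fin n → Derivation ℤ F F} {Tr : F →+ F} (hr : Ref p D t Tr) {x : F} (hx : x ∈ M) :
    Tr x ∈ M := by
  have h1 := prj_tr M ht htM hr x
  rw [prj_of_mem M h hx] at h1
  rw [h1]
  exact prj_mem M _

end Pool.Agent.Lib.MP_732f67_ag.KC
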